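import Mathlib

/-!
# Abelian groups of bounded exponent are direct sums of cyclic groups
-/

universe u v

namespace Pool.Agent.helper45.Inc

/-- `π` presents `G` as the direct sum of the cyclic groups of order `d i`. -/
structure Pres {G : Type u} [AddCommGroup G] {I : Type v} (d : I → ℕ) (π : (I →₀ ℤ) →+ G) :
    Prop where
  surj : Function.Surjective π
  ker : ∀ n, π n = 0 ↔ ∀ i, (d i : ℤ) ∣ n i

theorem zmod_ann {m : ℕ} [NeZero m] (k y : ZMod m) (h : ∀ r : ZMod m, r * k = 0 → r * y = 0) :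
    ∃ z, y = k * z := by
  have hm : 0 < m := Nat.pos_of_ne_zero (NeZero.ne m)
  set d := Nat.gcd k.val m with hd
  have hdm : d ∣ m := Nat.gcd_dvd_right _ _
  have hdk : d ∣ k.val := Nat.gcd_dvd_left _ _
  have hdpos : 0 < d := Nat.pos_of_dvd_of_pos hdm hm
  obtain ⟨e, he⟩ := hdm
  obtain ⟨k', hk'⟩ := hdk
  have hepos : 0 < e := by
    rcases Nat.eq_zero_or_pos e with h0 | h0
    · rw [h0] at he; omega
    · exact h0
  have h1 : ((e : ℕ) : ZMod m) * k = 0 := by
    have : ((e * k.val : ℕ) : ZMod m) = 0 := by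
      rw [ZMod.natCast_eq_zero_iff]
      refine ⟨k', ?_⟩
      calc e * k.val = e * (d * k') := by rw [hk']
        _ = (d * e) * k' := by ring
        _ = m * k' := by rw [← he]
    rwa [Nat.cast_mul, ZMod.natCast_zmod_val] at this
  have h2 := h _ h1
  have h3 : m ∣ e * y.val := by
    rw [← ZMod.natCast_eq_zero_iff, Nat.cast_mul, ZMod.natCast_zmod_val]
    exact h2
  have h4 : d ∣ y.val := by
    have h5 : e * d ∣ e * y.val := by rw [mul_comm e d, ← he]; exact h3
    exact Nat.dvd_of_mul_dvd_mul_left hepos h5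
  obtain ⟨q, hq⟩ := h4
  have hbez := Nat.gcd_eq_gcd_ab k.val m
  refine ⟨(Nat.gcdA k.val m : ZMod m) * q, ?_⟩
  have h6 : ((d : ℕ) : ZMod m) = k * (Nat.gcdA k.val m : ZMod m) := by
    have h7 := congrArg (Int.cast : ℤ → ZMod m) hbez
    push_cast at h7
    rw [ZMod.natCast_self, zero_mul, add_zero, ZMod.natCast_zmod_val] at h7
    rw [hd]
    exact h7
  calc y = ((y.val : ℕ) : ZMod m) := (ZMod.natCast_zmod_val y).symm
    _ = ((d : ℕ) : ZMod m) * (q : ZMod m) := by rw [hq, Nat.cast_mul]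
    _ = k * ((Nat.gcdA k.val m : ZMod m) * q) := by rw [h6, mul_assoc]

theorem zmod_principal {m : ℕ} [NeZero m] (J : Ideal (ZMod m)) : ∃ c, J = Ideal.span {c} := by
  have h1 : IsPrincipalIdealRing (ZMod m) :=
    IsPrincipalIdealRing.of_surjective (Int.castRingHom (ZMod m))
      (ZMod.ringHom_surjective (Int.castRingHom (ZMod m)))
  obtain ⟨c, hc⟩ := (h1.principal J).principal
  exact ⟨c, hc⟩

/-- free modules over `ZMod m` satisfy Baer's criterion -/
theorem baer_free {m : ℕ} [NeZero m] {F : Type u} [AddCommGroup F] [Module (ZMod m) F]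
    {ι : Type v} (b : Module.Basis ι (ZMod m) F) : Module.Baer (ZMod m) F := by
  classical
  intro J g
  obtain ⟨c, rfl⟩ := zmod_principal J
  have hc : c ∈ Ideal.span {c} := Ideal.mem_span_singleton_self c
  set y := g ⟨c, hc⟩ with hy
  have hann : ∀ r : ZMod m, r * c = 0 → r • y = 0 := by
    intro r hr
    rw [hy, ← map_smul]
    have : r • (⟨c, hc⟩ : Ideal.span {c}) = 0 := Subtype.ext hr
    rw [this, map_zero]
  let ζ : ZMod m → ZMod m := fun v => if h : v ≠ 0 ∧ ∃ z, v = c * z then h.2.choose else 0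
  have hζ0 : ζ 0 = 0 := by simp [ζ]
  have hζ : ∀ v, (∃ z, v = c * z) → c * ζ v = v := by
    intro v hv
    by_cases h0 : v = 0
    · rw [h0, hζ0, mul_zero]
    · have h1 : v ≠ 0 ∧ ∃ z, v = c * z := ⟨h0, hv⟩
      simp only [ζ, dif_pos h1]
      exact h1.2.choose_spec.symm
  let z : F := b.repr.symm ((b.repr y).mapRange ζ hζ0)
  have hz : c • z = y := by
    apply b.repr.injective
    ext i
    simp only [z, map_smul, LinearEquiv.apply_symm_apply, Finsupp.smul_apply,
      Finsupp.mapRange_apply, smul_eq_mul]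
    apply hζ
    apply zmod_ann
    intro r hr
    have := hann r hr
    have h2 := congrArg (fun t => b.repr t i) this
    simpa using h2
  refine ⟨LinearMap.toSpanSingleton (ZMod m) F z, ?_⟩
  intro x hx
  obtain ⟨r, rfl⟩ := Ideal.mem_span_singleton'.mp hx
  rw [LinearMap.toSpanSingleton_apply, mul_smul, hz, hy, ← map_smul]
  rfl

/-- a maximal free submodule splits off -/
theorem split_free {m : ℕ} [NeZero m] (hm2 : 2 ≤ m) (G : Type u) [AddCommGroup G]
    [Module (ZMod m) G] : ∃ (s : Set G) (F : Submodule (ZMod m) G) (_ : Module.Basis s (ZMod m) F)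
      (ρ : G →ₗ[ZMod m] F), (∀ x : F, ρ (x : G) = x) ∧
      ∀ x : G, ρ x = 0 → ∃ r : ZMod m, r ≠ 0 ∧ r • x = 0 := by
  classical
  have : Fact (1 < m) := ⟨by omega⟩
  obtain ⟨s, hs, hmax⟩ := exists_maximal_linearIndepOn' (ZMod m) (id : G → G)
  have hF : ∃ F : Submodule (ZMod m) G,
      F = Submodule.span (ZMod m) (Set.range fun x : s => id (x : G)) := ⟨_, rfl⟩
  obtain ⟨F, hF⟩ := hF
  have hbas : ∃ b : Module.Basis s (ZMod m) F, ∀ i : s, ((b i : F) : G) = i := by
    subst hF
    exact ⟨Module.Basis.span hs, fun i => by rw [Module.Basis.span_apply hs i]; rfl⟩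
  obtain ⟨b, hb⟩ := hbas
  have hinj : Module.Injective (ZMod m) F := Module.Baer.injective (baer_free b)
  obtain ⟨ρ, hρ⟩ := hinj.out F.subtype Subtype.val_injective LinearMap.id
  have hρ' : ∀ x : F, ρ (x : G) = x := fun x => hρ x
  refine ⟨s, F, b, ρ, hρ', ?_⟩
  intro x hMx
  by_contra hcon
  push Not at hcon
  have h1 : ∀ r : ZMod m, r • x = 0 → r = 0 := by
    intro r hr
    by_contra h0
    exact hcon r h0 hr
  have hnot : x ∉ s := by
    intro hxs
    have h3 : x = (b ⟨x, hxs⟩ : F) := (hb ⟨x, hxs⟩).symm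
    have h4 : ρ x = b ⟨x, hxs⟩ := by
      have := hρ' (b ⟨x, hxs⟩)
      rwa [← h3] at this
    rw [hMx] at h4
    have h5 : x = 0 := by rw [h3, ← h4]; rfl
    have h6 := h1 1 (by rw [h5, smul_zero])
    exact one_ne_zero h6
  have h2 : LinearIndepOn (ZMod m) (id : G → G) (insert x s) := by
    rw [linearIndepOn_iff]
    intro l hl hl0
    -- split off the coefficient of `x`
    have h3 : Finsupp.linearCombination (ZMod m) (id : G → G) l =
        l x • x + Finsupp.linearCombination (ZMod m) (id : G → G) (l.erase x) := by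
      conv_lhs => rw [← Finsupp.single_add_erase x l]
      rw [map_add, Finsupp.linearCombination_single]
      rfl
    have h4 : Finsupp.linearCombination (ZMod m) (id : G → G) (l.erase x) ∈ F := by
      rw [Finsupp.linearCombination_apply, hF]
      apply Submodule.sum_mem
      intro y hy
      apply Submodule.smul_mem
      apply Submodule.subset_span
      rw [Finsupp.support_erase, Finset.mem_erase] at hy
      have h5 := hl hy.2
      rcases h5 with h5 | h5
      · exact absurd h5 hy.1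
      · exact ⟨⟨y, h5⟩, rfl⟩
    have h5 : Finsupp.linearCombination (ZMod m) (id : G → G) (l.erase x) = 0 := by
      have h6 := congrArg ρ h3
      rw [hl0, map_zero, map_add, map_smul, hMx, smul_zero, zero_add] at h6
      have h7 := hρ' ⟨_, h4⟩
      rw [← h6] at h7
      exact (congrArg Subtype.val h7).symm
    rw [hl0, h5, add_zero] at h3
    have h6 := h1 _ h3.symm
    have h7 : l.erase x = 0 := by
      rw [linearIndepOn_iff] at hs
      apply hs _ _ h5
      intro y hy
      have hy' : y ∈ (l.erase x).support := hy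
      rw [Finsupp.support_erase, Finset.mem_erase] at hy'
      rcases hl hy'.2 with h8 | h8
      · exact absurd h8 hy'.1
      · exact h8
    rw [← Finsupp.single_add_erase x l, h6, h7, Finsupp.single_zero, add_zero]
  have h3 := hmax _ (Set.subset_insert _ _) h2
  exact hnot (by rw [h3]; exact Set.mem_insert _ _)

/-- free modules over `ZMod m` -/
theorem pres_free {m : ℕ} [NeZero m] {F : Type u} [AddCommGroup F] [Module (ZMod m) F]
    {s : Type v} (b : Module.Basis s (ZMod m) F) :
    ∃ π : (s →₀ ℤ) →+ F, Pres (fun _ : s => m) π := by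
  let π1 : (s →₀ ℤ) →+ F := (b.repr.symm.toAddEquiv.toAddMonoidHom).comp
    (Finsupp.mapRange.addMonoidHom (Int.castAddHom (ZMod m)))
  refine ⟨π1, ?_, ?_⟩
  · intro x
    refine ⟨(b.repr x).mapRange (fun t : ZMod m => (t.val : ℤ)) (by simp), ?_⟩
    change b.repr.symm _ = x
    rw [LinearEquiv.symm_apply_eq]
    ext i
    simp
  · intro n
    change b.repr.symm _ = 0 ↔ _
    rw [LinearEquiv.map_eq_zero_iff]
    constructor
    · intro h i
      have h1 := DFunLike.congr_fun h i
      simp only [Finsupp.mapRange.addMonoidHom_apply, Finsupp.mapRange_apply,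
        Finsupp.coe_zero, Pi.zero_apply] at h1
      exact (ZMod.intCast_zmod_eq_zero_iff_dvd _ _).mp h1
    · intro h
      ext i
      simp only [Finsupp.mapRange.addMonoidHom_apply, Finsupp.mapRange_apply,
        Finsupp.coe_zero, Pi.zero_apply]
      exact (ZMod.intCast_zmod_eq_zero_iff_dvd _ _).mpr (h i)

theorem split_mod {m : ℕ} [NeZero m] (hm2 : 2 ≤ m) (G : Type u) [AddCommGroup G]
    [Module (ZMod m) G] : ∃ (s : Set G) (F : AddSubgroup G)
      (π : (s →₀ ℤ) →+ F) (ρ : G →+ F), Pres (fun _ : s => m) π ∧ (∀ x : F, ρ (x : G) = x) ∧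
      ∀ x : G, ρ x = 0 → ∃ r : ℕ, 0 < r ∧ r < m ∧ r • x = 0 := by
  obtain ⟨s, F, b, ρ, hρ, hord⟩ := split_free hm2 G
  obtain ⟨π, hπ⟩ := pres_free b
  refine ⟨s, F.toAddSubgroup, π, ρ.toAddMonoidHom, hπ, hρ, ?_⟩
  intro x hx
  obtain ⟨r, hr0, hr⟩ := hord x hx
  refine ⟨r.val, Nat.pos_of_ne_zero fun h => hr0 ((ZMod.val_eq_zero r).mp h), ZMod.val_lt r, ?_⟩
  rw [← hr]
  conv_rhs => rw [← ZMod.natCast_zmod_val r]
  exact (Nat.cast_smul_eq_nsmul (ZMod m) _ _).symm

theorem split_add {m : ℕ} (hm2 : 2 ≤ m) (G : Type u) [AddCommGroup G] (hG : ∀ x : G, m • x = 0) :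
    ∃ (s : Set G) (F : AddSubgroup G)
      (π : (s →₀ ℤ) →+ F) (ρ : G →+ F), Pres (fun _ : s => m) π ∧ (∀ x : F, ρ (x : G) = x) ∧
      ∀ x : G, ρ x = 0 → ∃ r : ℕ, 0 < r ∧ r < m ∧ r • x = 0 :=
  have : NeZero m := ⟨by omega⟩
  @split_mod m _ hm2 G _ (AddCommGroup.zmodModule hG)

/-- **Structure theorem** for abelian groups of bounded exponent. -/
theorem exists_pres : ∀ m : ℕ, 0 < m → ∀ (G : Type u) [AddCommGroup G], (∀ x : G, m • x = 0) →
    ∃ (I : Type u) (d : I → ℕ) (π : (I →₀ ℤ) →+ G), Pres d π ∧ (∀ i, d i ∣ m) ∧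
      ∀ i, d i ≠ 1 := by
  intro m
  induction m using Nat.strong_induction_on with
  | _ m ih =>
    intro hm G _ hG
    classical
    by_cases hm1 : m = 1
    · subst hm1
      refine ⟨PEmpty, PEmpty.elim, 0, ⟨?_, ?_⟩, fun i => i.elim, fun i => i.elim⟩
      · intro x
        refine ⟨0, ?_⟩
        have := hG x
        rw [one_smul] at this
        rw [this]; rfl
      · intro n
        exact ⟨fun _ i => i.elim, fun _ => rfl⟩
    have hm2 : 2 ≤ m := by omega
    obtain ⟨s, F, π1, ρ, hπ1, hρ', hord⟩ := split_add hm2 G hG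
    let M : AddSubgroup G := ρ.ker
    have hM : ∀ x : M, ρ (x : G) = 0 := fun x => x.2
    have hlt : ∀ x : M, addOrderOf x < m := by
      intro x
      obtain ⟨r, hr0, hrm, hr⟩ := hord x (hM x)
      have h1 : r • x = 0 := Subtype.ext hr
      have h2 : addOrderOf x ∣ r := addOrderOf_dvd_of_nsmul_eq_zero h1
      exact lt_of_le_of_lt (Nat.le_of_dvd hr0 h2) hrm
    have hMm : ∀ x : M, m • x = 0 := fun x => Subtype.ext (hG x)
    obtain ⟨x0, hx0⟩ := AddMonoid.exists_addOrderOf_eq_exponent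
      (⟨m, hm, hMm⟩ : AddMonoid.ExponentExists M)
    set e := AddMonoid.exponent M with he
    have hem : e < m := by rw [← hx0]; exact hlt x0
    have hedvd : e ∣ m := AddMonoid.exponent_dvd_of_forall_nsmul_eq_zero hMm
    have hepos : 0 < e := Nat.pos_of_dvd_of_pos hedvd hm
    obtain ⟨I', d', π', hπ', hd', hd1'⟩ := ih e hem hepos M
      (fun x => AddMonoid.exponent_nsmul_eq_zero x)
    -- the two parts
    let q : (s ⊕ I' →₀ ℤ) ≃+ (s →₀ ℤ) × (I' →₀ ℤ) := Finsupp.sumFinsuppAddEquivProdFinsupp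
    let π : (s ⊕ I' →₀ ℤ) →+ G :=
      ((F.subtype.comp π1).coprod (M.subtype.comp π')).comp q.toAddMonoidHom
    have hπval : ∀ n, π n = (π1 (q n).1 : G) + (π' (q n).2 : G) := fun n => rfl
    refine ⟨s ⊕ I', Sum.elim (fun _ => m) d', π, ⟨?_, ?_⟩, ?_, ?_⟩
    · intro x
      have hx : x - (ρ x : G) ∈ M := by
        change ρ (x - (ρ x : G)) = 0
        rw [map_sub, hρ', sub_self]
      obtain ⟨n1, hn1⟩ := hπ1.surj (ρ x)
      obtain ⟨n2, hn2⟩ := hπ'.surj ⟨_, hx⟩
      refine ⟨q.symm (n1, n2), ?_⟩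
      rw [hπval, AddEquiv.apply_symm_apply, hn1, hn2]
      simp
    · intro n
      rw [hπval]
      have h1 : (π1 (q n).1 : G) + (π' (q n).2 : G) = 0 ↔ π1 (q n).1 = 0 ∧ π' (q n).2 = 0 := by
        constructor
        · intro h
          have h2 := congrArg ρ h
          rw [map_add, hρ', hM, add_zero, map_zero] at h2
          refine ⟨h2, ?_⟩
          rw [h2] at h
          apply Subtype.ext
          simpa using h
        · rintro ⟨h2, h3⟩
          rw [h2, h3]
          simp
      rw [h1, hπ1.ker, hπ'.ker]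
      constructor
      · rintro ⟨h2, h3⟩ i
        rcases i with i | i
        · exact h2 i
        · exact h3 i
      · intro h2
        exact ⟨fun i => h2 (Sum.inl i), fun i => h2 (Sum.inr i)⟩
    · intro i
      rcases i with i | i
      · exact dvd_rfl
      · exact (hd' i).trans hedvd
    · intro i
      rcases i with i | i
      · exact hm1
      · exact hd1' i

end Pool.Agent.helper45.Inc
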