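import Mathlib
import Pool.Agent.helper45.Inc.AbPres

/-!
# Codes of pointed abelian groups of bounded exponent
-/

universe u v w

namespace Pool.Agent.helper45.Inc

/-- a reduced presentation of a group with three marked elements -/
structure PPres (m : ℕ) {G : Type u} [AddCommGroup G] (g : Fin 3 → G) {I : Type v} (d : I → ℕ)
    (π : (I →₀ ℤ) →+ G) (N : Fin 3 → I →₀ ℤ) (T : Finset I) : Prop where
  pres : Pres d π
  dvd : ∀ i, d i ∣ m
  ne1 : ∀ i, d i ≠ 1
  pin : ∀ k, π (N k) = g k
  supp : ∀ k i, i ∉ T → N k i = 0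
  inj : ∀ i ∈ T, ∀ j ∈ T, d i = d j → (∀ k, (d i : ℤ) ∣ N k i - N k j) → i = j

theorem exists_ppres (m : ℕ) (hm : 0 < m) (G : Type u) [AddCommGroup G]
    (hG : ∀ x : G, m • x = 0) (g : Fin 3 → G) :
    ∃ (I : Type u) (d : I → ℕ) (π : (I →₀ ℤ) →+ G) (N : Fin 3 → I →₀ ℤ) (T : Finset I),
      PPres m g d π N T := by
  classical
  obtain ⟨I, d, π0, h0, hd, hd1⟩ := exists_pres m hm G hG
  have key : ∀ c : ℕ, ∀ (π : (I →₀ ℤ) →+ G) (N : Fin 3 → I →₀ ℤ) (T : Finset I), T.card = c →
      Pres d π → (∀ k, π (N k) = g k) → (∀ k i, i ∉ T → N k i = 0) →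
      ∃ (π : (I →₀ ℤ) →+ G) (N : Fin 3 → I →₀ ℤ) (T : Finset I), PPres m g d π N T := by
    intro c
    induction c with
    | zero =>
      intro π N T hT hπ hpin hsupp
      refine ⟨π, N, T, hπ, hd, hd1, hpin, hsupp, ?_⟩
      intro i hi
      rw [Finset.card_eq_zero] at hT
      rw [hT] at hi
      simp at hi
    | succ c ih =>
      intro π N T hT hπ hpin hsupp
      by_cases hinj : ∀ i ∈ T, ∀ j ∈ T, d i = d j → (∀ k, (d i : ℤ) ∣ N k i - N k j) → i = j
      · exact ⟨π, N, T, hπ, hd, hd1, hpin, hsupp, hinj⟩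
      push Not at hinj
      obtain ⟨i, hi, j, hj, hdij, hN, hij⟩ := hinj
      let E : (I →₀ ℤ) →+ (I →₀ ℤ) :=
        AddMonoidHom.id _ + (Finsupp.singleAddHom j).comp (Finsupp.applyAddHom i)
      have hE : ∀ n, E n = n + Finsupp.single j (n i) := fun n => rfl
      apply ih (π.comp E) (fun k => (N k).erase j) (T.erase j)
      · rw [Finset.card_erase_of_mem hj, hT]; rfl
      · constructor
        · intro x
          obtain ⟨n, hn⟩ := hπ.surj x
          refine ⟨n - Finsupp.single j (n i), ?_⟩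
          rw [AddMonoidHom.comp_apply, hE]
          have : (n - Finsupp.single j (n i)) i = n i := by
            rw [Finsupp.sub_apply, Finsupp.single_eq_of_ne hij, sub_zero]
          rw [this, sub_add_cancel, hn]
        · intro n
          rw [AddMonoidHom.comp_apply, hE, hπ.ker]
          constructor
          · intro h l
            have hi' := h i
            rw [Finsupp.add_apply, Finsupp.single_eq_of_ne hij, add_zero] at hi'
            by_cases hl : l = j
            · subst hl
              have := h l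
              rw [Finsupp.add_apply, Finsupp.single_eq_same] at this
              rw [← hdij] at this ⊢
              exact (dvd_add_left hi').mp this
            · have := h l
              rw [Finsupp.add_apply, Finsupp.single_eq_of_ne hl, add_zero] at this
              exact this
          · intro h l
            rw [Finsupp.add_apply]
            by_cases hl : l = j
            · subst hl
              rw [Finsupp.single_eq_same]
              exact dvd_add (h l) (hdij ▸ h i)
            · rw [Finsupp.single_eq_of_ne hl, add_zero]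
              exact h l
      · intro k
        rw [AddMonoidHom.comp_apply, hE, Finsupp.erase_ne hij]
        have h1 : π (Finsupp.single j (N k i - N k j)) = 0 := by
          rw [hπ.ker]
          intro l
          by_cases hl : l = j
          · subst hl
            rw [Finsupp.single_eq_same, ← hdij]
            exact hN k
          · rw [Finsupp.single_eq_of_ne hl]
            exact dvd_zero _
        have h2 : (N k).erase j + Finsupp.single j (N k i) =
            N k + Finsupp.single j (N k i - N k j) := by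
          ext l
          rw [Finsupp.add_apply, Finsupp.add_apply]
          by_cases hl : l = j
          · subst hl
            rw [Finsupp.erase_same, Finsupp.single_eq_same, Finsupp.single_eq_same]
            ring
          · rw [Finsupp.erase_ne hl, Finsupp.single_eq_of_ne hl, Finsupp.single_eq_of_ne hl]
        rw [h2, map_add, h1, add_zero, hpin]
      · intro k l hl
        by_cases hlj : l = j
        · subst hlj; exact Finsupp.erase_same
        · rw [Finsupp.erase_ne hlj]
          apply hsupp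
          intro h
          exact hl (Finset.mem_erase.mpr ⟨hlj, h⟩)
  choose N0 hN0 using fun k => h0.surj (g k)
  obtain ⟨π, N, T, h⟩ := key _ π0 N0 (Finset.univ.biUnion fun k => (N0 k).support) rfl h0 hN0 (by
    intro k i hi
    by_contra hne
    apply hi
    rw [Finset.mem_biUnion]
    exact ⟨k, Finset.mem_univ _, Finsupp.mem_support_iff.mpr hne⟩)
  exact ⟨I, d, π, N, T, h⟩

/-- finite codes -/
abbrev FC (m : ℕ) : Type := Set (Fin (m + 1) × (Fin 3 → Fin (m + 1)))

/-- the types of the marked indices -/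
def PType (m : ℕ) {I : Type v} (d : I → ℕ) (N : Fin 3 → I →₀ ℤ) (T : Finset I) : FC m :=
  {p | ∃ i ∈ T, d i = (p.1 : ℕ) ∧ ∀ k, N k i % (d i : ℤ) = ((p.2 k : ℕ) : ℤ)}

/-- the multiplicities of the other indices -/
noncomputable def PMul (m : ℕ) {I : Type v} (d : I → ℕ) (T : Finset I) : Fin (m + 1) → ℕ∞ :=
  fun δ => Set.encard {i | i ∉ T ∧ d i = (δ : ℕ)}

/-- `(c, κ)` is a code of the marked group `(G, g)` -/
def IsCode (m : ℕ) {G : Type u} [AddCommGroup G] (g : Fin 3 → G) (c : FC m)
    (κ : Fin (m + 1) → ℕ∞) : Prop :=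
  ∃ (I : Type u) (d : I → ℕ) (π : (I →₀ ℤ) →+ G) (N : Fin 3 → I →₀ ℤ) (T : Finset I),
    PPres m g d π N T ∧ c = PType m d N T ∧ κ = PMul m d T

theorem exists_code (m : ℕ) (hm : 0 < m) (G : Type u) [AddCommGroup G]
    (hG : ∀ x : G, m • x = 0) (g : Fin 3 → G) : ∃ c κ, IsCode m g c κ := by
  obtain ⟨I, d, π, N, T, h⟩ := exists_ppres m hm G hG g
  exact ⟨_, _, I, d, π, N, T, h, rfl, rfl⟩

theorem exists_inj_of_encard {α : Type v} {β : Type w} [Nonempty β] {A : Set α} {B : Set β}
    (hA : A.Countable) (h : A.encard ≤ B.encard) :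
    ∃ f : α → β, (∀ x ∈ A, f x ∈ B) ∧ Set.InjOn f A := by
  classical
  by_cases hf : A.Finite
  · obtain ⟨f, h1, h2⟩ := hf.exists_injOn_of_encard_le h
    exact ⟨f, h1, h2⟩
  · have hAtop : A.encard = ⊤ := Set.encard_eq_top_iff.mpr hf
    rw [hAtop, top_le_iff] at h
    have hB : B.Infinite := Set.encard_eq_top_iff.mp h
    have : Infinite B := hB.to_subtype
    have : Countable A := hA.to_subtype
    obtain ⟨e, he⟩ := exists_injective_nat A
    refine ⟨fun x => if hx : x ∈ A then (Infinite.natEmbedding B (e ⟨x, hx⟩) : β) else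
      Classical.arbitrary β, ?_, ?_⟩
    · intro x hx
      simp only [dif_pos hx]
      exact Subtype.coe_prop _
    · intro x hx y hy hxy
      simp only [dif_pos hx, dif_pos hy] at hxy
      have h1 := (Infinite.natEmbedding B).injective (Subtype.ext hxy)
      exact congrArg Subtype.val (he h1)

/-- comparison of codes gives embeddings -/
theorem embed_of_code {m : ℕ} (hm : 0 < m) {G G' : Type u} [AddCommGroup G] [AddCommGroup G']
    [Countable G] {g : Fin 3 → G} {g' : Fin 3 → G'} {c : FC m} {κ κ' : Fin (m + 1) → ℕ∞}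
    (h : IsCode m g c κ) (h' : IsCode m g' c κ') (hκ : κ ≤ κ') :
    ∃ ι : G →+ G', Function.Injective ι ∧ ∀ k, ι (g k) = g' k := by
  classical
  obtain ⟨I, d, π, N, T, hP, hc, rfl⟩ := h
  obtain ⟨I', d', π', N', T', hP', hc', rfl⟩ := h'
  have hdpos : ∀ i, 0 < d i := fun i => Nat.pos_of_dvd_of_pos (hP.dvd i) hm
  have hdle : ∀ i, d i ≤ m := fun i => Nat.le_of_dvd hm (hP.dvd i)
  have hdpos' : ∀ i, 0 < d' i := fun i => Nat.pos_of_dvd_of_pos (hP'.dvd i) hm
  have hdle' : ∀ i, d' i ≤ m := fun i => Nat.le_of_dvd hm (hP'.dvd i)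
  have hI : Countable I := by
    have h1 : Function.Injective (fun i : I => π (Finsupp.single i 1)) := by
      intro i j hij
      by_contra hne
      have h2 : π (Finsupp.single i 1 - Finsupp.single j 1) = 0 := by
        rw [map_sub, sub_eq_zero]; exact hij
      rw [hP.pres.ker] at h2
      have h3 := h2 i
      rw [Finsupp.sub_apply, Finsupp.single_eq_same, Finsupp.single_eq_of_ne hne, sub_zero] at h3
      have h4 : d i ∣ 1 := by exact_mod_cast h3
      exact hP.ne1 i (Nat.dvd_one.mp h4)
    exact h1.countable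
  -- matching the marked indices
  have hmatch : ∀ {I₁ I₂ : Type u} (d₁ : I₁ → ℕ) (d₂ : I₂ → ℕ) (N₁ : Fin 3 → I₁ →₀ ℤ)
      (N₂ : Fin 3 → I₂ →₀ ℤ) (T₁ : Finset I₁) (T₂ : Finset I₂), (∀ i, 0 < d₁ i) →
      (∀ i, d₁ i ≤ m) → PType m d₁ N₁ T₁ = PType m d₂ N₂ T₂ →
      ∀ i ∈ T₁, ∃ i' ∈ T₂, d₂ i' = d₁ i ∧ ∀ k, N₂ k i' % (d₂ i' : ℤ) = N₁ k i % (d₁ i : ℤ) := by
    intro I₁ I₂ d₁ d₂ N₁ N₂ T₁ T₂ hpos hle hTT i hi
    have hb : ∀ k, 0 ≤ N₁ k i % (d₁ i : ℤ) ∧ N₁ k i % (d₁ i : ℤ) < d₁ i := by
      intro k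
      have : (0 : ℤ) < d₁ i := by exact_mod_cast hpos i
      exact ⟨Int.emod_nonneg _ this.ne', Int.emod_lt_of_pos _ this⟩
    have h1 : ((⟨d₁ i, by have := hle i; omega⟩ : Fin (m + 1)), fun k : Fin 3 =>
        (⟨(N₁ k i % (d₁ i : ℤ)).toNat, by have := hb k; have := hle i; omega⟩ : Fin (m + 1))) ∈
        PType m d₁ N₁ T₁ := by
      refine ⟨i, hi, rfl, ?_⟩
      intro k
      have := hb k
      simp only
      rw [Int.toNat_of_nonneg this.1]
    rw [hTT] at h1
    obtain ⟨i', hi', h2, h3⟩ := h1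
    refine ⟨i', hi', h2, ?_⟩
    intro k
    rw [h3 k]
    simp only
    rw [Int.toNat_of_nonneg (hb k).1]
  have hmT := hmatch d d' N N' T T' hdpos hdle (hc.symm.trans hc')
  have hmT' := hmatch d' d N' N T' T hdpos' hdle' (hc'.symm.trans hc)
  by_cases hI' : Nonempty I'
  swap
  · -- `G'` is trivial, hence so is `G`
    have hT' : T' = ∅ := by
      rw [Finset.eq_empty_iff_forall_notMem]
      intro i _; exact hI' ⟨i⟩
    have hI0 : IsEmpty I := by
      constructor
      intro i
      by_cases hi : i ∈ T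
      · obtain ⟨i', -⟩ := hmT i hi
        exact hI' ⟨i'⟩
      · have h1 := hκ ⟨d i, by have := hdle i; omega⟩
        have h2 : {j : I' | j ∉ T' ∧ d' j = d i} = ∅ := by
          ext j; exact ⟨fun _ => (hI' ⟨j⟩).elim, fun h => h.elim⟩
        simp only [PMul] at h1
        rw [h2, Set.encard_empty, nonpos_iff_eq_zero, Set.encard_eq_zero] at h1
        have h3 : i ∈ {j : I | j ∉ T ∧ d j = d i} := ⟨hi, rfl⟩
        rw [h1] at h3
        exact h3
    have hG0 : ∀ x : G, x = 0 := by
      intro x
      obtain ⟨n, rfl⟩ := hP.pres.surj x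
      rw [hP.pres.ker]
      intro i
      exact (hI0.false i).elim
    have hG0' : ∀ x : G', x = 0 := by
      intro x
      obtain ⟨n, rfl⟩ := hP'.pres.surj x
      rw [hP'.pres.ker]
      intro i
      exact (hI' ⟨i⟩).elim
    refine ⟨0, ?_, ?_⟩
    · intro x y _; rw [hG0 x, hG0 y]
    · intro k; rw [hG0' (g' k)]; rfl
  choose! σT hσT using hmT
  have hfree : ∀ δ : Fin (m + 1), ∃ f : I → I',
      (∀ x ∈ {i | i ∉ T ∧ d i = (δ : ℕ)}, f x ∈ {i | i ∉ T' ∧ d' i = (δ : ℕ)}) ∧
      Set.InjOn f {i | i ∉ T ∧ d i = (δ : ℕ)} := fun δ =>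
    exists_inj_of_encard (Set.to_countable _) (hκ δ)
  choose f hf1 hf2 using hfree
  let δ : I → Fin (m + 1) := fun i => ⟨d i, by have := hdle i; omega⟩
  let σ : I → I' := fun i => if i ∈ T then σT i else f (δ i) i
  have hσin : ∀ i ∈ T, σ i = σT i := fun i hi => if_pos hi
  have hσout : ∀ i, i ∉ T → σ i = f (δ i) i := fun i hi => if_neg hi
  have hσmemT : ∀ i ∈ T, σ i ∈ T' := fun i hi => by rw [hσin i hi]; exact (hσT i hi).1
  have hσnotT : ∀ i, i ∉ T → σ i ∉ T' := fun i hi => by
    rw [hσout i hi]; exact (hf1 (δ i) i ⟨hi, rfl⟩).1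
  have hσd : ∀ i, d' (σ i) = d i := by
    intro i
    by_cases hi : i ∈ T
    · rw [hσin i hi]; exact (hσT i hi).2.1
    · rw [hσout i hi]; exact (hf1 (δ i) i ⟨hi, rfl⟩).2
  have hσinj : Function.Injective σ := by
    intro i j hij
    have hdij : d i = d j := by rw [← hσd i, ← hσd j, hij]
    by_cases hi : i ∈ T
    · by_cases hj : j ∈ T
      · apply hP.inj i hi j hj hdij
        intro k
        have h1 := (hσT i hi).2.2 k
        have h2 := (hσT j hj).2.2 k
        rw [← hσin i hi] at h1
        rw [← hσin j hj] at h2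
        rw [hij, h2, ← hdij] at h1
        exact Int.dvd_of_emod_eq_zero (Int.emod_eq_emod_iff_emod_sub_eq_zero.mp h1.symm)
      · exact absurd (hij ▸ hσmemT i hi) (hσnotT j hj)
    · by_cases hj : j ∈ T
      · exact absurd (hij ▸ hσmemT j hj) (hσnotT i hi)
      · have hδ : δ i = δ j := Fin.ext hdij
        rw [hσout i hi, hσout j hj, ← hδ] at hij
        exact hf2 (δ i) ⟨hi, rfl⟩ ⟨hj, hdij.symm⟩ hij
  let Φ : (I →₀ ℤ) →+ G' := π'.comp (Finsupp.mapDomain.addMonoidHom σ)
  have hΦ : ∀ n, Φ n = 0 ↔ π n = 0 := by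
    intro n
    change π' (Finsupp.mapDomain σ n) = 0 ↔ _
    rw [hP'.pres.ker, hP.pres.ker]
    constructor
    · intro h1 i
      have := h1 (σ i)
      rwa [Finsupp.mapDomain_apply hσinj, hσd] at this
    · intro h1 i'
      by_cases hr : i' ∈ Set.range σ
      · obtain ⟨i, rfl⟩ := hr
        rw [Finsupp.mapDomain_apply hσinj, hσd]
        exact h1 i
      · rw [Finsupp.mapDomain_of_notMem_range _ _ hr]
        exact dvd_zero _
  let ι : G →+ G' := π.liftOfSurjective hP.pres.surj ⟨Φ, fun n hn => (hΦ n).mpr hn⟩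
  have hι : ∀ n, ι (π n) = Φ n := fun n =>
    AddMonoidHom.liftOfRightInverse_comp_apply _ _ _ _ _
  refine ⟨ι, ?_, ?_⟩
  · rw [injective_iff_map_eq_zero]
    intro x hx
    obtain ⟨n, rfl⟩ := hP.pres.surj x
    rw [hι, hΦ] at hx
    exact hx
  · intro k
    rw [← hP.pin k, hι, ← hP'.pin k]
    change π' (Finsupp.mapDomain σ (N k)) = _
    rw [← sub_eq_zero, ← map_sub, hP'.pres.ker]
    intro i'
    rw [Finsupp.sub_apply]
    by_cases hi' : i' ∈ T'
    · obtain ⟨i, hi, h1, h2⟩ := hmT' i' hi'
      have h3 : σ i = i' := by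
        rw [hσin i hi]
        apply hP'.inj _ (hσT i hi).1 _ hi'
        · rw [(hσT i hi).2.1, h1]
        · intro k
          have h4 := (hσT i hi).2.2 k
          have h5 := h2 k
          have h6 : d' (σT i) = d' i' := by rw [(hσT i hi).2.1, h1]
          rw [← h4, ← h6] at h5
          exact Int.dvd_of_emod_eq_zero (Int.emod_eq_emod_iff_emod_sub_eq_zero.mp h5)
      rw [← h3, Finsupp.mapDomain_apply hσinj, h3]
      have h5 := h2 k
      rw [h1] at h5
      exact Int.dvd_of_emod_eq_zero (Int.emod_eq_emod_iff_emod_sub_eq_zero.mp h5)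
    · rw [hP'.supp k i' hi', sub_zero]
      by_cases hr : i' ∈ Set.range σ
      · obtain ⟨i, rfl⟩ := hr
        rw [Finsupp.mapDomain_apply hσinj]
        have hi : i ∉ T := fun hi => hi' (hσmemT i hi)
        rw [hP.supp k i hi]
        exact dvd_zero _
      · rw [Finsupp.mapDomain_of_notMem_range _ _ hr]
        exact dvd_zero _

/-! ### Lower sets of a well-quasi-ordered set -/

theorem countable_lowerSet (α : Type u) [PartialOrder α] [WellQuasiOrderedLE α] [Countable α] :
    Countable (LowerSet α) := by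
  classical
  let M : LowerSet α → Set α := fun L => {x | x ∉ L ∧ ∀ y, y < x → y ∈ L}
  have hfin : ∀ L, (M L).Finite := by
    intro L
    apply WellQuasiOrderedLE.finite_of_isAntichain
    intro x hx y hy hne hle
    exact hx.1 (hy.2 x (lt_of_le_of_ne hle hne))
  have hmem : ∀ (L : LowerSet α) (x : α), x ∉ L ↔ ∃ y ∈ M L, y ≤ x := by
    intro L x
    constructor
    · intro hx
      induction x using WellFoundedLT.induction with
      | _ x ih =>
        by_cases h : ∀ y, y < x → y ∈ L
        · exact ⟨x, ⟨hx, h⟩, le_rfl⟩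
        · push Not at h
          obtain ⟨y, hyx, hy⟩ := h
          obtain ⟨z, hz, hzy⟩ := ih y hyx hy
          exact ⟨z, hz, hzy.trans hyx.le⟩
    · rintro ⟨y, hy, hyx⟩ hx
      exact hy.1 (L.lower hyx hx)
  have hinj : Function.Injective fun L : LowerSet α => (hfin L).toFinset := by
    intro L L' h
    have h1 : M L = M L' := by
      have := congrArg (fun s : Finset α => (s : Set α)) h
      simpa using this
    apply LowerSet.ext
    ext x
    have h2 := hmem L x
    have h3 := hmem L' x
    rw [h1, ← h3] at h2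
    exact not_iff_not.mp h2
  exact hinj.countable

end Pool.Agent.helper45.Inc
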