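import Mathlib

/-!
# The 3-graphs `D_n` are rigid

`n` is odd, the points are the integers modulo `n` (functions on `ℤ` with period `n`), the edges are
`{i, i + 1, i + e}` with `e` even, `2 ≤ e ≤ n - 1`.
-/

namespace Pool.Agent.helper45.Inc

variable {V : Type*}

/-- the triple `a b c` is degenerate or in the relation `E` -/
def Gd (E : V → V → V → Prop) (a b c : V) : Prop := a = b ∨ b = c ∨ a = c ∨ E a b c

/-- `E` is symmetric and four points never carry three triples -/
structure Tri (E : V → V → V → Prop) : Prop where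
  swap : ∀ a b c, E a b c → E b a c
  rot : ∀ a b c, E a b c → E b c a
  four : ∀ a b c d, a ≠ b → a ≠ c → a ≠ d → b ≠ c → b ≠ d → c ≠ d →
    E a b c → E a b d → E a c d → False

theorem per_mul {n : ℤ} {f : ℤ → V} (hper : ∀ x, f (x + n) = f x) (x : ℤ) (k : ℤ) :
    f (x + n * k) = f x := by
  induction k using Int.induction_on with
  | zero => simp
  | succ k ih => rw [← ih, ← hper (x + n * (k : ℤ))]; congr 1; ring
  | pred k ih => rw [← ih, ← hper (x + n * (-(k : ℤ) - 1))]; congr 1; ring

theorem exists_off {n : ℤ} (hn : 0 < n) {f : ℤ → V} (hper : ∀ x, f (x + n) = f x) (i j : ℤ) :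
    ∃ o : ℤ, 0 ≤ o ∧ o < n ∧ f j = f (i + o) := by
  refine ⟨(j - i) % n, Int.emod_nonneg _ hn.ne', Int.emod_lt_of_pos _ hn, ?_⟩
  have := per_mul hper (i + (j - i) % n) ((j - i) / n)
  rw [← this]
  congr 1
  have := Int.emod_add_mul_ediv (j - i) n
  linarith

theorem const_of_succ {c : ℤ → V} (h : ∀ i, c i = c (i + 1)) (i j : ℤ) : c i = c j := by
  have key : ∀ (i : ℤ) (k : ℕ), c i = c (i + k) := by
    intro i k
    induction k with
    | zero => simp
    | succ k ih => rw [ih, h (i + k)]; congr 1; push_cast; ring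
  rcases le_total i j with hij | hij
  · have := key i (j - i).toNat
    rwa [Int.toNat_of_nonneg (by omega), add_sub_cancel] at this
  · have := key j (i - j).toNat
    rw [Int.toNat_of_nonneg (by omega), add_sub_cancel] at this
    exact this.symm

/-- `D_n` has no colouring with at least three colours without a rainbow edge -/
theorem tight {n : ℤ} (hn : n % 2 = 1) (hn5 : 5 ≤ n) (c : ℤ → V) (hper : ∀ x, c (x + n) = c x)
    (h : ∀ i e : ℤ, e % 2 = 0 → 2 ≤ e → e ≤ n - 1 →
      c i = c (i + 1) ∨ c (i + 1) = c (i + e) ∨ c i = c (i + e))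
    (i : ℤ) (hi : c i ≠ c (i + 1)) (j : ℤ) : c j = c i ∨ c j = c (i + 1) := by
  obtain ⟨o, ho0, hon, hoj⟩ := exists_off (by omega) hper i j
  rw [hoj]
  by_contra hc
  rw [not_or] at hc
  obtain ⟨hA, hB⟩ := hc
  have ho1 : o ≠ 0 := by rintro rfl; simp at hA
  have ho2 : o ≠ 1 := by rintro rfl; simp at hB
  have hodd : o % 2 = 1 := by
    by_contra hev
    rcases h i o (by omega) (by omega) (by omega) with h1 | h1 | h1
    · exact hi h1
    · exact hB h1.symm
    · exact hA h1.symm
  have e1 : c (i + o - 1 + (n + 2 - o)) = c (i + 1) := by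
    rw [← hper (i + 1)]; congr 1; ring
  have e2 : c (i + o - 1 + (n - o)) = c (i - 1) := by
    rw [← hper (i - 1)]; congr 1; ring
  have e3 : c (i + (n - 1)) = c (i - 1) := by
    rw [← hper (i - 1)]; congr 1; ring
  have e4 : i + o - 1 + 1 = i + o := by ring
  have e5 : i - 1 + 1 = i := by ring
  have e6 : i - 1 + (o + 1) = i + o := by ring
  have e7 : i + (o - 1) = i + o - 1 := by ring
  have h1 := h i (o - 1) (by omega) (by omega) (by omega)
  have h2 := h (i + o - 1) (n + 2 - o) (by omega) (by omega) (by omega)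
  have h3 := h (i + o - 1) (n - o) (by omega) (by omega) (by omega)
  have h4 := h i (n - 1) (by omega) (by omega) (by omega)
  have h5 := h (i - 1) (o + 1) (by omega) (by omega) (by omega)
  rw [e1, e4] at h2
  rw [e2, e4] at h3
  rw [e3] at h4
  rw [e5, e6] at h5
  rw [e7] at h1
  generalize c i = A at *
  generalize c (i + 1) = B at *
  generalize c (i + o) = C at *
  generalize c (i + o - 1) = X at *
  generalize c (i - 1) = Z at *
  grind

theorem Tri.perm {E : V → V → V → Prop} (hE : Tri E) {a b c : V} (h : E a b c) :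
    E b a c ∧ E a c b ∧ E c a b ∧ E b c a ∧ E c b a :=
  ⟨hE.swap _ _ _ h, hE.swap _ _ _ (hE.rot _ _ _ (hE.rot _ _ _ h)), hE.rot _ _ _ (hE.rot _ _ _ h),
    hE.rot _ _ _ h, hE.rot _ _ _ (hE.rot _ _ _ (hE.swap _ _ _ h))⟩

section
variable [DecidableEq V]

/-- the colouring of the star lemma -/
def col (A B X : V) (v : V) : Fin 3 := if v = X then 0 else if v = A ∨ v = B then 2 else 1

theorem col0 {A B X : V} (v : V) : col A B X v = 0 ↔ v = X := by
  simp only [col]; split_ifs with h1 h2 <;> simp [h1]

theorem col2 {A B X : V} (hxA : X ≠ A) (hxB : X ≠ B) (v : V) :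
    col A B X v = 2 ↔ (v = A ∨ v = B) := by
  simp only [col]; split_ifs with h1 h2
  · subst h1; simp [hxA, hxB]
  · simp [h2]
  · simp [h2]

theorem col1 {A B X : V} (v : V) : col A B X v = 1 ↔ (v ≠ X ∧ v ≠ A ∧ v ≠ B) := by
  simp only [col]; split_ifs with h1 h2
  · simp [h1]
  · simp only [Fin.reduceEq, false_iff]; intro h; rcases h2 with h2 | h2
    · exact h.2.1 h2
    · exact h.2.2 h2
  · simp only [h1, not_false_eq_true, ne_eq, true_and, true_iff]; rwa [not_or] at h2

theorem col_cases {A B X : V} (v : V) :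
    col A B X v = 0 ∨ col A B X v = 1 ∨ col A B X v = 2 := by
  generalize col A B X v = t
  revert t
  decide

theorem no_rainbow {E : V → V → V → Prop} (hE : Tri E) {A B X : V} (hAB : A ≠ B) (hxA : X ≠ A)
    (hxB : X ≠ B) (hX : E A B X) {P Q R : V} (hP : col A B X P = 2) (hQ : col A B X Q = 0)
    (hR : col A B X R = 1) (ha : R = A ∨ R = B ∨ E A B R) (h : E P Q R) : False := by
  rw [col2 hxA hxB] at hP
  rw [col0] at hQ
  rw [col1] at hR
  subst hQ
  obtain ⟨r1, r2, r3⟩ := hR
  have hQ : E A B R := by
    rcases ha with ha | ha | ha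
    · exact absurd ha r2
    · exact absurd ha r3
    · exact ha
  rcases hP with rfl | rfl
  · exact hE.four P B Q R hAB hxA.symm r2.symm hxB.symm r3.symm r1.symm hX hQ h
  · exact hE.four P A Q R hAB.symm hxB.symm r3.symm hxA.symm r2.symm r1.symm
      (hE.swap _ _ _ hX) (hE.swap _ _ _ hQ) h

theorem no_rainbow' {E : V → V → V → Prop} (hE : Tri E) {A B X : V} (hAB : A ≠ B) (hxA : X ≠ A)
    (hxB : X ≠ B) (hX : E A B X) {P Q R : V} (aP : P = A ∨ P = B ∨ E A B P)
    (aQ : Q = A ∨ Q = B ∨ E A B Q) (aR : R = A ∨ R = B ∨ E A B R) (h : E P Q R) :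
    col A B X P = col A B X Q ∨ col A B X Q = col A B X R ∨ col A B X P = col A B X R := by
  obtain ⟨p1, p2, p3, p4, p5⟩ := hE.perm h
  rcases col_cases (A := A) (B := B) (X := X) P with hP | hP | hP <;>
    rcases col_cases (A := A) (B := B) (X := X) Q with hQ | hQ | hQ <;>
    rcases col_cases (A := A) (B := B) (X := X) R with hR | hR | hR
  all_goals first
    | (left; rw [hP, hQ]; done)
    | (right; left; rw [hQ, hR]; done)
    | (right; right; rw [hP, hR]; done)
    | exact (no_rainbow hE hAB hxA hxB hX hP hQ hR aR h).elim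
    | exact (no_rainbow hE hAB hxA hxB hX hP hR hQ aQ p2).elim
    | exact (no_rainbow hE hAB hxA hxB hX hQ hP hR aR p1).elim
    | exact (no_rainbow hE hAB hxA hxB hX hQ hR hP aP p4).elim
    | exact (no_rainbow hE hAB hxA hxB hX hR hP hQ aQ p3).elim
    | exact (no_rainbow hE hAB hxA hxB hX hR hQ hP aP p5).elim

end

theorem fin_fact : ∀ s t : Fin 3, ((0 : Fin 3) = s ∨ 0 = t) → ((1 : Fin 3) = s ∨ 1 = t) →
    ((2 : Fin 3) = s ∨ 2 = t) → False := by decide

section
variable {E : V → V → V → Prop} (hE : Tri E) {n : ℤ} (hn : n % 2 = 1) (hn5 : 5 ≤ n) {f : ℤ → V}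
  (hper : ∀ x, f (x + n) = f x)
  (h : ∀ i e : ℤ, e % 2 = 0 → 2 ≤ e → e ≤ n - 1 → Gd E (f i) (f (i + 1)) (f (i + e)))

include hE hn hn5 hper h

theorem star_key {A B : V} (hA : ∃ i, f i = A) (hAB : A ≠ B)
    (hall : ∀ j, f j = A ∨ f j = B ∨ E A B (f j)) (x y : ℤ) (hxA : f x ≠ A) (hxB : f x ≠ B)
    (hyA : f y ≠ A) (hyB : f y ≠ B) : f x = f y := by
  classical
  by_contra hxy
  have hX : E A B (f x) := by
    rcases hall x with h1 | h1 | h1
    · exact absurd h1 hxA
    · exact absurd h1 hxB
    · exact h1
  have hcc := tight hn hn5 (fun z => col A B (f x) (f z)) (fun z => by simp only [hper]) (by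
    intro i e he1 he2 he3
    rcases h i e he1 he2 he3 with hg | hg | hg | hg
    · left; rw [hg]
    · right; left; rw [hg]
    · right; right; rw [hg]
    · exact no_rainbow' hE hAB hxA hxB hX (hall i) (hall (i + 1)) (hall (i + e)) hg)
  obtain ⟨z, hz⟩ := hA
  have hx0 : col A B (f x) (f x) = 0 := by rw [col0]
  have hz2 : col A B (f x) (f z) = 2 := by rw [col2 hxA hxB]; left; exact hz
  have hy1 : col A B (f x) (f y) = 1 := by rw [col1]; exact ⟨fun h => hxy h.symm, hyA, hyB⟩
  have hex : ∃ i, col A B (f x) (f i) ≠ col A B (f x) (f (i + 1)) := by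
    by_contra hno
    push Not at hno
    have := const_of_succ (c := fun z => col A B (f x) (f z)) hno x z
    simp only [hx0, hz2] at this
    exact absurd this (by decide)
  obtain ⟨i0, hi0⟩ := hex
  have b1 := hcc i0 hi0 x
  have b2 := hcc i0 hi0 y
  have b3 := hcc i0 hi0 z
  simp only [hx0, hz2, hy1] at b1 b2 b3
  exact fin_fact _ _ b1 b2 b3

/-- if all values are `A`, `B` or adjacent to `A B`, then the image is a face -/
theorem star {A B : V} (hA : ∃ i, f i = A) (hAB : A ≠ B)
    (hall : ∀ j, f j = A ∨ f j = B ∨ E A B (f j)) (i j l : ℤ) (h1 : f i ≠ f j) (h2 : f j ≠ f l)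
    (h3 : f i ≠ f l) : E (f i) (f j) (f l) := by
  have k1 := star_key hE hn hn5 hper h hA hAB hall i j
  have k2 := star_key hE hn hn5 hper h hA hAB hall j l
  have k3 := star_key hE hn hn5 hper h hA hAB hall i l
  have a1 := hall i
  have a2 := hall j
  have a3 := hall l
  have sw := fun x (hx : E A B x) => hE.perm hx
  clear hall hA h hper hn hn5 hE
  generalize f i = P at *
  generalize f j = Q at *
  generalize f l = R at *
  by_cases p1 : P = A
  · subst p1
    by_cases q2 : Q = B
    · subst q2
      rcases a3 with a3 | a3 | a3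
      · exact absurd a3.symm h3
      · exact absurd a3.symm h2
      · exact a3
    · rcases a2 with a2 | a2 | a2
      · exact absurd a2.symm h1
      · exact absurd a2 q2
      · by_cases r2 : R = B
        · subst r2; exact (sw _ a2).2.1
        · exact absurd (k2 h1.symm q2 h3.symm r2) h2
  · by_cases p2 : P = B
    · subst p2
      by_cases q1 : Q = A
      · subst q1
        rcases a3 with a3 | a3 | a3
        · exact absurd a3.symm h2
        · exact absurd a3.symm h3
        · exact (sw _ a3).1
      · rcases a2 with a2 | a2 | a2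
        · exact absurd a2 q1
        · exact absurd a2.symm h1
        · by_cases r1 : R = A
          · subst r1; exact (sw _ a2).2.2.2.1
          · exact absurd (k2 q1 h1.symm r1 h3.symm) h2
    · have hP : E A B P := by
        rcases a1 with a1 | a1 | a1
        · exact absurd a1 p1
        · exact absurd a1 p2
        · exact a1
      have hQ : Q = A ∨ Q = B := by
        by_contra hq
        rw [not_or] at hq
        exact h1 (k1 p1 p2 hq.1 hq.2)
      have hR : R = A ∨ R = B := by
        by_contra hq
        rw [not_or] at hq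
        exact h3 (k3 p1 p2 hq.1 hq.2)
      rcases hQ with rfl | rfl <;> rcases hR with rfl | rfl
      · exact absurd rfl h2
      · exact (sw _ hP).2.2.1
      · exact (sw _ hP).2.2.2.2
      · exact absurd rfl h2

variable (NT : ∃ i j l, f i ≠ f j ∧ f j ≠ f l ∧ f i ≠ f l ∧ ¬ E (f i) (f j) (f l))

include NT

theorem exists_far (i : ℤ) (hi : f i ≠ f (i + 1)) : ∃ o : ℤ, o % 2 = 1 ∧ 3 ≤ o ∧ o ≤ n - 2 ∧
    f (i + o) ≠ f i ∧ f (i + o) ≠ f (i + 1) ∧ ¬ E (f i) (f (i + 1)) (f (i + o)) := by
  obtain ⟨a, b, c, h1, h2, h3, h4⟩ := NT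
  by_contra hno
  push Not at hno
  apply h4
  refine star hE hn hn5 hper h ⟨i, rfl⟩ hi ?_ a b c h1 h2 h3
  intro j
  obtain ⟨o, ho0, hon, hoj⟩ := exists_off (by omega) hper i j
  rw [hoj]
  by_cases o0 : o = 0
  · subst o0; left; simp
  by_cases o1 : o = 1
  · subst o1; right; left; rfl
  by_cases hev : o % 2 = 0
  · rcases h i o hev (by omega) (by omega) with hg | hg | hg | hg
    · exact absurd hg hi
    · right; left; exact hg.symm
    · left; exact hg.symm
    · right; right; exact hg
  · by_contra hc
    rw [not_or, not_or] at hc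
    exact hc.2.2 (hno o (by omega) (by omega) (by omega) hc.1 hc.2.1)

theorem prev_step (i : ℤ) (hi : f i ≠ f (i + 1)) :
    f (i - 1) ≠ f i ∧ f (i - 1) ≠ f (i + 1) := by
  obtain ⟨o, o1, o2, o3, hCA, hCB, hC⟩ := exists_far hE hn hn5 hper h NT i hi
  have e1 : f (i + o - 1 + (n + 2 - o)) = f (i + 1) := by
    rw [← hper (i + 1)]; congr 1; ring
  have e2 : f (i + o - 1 + (n - o)) = f (i - 1) := by
    rw [← hper (i - 1)]; congr 1; ring
  have e3 : f (i + (n - 1)) = f (i - 1) := by
    rw [← hper (i - 1)]; congr 1; ring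
  have e4 : i + o - 1 + 1 = i + o := by ring
  have e5 : i - 1 + 1 = i := by ring
  have e6 : i - 1 + (o + 1) = i + o := by ring
  have e7 : i + (o - 1) = i + o - 1 := by ring
  have h1 := h i (o - 1) (by omega) (by omega) (by omega)
  have h2 := h (i + o - 1) (n + 2 - o) (by omega) (by omega) (by omega)
  have h3 := h (i + o - 1) (n - o) (by omega) (by omega) (by omega)
  have h4 := h i (n - 1) (by omega) (by omega) (by omega)
  have h5 := h (i - 1) (o + 1) (by omega) (by omega) (by omega)
  rw [e1, e4] at h2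
  rw [e2, e4] at h3
  rw [e3] at h4
  rw [e5, e6] at h5
  rw [e7] at h1
  have pm := fun a b c (hx : E a b c) => hE.perm hx
  have f4 := hE.four
  clear h hper NT hE
  generalize f i = A at *
  generalize f (i + 1) = B at *
  generalize f (i + o) = C at *
  generalize f (i + o - 1) = X at *
  generalize f (i - 1) = Z at *
  unfold Gd at *
  -- `X ≠ A`
  have hXA : X ≠ A := by
    rintro rfl
    rcases h2 with h2 | h2 | h2 | h2
    · exact hCA h2.symm
    · exact hCB h2
    · exact hi h2
    · exact hC (pm _ _ _ h2).2.1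
  have hXC : X ≠ C := by
    rintro rfl
    rcases h1 with h1 | h1 | h1 | h1
    · exact hi h1
    · exact hCB h1.symm
    · exact hCA h1.symm
    · exact hC h1
  have hZC : Z ≠ C := by
    rintro rfl
    rcases h4 with h4 | h4 | h4 | h4
    · exact hi h4
    · exact hCB h4.symm
    · exact hCA h4.symm
    · exact hC h4
  have hABX : X = B ∨ E A B X := by
    rcases h1 with h1 | h1 | h1 | h1
    · exact absurd h1 hi
    · left; exact h1.symm
    · exact absurd h1.symm hXA
    · right; exact h1
  have hXCB : X = B ∨ E X C B := by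
    rcases h2 with h2 | h2 | h2 | h2
    · exact absurd h2 hXC
    · exact absurd h2 hCB
    · left; exact h2
    · right; exact h2
  have hZA : Z ≠ A := by
    rintro rfl
    have hXCA : E X C Z := by
      rcases h3 with h3 | h3 | h3 | h3
      · exact absurd h3 hXC
      · exact absurd h3 hCA
      · exact absurd h3 hXA
      · exact h3
    by_cases hXB : X = B
    · subst hXB
      exact hC (pm _ _ _ hXCA).2.2.1
    · have q1 := hABX.resolve_left hXB
      have q2 := hXCB.resolve_left hXB
      exact f4 X Z B C hXA hXB hXC hi hCA.symm hCB.symm (pm _ _ _ q1).2.2.1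
        ((pm _ _ _ hXCA).2.1) ((pm _ _ _ q2).2.1)
  refine ⟨hZA, ?_⟩
  rintro rfl
  rcases h5 with h5 | h5 | h5 | h5
  · exact hZA h5
  · exact hCA h5.symm
  · exact hCB h5.symm
  · exact hC (pm _ _ _ h5).1

theorem all_active (i : ℤ) : f i ≠ f (i + 1) := by
  have hex : ∃ i, f i ≠ f (i + 1) := by
    by_contra hno
    push Not at hno
    obtain ⟨a, b, c, h1, -⟩ := NT
    exact h1 (const_of_succ hno a b)
  obtain ⟨i0, hi0⟩ := hex
  have key : ∀ k : ℕ, f (i0 - k) ≠ f (i0 - k + 1) := by
    intro k
    induction k with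
    | zero => simpa using hi0
    | succ k ih =>
      have := (prev_step hE hn hn5 hper h NT (i0 - k) ih).1
      rw [show i0 - ((k + 1 : ℕ) : ℤ) = i0 - k - 1 by push_cast; ring,
        show i0 - (k : ℤ) - 1 + 1 = i0 - k by ring]
      exact this
  have hn0 : n ≠ 0 := by omega
  have h1 := Int.emod_add_mul_ediv (i0 - i) n
  have h2 := Int.emod_nonneg (i0 - i) hn0
  have h3 := key ((i0 - i) % n).toNat
  rw [Int.toNat_of_nonneg h2] at h3
  have e1 : i0 - (i0 - i) % n = i + n * ((i0 - i) / n) := by linarith
  rw [e1] at h3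
  rw [per_mul hper] at h3
  rw [show i + n * ((i0 - i) / n) + 1 = (i + 1) + n * ((i0 - i) / n) by ring, per_mul hper] at h3
  exact h3

theorem all_two (i : ℤ) : f i ≠ f (i + 2) := by
  have := (prev_step hE hn hn5 hper h NT (i + 1) (all_active hE hn hn5 hper h NT (i + 1))).2
  rwa [show i + 1 - 1 = i by ring, show i + 1 + 1 = i + 2 by ring] at this

theorem dichotomy (i e : ℤ) (he : e % 2 = 0) (he4 : 2 ≤ e) (hen : e ≤ n - 3)
    (hf : f i = f (i + e)) : f (i + e + 1) = f (i + 1) ∨ f (i + e + 1) = f (i - 1) := by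
  have a1 := all_active hE hn hn5 hper h NT i
  have a2 := all_active hE hn hn5 hper h NT (i - 1)
  have a3 := all_two hE hn hn5 hper h NT (i - 1)
  have a4 := all_active hE hn hn5 hper h NT (i + e)
  have g1 := h (i + e) (n + 1 - e) (by omega) (by omega) (by omega)
  have g2 := h (i + e) (n - 1 - e) (by omega) (by omega) (by omega)
  have g3 := h (i - 1) 2 (by omega) (by omega) (by omega)
  rw [show i + e + (n + 1 - e) = i + 1 + n by ring, hper] at g1
  rw [show i + e + (n - 1 - e) = i - 1 + n by ring, hper] at g2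
  rw [show i - 1 + 1 = i by ring, show i - 1 + 2 = i + 1 by ring] at g3
  rw [show i - 1 + 1 = i by ring] at a2
  rw [show i - 1 + 2 = i + 1 by ring] at a3
  rw [← hf] at g1 g2 a4
  have pm := fun a b c (hx : E a b c) => hE.perm hx
  have f4 := hE.four
  clear h hper NT hE hf
  generalize f i = A at *
  generalize f (i + 1) = B at *
  generalize f (i - 1) = Z at *
  generalize f (i + e + 1) = Q at *
  by_contra hc
  rw [not_or] at hc
  obtain ⟨hQB, hQZ⟩ := hc
  have k1 : E A Q B := by
    rcases g1 with g | g | g | g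
    · exact absurd g a4
    · exact absurd g hQB
    · exact absurd g a1
    · exact g
  have k2 : E A Q Z := by
    rcases g2 with g | g | g | g
    · exact absurd g a4
    · exact absurd g hQZ
    · exact absurd g.symm a2
    · exact g
  have k3 : E Z A B := by
    rcases g3 with g | g | g | g
    · exact absurd g a2
    · exact absurd g a1
    · exact absurd g a3
    · exact g
  exact f4 A Q B Z a4 a1 a2.symm hQB hQZ a3.symm k1 k2 (pm _ _ _ k3).2.2.2.1

theorem no_beta (k : ℕ) : ∀ i e : ℤ, e % 2 = 0 → 2 ≤ e → e + 2 * k = n - 1 → f i = f (i + e) →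
    f (i + e + 1) = f (i - 1) → False := by
  induction k with
  | zero =>
    intro i e he he2 hen hf _
    have e1 : e = n - 1 := by simpa using hen
    subst e1
    rw [show i + (n - 1) = i - 1 + n by ring, hper] at hf
    apply all_active hE hn hn5 hper h NT (i - 1)
    rw [show i - 1 + 1 = i by ring, hf]
  | succ k ih =>
    intro i e he he2 hen hf hb
    have hen' : e + 2 * (k : ℤ) + 2 = n - 1 := by push_cast at hen; linarith
    have hf' : f (i - 1) = f (i - 1 + (e + 2)) := by
      rw [← hb]; congr 1; ring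
    by_cases hlast : e + 2 = n - 1
    · rw [hlast, show i - 1 + (n - 1) = i - 2 + n by ring, hper] at hf'
      apply all_active hE hn hn5 hper h NT (i - 2)
      rw [show i - 2 + 1 = i - 1 by ring, hf']
    · rcases dichotomy hE hn hn5 hper h NT (i - 1) (e + 2) (by omega) (by omega) (by omega) hf' with
        ha | hb'
      · have := all_two hE hn hn5 hper h NT (i + e)
        apply this
        rw [← hf, show i + e + 2 = i - 1 + (e + 2) + 1 by ring, ha]
        congr 1; ring
      · exact ih (i - 1) (e + 2) (by omega) (by omega) (by omega) hf' hb'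

theorem no_alpha (i e : ℤ) (he : e % 2 = 0) (he2 : 2 ≤ e) (hen : e ≤ n - 3)
    (hf : f i = f (i + e)) (ha : f (i + e + 1) = f (i + 1)) : False := by
  have key : ∀ j : ℕ, f (i + j) = f (i + j + e) ∧ f (i + j + 1) = f (i + j + e + 1) := by
    intro j
    induction j with
    | zero => simp only [Nat.cast_zero, add_zero]; exact ⟨hf, ha.symm⟩
    | succ j ih =>
      obtain ⟨ih1, ih2⟩ := ih
      have e1 : i + ((j + 1 : ℕ) : ℤ) = i + j + 1 := by push_cast; ring
      rw [e1]
      have h1 : f (i + j + 1) = f (i + j + 1 + e) := by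
        rw [ih2]; congr 1; ring
      refine ⟨h1, ?_⟩
      rcases dichotomy hE hn hn5 hper h NT (i + j + 1) e he he2 hen h1 with h2 | h2
      · exact h2.symm
      · exfalso
        apply all_two hE hn hn5 hper h NT (i + j + e)
        rw [show i + (j : ℤ) + e + 2 = i + j + 1 + e + 1 by ring, h2,
          show i + (j : ℤ) + 1 - 1 = i + j by ring, ih1]
  have hn0 : n ≠ 0 := by omega
  have hper2 : ∀ x, f x = f (x + e) := by
    intro x
    have h1 := Int.emod_add_mul_ediv (x - i) n
    have h2 := Int.emod_nonneg (x - i) hn0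
    have h3 := (key ((x - i) % n).toNat).1
    rw [Int.toNat_of_nonneg h2] at h3
    have e1 : x = i + (x - i) % n + n * ((x - i) / n) := by linarith
    rw [e1, per_mul hper, h3,
      show i + (x - i) % n + n * ((x - i) / n) + e = (i + (x - i) % n + e) + n * ((x - i) / n) by
        ring, per_mul hper]
  obtain ⟨o, o1, o2, o3, hCA, hCB, hC⟩ :=
    exists_far hE hn hn5 hper h NT i (all_active hE hn hn5 hper h NT i)
  have main : ∀ m : ℕ, ∀ o : ℤ, o % 2 = 1 → 3 ≤ o → o + m = n →
      f (i + o) = f i ∨ f (i + o) = f (i + 1) ∨ E (f i) (f (i + 1)) (f (i + o)) := by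
    intro m
    induction m using Nat.strong_induction_on with
    | _ m ih =>
      intro o o1 o2 om
      rw [hper2 (i + o)]
      rcases lt_trichotomy (o + e) n with hlt | heq | hgt
      · have hm : e < m := by omega
        have := ih (m - e.toNat) (by omega) (o + e) (by omega) (by omega) (by omega)
        rwa [show i + (o + e) = i + o + e by ring] at this
      · left
        rw [show i + o + e = i + n by rw [← heq]; ring, hper]
      · have hg := h i (o + e - n) (by omega) (by omega) (by omega)
        rw [← hper (i + (o + e - n)), show i + (o + e - n) + n = i + o + e by ring] at hg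
        rcases hg with hg | hg | hg | hg
        · exact absurd hg (all_active hE hn hn5 hper h NT i)
        · right; left; exact hg.symm
        · left; exact hg.symm
        · right; right; exact hg
  rcases main (n - o).toNat o o1 o2 (by omega) with h1 | h1 | h1
  · exact hCA h1
  · exact hCB h1
  · exact hC h1

theorem inj_even (i e : ℤ) (he : e % 2 = 0) (he2 : 2 ≤ e) (hen : e ≤ n - 1) : f i ≠ f (i + e) := by
  intro hf
  by_cases hlast : e = n - 1
  · subst hlast
    rw [show i + (n - 1) = i - 1 + n by ring, hper] at hf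
    apply all_active hE hn hn5 hper h NT (i - 1)
    rw [show i - 1 + 1 = i by ring, hf]
  · rcases dichotomy hE hn hn5 hper h NT i e he he2 (by omega) hf with ha | hb
    · exact no_alpha hE hn hn5 hper h NT i e he he2 (by omega) hf ha
    · have := no_beta hE hn hn5 hper h NT ((n - 1 - e) / 2).toNat i e he he2 (by omega) hf hb
      exact this

/-- a non-trivial map from `D_n` to a 3-graph without four points carrying three edges is
injective -/
theorem inj (i o : ℤ) (ho1 : 1 ≤ o) (ho2 : o ≤ n - 1) : f i ≠ f (i + o) := by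
  by_cases he : o % 2 = 0
  · exact inj_even hE hn hn5 hper h NT i o he (by omega) ho2
  · have := inj_even hE hn hn5 hper h NT (i + o) (n - o) (by omega)
    intro hf
    by_cases h1 : n - o = 0
    · omega
    · refine this (by omega) (by omega) ?_
      rw [show i + o + (n - o) = i + n by ring, hper, hf]

end

end Pool.Agent.helper45.Inc
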