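import Mathlib
import Pool.Agent.helper45.Inc.Core

/-!
# The 3-graph `D_m` as a target: there is no non-trivial map `D_n → D_m` for `n ≠ m`
-/

namespace Pool.Agent.helper45.Inc

/-- `b = a + 1` and `c = a + 2 t`, `1 ≤ t`, `2 t < m` -/
def Pb (m : ℕ) (a b c : ZMod m) : Prop := b = a + 1 ∧ ∃ t : ℕ, 1 ≤ t ∧ 2 * t < m ∧ c = a + (2 * t : ℕ)

/-- the edges of `D_m` -/
def De (m : ℕ) (a b c : ZMod m) : Prop :=
  Pb m a b c ∨ Pb m b a c ∨ Pb m a c b ∨ Pb m c a b ∨ Pb m b c a ∨ Pb m c b a

theorem val_cast {m : ℕ} (k : ℕ) (hk : k < m) : ((k : ℕ) : ZMod m).val = k :=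
  ZMod.val_cast_of_lt hk

theorem par1 {m : ℕ} (hm : m % 2 = 1) (hm3 : 3 ≤ m) {a b c : ZMod m} (h : Pb m a b c) :
    (b - a).val % 2 = 1 ∧ (c - a).val % 2 = 0 ∧ (a - b).val % 2 = 0 ∧ (c - b).val % 2 = 1 ∧
    (a - c).val % 2 = 1 ∧ (b - c).val % 2 = 0 := by
  obtain ⟨rfl, t, ht1, ht2, rfl⟩ := h
  have e1 : a + 1 - a = ((1 : ℕ) : ZMod m) := by push_cast; ring
  have e2 : a + ((2 * t : ℕ) : ZMod m) - a = ((2 * t : ℕ) : ZMod m) := by ring
  have e3 : a - (a + 1) = ((m - 1 : ℕ) : ZMod m) := by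
    rw [Nat.cast_sub (by omega)]; simp
  have e4 : a + ((2 * t : ℕ) : ZMod m) - (a + 1) = ((2 * t - 1 : ℕ) : ZMod m) := by
    rw [Nat.cast_sub (by omega)]; push_cast; ring
  have e5 : a - (a + ((2 * t : ℕ) : ZMod m)) = ((m - 2 * t : ℕ) : ZMod m) := by
    rw [Nat.cast_sub (by omega)]; simp
  have e6 : a + 1 - (a + ((2 * t : ℕ) : ZMod m)) = ((m + 1 - 2 * t : ℕ) : ZMod m) := by
    rw [Nat.cast_sub (by omega)]; push_cast; simp
  rw [e1, e2, e3, e4, e5, e6, val_cast _ (by omega), val_cast _ (by omega), val_cast _ (by omega),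
    val_cast _ (by omega), val_cast _ (by omega), val_cast _ (by omega)]
  refine ⟨?_, ?_, ?_, ?_, ?_, ?_⟩ <;> omega

theorem par {m : ℕ} (hm : m % 2 = 1) (hm3 : 3 ≤ m) {a b c : ZMod m} (h : De m a b c) :
    (b - a).val % 2 ≠ (c - a).val % 2 := by
  rcases h with h | h | h | h | h | h <;> have := par1 hm hm3 h <;> omega

theorem tri_De {m : ℕ} (hm : m % 2 = 1) (hm3 : 3 ≤ m) : Tri (De m) where
  swap a b c h := by unfold De at *; tauto
  rot a b c h := by unfold De at *; tauto
  four a b c d _ _ _ _ _ _ h1 h2 h3 := by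
    have := par hm hm3 h1
    have := par hm hm3 h2
    have := par hm hm3 h3
    omega

theorem thirds {m : ℕ} (hm : m % 2 = 1) (hm3 : 3 ≤ m) {p q c : ZMod m} (h1 : q ≠ p + 1)
    (h2 : p ≠ q + 1) (h : De m p q c) :
    (((q - p).val % 2 = 0 ∧ (c = p + 1 ∨ c = q - 1)) ∨
      ((q - p).val % 2 = 1 ∧ (c = p - 1 ∨ c = q + 1))) := by
  rcases h with h | h | h | h | h | h
  · exact absurd h.1 h1
  · exact absurd h.1 h2
  · have := par1 hm hm3 h
    left; exact ⟨this.2.1, Or.inl h.1⟩
  · have := par1 hm hm3 h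
    right; refine ⟨this.2.2.2.1, Or.inl ?_⟩
    rw [h.1]; ring
  · have := par1 hm hm3 h
    right; exact ⟨this.2.2.2.2.1, Or.inr h.1⟩
  · have := par1 hm hm3 h
    left; refine ⟨this.2.2.2.2.2, Or.inr ?_⟩
    rw [h.1]; ring

theorem no_map {n m : ℕ} (hn : n % 2 = 1) (hn7 : 7 ≤ n) (hm : m % 2 = 1) (hm3 : 3 ≤ m)
    (hnm : n ≠ m) (f : ℤ → ZMod m) (hper : ∀ x, f (x + n) = f x)
    (h : ∀ i e : ℤ, e % 2 = 0 → 2 ≤ e → e ≤ n - 1 → Gd (De m) (f i) (f (i + 1)) (f (i + e)))
    (NT : ∃ i j l, f i ≠ f j ∧ f j ≠ f l ∧ f i ≠ f l ∧ ¬ De m (f i) (f j) (f l)) : False := by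
  have hE := tri_De hm hm3
  have hn' : (n : ℤ) % 2 = 1 := by omega
  have hn5 : (5 : ℤ) ≤ n := by omega
  have hinj := inj hE hn' hn5 hper h NT
  have hE3 : ∀ i e : ℤ, e % 2 = 0 → 2 ≤ e → e ≤ n - 1 → De m (f i) (f (i + 1)) (f (i + e)) := by
    intro i e h1 h2 h3
    rcases h i e h1 h2 h3 with hg | hg | hg | hg
    · exact absurd hg (hinj i 1 (by omega) (by omega))
    · exact absurd (by rw [hg]; congr 1; ring) (hinj (i + 1) (e - 1) (by omega) (by omega))
    · exact absurd hg (hinj i e (by omega) (by omega))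
    · exact hg
  -- consecutive values are neighbours
  have hcons : ∀ i, f (i + 1) = f i + 1 ∨ f i = f (i + 1) + 1 := by
    intro i
    by_contra hc
    rw [not_or] at hc
    have t1 := thirds hm hm3 hc.1 hc.2 (hE3 i 2 (by omega) (by omega) (by omega))
    have t2 := thirds hm hm3 hc.1 hc.2 (hE3 i 4 (by omega) (by omega) (by omega))
    have t3 := thirds hm hm3 hc.1 hc.2 (hE3 i 6 (by omega) (by omega) (by omega))
    have d1 : f (i + 2) ≠ f (i + 4) := by
      have := hinj (i + 2) 2 (by omega) (by omega)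
      rwa [show i + 2 + 2 = i + 4 by ring] at this
    have d2 : f (i + 4) ≠ f (i + 6) := by
      have := hinj (i + 4) 2 (by omega) (by omega)
      rwa [show i + 4 + 2 = i + 6 by ring] at this
    have d3 : f (i + 2) ≠ f (i + 6) := by
      have := hinj (i + 2) 4 (by omega) (by omega)
      rwa [show i + 2 + 4 = i + 6 by ring] at this
    generalize f (i + 2) = x at *
    generalize f (i + 4) = y at *
    generalize f (i + 6) = z at *
    rcases t1 with ⟨p1, t1⟩ | ⟨p1, t1⟩ <;> rcases t2 with ⟨p2, t2⟩ | ⟨p2, t2⟩ <;>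
      rcases t3 with ⟨p3, t3⟩ | ⟨p3, t3⟩ <;> first | omega | skip
    · rcases t1 with t1 | t1 <;> rcases t2 with t2 | t2 <;> rcases t3 with t3 | t3 <;>
        first
        | exact d1 (t1.trans t2.symm)
        | exact d2 (t2.trans t3.symm)
        | exact d3 (t1.trans t3.symm)
    · rcases t1 with t1 | t1 <;> rcases t2 with t2 | t2 <;> rcases t3 with t3 | t3 <;>
        first
        | exact d1 (t1.trans t2.symm)
        | exact d2 (t2.trans t3.symm)
        | exact d3 (t1.trans t3.symm)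
  have h2ne : ∀ i, f i ≠ f (i + 2) := fun i => hinj i 2 (by omega) (by omega)
  -- the sign is constant
  have hsign : (∀ i, f (i + 1) = f i + 1) ∨ (∀ i, f (i + 1) = f i + (-1)) := by
    let c : ℤ → Prop := fun i => f (i + 1) = f i + 1
    have hc : ∀ i, c i = c (i + 1) := by
      intro i
      have a1 := hcons i
      have a2 := hcons (i + 1)
      have a3 := h2ne i
      rw [show i + 1 + 1 = i + 2 by ring] at a2
      simp only [c, show i + 1 + 1 = i + 2 by ring]
      apply propext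
      constructor
      · intro h1
        rcases a2 with a2 | a2
        · exact a2
        · exfalso; apply a3
          have : f i + 1 = f (i + 2) + 1 := by rw [← h1, a2]
          exact add_right_cancel this
      · intro h1
        rcases a1 with a1 | a1
        · exact a1
        · exfalso; apply a3; rw [a1, h1]
    have hconst := const_of_succ hc
    by_cases h0 : c 0
    · left
      intro i
      have : c i := by rw [hconst i 0]; exact h0
      exact this
    · right
      intro i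
      have : ¬ c i := by rw [hconst i 0]; exact h0
      rcases hcons i with h1 | h1
      · exact absurd h1 this
      · rw [h1]; ring
  have hrun : ∃ s : ZMod m, (s = 1 ∨ s = -1) ∧ ∀ i, f (i + 1) = f i + s := by
    rcases hsign with h1 | h1
    · exact ⟨1, Or.inl rfl, h1⟩
    · exact ⟨-1, Or.inr rfl, h1⟩
  obtain ⟨s, hs, hf⟩ := hrun
  have hk : ∀ k : ℕ, f k = f 0 + k * s := by
    intro k
    induction k with
    | zero => simp
    | succ k ih =>
      push_cast
      rw [hf, ih]; ring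
  have hns : ∀ k : ℕ, ((k : ZMod m) * s = 0) ↔ m ∣ k := by
    intro k
    rw [← ZMod.natCast_eq_zero_iff]
    rcases hs with rfl | rfl <;> simp
  have hmn : m ∣ n := by
    rw [← hns n]
    have h1 := hk n
    have h2 := hper 0
    rw [zero_add] at h2
    rw [h2] at h1
    exact (left_eq_add.mp h1)
  have hle : m ≤ n := Nat.le_of_dvd (by omega) hmn
  have hlt : m < n := lt_of_le_of_ne hle (Ne.symm hnm)
  have := hinj 0 m (by omega) (by omega)
  apply this
  rw [zero_add, hk m, (hns m).mpr dvd_rfl, add_zero]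

end Pool.Agent.helper45.Inc
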