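import Mathlib
import Pool.Agent.helper9.Incl.Count
import Pool.Agent.helper45.Inc.Target

/-!
# Semilattices of faces of 3-graphs and the lattice of inclusive varieties of semilattices
-/

universe u v

open Pool.Agent.helper9.Incl

namespace Pool.Agent.helper45.Inc

/-- the letters of a word -/
def lts (w : Word) : Finset ℕ := insert w.head w.tail.toFinset

theorem lts_of (y : ℕ) : lts (FreeSemigroup.of y) = {y} := by
  simp [lts]

theorem lts_mul (x y : Word) : lts (x * y) = lts x ∪ lts y := by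
  ext a
  simp only [lts, FreeSemigroup.head_mul, FreeSemigroup.tail_mul, List.toFinset_append,
    List.toFinset_cons, Finset.mem_insert, Finset.mem_union, List.mem_toFinset]
  tauto

theorem lts_nonempty (w : Word) : (lts w).Nonempty := Finset.insert_nonempty _ _

/-- Nonempty sets of vertices all of whose triples are edges. -/
def Face {V : Type} (E : V → V → V → Prop) (s : Finset V) : Prop :=
  s.Nonempty ∧ ∀ a ∈ s, ∀ b ∈ s, ∀ c ∈ s, a ≠ b → b ≠ c → a ≠ c → E a b c

theorem Face.mono {V : Type} {E : V → V → V → Prop} {s t : Finset V} (h : Face E s) (hts : t ⊆ s)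
    (ht : t.Nonempty) : Face E t :=
  ⟨ht, fun a ha b hb c hc => h.2 a (hts ha) b (hts hb) c (hts hc)⟩

/-- The semilattice of faces, with a zero. -/
inductive FS (V : Type) (E : V → V → V → Prop) : Type u
  | zero : FS V E
  | mk (s : Finset V) (h : Face E s) : FS V E

namespace FS

variable {V : Type} [DecidableEq V] {E : V → V → V → Prop}

omit [DecidableEq V] in
theorem mk_eq {s t : Finset V} (hs : Face E s) (ht : Face E t) :
    (mk s hs : FS.{u} V E) = mk t ht ↔ s = t := by
  constructor
  · intro h; cases h; rfl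
  · intro h; subst h; rfl

open Classical in
/-- the face `s`, or zero -/
noncomputable def of (s : Finset V) : FS.{u} V E := if h : Face E s then .mk s h else .zero

omit [DecidableEq V] in
theorem of_face {s : Finset V} (h : Face E s) : (of s : FS.{u} V E) = .mk s h := dif_pos h

omit [DecidableEq V] in
theorem of_not {s : Finset V} (h : ¬ Face E s) : (of s : FS.{u} V E) = .zero := dif_neg h

/-- the product -/
noncomputable def mul : FS.{u} V E → FS.{u} V E → FS.{u} V E
  | .mk s _, .mk t _ => of (s ∪ t)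
  | _, _ => .zero

theorem mul_zero' (x : FS.{u} V E) : mul x .zero = .zero := by cases x <;> rfl

theorem zero_mul' (x : FS.{u} V E) : mul .zero x = .zero := by cases x <;> rfl

theorem of_mul' {s t : Finset V} (hs : s.Nonempty) (ht : t.Nonempty) :
    mul (of s : FS.{u} V E) (of t) = of (s ∪ t) := by
  by_cases h1 : Face E s
  · by_cases h2 : Face E t
    · rw [of_face h1, of_face h2]; rfl
    · rw [of_not h2, mul_zero', of_not]
      exact fun h => h2 (h.mono Finset.subset_union_right ht)
  · rw [of_not h1, zero_mul', of_not]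
    exact fun h => h1 (h.mono Finset.subset_union_left hs)

theorem assoc' (x y z : FS.{u} V E) : mul (mul x y) z = mul x (mul y z) := by
  cases x with
  | zero => rw [zero_mul', zero_mul', zero_mul']
  | mk s hs =>
    cases y with
    | zero => rfl
    | mk t ht =>
      cases z with
      | zero => rw [mul_zero', mul_zero', mul_zero']
      | mk r hr =>
        rw [← of_face hs, ← of_face ht, ← of_face hr, of_mul' hs.1 ht.1, of_mul' ht.1 hr.1,
          of_mul' (hs.1.mono Finset.subset_union_left) hr.1,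
          of_mul' hs.1 (ht.1.mono Finset.subset_union_left), Finset.union_assoc]

noncomputable instance : Semigroup (FS.{u} V E) where
  mul := mul
  mul_assoc := assoc'

theorem mul_zero (x : FS.{u} V E) : x * .zero = .zero := mul_zero' x

theorem zero_mul (x : FS.{u} V E) : .zero * x = .zero := zero_mul' x

theorem of_mul {s t : Finset V} (hs : s.Nonempty) (ht : t.Nonempty) :
    (of s : FS.{u} V E) * of t = of (s ∪ t) := of_mul' hs ht

theorem comm (x y : FS.{u} V E) : x * y = y * x := by
  cases x with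
  | zero => rw [zero_mul, mul_zero]
  | mk s hs =>
    cases y with
    | zero => rw [zero_mul, mul_zero]
    | mk t ht => rw [← of_face hs, ← of_face ht, of_mul hs.1 ht.1, of_mul ht.1 hs.1,
        Finset.union_comm]

theorem idem (x : FS.{u} V E) : x * x = x := by
  cases x with
  | zero => rw [zero_mul]
  | mk s hs => rw [← of_face hs, of_mul hs.1 hs.1, Finset.union_self]

/-- the support -/
def sp : FS.{u} V E → Finset V
  | .zero => ∅
  | .mk s _ => s

omit [DecidableEq V] in
theorem of_sp {x : FS.{u} V E} (h : x ≠ .zero) : x = of (sp x) := by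
  cases x with
  | zero => exact absurd rfl h
  | mk s hs => exact (of_face hs).symm

omit [DecidableEq V] in
theorem face_sp {x : FS.{u} V E} (h : x ≠ .zero) : Face E (sp x) := by
  cases x with
  | zero => exact absurd rfl h
  | mk s hs => exact hs

theorem ev_zero (ψ : Word →ₙ* FS.{u} V E) (w : Word) (y : ℕ) (hy : y ∈ lts w)
    (h : ψ (FreeSemigroup.of y) = .zero) : ψ w = .zero := by
  induction w using FreeSemigroup.recOnMul with
  | ih1 x =>
    rw [lts_of, Finset.mem_singleton] at hy
    rw [← hy, h]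
  | ih2 a b ha hb =>
    rw [lts_mul, Finset.mem_union] at hy
    rw [map_mul]
    rcases hy with hy | hy
    · rw [ha hy, zero_mul]
    · rw [hb hy, mul_zero]

theorem ev_of (ψ : Word →ₙ* FS.{u} V E) (w : Word)
    (h : ∀ y ∈ lts w, ψ (FreeSemigroup.of y) ≠ .zero) :
    ψ w = of ((lts w).biUnion fun y => sp (ψ (FreeSemigroup.of y))) := by
  have hne : ∀ a : Word, (∀ y ∈ lts a, ψ (FreeSemigroup.of y) ≠ .zero) →
      ((lts a).biUnion fun y => sp (ψ (FreeSemigroup.of y))).Nonempty := by
    intro a ha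
    obtain ⟨y, hy⟩ := lts_nonempty a
    exact Finset.Nonempty.mono (Finset.subset_biUnion_of_mem
      (fun y => sp (ψ (FreeSemigroup.of y))) hy) (face_sp (ha y hy)).1
  induction w using FreeSemigroup.recOnMul with
  | ih1 x =>
    rw [lts_of, Finset.singleton_biUnion]
    exact of_sp (h x (by rw [lts_of]; exact Finset.mem_singleton_self x))
  | ih2 a b ha hb =>
    have h1 : ∀ y ∈ lts (FreeSemigroup.of a), ψ (FreeSemigroup.of y) ≠ .zero := fun y hy =>
      h y (by rw [lts_mul]; exact Finset.mem_union_left _ hy)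
    have h2 : ∀ y ∈ lts b, ψ (FreeSemigroup.of y) ≠ .zero := fun y hy =>
      h y (by rw [lts_mul]; exact Finset.mem_union_right _ hy)
    rw [map_mul, ha h1, hb h2, of_mul (hne _ h1) (hne _ h2), lts_mul, Finset.union_biUnion]

end FS

/-! ### Four-point sets are not faces -/

theorem Face.le3 {V : Type} [DecidableEq V] {E : V → V → V → Prop} (hE : Tri E) {U : Finset V}
    (hU : Face E U) {a b c : V} (ha : a ∈ U) (hb : b ∈ U) (hc : c ∈ U) (hab : a ≠ b) (hbc : b ≠ c)
    (hac : a ≠ c) (x : V) (hx : x ∈ U) : x = a ∨ x = b ∨ x = c := by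
  by_contra hcon
  push Not at hcon
  obtain ⟨h1, h2, h3⟩ := hcon
  exact hE.four a b c x hab hac (Ne.symm h1) hbc (Ne.symm h2) (Ne.symm h3)
    (hU.2 a ha b hb c hc hab hbc hac) (hU.2 a ha b hb x hx hab (Ne.symm h2) (Ne.symm h1))
    (hU.2 a ha c hc x hx hac (Ne.symm h3) (Ne.symm h1))

/-! ### The semilattices of `D_n` form an antichain -/

theorem core_kernel {n m : ℕ} [NeZero n] (hn : n % 2 = 1) (hn7 : 7 ≤ n) (hm : m % 2 = 1)
    (hm3 : 3 ≤ m) (hnm : n ≠ m) (g : ZMod n → Finset (ZMod m)) (hg : ∀ i, Face (De m) (g i))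
    (U : Finset (ZMod m)) (hU : ∀ a, a ∈ U ↔ ∃ i, a ∈ g i)
    (h2 : ∀ i j, (FS.of (g i ∪ g j) : FS.{u} _ (De m)) ≠ FS.of U)
    (h3 : ∀ i j l, De n i j l → (FS.of (g i ∪ g j ∪ g l) : FS.{u} _ (De m)) ≠ FS.of U) :
    False := by
  have hE := tri_De hm hm3
  have hDe : ∀ i e : ℤ, e % 2 = 0 → 2 ≤ e → e ≤ n - 1 →
      De n (i : ZMod n) ((i + 1 : ℤ) : ZMod n) ((i + e : ℤ) : ZMod n) := by
    intro i e he he2 hen
    left
    refine ⟨by push_cast; rfl, (e / 2).toNat, by omega, by omega, ?_⟩
    have h1 : ((2 * (e / 2).toNat : ℕ) : ℤ) = e := by omega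
    have h2 : ((2 * (e / 2).toNat : ℕ) : ZMod n) = ((e : ℤ) : ZMod n) := by
      have := congrArg (Int.cast : ℤ → ZMod n) h1
      rwa [Int.cast_natCast] at this
    rw [h2]; push_cast; rfl
  have hsub : ∀ i, g i ⊆ U := fun i a ha => (hU a).mpr ⟨i, ha⟩
  -- the map through three prescribed values
  have hmap : ∀ i j l : ZMod n, ∀ a b c : ZMod m, i ≠ j → j ≠ l → i ≠ l → a ∈ g i → b ∈ g j →
      c ∈ g l → ∃ f : ZMod n → ZMod m, (∀ p, f p ∈ g p) ∧ f i = a ∧ f j = b ∧ f l = c := by
    intro i j l a b c hij hjl hil ha hb hc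
    choose f0 hf0 using fun p => (hg p).1
    refine ⟨fun p => if p = i then a else if p = j then b else if p = l then c else f0 p,
      ?_, ?_, ?_, ?_⟩
    · intro p
      by_cases h1 : p = i
      · subst h1; simpa using ha
      · by_cases h2 : p = j
        · subst h2; simpa [h1] using hb
        · by_cases h3 : p = l
          · subst h3; simpa [h1, h2] using hc
          · simpa [h1, h2, h3] using hf0 p
    · simp
    · simp [Ne.symm hij]
    · simp [Ne.symm hil, Ne.symm hjl]
  by_cases hUF : Face (De m) U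
  · -- `U` is a face
    have hofU : (FS.of U : FS.{u} _ (De m)) = .mk U hUF := FS.of_face hUF
    obtain ⟨i, a, ha⟩ : ∃ i, ∃ a, a ∈ g i := ⟨0, (hg 0).1⟩
    have hne : ∀ T : Finset (ZMod m), T ⊆ U → (FS.of T : FS.{u} _ (De m)) ≠ FS.of U →
        ∃ b ∈ U, b ∉ T := by
      intro T hT h
      by_contra hcon
      push Not at hcon
      exact h (by rw [Finset.Subset.antisymm hT hcon])
    obtain ⟨b, hbU, hbi⟩ := hne (g i ∪ g i) (Finset.union_subset (hsub i) (hsub i)) (h2 i i)
    rw [Finset.union_self] at hbi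
    obtain ⟨j, hbj⟩ := (hU b).mp hbU
    obtain ⟨c, hcU, hcij⟩ := hne (g i ∪ g j) (Finset.union_subset (hsub i) (hsub j)) (h2 i j)
    obtain ⟨l, hcl⟩ := (hU c).mp hcU
    rw [Finset.mem_union, not_or] at hcij
    have hij : i ≠ j := fun h => hbi (h ▸ hbj)
    have hil : i ≠ l := fun h => hcij.1 (h ▸ hcl)
    have hjl : j ≠ l := fun h => hcij.2 (h ▸ hcl)
    have hab : a ≠ b := fun h => hbi (h ▸ ha)
    have hac : a ≠ c := fun h => hcij.1 (h ▸ ha)
    have hbc : b ≠ c := fun h => hcij.2 (h ▸ hbj)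
    have hall := hUF.le3 hE (hsub i ha) hbU hcU hab hbc hac
    obtain ⟨f, hf, hfi, hfj, hfl⟩ := hmap i j l a b c hij hjl hil ha hbj hcl
    have hrb : ∀ p q r, De n p q r → f p = f q ∨ f q = f r ∨ f p = f r := by
      intro p q r hpqr
      by_contra hcon
      push Not at hcon
      apply h3 p q r hpqr
      congr 1
      apply Finset.Subset.antisymm
        (Finset.union_subset (Finset.union_subset (hsub p) (hsub q)) (hsub r))
      intro x hx
      rcases hUF.le3 hE (hsub p (hf p)) (hsub q (hf q)) (hsub r (hf r)) hcon.1 hcon.2.1 hcon.2.2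
        x hx with rfl | rfl | rfl
      · simp [hf p]
      · simp [hf q]
      · simp [hf r]
    let F : ℤ → ZMod m := fun x => f (x : ZMod n)
    have hper : ∀ x, F (x + n) = F x := by intro x; simp [F]
    have hn' : (n : ℤ) % 2 = 1 := by omega
    have hex : ∃ x, F x ≠ F (x + 1) := by
      by_contra hcon
      push Not at hcon
      have h4 := const_of_succ hcon (i.val : ℤ) (j.val : ℤ)
      simp only [F, Int.cast_natCast, ZMod.natCast_zmod_val] at h4
      rw [hfi, hfj] at h4
      exact hab h4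
    obtain ⟨x, hx⟩ := hex
    have ht := tight hn' (by omega) F hper (fun i e h4 h5 h6 => hrb _ _ _ (hDe i e h4 h5 h6)) x hx
    have hti := ht i.val
    have htj := ht j.val
    have htl := ht l.val
    have e1 : ∀ p : ZMod n, F (p.val : ℤ) = f p := by
      intro p; simp [F]
    rw [e1, hfi] at hti
    rw [e1, hfj] at htj
    rw [e1, hfl] at htl
    rcases hti with h4 | h4 <;> rcases htj with h5 | h5 <;> rcases htl with h6 | h6
    · exact hab (h4.trans h5.symm)
    · exact hab (h4.trans h5.symm)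
    · exact hac (h4.trans h6.symm)
    · exact hbc (h5.trans h6.symm)
    · exact hbc (h5.trans h6.symm)
    · exact hac (h4.trans h6.symm)
    · exact hab (h4.trans h5.symm)
    · exact hab (h4.trans h5.symm)
  · -- `U` is not a face
    have hofU : (FS.of U : FS.{u} _ (De m)) = .zero := FS.of_not hUF
    rw [hofU] at h2 h3
    have k2 : ∀ i j, Face (De m) (g i ∪ g j) := by
      intro i j
      by_contra hcon
      exact h2 i j (FS.of_not hcon)
    have k3 : ∀ i j l, De n i j l → Face (De m) (g i ∪ g j ∪ g l) := by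
      intro i j l hijl
      by_contra hcon
      exact h3 i j l hijl (FS.of_not hcon)
    have hUne : U.Nonempty := (hg 0).1.mono (hsub 0)
    have hex : ∃ a ∈ U, ∃ b ∈ U, ∃ c ∈ U, a ≠ b ∧ b ≠ c ∧ a ≠ c ∧ ¬ De m a b c := by
      by_contra hcon
      push Not at hcon
      exact hUF ⟨hUne, fun a ha b hb c hc h4 h5 h6 => hcon a ha b hb c hc h4 h5 h6⟩
    obtain ⟨a, ha, b, hb, c, hc, hab, hbc, hac, hnE⟩ := hex
    obtain ⟨i, hi⟩ := (hU a).mp ha
    obtain ⟨j, hj⟩ := (hU b).mp hb
    obtain ⟨l, hl⟩ := (hU c).mp hc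
    have hij : i ≠ j := by
      rintro rfl
      exact hnE ((k2 i l).2 a (by simp [hi]) b (by simp [hj]) c (by simp [hl]) hab hbc hac)
    have hjl : j ≠ l := by
      rintro rfl
      exact hnE ((k2 i j).2 a (by simp [hi]) b (by simp [hj]) c (by simp [hl]) hab hbc hac)
    have hil : i ≠ l := by
      rintro rfl
      exact hnE ((k2 i j).2 a (by simp [hi]) b (by simp [hj]) c (by simp [hl]) hab hbc hac)
    obtain ⟨f, hf, hfi, hfj, hfl⟩ := hmap i j l a b c hij hjl hil hi hj hl
    let F : ℤ → ZMod m := fun x => f (x : ZMod n)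
    have hper : ∀ x, F (x + n) = F x := by intro x; simp [F]
    have e1 : ∀ p : ZMod n, F (p.val : ℤ) = f p := by
      intro p; simp [F]
    refine no_map hn hn7 hm hm3 hnm F hper ?_ ⟨i.val, j.val, l.val, ?_, ?_, ?_, ?_⟩
    · intro i e h4 h5 h6
      have h7 := k3 _ _ _ (hDe i e h4 h5 h6)
      by_contra hcon
      unfold Gd at hcon
      push Not at hcon
      have m1 : F i ∈ g (i : ZMod n) ∪ g ((i + 1 : ℤ) : ZMod n) ∪ g ((i + e : ℤ) : ZMod n) :=
        Finset.mem_union_left _ (Finset.mem_union_left _ (hf _))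
      have m2 : F (i + 1) ∈ g (i : ZMod n) ∪ g ((i + 1 : ℤ) : ZMod n) ∪ g ((i + e : ℤ) : ZMod n) :=
        Finset.mem_union_left _ (Finset.mem_union_right _ (hf _))
      have m3 : F (i + e) ∈ g (i : ZMod n) ∪ g ((i + 1 : ℤ) : ZMod n) ∪ g ((i + e : ℤ) : ZMod n) :=
        Finset.mem_union_right _ (hf _)
      exact hcon.2.2.2 (h7.2 _ m1 _ m2 _ m3 hcon.1 hcon.2.1 hcon.2.2.1)
    · rw [e1, e1, hfi, hfj]; exact hab
    · rw [e1, e1, hfj, hfl]; exact hbc
    · rw [e1, e1, hfi, hfl]; exact hac
    · rw [e1, e1, e1, hfi, hfj, hfl]; exact hnE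

/-- the semilattice of `D_n` -/
abbrev Sn (n : ℕ) : Type u := FS.{u} (ZMod n) (De n)

theorem face1 {n : ℕ} (i : ZMod n) : Face (De n) {i} := by
  refine ⟨⟨i, by simp⟩, ?_⟩
  intro a ha b hb c hc h1
  rw [Finset.mem_singleton] at ha hb
  exact absurd (ha.trans hb.symm) h1

theorem face2 {n : ℕ} (i j : ZMod n) : Face (De n) ({i} ∪ {j}) := by
  refine ⟨⟨i, by simp⟩, ?_⟩
  intro a ha b hb c hc h1 h2 h3
  exfalso
  simp only [Finset.mem_union, Finset.mem_singleton] at ha hb hc
  rcases ha with rfl | rfl <;> rcases hb with rfl | rfl <;> rcases hc with rfl | rfl <;>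
    first | exact h1 rfl | exact h2 rfl | exact h3 rfl

theorem face3 {n : ℕ} (hn : n % 2 = 1) (hn3 : 3 ≤ n) {i j l : ZMod n} (h : De n i j l) :
    Face (De n) ({i} ∪ {j} ∪ {l}) := by
  obtain ⟨p1, p2, p3, p4, p5⟩ := (tri_De hn hn3).perm h
  refine ⟨⟨i, by simp⟩, ?_⟩
  intro a ha b hb c hc h1 h2 h3
  simp only [Finset.mem_union, Finset.mem_singleton] at ha hb hc
  rcases ha with (rfl | rfl) | rfl <;> rcases hb with (rfl | rfl) | rfl <;>
    rcases hc with (rfl | rfl) | rfl <;>
    first | exact absurd rfl h1 | exact absurd rfl h2 | exact absurd rfl h3 | assumption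

theorem kernel {n m : ℕ} (hn : n % 2 = 1) (hn7 : 7 ≤ n) (hm : m % 2 = 1)
    (hm3 : 3 ≤ m) (hnm : n ≠ m) (ψ : Word →ₙ* Sn.{u} m) :
    ∃ w : Word, ψ ⟨0, List.range n⟩ = ψ w ∧
      FreeSemigroup.lift (fun y : ℕ => (FS.of {(y : ZMod n)} : Sn.{u} n)) ⟨0, List.range n⟩ ≠
      FreeSemigroup.lift (fun y : ℕ => (FS.of {(y : ZMod n)} : Sn.{u} n)) w := by
  classical
  have : NeZero n := ⟨by omega⟩
  set u : Word := ⟨0, List.range n⟩ with hu
  set φ : Word →ₙ* Sn.{u} n :=
    FreeSemigroup.lift (fun y : ℕ => (FS.of {(y : ZMod n)} : Sn.{u} n)) with hφ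
  by_contra hcon
  push Not at hcon
  have hltu : ∀ y, y ∈ lts u ↔ y < n := by
    intro y
    simp only [hu, lts, Finset.mem_insert, List.mem_toFinset, List.mem_range]
    omega
  have hφof : ∀ y : ℕ, φ (FreeSemigroup.of y) = FS.of {(y : ZMod n)} := by
    intro y; rw [hφ, FreeSemigroup.lift_of]
  have hφnz : ∀ y, φ (FreeSemigroup.of y) ≠ .zero := by
    intro y; rw [hφof, FS.of_face (face1 _)]; intro h; cases h
  have hφu : φ u = .zero := by
    rw [FS.ev_of φ u (fun y _ => hφnz y), FS.of_not]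
    intro hF
    have hmem : ∀ y, y < n → (y : ZMod n) ∈
        (lts u).biUnion fun y => FS.sp (φ (FreeSemigroup.of y)) := by
      intro y hy
      rw [Finset.mem_biUnion]
      refine ⟨y, (hltu y).mpr hy, ?_⟩
      rw [hφof, FS.of_face (face1 _)]
      exact Finset.mem_singleton_self _
    have hne : ∀ y z : ℕ, y < n → z < n → y ≠ z → (y : ZMod n) ≠ z := by
      intro y z hy hz hyz h
      apply hyz
      have := congrArg ZMod.val h
      rwa [ZMod.val_cast_of_lt hy, ZMod.val_cast_of_lt hz] at this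
    rcases hF.le3 (tri_De hn (by omega)) (hmem 0 (by omega)) (hmem 1 (by omega))
      (hmem 2 (by omega)) (hne 0 1 (by omega) (by omega) (by omega))
      (hne 1 2 (by omega) (by omega) (by omega)) (hne 0 2 (by omega) (by omega) (by omega)) _
      (hmem 3 (by omega)) with h | h | h
    · exact hne 3 0 (by omega) (by omega) (by omega) h
    · exact hne 3 1 (by omega) (by omega) (by omega) h
    · exact hne 3 2 (by omega) (by omega) (by omega) h
  rw [hφu] at hcon
  have hnz : ∀ y ∈ lts u, ψ (FreeSemigroup.of y) ≠ .zero := by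
    intro y hy h
    have h1 := FS.ev_zero ψ u y hy h
    exact hφnz y (hcon (FreeSemigroup.of y) (h1.trans h.symm)).symm
  have hψu := FS.ev_of ψ u hnz
  have hvalu : ∀ i : ZMod n, i.val ∈ lts u := fun i => (hltu _).mpr (ZMod.val_lt i)
  refine core_kernel.{u} hn hn7 hm hm3 hnm (fun i => FS.sp (ψ (FreeSemigroup.of i.val)))
    (fun i => FS.face_sp (hnz _ (hvalu i)))
    ((lts u).biUnion fun y => FS.sp (ψ (FreeSemigroup.of y))) ?_ ?_ ?_
  · intro a
    rw [Finset.mem_biUnion]
    constructor
    · rintro ⟨y, hy, hay⟩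
      refine ⟨(y : ZMod n), ?_⟩
      rwa [ZMod.val_cast_of_lt ((hltu y).mp hy)]
    · rintro ⟨i, hi⟩
      exact ⟨_, hvalu i, hi⟩
  · intro i j h
    have h1 : ψ (FreeSemigroup.of i.val * FreeSemigroup.of j.val) = ψ u := by
      rw [map_mul, FS.of_sp (hnz _ (hvalu i)), FS.of_sp (hnz _ (hvalu j)),
        FS.of_mul (FS.face_sp (hnz _ (hvalu i))).1 (FS.face_sp (hnz _ (hvalu j))).1, hψu]
      exact h
    have h2 := hcon _ h1.symm
    rw [map_mul, hφof, hφof, ZMod.natCast_zmod_val, ZMod.natCast_zmod_val,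
      FS.of_mul (Finset.singleton_nonempty _) (Finset.singleton_nonempty _),
      FS.of_face (face2 _ _)] at h2
    cases h2
  · intro i j l hijl h
    have h1 : ψ (FreeSemigroup.of i.val * FreeSemigroup.of j.val * FreeSemigroup.of l.val) =
        ψ u := by
      rw [map_mul, map_mul, FS.of_sp (hnz _ (hvalu i)), FS.of_sp (hnz _ (hvalu j)),
        FS.of_sp (hnz _ (hvalu l)),
        FS.of_mul (FS.face_sp (hnz _ (hvalu i))).1 (FS.face_sp (hnz _ (hvalu j))).1,
        FS.of_mul ((FS.face_sp (hnz _ (hvalu i))).1.mono Finset.subset_union_left)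
          (FS.face_sp (hnz _ (hvalu l))).1, hψu]
      exact h
    have h2 := hcon _ h1.symm
    rw [map_mul, map_mul, hφof, hφof, hφof, ZMod.natCast_zmod_val, ZMod.natCast_zmod_val,
      ZMod.natCast_zmod_val,
      FS.of_mul (Finset.singleton_nonempty _) (Finset.singleton_nonempty _),
      FS.of_mul ((Finset.singleton_nonempty _).mono Finset.subset_union_left)
        (Finset.singleton_nonempty _),
      FS.of_face (face3 hn (by omega) hijl)] at h2
    cases h2

end Pool.Agent.helper45.Inc
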