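import Mathlib
import Pool.Agent.helper45.Inc.SL

/-!
# An inclusive variety with countably many inclusive subvarieties omits a nine-element semilattice
-/

universe u v

open Pool.Agent.helper9.Incl

namespace Pool.Agent.helper45.Inc

/-- A semigroup all of whose evaluations are controlled by evaluations in members of `V` belongs
to `V`. -/
theorem mem_of_div {V : SgClass.{u}} (hV : IsInclVariety V) (T : Type u) [Semigroup T]
    (h : ∀ (u : Word) (φ : Word →ₙ* T), ∃ (S : Type u) (_ : Semigroup S), V S ∧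
      ∃ ψ : Word →ₙ* S, ∀ w, ψ u = ψ w → φ u = φ w) : V T := by
  obtain ⟨E, hE⟩ := hV
  rw [hE]
  rintro ⟨u, W⟩ he φ
  obtain ⟨S, _, hS, ψ, hψ⟩ := h u φ
  obtain ⟨v, hv, hvu⟩ := (hE S).mp hS (u, W) he ψ
  exact ⟨v, hv, hψ v hvu⟩

/-- `f` embeds the semilattice of all subsets of a three-element set, with a zero adjoined, as a
subsemigroup of `S`. -/
def IsB3 {S : Type u} [Semigroup S] (f : Option (Finset (Fin 3)) → S) : Prop :=
  Function.Injective f ∧ (∀ s t : Finset (Fin 3), f (some s) * f (some t) = f (some (s ∪ t))) ∧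
    ∀ x : Option (Finset (Fin 3)), f none * f x = f none ∧ f x * f none = f none

theorem ev_b3 {S : Type u} [Semigroup S] {f : Option (Finset (Fin 3)) → S} (hf : IsB3 f)
    (P : Fin 3 → ℕ → Prop) (A : ℕ → Prop) [∀ i y, Decidable (P i y)] [∀ y, Decidable (A y)]
    (w : Word) :
    FreeSemigroup.lift (fun y => if A y then f (some (Finset.univ.filter fun i => P i y))
      else f none) w = (if ∀ y ∈ lts w, A y then
        f (some (Finset.univ.filter fun i => ∃ y ∈ lts w, P i y)) else f none) := by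
  induction w using FreeSemigroup.recOnMul with
  | ih1 x =>
    rw [FreeSemigroup.lift_of, lts_of]
    simp
  | ih2 a b ha hb =>
    rw [map_mul, ha, hb, lts_mul]
    by_cases h1 : ∀ y ∈ lts (FreeSemigroup.of a), A y
    · by_cases h2 : ∀ y ∈ lts b, A y
      · rw [if_pos h1, if_pos h2, if_pos, hf.2.1]
        · congr 2
          ext i
          simp only [Finset.mem_union, Finset.mem_filter, Finset.mem_univ, true_and]
          constructor
          · rintro (⟨y, hy, hy'⟩ | ⟨y, hy, hy'⟩)
            · exact ⟨y, Or.inl hy, hy'⟩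
            · exact ⟨y, Or.inr hy, hy'⟩
          · rintro ⟨y, hy | hy, hy'⟩
            · exact Or.inl ⟨y, hy, hy'⟩
            · exact Or.inr ⟨y, hy, hy'⟩
        · intro y hy
          rcases Finset.mem_union.mp hy with hy | hy
          · exact h1 y hy
          · exact h2 y hy
      · rw [if_pos h1, if_neg h2, (hf.2.2 _).2, if_neg]
        exact fun h => h2 fun y hy => h y (Finset.mem_union_right _ hy)
    · have hz : ∀ z : S, z = (if ∀ y ∈ lts b, A y then
          f (some (Finset.univ.filter fun i => ∃ y ∈ lts b, P i y)) else f none) →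
          f none * z = f none := by
        intro z hz
        split_ifs at hz
        · rw [hz]; exact (hf.2.2 _).1
        · rw [hz]; exact (hf.2.2 _).1
      rw [if_neg h1, hz _ rfl, if_neg]
      exact fun h => h1 fun y hy => h y (Finset.mem_union_left _ hy)

theorem absorb {T : Type u} [Semigroup T] (hc : ∀ x y : T, x * y = y * x) (hi : ∀ x : T, x * x = x)
    (φ : Word →ₙ* T) (w : Word) (y : ℕ) (hy : y ∈ lts w) : φ (FreeSemigroup.of y) * φ w = φ w := by
  induction w using FreeSemigroup.recOnMul with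
  | ih1 x =>
    rw [lts_of, Finset.mem_singleton] at hy
    rw [hy, hi]
  | ih2 a b ha hb =>
    rw [lts_mul, Finset.mem_union] at hy
    rw [map_mul]
    rcases hy with hy | hy
    · rw [← mul_assoc, ha hy]
    · rw [← mul_assoc, hc _ (φ (FreeSemigroup.of a)), mul_assoc, hb hy]

theorem absorb' {T : Type u} [Semigroup T] (φ : Word →ₙ* T) (t : T) (w : Word)
    (h : ∀ y ∈ lts w, φ (FreeSemigroup.of y) * t = t) : φ w * t = t := by
  induction w using FreeSemigroup.recOnMul with
  | ih1 x => exact h x (by rw [lts_of]; exact Finset.mem_singleton_self x)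
  | ih2 a b ha hb =>
    rw [map_mul, mul_assoc, hb fun y hy => h y (by rw [lts_mul]; exact Finset.mem_union_right _ hy)]
    exact ha fun y hy => h y (by rw [lts_mul]; exact Finset.mem_union_left _ hy)

/-- A semilattice in which every product is a product of three of its factors belongs to every
inclusive variety with a member containing the nine-element semilattice. -/
theorem mem_of_b3 {V : SgClass.{u}} (hV : IsInclVariety V) {S : Type u} [Semigroup S] (hS : V S)
    {f : Option (Finset (Fin 3)) → S} (hf : IsB3 f) (T : Type u) [Semigroup T]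
    (hc : ∀ x y : T, x * y = y * x) (hi : ∀ x : T, x * x = x)
    (h3 : ∀ (u : Word) (φ : Word →ₙ* T), ∃ x : Fin 3 → ℕ, (∀ i, x i ∈ lts u) ∧
      φ (FreeSemigroup.of (x 0)) * φ (FreeSemigroup.of (x 1)) * φ (FreeSemigroup.of (x 2)) = φ u) :
    V T := by
  classical
  apply mem_of_div hV
  intro u φ
  refine ⟨S, inferInstance, hS, ?_⟩
  obtain ⟨x, hx, hxu⟩ := h3 u φ
  refine ⟨FreeSemigroup.lift (fun y => if φ (FreeSemigroup.of y) * φ u = φ u then
    f (some (Finset.univ.filter fun i => y = x i)) else f none), ?_⟩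
  intro w hw
  rw [ev_b3 hf (fun i y => y = x i) (fun y => φ (FreeSemigroup.of y) * φ u = φ u),
    ev_b3 hf (fun i y => y = x i) (fun y => φ (FreeSemigroup.of y) * φ u = φ u),
    if_pos (fun y hy => absorb hc hi φ u y hy)] at hw
  by_cases hA : ∀ y ∈ lts w, φ (FreeSemigroup.of y) * φ u = φ u
  · rw [if_pos hA] at hw
    have h1 := hf.1 hw
    rw [Option.some.injEq] at h1
    have hxw : ∀ i, x i ∈ lts w := by
      intro i
      have h2 : i ∈ Finset.univ.filter fun i => ∃ y ∈ lts u, y = x i := by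
        rw [Finset.mem_filter]
        exact ⟨Finset.mem_univ _, x i, hx i, rfl⟩
      rw [h1, Finset.mem_filter] at h2
      obtain ⟨-, y, hy, rfl⟩ := h2
      exact hy
    have h2 := absorb' φ (φ u) w hA
    rw [← h2, hc, ← hxu, mul_assoc, absorb hc hi φ w _ (hxw 2), mul_assoc,
      absorb hc hi φ w _ (hxw 1), absorb hc hi φ w _ (hxw 0)]
  · rw [if_neg hA] at hw
    have h1 := hf.1 hw
    cases h1

/-- the semilattice of faces of a 3-graph in which four points never carry three edges -/
theorem fs_three {X : Type} [DecidableEq X] {E : X → X → X → Prop} (hE : Tri E) (u : Word)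
    (φ : Word →ₙ* FS.{u} X E) : ∃ x : Fin 3 → ℕ, (∀ i, x i ∈ lts u) ∧
      φ (FreeSemigroup.of (x 0)) * φ (FreeSemigroup.of (x 1)) * φ (FreeSemigroup.of (x 2)) =
        φ u := by
  classical
  by_cases hz : ∃ y ∈ lts u, φ (FreeSemigroup.of y) = .zero
  · obtain ⟨y, hy, hyz⟩ := hz
    refine ⟨fun _ => y, fun _ => hy, ?_⟩
    rw [FS.ev_zero φ u y hy hyz, hyz, FS.zero_mul, FS.zero_mul]
  · push Not at hz
    have hev := FS.ev_of φ u hz
    set U := (lts u).biUnion fun y => FS.sp (φ (FreeSemigroup.of y)) with hU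
    have hsub : ∀ y ∈ lts u, FS.sp (φ (FreeSemigroup.of y)) ⊆ U := fun y hy =>
      Finset.subset_biUnion_of_mem (fun y => FS.sp (φ (FreeSemigroup.of y))) hy
    have hof : ∀ y ∈ lts u, φ (FreeSemigroup.of y) = FS.of (FS.sp (φ (FreeSemigroup.of y))) :=
      fun y hy => FS.of_sp (hz y hy)
    have hne : ∀ y ∈ lts u, (FS.sp (φ (FreeSemigroup.of y))).Nonempty :=
      fun y hy => (FS.face_sp (hz y hy)).1
    have hprod : ∀ y1 ∈ lts u, ∀ y2 ∈ lts u, ∀ y3 ∈ lts u,
        φ (FreeSemigroup.of y1) * φ (FreeSemigroup.of y2) * φ (FreeSemigroup.of y3) =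
        FS.of (FS.sp (φ (FreeSemigroup.of y1)) ∪ FS.sp (φ (FreeSemigroup.of y2)) ∪
          FS.sp (φ (FreeSemigroup.of y3))) := by
      intro y1 h1 y2 h2 y3 h3
      rw [hof y1 h1, hof y2 h2, hof y3 h3, FS.of_mul (hne y1 h1) (hne y2 h2),
        FS.of_mul ((hne y1 h1).mono Finset.subset_union_left) (hne y3 h3),
        ← hof y1 h1, ← hof y2 h2, ← hof y3 h3]
    have hmemU : ∀ a ∈ U, ∃ y ∈ lts u, a ∈ FS.sp (φ (FreeSemigroup.of y)) := by
      intro a ha
      rw [hU, Finset.mem_biUnion] at ha
      exact ha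
    suffices h : ∃ y1 ∈ lts u, ∃ y2 ∈ lts u, ∃ y3 ∈ lts u,
        (FS.of (FS.sp (φ (FreeSemigroup.of y1)) ∪ FS.sp (φ (FreeSemigroup.of y2)) ∪
          FS.sp (φ (FreeSemigroup.of y3))) : FS.{u} X E) = FS.of U by
      obtain ⟨y1, h1, y2, h2, y3, h3, h⟩ := h
      refine ⟨![y1, y2, y3], ?_, ?_⟩
      · intro i
        fin_cases i
        · exact h1
        · exact h2
        · exact h3
      · have := hprod y1 h1 y2 h2 y3 h3
        rw [hev, ← h, ← this]
        rfl
    by_cases hUF : Face E U
    · obtain ⟨y1, h1⟩ := lts_nonempty u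
      obtain ⟨a, ha⟩ := hne y1 h1
      by_cases c1 : U ⊆ FS.sp (φ (FreeSemigroup.of y1))
      · refine ⟨y1, h1, y1, h1, y1, h1, ?_⟩
        rw [Finset.union_self, Finset.union_self, Finset.Subset.antisymm (hsub y1 h1) c1]
      · rw [Finset.not_subset] at c1
        obtain ⟨b, hbU, hb1⟩ := c1
        obtain ⟨y2, h2, hb2⟩ := hmemU b hbU
        by_cases c2 : U ⊆ FS.sp (φ (FreeSemigroup.of y1)) ∪ FS.sp (φ (FreeSemigroup.of y2))
        · refine ⟨y1, h1, y2, h2, y2, h2, ?_⟩
          rw [Finset.union_assoc, Finset.union_self, Finset.Subset.antisymm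
            (Finset.union_subset (hsub y1 h1) (hsub y2 h2)) c2]
        · rw [Finset.not_subset] at c2
          obtain ⟨c, hcU, hc12⟩ := c2
          rw [Finset.mem_union, not_or] at hc12
          obtain ⟨y3, h3, hc3⟩ := hmemU c hcU
          refine ⟨y1, h1, y2, h2, y3, h3, ?_⟩
          congr 1
          apply Finset.Subset.antisymm
            (Finset.union_subset (Finset.union_subset (hsub y1 h1) (hsub y2 h2)) (hsub y3 h3))
          intro x hx
          rcases hUF.le3 hE (hsub y1 h1 ha) hbU hcU (fun h => hb1 (h ▸ ha))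
            (fun h => hc12.2 (h ▸ hb2)) (fun h => hc12.1 (h ▸ ha)) x hx with rfl | rfl | rfl
          · simp [ha]
          · simp [hb2]
          · simp [hc3]
    · have hUne : U.Nonempty := by
        obtain ⟨y1, h1⟩ := lts_nonempty u
        exact (hne y1 h1).mono (hsub y1 h1)
      have hex : ∃ a ∈ U, ∃ b ∈ U, ∃ c ∈ U, a ≠ b ∧ b ≠ c ∧ a ≠ c ∧ ¬ E a b c := by
        by_contra hcon
        push Not at hcon
        exact hUF ⟨hUne, fun a ha b hb c hc h4 h5 h6 => hcon a ha b hb c hc h4 h5 h6⟩
      obtain ⟨a, ha, b, hb, c, hc, hab, hbc, hac, hnE⟩ := hex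
      obtain ⟨y1, h1, ha1⟩ := hmemU a ha
      obtain ⟨y2, h2, hb2⟩ := hmemU b hb
      obtain ⟨y3, h3, hc3⟩ := hmemU c hc
      refine ⟨y1, h1, y2, h2, y3, h3, ?_⟩
      rw [FS.of_not hUF, FS.of_not]
      intro hF
      exact hnE (hF.2 a (by simp [ha1]) b (by simp [hb2]) c (by simp [hc3]) hab hbc hac)

theorem sn_not_mem (A : Set ℕ) (n : ℕ) (hnA : n ∉ A) :
    ¬ genF (fun k : A => Sn.{u} (2 * k.1 + 7)) (Sn.{u} (2 * n + 7)) := by
  intro hgen
  let φ : Word →ₙ* Sn.{u} (2 * n + 7) :=
    FreeSemigroup.lift (fun y : ℕ => (FS.of {(y : ZMod (2 * n + 7))} : Sn.{u} (2 * n + 7)))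
  let u : Word := ⟨0, List.range (2 * n + 7)⟩
  obtain ⟨v, hv, hvu⟩ := hgen u {w | φ u ≠ φ w} (by
    rintro ⟨k, hk⟩ ψ
    have hnk : n ≠ k := fun h => hnA (h ▸ hk)
    obtain ⟨w, h1, h2⟩ := kernel.{u} (n := 2 * n + 7) (m := 2 * k + 7) (by omega) (by omega)
      (by omega) (by omega) (by omega) ψ
    exact ⟨w, h2, h1⟩) φ
  exact hv hvu

theorem sn_continuum {V : SgClass.{u}} (hV : IsInclVariety V)
    (h : ∀ k : ℕ, V (Sn.{u} (2 * k + 7))) :
    ∃ F : Set ℕ → SgClass.{u}, Function.Injective F ∧ ∀ A, F A ∈ InclSub V := by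
  let F : Set ℕ → SgClass.{u} := fun A => genF (fun k : A => Sn.{u} (2 * k.1 + 7))
  have hF : ∀ A, F A ∈ InclSub V := fun A => genF_mem_sub hV _ fun k => h k.1
  have hsub : ∀ A B : Set ℕ, F A = F B → A ⊆ B := by
    intro A B hAB n hn
    by_contra hnB
    have h1 : F A (Sn.{u} (2 * n + 7)) := genF_mem (fun k : A => Sn.{u} (2 * k.1 + 7)) ⟨n, hn⟩
    rw [hAB] at h1
    exact sn_not_mem B n hnB h1
  exact ⟨F, fun A B hAB => Set.Subset.antisymm (hsub A B hAB) (hsub B A hAB.symm), hF⟩

/-- An inclusive variety with a member containing the nine-element semilattice has at least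
continuum many inclusive subvarieties. -/
theorem continuum_of_b3 {V : SgClass.{u}} (hV : IsInclVariety V)
    (S : Type u) [Semigroup S] (hS : V S) (f : Option (Finset (Fin 3)) → S) (hf : IsB3 f) :
    ∃ F : Set ℕ → SgClass.{u}, Function.Injective F ∧ ∀ A, F A ∈ InclSub V :=
  sn_continuum hV (fun _ => mem_of_b3 hV hS hf _ FS.comm FS.idem
    (fun u φ => fs_three (tri_De (by omega) (by omega)) u φ))

/-- **Part 1.** An inclusive variety with at most countably many inclusive subvarieties has no
member containing the nine-element semilattice. -/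
theorem no_b3 {V : SgClass.{u}} (hV : IsInclVariety V) (hc : (InclSub V).Countable)
    (S : Type u) [Semigroup S] (hS : V S) (f : Option (Finset (Fin 3)) → S) : ¬ IsB3 f := by
  intro hf
  obtain ⟨F, hinj, hF⟩ := continuum_of_b3 hV S hS f hf
  have h1 : (Set.range F).Countable := hc.mono (by rintro _ ⟨A, rfl⟩; exact hF A)
  have h2 : Countable (Set ℕ) := by
    have := h1.to_subtype
    exact Function.Injective.countable (f := Set.rangeFactorization F)
      (fun A B h => hinj (congrArg Subtype.val h))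
  obtain ⟨f, hf⟩ := exists_injective_nat (Set ℕ)
  exact Function.cantor_injective f hf

/-- semilattices form an inclusive variety -/
theorem semilattices : IsInclVariety (fun (S : Type u) [Semigroup S] =>
    (∀ x y : S, x * y = y * x) ∧ ∀ x : S, x * x = x) := by
  refine ⟨{(FreeSemigroup.of 0 * FreeSemigroup.of 1, {FreeSemigroup.of 1 * FreeSemigroup.of 0}),
    (FreeSemigroup.of 0 * FreeSemigroup.of 0, {FreeSemigroup.of 0})}, ?_⟩
  intro S _
  constructor
  · rintro ⟨h1, h2⟩ e he
    simp only [Set.mem_insert_iff, Set.mem_singleton_iff] at he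
    rcases he with rfl | rfl
    · intro φ
      refine ⟨_, rfl, ?_⟩
      rw [map_mul, map_mul, h1]
    · intro φ
      refine ⟨_, rfl, ?_⟩
      rw [map_mul, h2]
  · intro h
    constructor
    · intro x y
      obtain ⟨v, hv, hvu⟩ := h _ (Set.mem_insert _ _)
        (FreeSemigroup.lift (fun n : ℕ => if n = 0 then x else y))
      rw [Set.mem_singleton_iff] at hv
      subst hv
      simpa using hvu
    · intro x
      obtain ⟨v, hv, hvu⟩ := h _ (Set.mem_insert_of_mem _ rfl)
        (FreeSemigroup.lift (fun _ : ℕ => x))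
      rw [Set.mem_singleton_iff] at hv
      subst hv
      simpa using hvu

/-- There are at least continuum many inclusive varieties of semilattices. -/
theorem semilattices_continuum : ∃ F : Set ℕ → SgClass.{u}, Function.Injective F ∧
    ∀ A, F A ∈ InclSub (fun (S : Type u) [Semigroup S] =>
      (∀ x y : S, x * y = y * x) ∧ ∀ x : S, x * x = x) :=
  sn_continuum semilattices fun _ => ⟨FS.comm, FS.idem⟩

end Pool.Agent.helper45.Inc
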