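import Mathlib
import Pool.Agent.helper45.Inc.Unc

/-!
# The identity `x y z x y = x y` implies that there are finitely many inclusive subvarieties
-/

universe u v

open Pool.Agent.helper9.Incl

namespace Pool.Agent.helper45.Inc

/-- the identity `x y z x y = x y` -/
def Id5 (S : Type u) [Semigroup S] : Prop := ∀ x y z : S, x * y * z * (x * y) = x * y

/-- products -/
def Sq {S : Type u} [Semigroup S] (p : S) : Prop := ∃ x y : S, p = x * y

section
variable {S : Type u} [Semigroup S]

theorem sq_mul (x y : S) : Sq (x * y) := ⟨x, y, rfl⟩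

theorem pzp (hS : Id5 S) {p : S} (hp : Sq p) (z : S) : p * z * p = p := by
  obtain ⟨x, y, rfl⟩ := hp
  exact hS x y z

theorem idem2 (hS : Id5 S) {p : S} (hp : Sq p) : p * p = p := by
  have h1 := pzp hS hp p
  have h2 := pzp hS (sq_mul p p) p
  have h3 : p * p * p * (p * p) = p := by
    calc p * p * p * (p * p) = p * p * (p * p * p) := by simp only [mul_assoc]
      _ = p := by rw [h1, h1]
  rw [h3] at h2
  exact h2.symm

theorem prq (hS : Id5 S) {p q : S} (hp : Sq p) (hq : Sq q) (r : S) : p * r * q = p * q := by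
  have h1 := pzp hS hp (r * q)
  have h2 := pzp hS hq p
  calc p * r * q = p * r * (q * p * q) := by rw [h2]
    _ = p * (r * q) * p * q := by simp only [mul_assoc]
    _ = p * q := by rw [h1]

theorem pq_iff (hS : Id5 S) {p q t : S} (hp : Sq p) (hq : Sq q) (ht : t * t = t) :
    p * q = t ↔ p * t = t ∧ t * q = t := by
  have ht' : Sq t := ⟨t, t, ht.symm⟩
  constructor
  · intro h
    constructor
    · rw [← h, ← mul_assoc, idem2 hS hp]
    · rw [← h, mul_assoc, idem2 hS hq]
  · rintro ⟨h1, h2⟩
    rw [← prq hS hp hq t, h1, h2]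

end

/-- the value of a word: a letter or a product of four letters -/
theorem word_form (w : Word) : (∃ y, w = FreeSemigroup.of y) ∨ ∃ a b c d : ℕ,
    ∀ (S : Type u) [Semigroup S], Id5 S → ∀ φ : Word →ₙ* S, φ w =
      φ (FreeSemigroup.of a) * φ (FreeSemigroup.of b) * (φ (FreeSemigroup.of c) *
        φ (FreeSemigroup.of d)) := by
  induction w using FreeSemigroup.recOnMul with
  | ih1 x => exact Or.inl ⟨x, rfl⟩
  | ih2 a w _ hw =>
    right
    rcases hw with ⟨b, rfl⟩ | ⟨b, b', c, d, h⟩
    · refine ⟨a, b, a, b, ?_⟩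
      intro S _ hS φ
      rw [map_mul, idem2 hS (sq_mul _ _)]
    · refine ⟨a, b, c, d, ?_⟩
      intro S _ hS φ
      have h1 := prq hS (sq_mul (φ (FreeSemigroup.of a)) (φ (FreeSemigroup.of b)))
        (sq_mul (φ (FreeSemigroup.of c)) (φ (FreeSemigroup.of d))) (φ (FreeSemigroup.of b'))
      rw [map_mul, h S hS φ, ← h1]
      simp only [mul_assoc]

/-- the finite type of types of letters -/
abbrev Ty : Type := Fin 9 → Prop

/-- every evaluation is controlled by an evaluation that depends on the types of the letters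
only -/
theorem local_claim {S : Type u} [Semigroup S] (hS : Id5 S) (F : Word →ₙ* S) (u : Word) :
    ∃ (τ : ℕ → Ty) (h : Ty → S), ∀ w : Word, FreeSemigroup.lift (fun y => h (τ y)) u =
      FreeSemigroup.lift (fun y => h (τ y)) w → F u = F w := by
  classical
  set t := F u with ht
  by_cases htt : t * t = t
  · -- the main case
    have ht2 : Sq t := ⟨t, t, htt.symm⟩
    -- first and last letters of `u`
    obtain ⟨a0, d0, hu⟩ : ∃ a0 d0 : ℕ, (u = FreeSemigroup.of a0) ∨ ∃ b c : ℕ,
        ∀ (S : Type u) [Semigroup S], Id5 S → ∀ φ : Word →ₙ* S, φ u =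
          φ (FreeSemigroup.of a0) * φ (FreeSemigroup.of b) * (φ (FreeSemigroup.of c) *
            φ (FreeSemigroup.of d0)) := by
      rcases word_form.{u} u with ⟨y, hy⟩ | ⟨a, b, c, d, h⟩
      · exact ⟨y, y, Or.inl hy⟩
      · exact ⟨a, d, Or.inr ⟨b, c, h⟩⟩
    let f : ℕ → S := fun y => F (FreeSemigroup.of y)
    let Lg : ℕ → ℕ → Prop := fun y z => f y * f z * t = t
    let Rg : ℕ → ℕ → Prop := fun z y => t * (f z * f y) = t
    have hr : ∀ y, ∃ r, (∀ z, Lg y z) ∨ ¬ Lg y r := by
      intro y
      by_cases h : ∀ z, Lg y z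
      · exact ⟨0, Or.inl h⟩
      · push Not at h
        obtain ⟨r, hr⟩ := h
        exact ⟨r, Or.inr hr⟩
    have hq : ∀ y, ∃ q, (∀ z, Rg z y) ∨ ¬ Rg q y := by
      intro y
      by_cases h : ∀ z, Rg z y
      · exact ⟨0, Or.inl h⟩
      · push Not at h
        obtain ⟨r, hr⟩ := h
        exact ⟨r, Or.inr hr⟩
    choose r hr using hr
    choose q hq using hq
    let Ex : ℕ → Prop := fun y => y = a0 ∨ y = d0 ∨ f y = t ∨ ((∀ z, Lg y z) ∧ ∀ z, Rg z y)
    let Gv : ℕ → S := fun y => if Ex y then f y else f y * f (r y) * (f (q y) * f y)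
    let τ : ℕ → Ty := fun y => ![y = a0, y = d0, f y = t, ∀ z, Lg y z, ∀ z, Rg z y, Lg a0 y,
      Rg y a0, Lg d0 y, Rg y d0]
    let rep : ℕ → ℕ := fun y => Function.invFun τ (τ y)
    have hrep : ∀ y, τ (rep y) = τ y := fun y => Function.invFun_eq ⟨y, rfl⟩
    have h0 : ∀ y, (rep y = a0 ↔ y = a0) := fun y => iff_of_eq (congrFun (hrep y) 0)
    have h1 : ∀ y, (rep y = d0 ↔ y = d0) := fun y => iff_of_eq (congrFun (hrep y) 1)
    have h2 : ∀ y, (f (rep y) = t ↔ f y = t) := fun y => iff_of_eq (congrFun (hrep y) 2)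
    have h3 : ∀ y, ((∀ z, Lg (rep y) z) ↔ ∀ z, Lg y z) := fun y => iff_of_eq (congrFun (hrep y) 3)
    have h4 : ∀ y, ((∀ z, Rg z (rep y)) ↔ ∀ z, Rg z y) := fun y => iff_of_eq (congrFun (hrep y) 4)
    have h5 : ∀ y, (Lg a0 (rep y) ↔ Lg a0 y) := fun y => iff_of_eq (congrFun (hrep y) 5)
    have h6 : ∀ y, (Rg (rep y) a0 ↔ Rg y a0) := fun y => iff_of_eq (congrFun (hrep y) 6)
    have h7 : ∀ y, (Lg d0 (rep y) ↔ Lg d0 y) := fun y => iff_of_eq (congrFun (hrep y) 7)
    have h8 : ∀ y, (Rg (rep y) d0 ↔ Rg y d0) := fun y => iff_of_eq (congrFun (hrep y) 8)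
    let G : ℕ → S := fun y => Gv (rep y)
    have hGa : G a0 = f a0 := by
      have : rep a0 = a0 := (h0 a0).mpr rfl
      simp only [G, this, Gv]
      rw [if_pos (Or.inl rfl)]
    have hGd : G d0 = f d0 := by
      have : rep d0 = d0 := (h1 d0).mpr rfl
      simp only [G, this, Gv]
      rw [if_pos (Or.inr (Or.inl rfl))]
    -- multiplication by a further factor
    have hxG : ∀ (x : S) (y : ℕ), x * G y * t = x * f (rep y) * t := by
      intro x y
      simp only [G, Gv]
      by_cases hE : Ex (rep y)
      · rw [if_pos hE]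
      · rw [if_neg hE]
        calc x * (f (rep y) * f (r (rep y)) * (f (q (rep y)) * f (rep y))) * t
            = x * f (rep y) * (f (r (rep y)) * (f (q (rep y)) * f (rep y))) * t := by
              simp only [mul_assoc]
          _ = x * f (rep y) * t := prq hS (sq_mul _ _) ht2 _
    have hGx : ∀ (x : S) (y : ℕ), t * (G y * x) = t * (f (rep y) * x) := by
      intro x y
      simp only [G, Gv]
      by_cases hE : Ex (rep y)
      · rw [if_pos hE]
      · rw [if_neg hE]
        calc t * (f (rep y) * f (r (rep y)) * (f (q (rep y)) * f (rep y)) * x)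
            = t * (f (rep y) * f (r (rep y)) * f (q (rep y))) * (f (rep y) * x) := by
              simp only [mul_assoc]
          _ = t * (f (rep y) * x) := prq hS ht2 (sq_mul _ _) _
    -- left and right conditions
    have hleft : ∀ a b : ℕ, G a * G b * t = t → f a * f b * t = t := by
      intro a b hab
      rw [hxG] at hab
      by_cases c0 : a = a0
      · subst c0
        rw [hGa] at hab
        exact (h5 b).mp hab
      by_cases c1 : a = d0
      · subst c1
        rw [hGd] at hab
        exact (h7 b).mp hab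
      by_cases c2 : f a = t
      · rw [c2]
        exact pzp hS ht2 _
      by_cases c3 : ∀ z, Lg a z
      · exact c3 b
      exfalso
      have hE : ¬ Ex (rep a) := by
        rintro (h | h | h | h)
        · exact c0 ((h0 a).mp h)
        · exact c1 ((h1 a).mp h)
        · exact c2 ((h2 a).mp h)
        · exact c3 ((h3 a).mp h.1)
      have hra := (hr (rep a)).resolve_left (fun h => c3 ((h3 a).mp h))
      apply hra
      simp only [G, Gv] at hab
      rw [if_neg hE] at hab
      have e1 : f (rep a) * f (r (rep a)) * (f (q (rep a)) * f (rep a)) * f (rep b) * t =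
          f (rep a) * f (r (rep a)) * (f (q (rep a)) * f (rep a) * f (rep b)) * t := by
        simp only [mul_assoc]
      rw [e1, prq hS (sq_mul _ _) ht2] at hab
      exact hab
    have hright : ∀ a b : ℕ, t * (G a * G b) = t → t * (f a * f b) = t := by
      intro a b hab
      rw [hGx] at hab
      by_cases c0 : b = a0
      · subst c0
        rw [hGa] at hab
        exact (h6 a).mp hab
      by_cases c1 : b = d0
      · subst c1
        rw [hGd] at hab
        exact (h8 a).mp hab
      by_cases c2 : f b = t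
      · rw [c2, ← mul_assoc]
        exact pzp hS ht2 _
      by_cases c3 : ∀ z, Rg z b
      · exact c3 a
      exfalso
      have hE : ¬ Ex (rep b) := by
        rintro (h | h | h | h)
        · exact c0 ((h0 b).mp h)
        · exact c1 ((h1 b).mp h)
        · exact c2 ((h2 b).mp h)
        · exact c3 ((h4 b).mp h.2)
      have hqa := (hq (rep b)).resolve_left (fun h => c3 ((h4 b).mp h))
      apply hqa
      simp only [G, Gv] at hab
      rw [if_neg hE] at hab
      have e1 : t * (f (rep a) * (f (rep b) * f (r (rep b)) * (f (q (rep b)) * f (rep b)))) =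
          t * (f (rep a) * (f (rep b) * f (r (rep b)))) * (f (q (rep b)) * f (rep b)) := by
        simp only [mul_assoc]
      rw [e1, prq hS ht2 (sq_mul _ _)] at hab
      exact hab
    -- single letters
    have hone : ∀ y : ℕ, G y = t → f y = t := by
      intro y hy
      by_cases c0 : y = a0
      · subst c0; rw [← hGa]; exact hy
      by_cases c1 : y = d0
      · subst c1; rw [← hGd]; exact hy
      by_contra c2
      have h2' : f (rep y) ≠ t := fun h => c2 ((h2 y).mp h)
      by_cases hE : Ex (rep y)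
      · simp only [G, Gv] at hy
        rw [if_pos hE] at hy
        exact h2' hy
      · simp only [G, Gv] at hy
        rw [if_neg hE] at hy
        by_cases c3 : ∀ z, Lg (rep y) z
        · have c4 : ¬ ∀ z, Rg z (rep y) := fun c4 => hE (Or.inr (Or.inr (Or.inr ⟨c3, c4⟩)))
          have hqa := (hq (rep y)).resolve_left c4
          apply hqa
          have := (pq_iff hS (sq_mul _ _) (sq_mul _ _) htt).mp hy
          exact this.2
        · have hra := (hr (rep y)).resolve_left c3
          apply hra
          have := (pq_iff hS (sq_mul _ _) (sq_mul _ _) htt).mp hy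
          exact this.1
    -- the value of `u`
    have hGu : FreeSemigroup.lift G u = t := by
      rcases hu with hu | ⟨b, c, hu⟩
      · rw [hu, FreeSemigroup.lift_of, hGa, ht, hu]
      · rw [hu S hS]
        simp only [FreeSemigroup.lift_of]
        rw [pq_iff hS (sq_mul _ _) (sq_mul _ _) htt]
        have hFu := hu S hS F
        rw [← ht] at hFu
        have := (pq_iff hS (sq_mul _ _) (sq_mul _ _) htt).mp hFu.symm
        constructor
        · rw [hxG, hGa]
          exact (h5 b).mpr this.1
        · rw [hGx, hGd]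
          exact (h8 c).mpr this.2
    refine ⟨τ, fun s => Gv (Function.invFun τ s), ?_⟩
    intro w hw
    change FreeSemigroup.lift G u = FreeSemigroup.lift G w at hw
    rw [hGu] at hw
    rcases word_form.{u} w with ⟨y, rfl⟩ | ⟨a, b, c, d, h⟩
    · rw [FreeSemigroup.lift_of] at hw
      exact (hone y hw.symm).symm
    · rw [h S hS] at hw
      simp only [FreeSemigroup.lift_of] at hw
      have h9 := (pq_iff hS (sq_mul _ _) (sq_mul _ _) htt).mp hw.symm
      rw [h S hS F]
      symm
      rw [pq_iff hS (sq_mul _ _) (sq_mul _ _) htt]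
      exact ⟨hleft a b h9.1, hright c d h9.2⟩
  · -- `u` is a letter
    refine ⟨fun y _ => F (FreeSemigroup.of y) = t, fun s => if s 0 then t else t * t, ?_⟩
    have hlet : ∀ (φ : Word →ₙ* S) (w : Word), φ w * φ w ≠ φ w → ∃ y, w = FreeSemigroup.of y := by
      intro φ w hw
      rcases word_form.{u} w with h | ⟨a, b, c, d, h⟩
      · exact h
      · exact absurd (idem2 hS ⟨_, _, h S hS φ⟩) hw
    obtain ⟨x, hx⟩ := hlet F u htt
    intro w hw
    have h1 : FreeSemigroup.lift (fun y => if F (FreeSemigroup.of y) = t then t else t * t) u =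
        t := by
      rw [hx, FreeSemigroup.lift_of, if_pos]
      rw [ht, hx]
    change FreeSemigroup.lift (fun y => if F (FreeSemigroup.of y) = t then t else t * t) u =
      FreeSemigroup.lift (fun y => if F (FreeSemigroup.of y) = t then t else t * t) w at hw
    rw [h1] at hw
    obtain ⟨y, hy⟩ := hlet
      (FreeSemigroup.lift (fun y => if F (FreeSemigroup.of y) = t then t else t * t)) w
      (by rw [← hw]; exact htt)
    rw [hy, FreeSemigroup.lift_of] at hw
    split_ifs at hw with h2
    · rw [hy, h2]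
    · exact absurd hw.symm htt

/-! ### Codes -/

/-- positions: a letter or a product of four letters -/
abbrev Ps : Type := Ty ⊕ (Ty × Ty × Ty × Ty)

/-- the value at a position -/
def vl {S : Type u} [Semigroup S] (h : Ty → S) : Ps → S
  | .inl i => h i
  | .inr (a, b, c, d) => h a * h b * (h c * h d)

/-- the code of a class -/
def Code (W : SgClass.{u}) : Set (Set (Ps × Ps)) :=
  {A | ∃ (S : Type u) (_ : Semigroup S) (h : Ty → S), W S ∧ A = {e | vl h e.1 = vl h e.2}}

theorem form_code (τ : ℕ → Ty) (w : Word) : ∃ r : Ps, ∀ (S : Type u) [Semigroup S], Id5 S →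
    ∀ h : Ty → S, FreeSemigroup.lift (fun y => h (τ y)) w = vl h r := by
  rcases word_form.{u} w with ⟨y, rfl⟩ | ⟨a, b, c, d, hw⟩
  · exact ⟨.inl (τ y), fun S _ _ h => by rw [FreeSemigroup.lift_of]; rfl⟩
  · refine ⟨.inr (τ a, τ b, τ c, τ d), fun S _ hS h => ?_⟩
    rw [hw S hS]
    simp only [FreeSemigroup.lift_of]
    rfl

theorem le_of_code {W₁ W₂ : SgClass.{u}} (h2 : IsInclVariety W₂)
    (i1 : ∀ (S : Type u) [Semigroup S], W₁ S → Id5 S)
    (i2 : ∀ (S : Type u) [Semigroup S], W₂ S → Id5 S) (hC : Code W₁ ⊆ Code W₂)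
    (S : Type u) [Semigroup S] (hS : W₁ S) : W₂ S := by
  apply mem_of_div h2
  intro u F
  obtain ⟨τ, h, hloc⟩ := local_claim (i1 S hS) F u
  have hmem : {e : Ps × Ps | vl h e.1 = vl h e.2} ∈ Code W₁ := ⟨S, inferInstance, h, hS, rfl⟩
  obtain ⟨S', _, h', hS', hA⟩ := hC hmem
  refine ⟨S', inferInstance, hS', FreeSemigroup.lift (fun y => h' (τ y)), ?_⟩
  intro w hw
  apply hloc w
  obtain ⟨ru, hru⟩ := form_code.{u} τ u
  obtain ⟨rw', hrw⟩ := form_code.{u} τ w
  rw [hru S' (i2 S' hS'), hrw S' (i2 S' hS')] at hw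
  rw [hru S (i1 S hS), hrw S (i1 S hS)]
  have : (ru, rw') ∈ {e : Ps × Ps | vl h' e.1 = vl h' e.2} := hw
  rw [← hA] at this
  exact this

/-- **Part 3.** If `x y z x y = x y` holds in all members of a class `V`, then there are finitely
many inclusive varieties contained in `V`. -/
theorem finite_of_id5 (V : SgClass.{u}) (h : ∀ (S : Type u) [Semigroup S], V S → Id5 S) :
    (InclSub V).Finite := by
  apply Set.Finite.of_finite_image (f := Code) (Set.toFinite _)
  intro W₁ hW₁ W₂ hW₂ hC
  funext S hS
  apply propext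
  constructor
  · intro h1
    exact le_of_code hW₂.1 (fun S _ h' => h S (hW₁.2 S h')) (fun S _ h' => h S (hW₂.2 S h'))
      hC.le S h1
  · intro h1
    exact le_of_code hW₁.1 (fun S _ h' => h S (hW₂.2 S h')) (fun S _ h' => h S (hW₁.2 S h'))
      hC.ge S h1

end Pool.Agent.helper45.Inc
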