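import Mathlib
import Pool.Agent.helper9.Incl.Final
import Pool.Agent.helper45.Inc.FinId

/-!
# Product-closed inclusive varieties
-/

universe u v

open Pool.Agent.helper9.Incl

namespace Pool.Agent.helper45.Inc

/-- closed under products of two members -/
def ProdClosed (V : SgClass.{u}) : Prop :=
  ∀ (S T : Type u) [Semigroup S] [Semigroup T], V S → V T → V (S × T)

section
variable {S : Type u} [Semigroup S]

theorem left_pw {e x : S} (h : e * x = x) (k : ℕ) : e * pw x k = pw x k := by
  induction k with
  | zero => exact h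
  | succ k ih =>
    change e * (pw x k * x) = pw x k * x
    rw [← mul_assoc, ih]

theorem pw_right {e x : S} (h : x * e = x) (k : ℕ) : pw x k * e = pw x k := by
  cases k with
  | zero => exact h
  | succ k =>
    change pw x k * x * e = pw x k * x
    rw [mul_assoc, h]

theorem pw_stab {a : S} {m n : ℕ} (hmn : m < n) (h : pw a m = pw a n) (j r : ℕ) (hj : m ≤ j) :
    pw a (j + r * (n - m)) = pw a j := by
  have h1 : ∀ j, m ≤ j → pw a (j + (n - m)) = pw a j := by
    intro j hj
    rcases Nat.eq_or_lt_of_le hj with rfl | hlt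
    · rw [show m + (n - m) = n by omega, h]
    · have e1 := pw_mul a m (j - m - 1)
      have e2 := pw_mul a n (j - m - 1)
      rw [show m + (j - m - 1) + 1 = j by omega] at e1
      rw [show n + (j - m - 1) + 1 = j + (n - m) by omega] at e2
      rw [← e1, ← e2, h]
  induction r with
  | zero => rw [Nat.zero_mul, Nat.add_zero]
  | succ r ih =>
    rw [Nat.succ_mul, ← Nat.add_assoc, h1 _ (by omega), ih]

theorem exists_idem_pw {a : S} (h : ∃ m n : ℕ, m ≠ n ∧ pw a m = pw a n) :
    ∃ k, pw a k * pw a k = pw a k := by
  have key : ∀ m n : ℕ, m < n → pw a m = pw a n → ∃ k, pw a k * pw a k = pw a k := by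
    intro m n hmn h
    have h1 : m + 1 ≤ (m + 1) * (n - m) := Nat.le_mul_of_pos_right _ (by omega)
    refine ⟨(m + 1) * (n - m) - 1, ?_⟩
    rw [pw_mul, show (m + 1) * (n - m) - 1 + ((m + 1) * (n - m) - 1) + 1 =
      (m + 1) * (n - m) - 1 + (m + 1) * (n - m) by omega]
    exact pw_stab hmn h _ _ (by omega)
  obtain ⟨m, n, hne, h⟩ := h
  rcases Nat.lt_or_gt_of_ne hne with h1 | h1
  · exact key m n h1 h
  · exact key n m h1 h.symm

/-- the ideal generated by `e` (for `e` idempotent) -/
def KI (e x : S) : Prop := ∃ p q : S, x = p * e * q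

theorem KI.left {e x : S} (h : KI e x) (s : S) : KI e (s * x) := by
  obtain ⟨p, q, rfl⟩ := h
  exact ⟨s * p, q, by simp only [mul_assoc]⟩

theorem KI.right {e x : S} (h : KI e x) (s : S) : KI e (x * s) := by
  obtain ⟨p, q, rfl⟩ := h
  exact ⟨p, q * s, by simp only [mul_assoc]⟩

theorem KI.pw {e x : S} (h : KI e x) (k : ℕ) : KI e (pw x k) := by
  cases k with
  | zero => exact h
  | succ k => exact h.left _

theorem KI.self {e : S} (he : e * e = e) : KI e e := ⟨e, e, by rw [he, he]⟩

/-- the hypotheses on the semigroup `S` -/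
structure Hyp (S : Type u) [Semigroup S] : Prop where
  per : ∀ a : S, ∃ k, pw a k * pw a k = pw a k
  prim : ∀ e f : S, e * e = e → f * f = f → e * f = f → f * e = f → e = f

variable (H : Hyp S)

include H

theorem Hyp.grp {e c : S} (he : e * e = e) (h1 : e * c = c) (h2 : c * e = c) :
    ∃ k, pw c k = e := by
  obtain ⟨k, hk⟩ := H.per c
  exact ⟨k, (H.prim e (pw c k) he hk (left_pw h1 k) (pw_right h2 k)).symm⟩

theorem Hyp.efe {e : S} (he : e * e = e) (f : S) : ∃ k, pw (e * f * e) k = e := by
  apply H.grp he
  · rw [← mul_assoc, ← mul_assoc, he]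
  · rw [mul_assoc, he]

theorem Hyp.idem_mem {e f : S} (hf : f * f = f) : KI e f := by
  obtain ⟨k, hk⟩ := H.efe hf e
  have h1 : KI e (f * e * f) := ⟨f, f, rfl⟩
  rw [← hk]
  exact h1.pw k

theorem Hyp.pow_mem (e a : S) : ∃ k, KI e (pw a k) := by
  obtain ⟨k, hk⟩ := H.per a
  exact ⟨k, H.idem_mem hk⟩

/-- if `x = x Q` then `x` is in the ideal -/
theorem Hyp.mem_of_right {e x Q : S} (h : x = x * Q) : KI e x := by
  obtain ⟨k, hk⟩ := H.pow_mem e Q
  have h1 := pw_right (e := x) (x := x)
  have h2 : ∀ k, x * pw Q k = x := by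
    intro k
    induction k with
    | zero => exact h.symm
    | succ k ih =>
      change x * (pw Q k * Q) = x
      rw [← mul_assoc, ih, ← h]
  rw [← h2 k]
  exact hk.left x

theorem Hyp.mem_of_left {e x Q : S} (h : x = Q * x) : KI e x := by
  obtain ⟨k, hk⟩ := H.pow_mem e Q
  have h2 : ∀ k, pw Q k * x = x := by
    intro k
    induction k with
    | zero => exact h.symm
    | succ k ih =>
      change pw Q k * Q * x = x
      rw [mul_assoc, ← h, ih]
  rw [← h2 k]
  exact hk.right x

theorem Hyp.mem_of_two {e x Q R : S} (h : x = Q * x * R) : KI e x := by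
  obtain ⟨k, hk⟩ := H.pow_mem e Q
  have h2 : ∀ k, pw Q k * x * pw R k = x := by
    intro k
    induction k with
    | zero => exact h.symm
    | succ k ih =>
      have hR : pw R (k + 1) = R * pw R k := by
        have := pw_mul R 0 k
        rw [Nat.zero_add] at this
        exact this.symm
      rw [hR]
      change pw Q k * Q * x * (R * pw R k) = x
      calc pw Q k * Q * x * (R * pw R k) = pw Q k * (Q * x * R) * pw R k := by
            simp only [mul_assoc]
        _ = x := by rw [← h, ih]
  rw [← h2 k, mul_assoc]
  exact hk.right _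

end

/-- words of length at least three -/
theorem three_letters {α : Type v} (w : FreeSemigroup α) (hw : 3 ≤ w.length) : ∃ x y z : α,
    w = FreeSemigroup.of x * (FreeSemigroup.of y * FreeSemigroup.of z) ∨
    ∃ w', w = FreeSemigroup.of x * (FreeSemigroup.of y * (FreeSemigroup.of z * w')) := by
  obtain ⟨x, l⟩ := w
  match l with
  | [] => simp [FreeSemigroup.length] at hw
  | [_] => simp [FreeSemigroup.length] at hw
  | [y, z] => exact ⟨x, y, z, Or.inl rfl⟩
  | y :: z :: t :: l => exact ⟨x, y, z, Or.inr ⟨⟨t, l⟩, rfl⟩⟩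

theorem Hyp.three {S : Type u} [Semigroup S] (H : Hyp S) {α : Type v} {e a b : S}
    (ha : KI e (a * a)) (hb : KI e (b * b)) (s : α → S)
    (hs : ∀ i, s i = a ∨ s i = b ∨ KI e (s i)) (w : FreeSemigroup α) (hw : 3 ≤ w.length)
    (h : a * b = FreeSemigroup.lift s w) : KI e (a * b) := by
  obtain ⟨x, y, z, hxyz⟩ := three_letters w hw
  obtain ⟨R, hR, hRz⟩ : ∃ R : S, a * b = s x * (s y * R) ∧ (R = s z ∨ ∃ R', R = s z * R') := by
    rcases hxyz with rfl | ⟨w', rfl⟩
    · refine ⟨s z, ?_, Or.inl rfl⟩
      rw [h]; simp only [map_mul, FreeSemigroup.lift_of]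
    · refine ⟨s z * FreeSemigroup.lift s w', ?_, Or.inr ⟨_, rfl⟩⟩
      rw [h]; simp only [map_mul, FreeSemigroup.lift_of]
  rcases hs x with hx | hx | hx
  · rcases hs y with hy | hy | hy
    · rw [hR, hx, hy, ← mul_assoc]; exact ha.right _
    · rw [hx, hy, ← mul_assoc] at hR
      exact H.mem_of_right hR
    · rw [hR]; exact (hy.right _).left _
  · rcases hs y with hy | hy | hy
    · rcases hs z with hz | hz | hz
      · rcases hRz with hRz | ⟨R', hRz⟩
        · rw [hR, hy, hRz, hz]; exact ha.left _
        · rw [hR, hy, hRz, hz, ← mul_assoc a a R']; exact (ha.right _).left _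
      · rcases hRz with hRz | ⟨R', hRz⟩
        · rw [hx, hy, hRz, hz] at hR
          exact H.mem_of_left hR
        · rw [hx, hy, hRz, hz] at hR
          refine H.mem_of_two (Q := b) (R := R') ?_
          calc a * b = b * (a * (b * R')) := hR
            _ = b * (a * b) * R' := by simp only [mul_assoc]
      · rcases hRz with hRz | ⟨R', hRz⟩
        · rw [hR, hRz]; exact (hz.left _).left _
        · rw [hR, hRz]; exact ((hz.right _).left _).left _
    · rw [hR, hx, hy, ← mul_assoc]; exact hb.right _
    · rw [hR]; exact (hy.right _).left _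
  · rw [hR]; exact hx.right _

theorem map_lift {α : Type v} {S T : Type u} [Semigroup S] [Semigroup T] (π : S →ₙ* T) (s : α → S)
    (w : FreeSemigroup α) : π (FreeSemigroup.lift s w) = FreeSemigroup.lift (fun i => π (s i)) w := by
  induction w using FreeSemigroup.recOnMul with
  | ih1 x => simp only [FreeSemigroup.lift_of]
  | ih2 x y hx hy => rw [map_mul, map_mul, map_mul, hx, hy]

section
variable {V : SgClass.{u}} (hV : IsInclVariety V) (hc : (InclSub V).Countable)
  (hP : ProdClosed V)
include hV hc hP

theorem hyp (S : Type u) [Semigroup S] (hS : V S) : Hyp S := by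
  classical
  constructor
  · intro a
    exact exists_idem_pw ((necessary V hV hc).1 S hS a)
  · intro e f he hf hef hfe
    by_contra hne
    have hV4 : V (S × S × S × S) := hP _ _ hS (hP _ _ hS (hP _ _ hS hS))
    let c : Option (Finset (Fin 3)) → Fin 3 → S
      | none, _ => f
      | some s, i => if i ∈ s then f else e
    let d : Option (Finset (Fin 3)) → S
      | none => f
      | some _ => e
    refine no_b3 hV hc _ hV4 (fun x => (c x 0, c x 1, c x 2, d x)) ⟨?_, ?_, ?_⟩
    · intro x y hxy
      simp only [Prod.mk.injEq] at hxy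
      obtain ⟨h0, h1, h2, h3⟩ := hxy
      cases x with
      | none =>
        cases y with
        | none => rfl
        | some t => exact absurd h3 (Ne.symm hne)
      | some s =>
        cases y with
        | none => exact absurd h3 hne
        | some t =>
          congr 1
          have key : ∀ i, c (some s) i = c (some t) i → (i ∈ s ↔ i ∈ t) := by
            intro i hi
            simp only [c] at hi
            split_ifs at hi with h4 h5 h5
            · exact ⟨fun _ => h5, fun _ => h4⟩
            · exact absurd hi.symm hne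
            · exact absurd hi hne
            · exact ⟨fun h => absurd h h4, fun h => absurd h h5⟩
          ext i
          fin_cases i
          · exact key _ h0
          · exact key _ h1
          · exact key _ h2
    · intro s t
      have key : ∀ i, c (some s) i * c (some t) i = c (some (s ∪ t)) i := by
        intro i
        simp only [c, Finset.mem_union]
        by_cases h4 : i ∈ s <;> by_cases h5 : i ∈ t <;> simp [h4, h5, he, hf, hef, hfe]
      simp only [Prod.mk_mul_mk, key]
      simp only [d, he]
    · intro x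
      have key : ∀ i, c none i * c x i = c none i ∧ c x i * c none i = c none i := by
        intro i
        cases x with
        | none => exact ⟨hf, hf⟩
        | some s =>
          simp only [c]
          by_cases h4 : i ∈ s <;> simp [h4, hf, hef, hfe]
      have hd : d none * d x = d none ∧ d x * d none = d none := by
        cases x with
        | none => exact ⟨hf, hf⟩
        | some s => exact ⟨hfe, hef⟩
      simp only [Prod.mk_mul_mk, (key _).1, (key _).2, hd.1, hd.2, and_self]

theorem mul_mem (S : Type u) [Semigroup S] (hS : V S) (e : S) (he : e * e = e) (a b : S) :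
    KI e (a * b) := by
  have H := hyp hV hc hP S hS
  have hN := (necessary V hV hc).2.2.1
  rcases hN with hN | ⟨hN1, hN2⟩
  · -- first alternative
    have hsq : ∀ t : S, KI e (t * t) := by
      intro t
      have hV3 : V (S × S × S) := hP _ _ hS (hP _ _ hS hS)
      rcases hN _ hV3 (t, t, e) (t, e, t) with h | h | ⟨w, hw, h⟩
      · have h1 := congrArg (fun x : S × S × S => x.2.1) h
        simp only [Prod.mk_mul_mk] at h1
        rw [← h1]
        exact (KI.self he).left _
      · have h1 := congrArg (fun x : S × S × S => x.2.2) h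
        simp only [Prod.mk_mul_mk] at h1
        rw [← h1]
        exact (KI.self he).right _
      · have h1 := congrArg (MulHom.fst S (S × S)) h
        rw [map_lift] at h1
        have h2 : (fun i : Bool => MulHom.fst S (S × S)
            (cond i (t, t, e) (t, e, t))) = fun _ => t := by
          funext i; cases i <;> rfl
        rw [h2] at h1
        change t * t = _ at h1
        obtain ⟨x, y, z, hxyz⟩ := three_letters w hw
        rcases hxyz with rfl | ⟨w', rfl⟩
        · simp only [map_mul, FreeSemigroup.lift_of] at h1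
          rw [← mul_assoc] at h1
          exact H.mem_of_right h1
        · simp only [map_mul, FreeSemigroup.lift_of] at h1
          rw [← mul_assoc] at h1
          exact H.mem_of_right h1
    rcases hN S hS a b with h | h | ⟨w, hw, h⟩
    · rw [h]; exact hsq a
    · rw [h]; exact hsq b
    · refine H.three (hsq a) (hsq b) (fun c : Bool => cond c a b) ?_ w hw h
      intro i
      cases i
      · exact Or.inr (Or.inl rfl)
      · exact Or.inl rfl
  · -- second alternative
    have hsq : ∀ t : S, KI e (t * t) := by
      intro t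
      obtain ⟨n, hn, h⟩ := hN1 S hS t
      have h1 := pw_mul t 1 (n - 2)
      rw [show 1 + (n - 2) + 1 = n by omega, ← h] at h1
      exact H.mem_of_right h1.symm
    have hV6 : V (S × S × S × S × S × S) :=
      hP _ _ hS (hP _ _ hS (hP _ _ hS (hP _ _ hS (hP _ _ hS hS))))
    let x : S × S × S × S × S × S := (a, b, a, b, e, e)
    let y : S × S × S × S × S × S := (b, a, e, e, a, b)
    let z : S × S × S × S × S × S := (e, e, b, a, b, a)
    let s : ZMod (2 * 1 + 1) → S × S × S × S × S × S := fun i =>
      if i = 0 then x else if i = 1 then y else z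
    have hse : ∀ i, s i = x ∨ s i = y ∨ s i = z := by
      intro i
      simp only [s]
      split_ifs
      · exact Or.inl rfl
      · exact Or.inr (Or.inl rfl)
      · exact Or.inr (Or.inr rfl)
    -- the projections
    have fin : ∀ (π : S × S × S × S × S × S →ₙ* S) (i j : ZMod (2 * 1 + 1))
        (w : FreeSemigroup (ZMod (2 * 1 + 1))), 3 ≤ w.length → s i * s j = FreeSemigroup.lift s w →
        π (s i) = a → π (s j) = b → (π x = a ∨ π x = b ∨ π x = e) →
        (π y = a ∨ π y = b ∨ π y = e) → (π z = a ∨ π z = b ∨ π z = e) → KI e (a * b) := by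
      intro π i j w hw h hi hj hx hy hz
      have h1 := congrArg π h
      rw [map_mul, hi, hj, map_lift] at h1
      refine H.three (hsq a) (hsq b) _ ?_ w hw h1
      intro k
      have hk : π (s k) = a ∨ π (s k) = b ∨ π (s k) = e := by
        rcases hse k with h2 | h2 | h2 <;> rw [h2] <;> assumption
      rcases hk with h3 | h3 | h3
      · exact Or.inl h3
      · exact Or.inr (Or.inl h3)
      · refine Or.inr (Or.inr ?_)
        change KI e (π (s k))
        rw [h3]
        exact KI.self he
    let π1 : S × S × S × S × S × S →ₙ* S := MulHom.fst _ _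
    let σ1 : S × S × S × S × S × S →ₙ* S × S × S × S × S := MulHom.snd _ _
    let σ2 : S × S × S × S × S × S →ₙ* S × S × S × S := (MulHom.snd _ _).comp σ1
    let σ3 : S × S × S × S × S × S →ₙ* S × S × S := (MulHom.snd _ _).comp σ2
    let σ4 : S × S × S × S × S × S →ₙ* S × S := (MulHom.snd _ _).comp σ3
    let π2 : S × S × S × S × S × S →ₙ* S := (MulHom.fst _ _).comp σ1
    let π3 : S × S × S × S × S × S →ₙ* S := (MulHom.fst _ _).comp σ2
    let π4 : S × S × S × S × S × S →ₙ* S := (MulHom.fst _ _).comp σ3
    let π5 : S × S × S × S × S × S →ₙ* S := (MulHom.fst _ _).comp σ4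
    let π6 : S × S × S × S × S × S →ₙ* S := (MulHom.snd _ _).comp σ4
    have hi3 : ∀ i : ZMod (2 * 1 + 1), i = 0 ∨ i = 1 ∨ i = 2 := by decide
    obtain ⟨i, w, hw, h⟩ := hN2 _ hV6 1 one_pos s
    have hi := hi3 i
    have s0 : s 0 = x := rfl
    have s1 : s 1 = y := rfl
    have s2 : s 2 = z := rfl
    rcases hi with rfl | rfl | rfl
    · rcases h with h | h
      · exact fin π1 0 (0 + 1) w hw h rfl rfl (Or.inl rfl) (Or.inr (Or.inl rfl))
          (Or.inr (Or.inr rfl))
      · exact fin π2 (0 + 1) 0 w hw h rfl rfl (Or.inr (Or.inl rfl)) (Or.inl rfl)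
          (Or.inr (Or.inr rfl))
    · rcases h with h | h
      · exact fin π5 1 (1 + 1) w hw h rfl rfl (Or.inr (Or.inr rfl)) (Or.inl rfl)
          (Or.inr (Or.inl rfl))
      · exact fin π6 (1 + 1) 1 w hw h rfl rfl (Or.inr (Or.inr rfl)) (Or.inr (Or.inl rfl))
          (Or.inl rfl)
    · rcases h with h | h
      · exact fin π4 2 (2 + 1) w hw h rfl rfl (Or.inr (Or.inl rfl)) (Or.inr (Or.inr rfl))
          (Or.inl rfl)
      · exact fin π3 (2 + 1) 2 w hw h rfl rfl (Or.inl rfl) (Or.inr (Or.inr rfl))
          (Or.inr (Or.inl rfl))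

end

theorem pw_peq {S : Type u} [Semigroup S] {e : S} (he : e * e = e) (p q : S) (k : ℕ) :
    pw (p * e * q) (k + 1) = p * pw (e * (q * p) * e) k * q := by
  induction k with
  | zero =>
    change p * e * q * (p * e * q) = p * (e * (q * p) * e) * q
    simp only [mul_assoc]
  | succ k ih =>
    change pw (p * e * q) (k + 1) * (p * e * q) = p * (pw (e * (q * p) * e) k *
      (e * (q * p) * e)) * q
    have h1 : pw (e * (q * p) * e) k * e = pw (e * (q * p) * e) k :=
      pw_right (by rw [mul_assoc, he]) k
    rw [ih]
    calc p * pw (e * (q * p) * e) k * q * (p * e * q)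
        = p * (pw (e * (q * p) * e) k * ((q * p) * e)) * q := by simp only [mul_assoc]
      _ = p * (pw (e * (q * p) * e) k * e * ((q * p) * e)) * q := by rw [h1]
      _ = p * (pw (e * (q * p) * e) k * (e * (q * p) * e)) * q := by simp only [mul_assoc]

section
variable {V : SgClass.{u}} (hV : IsInclVariety V) (hc : (InclSub V).Countable)
  (hP : ProdClosed V)
include hV hc hP

/-- products are of finite order -/
theorem exists_pw_eq (S : Type u) [Semigroup S] (hS : V S) (x y : S) :
    ∃ m, pw (x * y) (m + 1) = x * y := by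
  have H := hyp hV hc hP S hS
  obtain ⟨k, he⟩ := H.per x
  obtain ⟨p, q, hpq⟩ := mul_mem hV hc hP S hS _ he x y
  obtain ⟨m, hm⟩ := H.efe he (q * p)
  refine ⟨m, ?_⟩
  rw [hpq, pw_peq he, hm]

/-- **Part 2.** -/
theorem completely_simple (S : Type u) [Semigroup S] (hS : V S) (x y z : S) :
    ∃ n, pw (x * y * z) n * (x * y) = x * y := by
  have H := hyp hV hc hP S hS
  obtain ⟨m, hm⟩ := exists_pw_eq hV hc hP S hS x y
  generalize x * y = a at *
  set f := pw a m with hf
  have hfa : f * a = a := hm
  have hff : f * f = f := left_pw hfa m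
  obtain ⟨n, hn⟩ := H.per (a * z)
  refine ⟨n, ?_⟩
  set e1 := pw (a * z) n with he1
  have h1 : f * e1 = e1 := left_pw (by rw [← mul_assoc, hfa]) n
  obtain ⟨k, hk⟩ := H.efe hff e1
  rw [h1] at hk
  have h2 : e1 * f = f := by
    have h3 := left_pw (e := e1) (x := e1 * f) (by rw [← mul_assoc, hn]) k
    rwa [hk] at h3
  calc e1 * a = e1 * (f * a) := by rw [hfa]
    _ = e1 * f * a := by rw [mul_assoc]
    _ = a := by rw [h2, hfa]

/-- the aperiodic case -/
theorem id5_of_aperiodic (S : Type u) [Semigroup S] (hS : V S)
    (hA : ∀ a : S, ∃ n, pw a (n + 1) = pw a n) : Id5 S := by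
  have hid : ∀ x y : S, x * y * (x * y) = x * y := by
    intro x y
    obtain ⟨m, hm⟩ := exists_pw_eq hV hc hP S hS x y
    obtain ⟨n, hn⟩ := hA (x * y)
    generalize x * y = a at *
    have h1 : pw a 0 = pw a (m + 1) := hm.symm
    have h2 := pw_stab (Nat.succ_pos m) h1 0 n le_rfl
    have h3 := pw_stab (Nat.lt_succ_self n) hn.symm n
    have h4 : ∀ j, n ≤ j → pw a j = pw a n := by
      intro j hj
      have := h3 (j - n) le_rfl
      rw [show n + 1 - n = 1 by omega, Nat.mul_one, show n + (j - n) = j by omega] at this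
      exact this
    have h5 : n ≤ 0 + n * (m + 1 - 0) := by
      rw [Nat.zero_add, Nat.sub_zero]
      exact Nat.le_mul_of_pos_right n (Nat.succ_pos m)
    rw [h4 _ h5] at h2
    have h6 : a = pw a n := h2.symm
    calc a * a = pw a n * a := by rw [← h6]
      _ = pw a (n + 1) := rfl
      _ = a := by rw [hn, ← h6]
  intro x y z
  obtain ⟨n, hn⟩ := completely_simple hV hc hP S hS x y z
  have h1 : pw (x * y * z) n = x * y * z := by
    have h2 := hid (x * y) z
    clear hn
    induction n with
    | zero => rfl
    | succ n ih =>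
      change pw (x * y * z) n * (x * y * z) = x * y * z
      rw [ih, h2]
  rw [h1] at hn
  exact hn

end

end Pool.Agent.helper45.Inc
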