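import Mathlib
import Pool.Agent.helper45.Inc.Unc

/-!
# An antichain of Rees matrix semigroups over a cyclic group
-/

universe u v

open Pool.Agent.helper9.Incl

namespace Pool.Agent.helper45.Inc

/-- The Rees matrix semigroup over `ZMod N` with sandwich matrix `A`. -/
@[ext] structure RM (N : ℕ) (I L : Type) (A : L → I → ZMod N) : Type u where
  i : I
  g : ZMod N
  l : L

namespace RM

variable {N : ℕ} {I L : Type} {A : L → I → ZMod N}

instance : Semigroup (RM.{u} N I L A) where
  mul x y := ⟨x.i, x.g + A x.l y.i + y.g, y.l⟩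
  mul_assoc x y z := by
    change (⟨x.i, x.g + A x.l y.i + y.g + A y.l z.i + z.g, z.l⟩ : RM.{u} N I L A) =
      ⟨x.i, x.g + A x.l y.i + (y.g + A y.l z.i + z.g), z.l⟩
    congr 1
    ring

theorem mul_i (x y : RM.{u} N I L A) : (x * y).i = x.i := rfl
theorem mul_l (x y : RM.{u} N I L A) : (x * y).l = y.l := rfl
theorem mul_g (x y : RM.{u} N I L A) : (x * y).g = x.g + A x.l y.i + y.g := rfl

end RM

/-! ### Families with separating inclusions -/

theorem continuum_of_antichain {V : SgClass.{u}} (hV : IsInclVariety V) (T : ℕ → Type u)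
    [∀ n, Semigroup (T n)] (hT : ∀ n, V (T n))
    (hk : ∀ n, ∃ (u : Word) (φ : Word →ₙ* T n), ∀ k, k ≠ n → ∀ ψ : Word →ₙ* T k,
      ∃ w, ψ u = ψ w ∧ φ u ≠ φ w) :
    ∃ F : Set ℕ → SgClass.{u}, Function.Injective F ∧ ∀ A, F A ∈ InclSub V := by
  let F : Set ℕ → SgClass.{u} := fun A => genF (fun k : A => T k.1)
  have hF : ∀ A, F A ∈ InclSub V := fun A => genF_mem_sub hV _ fun k => hT k.1
  have hsub : ∀ A B : Set ℕ, F A = F B → A ⊆ B := by
    intro A B hAB n hn
    by_contra hnB
    have h1 : F A (T n) := genF_mem (fun k : A => T k.1) ⟨n, hn⟩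
    rw [hAB] at h1
    obtain ⟨u, φ, h2⟩ := hk n
    obtain ⟨v, hv, hvu⟩ := h1 u {w | φ u ≠ φ w} (by
      rintro ⟨k, hk⟩ ψ
      have hnk : k ≠ n := fun h => hnB (h ▸ hk)
      obtain ⟨w, h1, h2⟩ := h2 k hnk ψ
      exact ⟨w, h2, h1⟩) φ
    exact hv hvu
  exact ⟨F, fun A B hAB => Set.Subset.antisymm (hsub A B hAB) (hsub B A hAB.symm), hF⟩

theorem not_countable_of_continuum {V : SgClass.{u}}
    (h : ∃ F : Set ℕ → SgClass.{u}, Function.Injective F ∧ ∀ A, F A ∈ InclSub V) :
    ¬ (InclSub V).Countable := by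
  intro hc
  obtain ⟨F, hinj, hF⟩ := h
  have h1 : (Set.range F).Countable := hc.mono (by rintro _ ⟨A, rfl⟩; exact hF A)
  have h2 : Countable (Set ℕ) := by
    have := h1.to_subtype
    exact Function.Injective.countable (f := Set.rangeFactorization F)
      (fun A B h => hinj (congrArg Subtype.val h))
  obtain ⟨f, hf⟩ := exists_injective_nat (Set ℕ)
  exact Function.cantor_injective f hf

/-! ### The cycle matrices -/

/-- the matrix of a cycle of length `2 n` -/
def Cy (N n : ℕ) (l i : ZMod n) : ZMod N := if i = l ∨ i = l + 1 then 1 else 0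

/-- the Rees matrix semigroup of a cycle -/
abbrev CS (N n : ℕ) : Type u := RM.{u} N (ZMod n) (ZMod n) (Cy N n)

theorem cy_one {N n : ℕ} (hN : 2 ≤ N) {l i : ZMod n} : Cy N n l i = 1 ↔ (i = l ∨ i = l + 1) := by
  have : Fact (1 < N) := ⟨by omega⟩
  unfold Cy
  split_ifs with h
  · simp [h]
  · simp [h]

theorem cy_zero {N n : ℕ} (hN : 2 ≤ N) {l i : ZMod n} :
    Cy N n l i = 0 ↔ ¬ (i = l ∨ i = l + 1) := by
  have : Fact (1 < N) := ⟨by omega⟩
  unfold Cy
  split_ifs with h
  · simp [h]
  · simp [h]

section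
variable {N : ℕ} [NeZero N] {I L I' L' : Type} {A : L → I → ZMod N} {B : L' → I' → ZMod N}

/-- the twisted value of a word -/
def cc (ψ : Word →ₙ* RM.{u} N I L A) (u z : Word) : ZMod N :=
  (ψ z).g + A (ψ u).l (ψ z).i + A (ψ z).l (ψ u).i + (ψ u).g

/-- `u z₁ u z₂ u ... z_k u` -/
def ins (u : Word) : List Word → Word
  | [] => u
  | z :: L => u * z * ins u L

omit [NeZero N] in
theorem ins_val (ψ : Word →ₙ* RM.{u} N I L A) (u : Word) (Z : List Word) :
    ψ (ins u Z) = ⟨(ψ u).i, (ψ u).g + (Z.map (cc ψ u)).sum, (ψ u).l⟩ := by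
  induction Z with
  | nil => simp [ins]
  | cons z Z ih =>
    rw [ins, map_mul, map_mul, ih, List.map_cons, List.sum_cons]
    ext
    · rfl
    · rw [RM.mul_g, RM.mul_g, RM.mul_l]
      simp only [cc]
      ring
    · rfl

theorem comb (ψ : Word →ₙ* RM.{u} N I L A) (φ : Word →ₙ* RM.{u} N I' L' B) (u : Word)
    (h : ∀ w, ψ u = ψ w → φ u = φ w) (Z₁ Z₂ : List Word)
    (hZ : (Z₁.map (cc ψ u)).sum = (Z₂.map (cc ψ u)).sum) :
    (Z₁.map (cc φ u)).sum = (Z₂.map (cc φ u)).sum := by
  have hsum : ∀ (f : Word → ZMod N) (k : ℕ), (((List.replicate k Z₂).flatten).map f).sum =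
      k * (Z₂.map f).sum := by
    intro f k
    induction k with
    | zero => simp
    | succ k ih =>
      rw [List.replicate_succ, List.flatten_cons, List.map_append, List.sum_append, ih]
      push_cast; ring
  have hN : ((N - 1 : ℕ) : ZMod N) = -1 := by
    rw [Nat.cast_sub (Nat.one_le_iff_ne_zero.mpr (NeZero.ne N))]
    simp
  have h1 := ins_val ψ u (Z₁ ++ (List.replicate (N - 1) Z₂).flatten)
  have h2 := ins_val φ u (Z₁ ++ (List.replicate (N - 1) Z₂).flatten)
  rw [List.map_append, List.sum_append, hsum, hN] at h1 h2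
  rw [hZ] at h1
  have h3 : ψ (ins u (Z₁ ++ (List.replicate (N - 1) Z₂).flatten)) = ψ u := by
    rw [h1]
    ext
    · rfl
    · simp
    · rfl
  have h4 := h _ h3.symm
  rw [h2] at h4
  have h5 := congrArg RM.g h4
  simp only at h5
  have h6 : (Z₁.map (cc φ u)).sum + -1 * (Z₂.map (cc φ u)).sum = 0 := by
    have : (φ u).g + 0 = (φ u).g + ((Z₁.map (cc φ u)).sum + -1 * (Z₂.map (cc φ u)).sum) := by
      rw [add_zero]; exact h5
    exact (add_left_cancel this).symm
  rw [neg_one_mul, ← sub_eq_add_neg, sub_eq_zero] at h6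
  exact h6

omit [NeZero N] in
theorem cc_mul (ψ : Word →ₙ* RM.{u} N I L A) (u x y : Word) :
    cc ψ u (x * y) = A (ψ x).l (ψ y).i + ((ψ x).g + A (ψ u).l (ψ x).i) +
      ((ψ y).g + A (ψ y).l (ψ u).i + (ψ u).g) := by
  simp only [cc, map_mul, RM.mul_g, RM.mul_i, RM.mul_l]
  ring

/-- cross ratios -/
theorem cross (ψ : Word →ₙ* RM.{u} N I L A) (φ : Word →ₙ* RM.{u} N I' L' B) (u : Word)
    (h : ∀ w, ψ u = ψ w → φ u = φ w) (x y x' y' p q p' q' : Word)
    (h1 : A (ψ x).l (ψ y).i + A (ψ x').l (ψ y').i + A (ψ p').l (ψ q).i + A (ψ p).l (ψ q').i =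
      A (ψ x').l (ψ y).i + A (ψ x).l (ψ y').i + A (ψ p).l (ψ q).i + A (ψ p').l (ψ q').i) :
    B (φ x).l (φ y).i + B (φ x').l (φ y').i + B (φ p').l (φ q).i + B (φ p).l (φ q').i =
      B (φ x').l (φ y).i + B (φ x).l (φ y').i + B (φ p).l (φ q).i + B (φ p').l (φ q').i := by
  have h2 := comb ψ φ u h [x * y, x' * y', p' * q, p * q'] [x' * y, x * y', p * q, p' * q'] (by
    simp only [List.map_cons, List.map_nil, List.sum_cons, List.sum_nil, cc_mul]
    linear_combination h1)
  simp only [List.map_cons, List.map_nil, List.sum_cons, List.sum_nil, cc_mul] at h2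
  linear_combination h2

end

/-- two points of `ZMod n` outside a small set -/
theorem exists_avoid {n : ℕ} [NeZero n] (s : Finset (ZMod n)) (hs : s.card < n) :
    ∃ x, x ∉ s := by
  by_contra hcon
  push Not at hcon
  have h1 : s = Finset.univ := Finset.eq_univ_of_forall hcon
  rw [h1, Finset.card_univ, ZMod.card] at hs
  exact lt_irrefl _ hs

theorem rees_kernel {N n m : ℕ} (hN : 2 ≤ N) (hn : 9 ≤ n) (hnm : n ≠ m)
    (ψ : Word →ₙ* CS.{u} N m) :
    ∃ w : Word, ψ (FreeSemigroup.of 0) = ψ w ∧
      FreeSemigroup.lift (fun y : ℕ => (⟨(y : ZMod n), 0, (y : ZMod n)⟩ : CS.{u} N n))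
        (FreeSemigroup.of 0) ≠
      FreeSemigroup.lift (fun y : ℕ => (⟨(y : ZMod n), 0, (y : ZMod n)⟩ : CS.{u} N n)) w := by
  classical
  have : NeZero N := ⟨by omega⟩
  have : NeZero n := ⟨by omega⟩
  have : Fact (1 < N) := ⟨by omega⟩
  by_contra hcon
  push Not at hcon
  set φ : Word →ₙ* CS.{u} N n :=
    FreeSemigroup.lift (fun y : ℕ => (⟨(y : ZMod n), 0, (y : ZMod n)⟩ : CS.{u} N n)) with hφ
  have hφi : ∀ x : ZMod n, (φ (FreeSemigroup.of x.val)).i = x := by
    intro x; rw [hφ, FreeSemigroup.lift_of]; exact ZMod.natCast_zmod_val x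
  have hφl : ∀ x : ZMod n, (φ (FreeSemigroup.of x.val)).l = x := by
    intro x; rw [hφ, FreeSemigroup.lift_of]; exact ZMod.natCast_zmod_val x
  let β : ZMod n → ZMod m := fun x => (ψ (FreeSemigroup.of x.val)).l
  let α : ZMod n → ZMod m := fun x => (ψ (FreeSemigroup.of x.val)).i
  let a : ZMod n → ZMod n → ZMod N := fun x y => Cy N n x y
  let b : ZMod n → ZMod n → ZMod N := fun x y => Cy N m (β x) (α y)
  have hcross : ∀ x y x' y' p q p' q' : ZMod n,
      b x y + b x' y' + b p' q + b p q' = b x' y + b x y' + b p q + b p' q' →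
      a x y + a x' y' + a p' q + a p q' = a x' y + a x y' + a p q + a p' q' := by
    intro x y x' y' p q p' q' h
    have := cross ψ φ (FreeSemigroup.of 0) hcon (FreeSemigroup.of x.val) (FreeSemigroup.of y.val)
      (FreeSemigroup.of x'.val) (FreeSemigroup.of y'.val) (FreeSemigroup.of p.val)
      (FreeSemigroup.of q.val) (FreeSemigroup.of p'.val) (FreeSemigroup.of q'.val) h
    simp only [hφi, hφl] at this
    exact this
  have hcross1 : ∀ x y x' y' : ZMod n, b x y + b x' y' = b x' y + b x y' →
      a x y + a x' y' = a x' y + a x y' := by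
    intro x y x' y' h
    have := hcross x y x' y' x x x x (by linear_combination h)
    linear_combination this
  -- rows and columns of `a` determine the index
  have hrow : ∀ x x' : ZMod n, (∀ y y', a x y + a x' y' = a x' y + a x y') → x = x' := by
    intro x x' h
    by_contra hne
    obtain ⟨y', hy'⟩ := exists_avoid ({x, x + 1, x', x' + 1} : Finset (ZMod n))
      (lt_of_le_of_lt Finset.card_le_four (by omega))
    simp only [Finset.mem_insert, Finset.mem_singleton, not_or] at hy'
    have h1 : a x y' = 0 := (cy_zero hN).mpr (by tauto)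
    have h2 : a x' y' = 0 := (cy_zero hN).mpr (by tauto)
    have h3 : ∀ y, a x y = a x' y := by
      intro y; have := h y y'; rw [h1, h2] at this; linear_combination this
    have h4 : a x' x = 1 := by rw [← h3 x]; exact (cy_one hN).mpr (Or.inl rfl)
    have h5 : a x' (x + 1) = 1 := by rw [← h3 (x + 1)]; exact (cy_one hN).mpr (Or.inr rfl)
    have h6 : a x x' = 1 := by rw [h3 x']; exact (cy_one hN).mpr (Or.inl rfl)
    rcases (cy_one hN).mp h4 with h7 | h7
    · exact hne h7
    · rcases (cy_one hN).mp h6 with h8 | h8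
      · exact hne h8.symm
      · -- `x = x' + 1` and `x' = x + 1`
        have h9 : (2 : ZMod n) = 0 := by
          have : x = x + 1 + 1 := by rw [← h8]; exact h7
          have h10 : x + 0 = x + (1 + 1) := by rw [add_zero, ← add_assoc]; exact this
          have h11 := add_left_cancel h10
          rw [← one_add_one_eq_two]; exact h11.symm
        have h10 : ((2 : ℕ) : ZMod n) = 0 := by exact_mod_cast h9
        rw [ZMod.natCast_eq_zero_iff] at h10
        have := Nat.le_of_dvd (by omega) h10
        omega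
  have hcol : ∀ y y' : ZMod n, (∀ x x', a x y + a x' y' = a x' y + a x y') → y = y' := by
    intro y y' h
    by_contra hne
    obtain ⟨x', hx'⟩ := exists_avoid ({y, y - 1, y', y' - 1} : Finset (ZMod n))
      (lt_of_le_of_lt Finset.card_le_four (by omega))
    simp only [Finset.mem_insert, Finset.mem_singleton, not_or] at hx'
    have e1 : ∀ z : ZMod n, x' ≠ z - 1 → z ≠ x' + 1 := by
      intro z hz h; apply hz; rw [h]; ring
    have h1 : a x' y = 0 := (cy_zero hN).mpr (by
      rintro (h | h)
      · exact hx'.1 h.symm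
      · exact e1 y hx'.2.1 h)
    have h2 : a x' y' = 0 := (cy_zero hN).mpr (by
      rintro (h | h)
      · exact hx'.2.2.1 h.symm
      · exact e1 y' hx'.2.2.2 h)
    have h3 : ∀ x, a x y = a x y' := by
      intro x; have := h x x'; rw [h1, h2] at this; linear_combination this
    have h4 : a y y' = 1 := by rw [← h3 y]; exact (cy_one hN).mpr (Or.inl rfl)
    have h6 : a y' y = 1 := by rw [h3 y']; exact (cy_one hN).mpr (Or.inl rfl)
    rcases (cy_one hN).mp h4 with h7 | h7
    · exact hne h7.symm
    · rcases (cy_one hN).mp h6 with h8 | h8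
      · exact hne h8
      · have h9 : (2 : ZMod n) = 0 := by
          have : y = y + 1 + 1 := by rw [← h7]; exact h8
          have h10 : y + 0 = y + (1 + 1) := by rw [add_zero, ← add_assoc]; exact this
          have h11 := add_left_cancel h10
          rw [← one_add_one_eq_two]; exact h11.symm
        have h10 : ((2 : ℕ) : ZMod n) = 0 := by exact_mod_cast h9
        rw [ZMod.natCast_eq_zero_iff] at h10
        have := Nat.le_of_dvd (by omega) h10
        omega
  have hβ : Function.Injective β := by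
    intro x x' hxx
    apply hrow
    intro y y'
    apply hcross1
    simp only [b, hxx]
  have hα : Function.Injective α := by
    intro y y' hyy
    apply hcol
    intro x x'
    apply hcross1
    simp only [b, hyy]
    ring
  -- few non-zero entries
  let bad1 : ZMod n → Finset (ZMod n) := fun x => Finset.univ.filter fun y => b x y = 1
  let bad2 : ZMod n → Finset (ZMod n) := fun y => Finset.univ.filter fun x => b x y = 1
  have hbad1 : ∀ x, (bad1 x).card ≤ 2 := by
    intro x
    have : (bad1 x).image α ⊆ {β x, β x + 1} := by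
      intro z hz
      rw [Finset.mem_image] at hz
      obtain ⟨y, hy, rfl⟩ := hz
      rw [Finset.mem_filter] at hy
      have := (cy_one hN).mp hy.2
      simp only [Finset.mem_insert, Finset.mem_singleton]
      exact this
    have h2 := Finset.card_le_card this
    rw [Finset.card_image_of_injective _ hα] at h2
    exact h2.trans Finset.card_le_two
  have hbad2 : ∀ y, (bad2 y).card ≤ 2 := by
    intro y
    have : (bad2 y).image β ⊆ {α y, α y - 1} := by
      intro z hz
      rw [Finset.mem_image] at hz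
      obtain ⟨x, hx, rfl⟩ := hz
      rw [Finset.mem_filter] at hx
      have := (cy_one hN).mp hx.2
      simp only [Finset.mem_insert, Finset.mem_singleton]
      rcases this with h | h
      · exact Or.inl h.symm
      · right; rw [h]; ring
    have h2 := Finset.card_le_card this
    rw [Finset.card_image_of_injective _ hβ] at h2
    exact h2.trans Finset.card_le_two
  have hb01 : ∀ x y, b x y = 0 ∨ b x y = 1 := by
    intro x y
    by_cases h : α y = β x ∨ α y = β x + 1
    · exact Or.inr ((cy_one hN).mpr h)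
    · exact Or.inl ((cy_zero hN).mpr h)
  have ha01 : ∀ x y, a x y = 0 ∨ a x y = 1 := by
    intro x y
    by_cases h : y = x ∨ y = x + 1
    · exact Or.inr ((cy_one hN).mpr h)
    · exact Or.inl ((cy_zero hN).mpr h)
  -- isolating an entry
  have hiso : ∀ x y, ∃ x' y', b x' y = 0 ∧ b x y' = 0 ∧ b x' y' = 0 ∧ a x' y = 0 ∧ a x y' = 0 ∧
      a x' y' = 0 := by
    intro x y
    obtain ⟨y', hy'⟩ := exists_avoid (bad1 x ∪ {x, x + 1}) (by
      refine lt_of_le_of_lt (Finset.card_union_le _ _) ?_
      have h1 := hbad1 x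
      have h2 : ({x, x + 1} : Finset (ZMod n)).card ≤ 2 := Finset.card_le_two
      omega)
    obtain ⟨x', hx'⟩ := exists_avoid (bad2 y ∪ {y, y - 1} ∪ (bad2 y' ∪ {y', y' - 1})) (by
      refine lt_of_le_of_lt (Finset.card_union_le _ _) ?_
      have h0 := Finset.card_union_le (bad2 y) {y, y - 1}
      have h0' := Finset.card_union_le (bad2 y') {y', y' - 1}
      have h1 := hbad2 y
      have h1' := hbad2 y'
      have h2 : ({y, y - 1} : Finset (ZMod n)).card ≤ 2 := Finset.card_le_two
      have h2' : ({y', y' - 1} : Finset (ZMod n)).card ≤ 2 := Finset.card_le_two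
      omega)
    simp only [Finset.mem_union, Finset.mem_insert, Finset.mem_singleton, not_or, bad1, bad2,
      Finset.mem_filter, Finset.mem_univ, true_and] at hx' hy'
    have e1 : ∀ z : ZMod n, x' ≠ z - 1 → z ≠ x' + 1 := by
      intro z hz h; apply hz; rw [h]; ring
    refine ⟨x', y', (hb01 _ _).resolve_right hx'.1.1, (hb01 _ _).resolve_right hy'.1,
      (hb01 _ _).resolve_right hx'.2.1, (cy_zero hN).mpr ?_, (cy_zero hN).mpr ?_,
      (cy_zero hN).mpr ?_⟩
    · rintro (h | h)
      · exact hx'.1.2.1 h.symm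
      · exact e1 _ hx'.1.2.2 h
    · rintro (h | h)
      · exact hy'.2.1 h
      · exact hy'.2.2 h
    · rintro (h | h)
      · exact hx'.2.2.1 h.symm
      · exact e1 _ hx'.2.2.2 h
  have hzero : ∀ x y, b x y = 0 → a x y = 0 := by
    intro x y h
    obtain ⟨x', y', h1, h2, h3, h4, h5, h6⟩ := hiso x y
    have := hcross1 x y x' y' (by rw [h, h1, h2, h3])
    rw [h4, h5, h6] at this
    linear_combination this
  have hconst : ∀ x y p q, b x y = 1 → b p q = 1 → a x y = a p q := by
    intro x y p q h h'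
    obtain ⟨x', y', h1, h2, h3, h4, h5, h6⟩ := hiso x y
    obtain ⟨p', q', k1, k2, k3, k4, k5, k6⟩ := hiso p q
    have := hcross x y x' y' p q p' q' (by rw [h, h1, h2, h3, h', k1, k2, k3]; ring)
    rw [h4, h5, h6, k4, k5, k6] at this
    linear_combination this
  have hab1 : ∀ x y, b x y = 1 → a x y = 1 := by
    intro x y h
    have h1 : a x x = 1 := (cy_one hN).mpr (Or.inl rfl)
    have h2 : b x x = 1 := by
      rcases hb01 x x with h3 | h3
      · rw [hzero x x h3] at h1; exact absurd h1 zero_ne_one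
      · exact h3
    rw [hconst x y x x h h2, h1]
  have hba1 : ∀ x y, a x y = 1 → b x y = 1 := by
    intro x y h
    rcases hb01 x y with h3 | h3
    · rw [hzero x y h3] at h; exact absurd h zero_ne_one
    · exact h3
  -- consecutive values
  have hstep : ∀ x : ZMod n, (α x = β x ∧ α (x + 1) = β x + 1) ∨
      (α x = β x + 1 ∧ α (x + 1) = β x) := by
    intro x
    have h1 := (cy_one hN).mp (hba1 x x ((cy_one hN).mpr (Or.inl rfl)))
    have h2 := (cy_one hN).mp (hba1 x (x + 1) ((cy_one hN).mpr (Or.inr rfl)))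
    have h3 : α x ≠ α (x + 1) := by
      intro h
      have h4 : x + 0 = x + 1 := by rw [add_zero]; exact hα h
      have h5 : (0 : ZMod n) = 1 := add_left_cancel h4
      have h6 : ((1 : ℕ) : ZMod n) = 0 := by rw [Nat.cast_one]; exact h5.symm
      rw [ZMod.natCast_eq_zero_iff] at h6
      have := Nat.le_of_dvd (by omega) h6
      omega
    rcases h1 with h1 | h1 <;> rcases h2 with h2 | h2
    · exact absurd (h1.trans h2.symm) h3
    · exact Or.inl ⟨h1, h2⟩
    · exact Or.inr ⟨h1, h2⟩
    · exact absurd (h1.trans h2.symm) h3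
  have hcons : ∀ x : ZMod n, α (x + 1) = α x + 1 ∨ α x = α (x + 1) + 1 := by
    intro x
    rcases hstep x with ⟨h1, h2⟩ | ⟨h1, h2⟩
    · left; rw [h2, h1]
    · right; rw [h2, h1]
  have h2ne : ∀ x : ZMod n, α x ≠ α (x + 2) := by
    intro x h
    have h4 : x + 0 = x + 2 := by rw [add_zero]; exact hα h
    have h5 : (0 : ZMod n) = 2 := add_left_cancel h4
    have h6 : ((2 : ℕ) : ZMod n) = 0 := by exact_mod_cast h5.symm
    rw [ZMod.natCast_eq_zero_iff] at h6
    have := Nat.le_of_dvd (by omega) h6
    omega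
  let f : ℤ → ZMod m := fun x => α (x : ZMod n)
  have hfcons : ∀ i, f (i + 1) = f i + 1 ∨ f i = f (i + 1) + 1 := by
    intro i
    have := hcons (i : ZMod n)
    simp only [f, Int.cast_add, Int.cast_one]
    exact this
  have hf2 : ∀ i, f i ≠ f (i + 2) := by
    intro i
    have := h2ne (i : ZMod n)
    simp only [f, Int.cast_add, Int.cast_ofNat]
    exact this
  have hsign : (∀ i, f (i + 1) = f i + 1) ∨ (∀ i, f (i + 1) = f i + (-1)) := by
    let c : ℤ → Prop := fun i => f (i + 1) = f i + 1
    have hc : ∀ i, c i = c (i + 1) := by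
      intro i
      have a1 := hfcons i
      have a2 := hfcons (i + 1)
      have a3 := hf2 i
      rw [show i + 1 + 1 = i + 2 by ring] at a2
      simp only [c, show i + 1 + 1 = i + 2 by ring]
      apply propext
      constructor
      · intro h1
        rcases a2 with a2 | a2
        · exact a2
        · exfalso; apply a3
          have : f i + 1 = f (i + 2) + 1 := by rw [← h1, a2]
          exact add_right_cancel this
      · intro h1
        rcases a1 with a1 | a1
        · exact a1
        · exfalso; apply a3; rw [a1, h1]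
    have hconst := const_of_succ hc
    by_cases h0 : c 0
    · left
      intro i
      have : c i := by rw [hconst i 0]; exact h0
      exact this
    · right
      intro i
      have : ¬ c i := by rw [hconst i 0]; exact h0
      rcases hfcons i with h1 | h1
      · exact absurd h1 this
      · rw [h1]; ring
  have hrun : ∃ s : ZMod m, (s = 1 ∨ s = -1) ∧ ∀ i, f (i + 1) = f i + s := by
    rcases hsign with h1 | h1
    · exact ⟨1, Or.inl rfl, h1⟩
    · exact ⟨-1, Or.inr rfl, h1⟩
  obtain ⟨s, hs, hf⟩ := hrun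
  have hk : ∀ k : ℕ, f k = f 0 + k * s := by
    intro k
    induction k with
    | zero => simp
    | succ k ih =>
      push_cast
      rw [hf, ih]; ring
  have hns : ∀ k : ℕ, ((k : ZMod m) * s = 0) ↔ m ∣ k := by
    intro k
    rw [← ZMod.natCast_eq_zero_iff]
    rcases hs with rfl | rfl <;> simp
  have hinj : ∀ k : ℕ, f k = f 0 → n ∣ k := by
    intro k h
    simp only [f, Int.cast_natCast, Int.cast_zero] at h
    exact (ZMod.natCast_eq_zero_iff _ _).mp (hα h)
  have hmn : m ∣ n := by
    rw [← hns n]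
    have h1 := hk n
    have h2 : f n = f 0 := by simp [f]
    rw [h2] at h1
    exact (left_eq_add.mp h1)
  have hnm' : n ∣ m := by
    apply hinj
    rw [hk m, (hns m).mpr dvd_rfl, add_zero]
  exact hnm (Nat.dvd_antisymm hnm' hmn)

end Pool.Agent.helper45.Inc
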