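import Mathlib
import Pool.Agent.helper45.Inc.Prd
import Pool.Agent.helper45.Inc.Rees

/-!
# Product-closed inclusive varieties with countable lattice: rectangular groups
-/

universe u v

open Pool.Agent.helper9.Incl

namespace Pool.Agent.helper45.Inc

section
variable {S : Type u} [Semigroup S]

/-- the local subgroup `e S e` -/
def Loc (e : S) : Type u := {x : S // e * x = x ∧ x * e = x}

instance (e : S) : Mul (Loc e) := ⟨fun x y => ⟨x.1 * y.1, by
    rw [← mul_assoc, x.2.1], by rw [mul_assoc, y.2.2]⟩⟩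

theorem Loc.mul_val {e : S} (x y : Loc e) : (x * y).1 = x.1 * y.1 := rfl

theorem loc_inv (H : Hyp S) {e : S} (he : e * e = e) (x : Loc e) :
    ∃ y : Loc e, y * x = ⟨e, he, he⟩ := by
  obtain ⟨k, hk⟩ := H.grp he x.2.1 x.2.2
  cases k with
  | zero => exact ⟨⟨e, he, he⟩, Subtype.ext (by
      change e * x.1 = e
      rw [x.2.1]; exact hk)⟩
  | succ k =>
    refine ⟨⟨pw x.1 k, left_pw x.2.1 k, pw_right x.2.2 k⟩, Subtype.ext ?_⟩
    exact hk

/-- the local subgroup is a group -/
@[instance_reducible]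
noncomputable def locGroup (H : Hyp S) {e : S} (he : e * e = e) : Group (Loc e) :=
  letI : One (Loc e) := ⟨⟨e, he, he⟩⟩
  letI : Inv (Loc e) := ⟨fun x => (loc_inv H he x).choose⟩
  Group.ofLeftAxioms (fun _ _ _ => Subtype.ext (mul_assoc _ _ _)) (fun x => Subtype.ext x.2.1)
    (fun x => (loc_inv H he x).choose_spec)

end

/-- the sandwich matrix of order two -/
def dl (N : ℕ) (l i : Bool) : ZMod N := if l && i then 1 else 0

/-- idempotents `e`, `f` with `e f e ≠ e` generate a small Rees matrix semigroup -/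
theorem exists_embedding {S : Type u} [Semigroup S] (H : Hyp S) {e f : S} (he : e * e = e)
    (hf : f * f = f) (hne : e * f * e ≠ e) :
    ∃ N : ℕ, 2 ≤ N ∧ ∃ X : RM.{u} N Bool Bool (dl N) →ₙ* S, Function.Injective X := by
  let _ := locGroup H he
  have one_val : (1 : Loc e).1 = e := rfl
  let c : Loc e := ⟨e * f * e, by rw [← mul_assoc, ← mul_assoc, he], by rw [mul_assoc, he]⟩
  have hc1 : c ≠ 1 := fun h => hne (congrArg Subtype.val h)
  set z : Loc e := c⁻¹ with hz
  have hz1 : z ≠ 1 := by
    rw [hz, Ne, inv_eq_one]; exact hc1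
  have hzfin : 0 < orderOf z := by
    obtain ⟨k, hk⟩ := H.grp he z.2.1 z.2.2
    have hpow : ∀ k : ℕ, (z ^ (k + 1)).1 = pw z.1 k := by
      intro k
      induction k with
      | zero => rw [zero_add, pow_one]; rfl
      | succ k ih =>
        rw [pow_succ, Loc.mul_val, ih]; rfl
    rw [orderOf_pos_iff, isOfFinOrder_iff_pow_eq_one]
    exact ⟨k + 1, Nat.succ_pos k, Subtype.ext ((hpow k).trans hk)⟩
  set N := orderOf z with hN
  have hN2 : 2 ≤ N := by
    by_contra h
    have h1 : orderOf z = 1 := by omega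
    exact hz1 (orderOf_eq_one_iff.mp h1)
  have : NeZero N := ⟨by omega⟩
  have : Fact (1 < N) := ⟨by omega⟩
  let Z : ZMod N → Loc e := fun a => z ^ a.val
  have hZadd : ∀ a b, Z (a + b) = Z a * Z b := by
    intro a b
    simp only [Z]
    rw [ZMod.val_add, ← pow_add]
    exact pow_mod_orderOf z _
  have hZ0 : Z 0 = 1 := by simp [Z]
  have hZ1 : Z 1 = z := by simp [Z, ZMod.val_one]
  have hZinj : Function.Injective Z := by
    intro a b hab
    simp only [Z] at hab
    have h1 : a.val % N = b.val % N := pow_inj_mod.mp hab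
    rw [Nat.mod_eq_of_lt (ZMod.val_lt a), Nat.mod_eq_of_lt (ZMod.val_lt b)] at h1
    exact ZMod.val_injective N h1
  have hcz : c.1 * z.1 = e := congrArg Subtype.val (mul_inv_cancel c)
  have hzc : z.1 * c.1 = e := congrArg Subtype.val (inv_mul_cancel c)
  have hce : c.1 = e * f * e := rfl
  have hze : z.1 * e = z.1 := z.2.2
  have hez : e * z.1 = z.1 := z.2.1
  let r : Bool → S := fun i => cond i (f * z.1) e
  let q : Bool → S := fun l => cond l (z.1 * f) e
  have hqr : ∀ l i, q l * r i = (Z (dl N l i)).1 := by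
    intro l i
    cases l <;> cases i
    · change e * e = (Z 0).1
      rw [hZ0, he]; rfl
    · change e * (f * z.1) = (Z 0).1
      rw [hZ0]
      calc e * (f * z.1) = e * (f * (e * z.1)) := by rw [hez]
        _ = c.1 * z.1 := by rw [hce]; simp only [mul_assoc]
        _ = e := hcz
    · change z.1 * f * e = (Z 0).1
      rw [hZ0]
      calc z.1 * f * e = z.1 * e * f * e := by rw [hze]
        _ = z.1 * c.1 := by rw [hce]; simp only [mul_assoc]
        _ = e := hzc
    · change z.1 * f * (f * z.1) = (Z 1).1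
      rw [hZ1]
      calc z.1 * f * (f * z.1) = z.1 * (f * f) * z.1 := by simp only [mul_assoc]
        _ = z.1 * e * f * (e * z.1) := by rw [hf, hze, hez]
        _ = z.1 * (c.1 * z.1) := by rw [hce]; simp only [mul_assoc]
        _ = z.1 := by rw [hcz, hze]
  let Y : RM.{u} N Bool Bool (dl N) → S := fun x => r x.i * (Z x.g).1 * q x.l
  have hY : ∀ x y, Y (x * y) = Y x * Y y := by
    intro x y
    simp only [Y, RM.mul_i, RM.mul_l, RM.mul_g]
    rw [hZadd, hZadd, Loc.mul_val, Loc.mul_val, ← hqr]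
    simp only [mul_assoc]
  -- the classes are distinct
  have hL : ∀ x : S, e * x = x → f * x = x → False := by
    intro x h1 h2
    obtain ⟨k, hk⟩ := H.per x
    have h3 := left_pw h1 k
    have h4 := left_pw h2 k
    generalize pw x k = g at *
    have h5 : e = g * e := H.prim e (g * e) he
      (by rw [mul_assoc, ← mul_assoc e g e, h3, ← mul_assoc, hk])
      (by rw [← mul_assoc, h3]) (by rw [mul_assoc, he])
    apply hne
    have h6 : f * e = e := by
      calc f * e = f * (g * e) := by rw [← h5]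
        _ = g * e := by rw [← mul_assoc, h4]
        _ = e := h5.symm
    rw [mul_assoc, h6, he]
  have hR : ∀ x : S, x * e = x → x * f = x → False := by
    intro x h1 h2
    obtain ⟨k, hk⟩ := H.per x
    have h3 := pw_right h1 k
    have h4 := pw_right h2 k
    generalize pw x k = g at *
    have h5 : e = e * g := H.prim e (e * g) he
      (by rw [mul_assoc, ← mul_assoc g e g, h3, hk])
      (by rw [← mul_assoc, he]) (by rw [mul_assoc, h3])
    apply hne
    have h6 : e * f = e := by
      calc e * f = e * g * f := by rw [← h5]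
        _ = e * g := by rw [mul_assoc, h4]
        _ = e := h5.symm
    rw [h6, he]
  have hYe : ∀ x, x.i = false → e * Y x = Y x := by
    intro x hx
    simp only [Y, hx]
    change e * (e * _ * _) = e * _ * _
    rw [← mul_assoc, ← mul_assoc, he]
  have hYf : ∀ x, x.i = true → f * Y x = Y x := by
    intro x hx
    simp only [Y, hx]
    change f * (f * z.1 * _ * _) = f * z.1 * _ * _
    simp only [← mul_assoc]
    rw [hf]
  have hYe' : ∀ x, x.l = false → Y x * e = Y x := by
    intro x hx
    simp only [Y, hx]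
    change _ * _ * e * e = _ * _ * e
    rw [mul_assoc, he]
  have hYf' : ∀ x, x.l = true → Y x * f = Y x := by
    intro x hx
    simp only [Y, hx]
    change _ * _ * (z.1 * f) * f = _ * _ * (z.1 * f)
    simp only [mul_assoc]
    rw [hf]
  refine ⟨N, hN2, ⟨Y, hY⟩, ?_⟩
  intro x y hxy
  change Y x = Y y at hxy
  have hi : x.i = y.i := by
    cases h1 : x.i <;> cases h2 : y.i
    · rfl
    · exact (hL (Y x) (hYe x h1) (by rw [hxy]; exact hYf y h2)).elim
    · exact (hL (Y y) (hYe y h2) (by rw [← hxy]; exact hYf x h1)).elim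
    · rfl
  have hl : x.l = y.l := by
    cases h1 : x.l <;> cases h2 : y.l
    · rfl
    · exact (hR (Y x) (hYe' x h1) (by rw [hxy]; exact hYf' y h2)).elim
    · exact (hR (Y y) (hYe' y h2) (by rw [← hxy]; exact hYf' x h1)).elim
    · rfl
  have hval : ∀ x : RM.{u} N Bool Bool (dl N), e * Y x * e =
      (Z (dl N false x.i + x.g + dl N x.l false)).1 := by
    intro x
    rw [hZadd, hZadd, Loc.mul_val, Loc.mul_val, ← hqr, ← hqr]
    change e * (r x.i * (Z x.g).1 * q x.l) * e = e * r x.i * (Z x.g).1 * (q x.l * e)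
    simp only [mul_assoc]
  have h1 := hval x
  rw [hxy, hval y] at h1
  have h2 := hZinj (Subtype.ext h1)
  rw [hi, hl] at h2
  have h3 : x.g = y.g := by
    linear_combination -h2
  exact RM.ext hi h3 hl

section
variable {V : SgClass.{u}} (hV : IsInclVariety V) (hP : ProdClosed V) {N : ℕ}

/-- the elementary matrices -/
theorem elem_mem (hV : IsInclVariety V) (hP : ProdClosed V) {S : Type u} [Semigroup S] (hS : V S)
    (X : RM.{u} N Bool Bool (dl N) →ₙ* S) (hX : Function.Injective X) {I L : Type} (i0 : I)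
    (l0 : L) (A : L → I → ZMod N) [DecidableEq I] [DecidableEq L]
    (hA : ∀ l i, A l i = if l = l0 ∧ i = i0 then 1 else 0) : V (RM.{u} N I L A) := by
  apply mem_of_div hV
  intro u φ
  refine ⟨S × S × S, inferInstance, hP _ _ hS (hP _ _ hS hS), ?_⟩
  let μ1 : RM.{u} N I L A →ₙ* RM.{u} N Bool Bool (dl N) :=
    ⟨fun x => ⟨decide (x.i = i0), x.g, decide (x.l = l0)⟩, by
      intro x y
      apply RM.ext
      · rfl
      · change x.g + A x.l y.i + y.g = x.g + dl N (decide (x.l = l0)) (decide (y.i = i0)) + y.g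
        rw [hA]
        simp [dl]
      · rfl⟩
  let μ2 : RM.{u} N I L A →ₙ* RM.{u} N Bool Bool (dl N) :=
    ⟨fun x => ⟨decide (x.i = (φ u).i), 0, false⟩, by
      intro x y
      apply RM.ext
      · rfl
      · change 0 = 0 + dl N false (decide (y.i = (φ u).i)) + 0
        simp [dl]
      · rfl⟩
  let μ3 : RM.{u} N I L A →ₙ* RM.{u} N Bool Bool (dl N) :=
    ⟨fun x => ⟨false, 0, decide (x.l = (φ u).l)⟩, by
      intro x y
      apply RM.ext
      · rfl
      · change 0 = 0 + dl N (decide (x.l = (φ u).l)) false + 0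
        simp [dl]
      · rfl⟩
  refine ⟨((X.comp μ1).prod ((X.comp μ2).prod (X.comp μ3))).comp φ, ?_⟩
  intro w hw
  have h1 : X (μ1 (φ u)) = X (μ1 (φ w)) := congrArg (fun t => t.1) hw
  have h2 : X (μ2 (φ u)) = X (μ2 (φ w)) := congrArg (fun t => t.2.1) hw
  have h3 : X (μ3 (φ u)) = X (μ3 (φ w)) := congrArg (fun t => t.2.2) hw
  have k1 := congrArg RM.g (hX h1)
  have k2 := congrArg RM.i (hX h2)
  have k3 := congrArg RM.l (hX h3)
  have k1' : (φ u).g = (φ w).g := k1
  have k2' : decide ((φ u).i = (φ u).i) = decide ((φ w).i = (φ u).i) := k2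
  have k3' : decide ((φ u).l = (φ u).l) = decide ((φ w).l = (φ u).l) := k3
  have j2 : (φ w).i = (φ u).i := by simpa using k2'
  have j3 : (φ w).l = (φ u).l := by simpa using k3'
  exact RM.ext j2.symm k1' j3.symm

/-- sums of sandwich matrices -/
theorem sum_mem (hV : IsInclVariety V) (hP : ProdClosed V) {I L : Type}
    {A B : L → I → ZMod N} (hA : V (RM.{u} N I L A)) (hB : V (RM.{u} N I L B)) :
    V (RM.{u} N I L (fun l i => A l i + B l i)) := by
  apply mem_of_div hV
  intro u φ
  refine ⟨RM.{u} N I L A × RM.{u} N I L B, inferInstance, hP _ _ hA hB, ?_⟩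
  let ψ : Word →ₙ* RM.{u} N I L A × RM.{u} N I L B := FreeSemigroup.lift fun y =>
    (⟨(φ (FreeSemigroup.of y)).i, (φ (FreeSemigroup.of y)).g, (φ (FreeSemigroup.of y)).l⟩,
      ⟨(φ (FreeSemigroup.of y)).i, 0, (φ (FreeSemigroup.of y)).l⟩)
  have key : ∀ w : Word, (ψ w).1.i = (φ w).i ∧ (ψ w).1.l = (φ w).l ∧ (ψ w).2.i = (φ w).i ∧
      (ψ w).2.l = (φ w).l ∧ (ψ w).1.g + (ψ w).2.g = (φ w).g := by
    intro w
    induction w using FreeSemigroup.recOnMul with
    | ih1 x =>
      simp only [ψ, FreeSemigroup.lift_of]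
      simp
    | ih2 a b ha hb =>
      obtain ⟨a1, a2, a3, a4, a5⟩ := ha
      obtain ⟨b1, b2, b3, b4, b5⟩ := hb
      rw [map_mul, map_mul]
      refine ⟨a1, b2, a3, b4, ?_⟩
      change ((ψ (FreeSemigroup.of a)).1.g + A (ψ (FreeSemigroup.of a)).1.l (ψ b).1.i +
        (ψ b).1.g) + ((ψ (FreeSemigroup.of a)).2.g + B (ψ (FreeSemigroup.of a)).2.l (ψ b).2.i +
        (ψ b).2.g) = (φ (FreeSemigroup.of a)).g + (A (φ (FreeSemigroup.of a)).l (φ b).i +
          B (φ (FreeSemigroup.of a)).l (φ b).i) + (φ b).g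
      rw [a2, a4, b1, b3, ← a5, ← b5]
      ring
  refine ⟨ψ, ?_⟩
  intro w hw
  obtain ⟨u1, u2, -, -, u5⟩ := key u
  obtain ⟨w1, w2, -, -, w5⟩ := key w
  apply RM.ext
  · rw [← u1, ← w1, hw]
  · rw [← u5, ← w5, hw]
  · rw [← u2, ← w2, hw]

/-- all finite zero-one matrices -/
theorem set_mem (hV : IsInclVariety V) (hP : ProdClosed V) {S : Type u} [Semigroup S] (hS : V S)
    (X : RM.{u} N Bool Bool (dl N) →ₙ* S) (hX : Function.Injective X) {I L : Type}
    [DecidableEq I] [DecidableEq L] (s : Finset (L × I)) (hs : s.Nonempty) :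
    ∀ A : L → I → ZMod N, (∀ l i, A l i = if (l, i) ∈ s then 1 else 0) →
      V (RM.{u} N I L A) := by
  induction hs using Finset.Nonempty.cons_induction with
  | singleton a =>
    intro A hA
    refine elem_mem hV hP hS X hX a.2 a.1 A ?_
    intro l i
    rw [hA]
    simp only [Finset.mem_singleton, Prod.ext_iff]
  | cons a s ha hs ih =>
    intro A hA
    have h1 := elem_mem hV hP hS X hX a.2 a.1
      (fun l i => if l = a.1 ∧ i = a.2 then 1 else 0) (fun _ _ => rfl)
    have h2 := ih (fun l i => if (l, i) ∈ s then 1 else 0) (fun _ _ => rfl)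
    have h3 := sum_mem hV hP h1 h2
    have h4 : A = fun l i => (if l = a.1 ∧ i = a.2 then (1 : ZMod N) else 0) +
        if (l, i) ∈ s then 1 else 0 := by
      funext l i
      rw [hA]
      by_cases h5 : (l, i) = a
      · subst h5
        simp [ha]
      · have h6 : ¬ (l = a.1 ∧ i = a.2) := fun h => h5 (Prod.ext h.1 h.2)
        simp [h5, h6]
    rw [h4]
    exact h3

theorem cs_mem (hV : IsInclVariety V) (hP : ProdClosed V) {S : Type u} [Semigroup S] (hS : V S)
    (X : RM.{u} N Bool Bool (dl N) →ₙ* S) (hX : Function.Injective X) (n : ℕ) [NeZero n] :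
    V (CS.{u} N n) := by
  refine set_mem hV hP hS X hX (Finset.univ.filter fun p : ZMod n × ZMod n => p.2 = p.1 ∨
    p.2 = p.1 + 1) ⟨(0, 0), by simp⟩ (Cy N n) ?_
  intro l i
  simp [Cy]

/-- **Part 5.** The idempotents of the members of a product-closed inclusive variety with
countable lattice form rectangular bands. -/
theorem rect {V : SgClass.{u}} (hV : IsInclVariety V) (hc : (InclSub V).Countable)
    (hP : ProdClosed V) (S : Type u) [Semigroup S] (hS : V S) (e f : S) (he : e * e = e)
    (hf : f * f = f) : e * f * e = e := by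
  by_contra hne
  obtain ⟨N, hN, X, hX⟩ := exists_embedding (hyp hV hc hP S hS) he hf hne
  refine not_countable_of_continuum (continuum_of_antichain hV (fun k => CS.{u} N (k + 9))
    (fun k => cs_mem hV hP hS X hX (k + 9)) ?_) hc
  intro n
  refine ⟨FreeSemigroup.of 0, FreeSemigroup.lift
    (fun y : ℕ => (⟨(y : ZMod (n + 9)), 0, (y : ZMod (n + 9))⟩ : CS.{u} N (n + 9))), ?_⟩
  intro k hk ψ
  exact rees_kernel hN (by omega) (by omega) ψ

end

end Pool.Agent.helper45.Inc
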