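import Mathlib
import Pool.Agent.helper45.Inc.Rect

/-!
# Semigroups whose square is a rectangular abelian group
-/

universe u v

open Pool.Agent.helper9.Incl

namespace Pool.Agent.helper45.Inc

/-- the products form a rectangular group of exponent dividing `m` -/
structure RB (m : ℕ) (S : Type u) [Semigroup S] : Prop where
  exp : ∀ x y : S, pw (x * y) m = x * y
  rect : ∀ e f : S, e * e = e → f * f = f → e * f * e = e

/-- the products form a rectangular abelian group of exponent dividing `m` -/
structure RG (m : ℕ) (S : Type u) [Semigroup S] : Prop extends RB m S where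
  comm : ∀ e x y : S, e * e = e → e * x * e * (e * y * e) = e * y * e * (e * x * e)

section
variable {m : ℕ} {S : Type u} [Semigroup S] (R : RB m S) (hm : 0 < m)
include R hm

theorem RB.mul_mem {p : S} (h : pw p m = p) : Sq p := by
  obtain ⟨k, rfl⟩ : ∃ k, m = k + 1 := ⟨m - 1, by omega⟩
  exact ⟨pw p k, p, h.symm⟩

omit hm in
theorem RB.sq_exp {p : S} (hp : Sq p) : pw p m = p := by
  obtain ⟨x, y, rfl⟩ := hp
  exact R.exp x y

theorem RB.o_mul {p : S} (hp : Sq p) : pw p (m - 1) * p = p := by
  have h := R.sq_exp hp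
  obtain ⟨k, rfl⟩ : ∃ k, m = k + 1 := ⟨m - 1, by omega⟩
  exact h

theorem RB.mul_o {p : S} (hp : Sq p) : p * pw p (m - 1) = p := by
  have h := R.sq_exp hp
  have h2 := pw_mul p 0 (m - 1)
  rw [show 0 + (m - 1) + 1 = m by omega, h] at h2
  exact h2

theorem RB.o_idem {p : S} (hp : Sq p) : pw p (m - 1) * pw p (m - 1) = pw p (m - 1) :=
  left_pw (R.o_mul hm hp) _

omit hm in
theorem RB.idem_mul {e f : S} (he : e * e = e) (hf : f * f = f) : e * f * (e * f) = e * f := by
  rw [← mul_assoc, R.rect e f he hf]

omit hm in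
theorem RB.efg {e f g : S} (he : e * e = e) (hf : f * f = f) (hg : g * g = g) :
    e * f * g = e * g := by
  have h1 := R.rect e (f * g) he (R.idem_mul hf hg)
  calc e * f * g = e * f * (g * e * g) := by rw [R.rect g e hg he]
    _ = e * (f * g) * e * g := by simp only [mul_assoc]
    _ = e * g := by rw [h1]

theorem RB.peq {p q e : S} (hp : Sq p) (hq : Sq q) (he : e * e = e) : p * e * q = p * q := by
  have h1 := R.efg (R.o_idem hm hp) he (R.o_idem hm hq)
  calc p * e * q = p * pw p (m - 1) * e * (pw q (m - 1) * q) := by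
        rw [R.mul_o hm hp, R.o_mul hm hq]
    _ = p * (pw p (m - 1) * e * pw q (m - 1)) * q := by simp only [mul_assoc]
    _ = p * pw p (m - 1) * (pw q (m - 1) * q) := by rw [h1]; simp only [mul_assoc]
    _ = p * q := by rw [R.mul_o hm hp, R.o_mul hm hq]

theorem RB.left_iff {f p q : S} (hp : Sq p) : f * (p * q) = p * q ↔ f * p = p := by
  constructor
  · intro h
    have hpq : Sq (p * q) := sq_mul _ _
    have h1 : pw p (m - 1) * pw (p * q) (m - 1) = pw (p * q) (m - 1) :=
      left_pw (by rw [← mul_assoc, R.o_mul hm hp]) _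
    have h2 : pw (p * q) (m - 1) * pw p (m - 1) = pw p (m - 1) := by
      have h3 := R.rect (pw p (m - 1)) (pw (p * q) (m - 1)) (R.o_idem hm hp) (R.o_idem hm hpq)
      rwa [h1] at h3
    have h3 : pw (p * q) (m - 1) * p = p := by
      calc pw (p * q) (m - 1) * p = pw (p * q) (m - 1) * (pw p (m - 1) * p) := by
            rw [R.o_mul hm hp]
        _ = p := by rw [← mul_assoc, h2, R.o_mul hm hp]
    have h4 : f * pw (p * q) (m - 1) = pw (p * q) (m - 1) := left_pw h _
    calc f * p = f * (pw (p * q) (m - 1) * p) := by rw [h3]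
      _ = p := by rw [← mul_assoc, h4, h3]
  · intro h
    rw [← mul_assoc, h]

theorem RB.right_iff {f p q : S} (hp : Sq p) : q * p * f = q * p ↔ p * f = p := by
  constructor
  · intro h
    have hpq : Sq (q * p) := sq_mul _ _
    have h1 : pw (q * p) (m - 1) * pw p (m - 1) = pw (q * p) (m - 1) :=
      pw_right (by rw [mul_assoc, R.mul_o hm hp]) _
    have h2 : pw p (m - 1) * pw (q * p) (m - 1) = pw p (m - 1) := by
      have h3 := R.rect (pw p (m - 1)) (pw (q * p) (m - 1)) (R.o_idem hm hp) (R.o_idem hm hpq)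
      rwa [mul_assoc, h1] at h3
    have h3 : p * pw (q * p) (m - 1) = p := by
      calc p * pw (q * p) (m - 1) = p * pw p (m - 1) * pw (q * p) (m - 1) := by
            rw [R.mul_o hm hp]
        _ = p := by rw [mul_assoc, h2, R.mul_o hm hp]
    have h4 : pw (q * p) (m - 1) * f = pw (q * p) (m - 1) := pw_right h _
    calc p * f = p * pw (q * p) (m - 1) * f := by rw [h3]
      _ = p := by rw [mul_assoc, h4, h3]
  · intro h
    rw [mul_assoc, h]

theorem RB.left_o {f x p : S} (hp : Sq p) :
    f * (x * pw p (m - 1)) = x * pw p (m - 1) ↔ f * (x * p) = x * p := by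
  have h1 := R.left_iff hm (f := f) (q := p) (sq_mul x (pw p (m - 1)))
  rw [mul_assoc, R.o_mul hm hp] at h1
  exact h1.symm

theorem RB.right_o {f x p : S} (hp : Sq p) :
    pw p (m - 1) * x * f = pw p (m - 1) * x ↔ p * x * f = p * x := by
  have h1 := R.right_iff hm (f := f) (q := p) (sq_mul (pw p (m - 1)) x)
  rw [← mul_assoc p, R.mul_o hm hp] at h1
  exact h1.symm

theorem RB.left_o1 {f p : S} (hp : Sq p) :
    f * pw p (m - 1) = pw p (m - 1) ↔ f * p = p := by
  constructor
  · intro h
    calc f * p = f * (pw p (m - 1) * p) := by rw [R.o_mul hm hp]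
      _ = p := by rw [← mul_assoc, h, R.o_mul hm hp]
  · intro h
    exact left_pw h _

theorem RB.right_o1 {f p : S} (hp : Sq p) :
    pw p (m - 1) * f = pw p (m - 1) ↔ p * f = p := by
  constructor
  · intro h
    calc p * f = p * pw p (m - 1) * f := by rw [R.mul_o hm hp]
      _ = p := by rw [mul_assoc, h, R.mul_o hm hp]
  · intro h
    exact pw_right h _

theorem RB.gam {f : S} (hf : f * f = f) (x y : S) :
    f * (x * y) * f = f * x * f * (f * y * f) := by
  have h1 := R.peq hm (sq_mul f x) (sq_mul y f) hf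
  calc f * (x * y) * f = f * x * (y * f) := by simp only [mul_assoc]
    _ = f * x * f * (y * f) := h1.symm
    _ = f * x * (f * f) * (y * f) := by rw [hf]
    _ = f * x * f * (f * y * f) := by simp only [mul_assoc]

theorem RB.hyp : Hyp S := by
  constructor
  · intro a
    apply exists_idem_pw
    refine ⟨1, 2 * m + 1, by omega, ?_⟩
    have h1 : ∀ k, pw (pw a 1) k = pw a (2 * k + 1) := by
      intro k
      induction k with
      | zero => rfl
      | succ k ih =>
        change pw (pw a 1) k * pw a 1 = _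
        rw [ih, pw_mul]
        congr 1
    rw [← h1 m]
    exact (R.exp a a).symm
  · intro e f he hf h1 h2
    have h3 := R.rect e f he hf
    rw [h1, h2] at h3
    exact h3.symm

end

/-- the local group -/
@[instance_reducible]
noncomputable def locComm {m : ℕ} {S : Type u} [Semigroup S] (R : RG m S) (hm : 0 < m) {f : S}
    (hf : f * f = f) : CommGroup (Loc f) :=
  { locGroup (R.toRB.hyp hm) hf with
    mul_comm := fun x y => Subtype.ext (by
      have h1 : f * x.1 * f = x.1 := by rw [x.2.1, x.2.2]
      have h2 : f * y.1 * f = y.1 := by rw [y.2.1, y.2.2]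
      have h3 := R.comm f x.1 y.1 hf
      rw [h1, h2] at h3
      exact h3) }

theorem loc_pow {m : ℕ} {S : Type u} [Semigroup S] (R : RG m S) (hm : 0 < m) {f : S}
    (hf : f * f = f) (x : Loc f) :
    (locComm R hm hf).toGroup.toDivInvMonoid.toMonoid.npow m x =
      (locComm R hm hf).toGroup.toDivInvMonoid.toMonoid.toOne.one := by
  let _ := locComm R hm hf
  change x ^ m = 1
  have hpow : ∀ k : ℕ, (x ^ (k + 1)).1 = pw x.1 k := by
    intro k
    induction k with
    | zero => rw [zero_add, pow_one]; rfl
    | succ k ih =>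
      rw [pow_succ]
      change (x ^ (k + 1)).1 * x.1 = _
      rw [ih]; rfl
  have h1 : x ^ (m + 1) = x := by
    apply Subtype.ext
    rw [hpow m]
    exact R.toRB.sq_exp ⟨f, x.1, x.2.1.symm⟩
  rw [pow_succ] at h1
  exact mul_eq_right.mp h1

end Pool.Agent.helper45.Inc
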