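import Mathlib
import Pool.Agent.helper45.Inc.RGrp
import Pool.Agent.helper45.Inc.AbCode

/-!
# Frames and the transfer of evaluations
-/

universe u v

open Pool.Agent.helper9.Incl

namespace Pool.Agent.helper45.Inc

theorem head_form (w : Word) : ∃ a, w = FreeSemigroup.of a ∨ ∃ w', w = FreeSemigroup.of a * w' := by
  obtain ⟨x, l⟩ := w
  match l with
  | [] => exact ⟨x, Or.inl rfl⟩
  | y :: l => exact ⟨x, Or.inr ⟨⟨y, l⟩, rfl⟩⟩

theorem last_form (w : Word) : ∃ d, w = FreeSemigroup.of d ∨ ∃ w', w = w' * FreeSemigroup.of d := by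
  induction w using FreeSemigroup.recOnMul with
  | ih1 x => exact ⟨x, Or.inl rfl⟩
  | ih2 x w _ hw =>
    obtain ⟨d, rfl | ⟨w', rfl⟩⟩ := hw
    · exact ⟨d, Or.inr ⟨_, rfl⟩⟩
    · exact ⟨d, Or.inr ⟨FreeSemigroup.of x * w', by rw [mul_assoc]⟩⟩

theorem two_form (w : Word) : (∃ y, w = FreeSemigroup.of y) ∨
    ((∃ a b, w = FreeSemigroup.of a * FreeSemigroup.of b ∨
        ∃ w', w = FreeSemigroup.of a * FreeSemigroup.of b * w') ∧
      ∃ c d, w = FreeSemigroup.of c * FreeSemigroup.of d ∨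
        ∃ w', w = w' * (FreeSemigroup.of c * FreeSemigroup.of d)) := by
  obtain ⟨a, rfl | ⟨w1, rfl⟩⟩ := head_form w
  · exact Or.inl ⟨a, rfl⟩
  · right
    constructor
    · obtain ⟨b, rfl | ⟨w2, rfl⟩⟩ := head_form w1
      · exact ⟨a, b, Or.inl rfl⟩
      · exact ⟨a, b, Or.inr ⟨w2, by rw [mul_assoc]⟩⟩
    · obtain ⟨d, rfl | ⟨w2, rfl⟩⟩ := last_form w1
      · exact ⟨a, d, Or.inl rfl⟩
      · obtain ⟨c, h | ⟨w3, h⟩⟩ := last_form (FreeSemigroup.of a * w2)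
        · exact ⟨c, d, Or.inl (by rw [← mul_assoc, h])⟩
        · exact ⟨c, d, Or.inr ⟨w3, by rw [← mul_assoc, h, mul_assoc]⟩⟩

/-- types of letters -/
abbrev Ty6 : Type := Fin 6 → Prop

/-- frames -/
structure Frame (S : Type u) [Semigroup S] where
  f : S
  hf : f * f = f
  p : Fin 3 → S
  P : Ty6 → S
  hP : ∀ τ, P τ * P τ = P τ
  Q : Ty6 → S
  hQ : ∀ τ, Q τ * Q τ = Q τ

/-- the combinatorial code of a frame -/
abbrev Bits : Type := (Fin 3 → Prop) × (Fin 3 → Fin 3 → Prop) × (Fin 3 → Fin 3 → Prop) ×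
  (Fin 3 → Ty6 → Prop) × (Ty6 → Fin 3 → Prop) × (Ty6 → Prop) × (Ty6 → Prop)

/-- the combinatorial code of a frame -/
def bits (m : ℕ) {S : Type u} [Semigroup S] (Φ : Frame S) : Bits :=
  (fun i => pw (Φ.p i) m = Φ.p i,
    fun i j => Φ.f * (Φ.p i * Φ.p j) = Φ.p i * Φ.p j,
    fun i j => Φ.p i * Φ.p j * Φ.f = Φ.p i * Φ.p j,
    fun i τ => Φ.f * (Φ.p i * Φ.P τ) = Φ.p i * Φ.P τ,
    fun τ i => Φ.Q τ * Φ.p i * Φ.f = Φ.Q τ * Φ.p i,
    fun τ => Φ.f * Φ.P τ = Φ.P τ,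
    fun τ => Φ.Q τ * Φ.f = Φ.Q τ)

/-- elements of the local group -/
def inLoc {S : Type u} [Semigroup S] {f : S} (hf : f * f = f) (x : S) : Loc f :=
  ⟨f * x * f, by rw [← mul_assoc, ← mul_assoc, hf], by rw [mul_assoc, hf]⟩

/-- the marked elements of the local group of a frame -/
def Frame.pin {S : Type u} [Semigroup S] (Φ : Frame S) (k : Fin 3) : Loc Φ.f :=
  inLoc Φ.hf (Φ.p k)

theorem exists_frame {m : ℕ} (hm : 0 < m) {S : Type u} [Semigroup S] (R : RB m S)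
    (F : Word →ₙ* S) (u : Word) (ht : pw (F u) m = F u) :
    ∃ Φ : Frame S, ∀ (S' : Type u) [Semigroup S'], RB m S' → ∀ Φ' : Frame S',
      bits m Φ = bits m Φ' → ∀ ι : Loc Φ.f → Loc Φ'.f, Function.Injective ι →
      (∀ x y, ι (x * y) = ι x * ι y) → (∀ k, ι (Φ.pin k) = Φ'.pin k) →
      ∃ ψ : Word →ₙ* S', ∀ w, ψ u = ψ w → F u = F w := by
  classical
  set t := F u with htdef
  have hSt : Sq t := R.mul_mem hm ht
  set f := pw t (m - 1) with hfdef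
  have hf : f * f = f := R.o_idem hm hSt
  have hft : f * t = t := R.o_mul hm hSt
  have htf : t * f = t := R.mul_o hm hSt
  let g : ℕ → S := fun y => F (FreeSemigroup.of y)
  let Lg : ℕ → ℕ → Prop := fun y z => f * (g y * g z) = g y * g z
  let Rg : ℕ → ℕ → Prop := fun z y => g z * g y * f = g z * g y
  -- first and last letters of `u`
  obtain ⟨a0, d0, hu⟩ : ∃ a0 d0 : ℕ, (u = FreeSemigroup.of a0 ∧ a0 = d0) ∨
      ((∃ b, u = FreeSemigroup.of a0 * FreeSemigroup.of b ∨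
        ∃ w', u = FreeSemigroup.of a0 * FreeSemigroup.of b * w') ∧
      ∃ c, u = FreeSemigroup.of c * FreeSemigroup.of d0 ∨
        ∃ w', u = w' * (FreeSemigroup.of c * FreeSemigroup.of d0)) := by
    rcases two_form u with ⟨y, hy⟩ | ⟨⟨a, b, h1⟩, ⟨c, d, h2⟩⟩
    · exact ⟨y, y, Or.inl ⟨hy, rfl⟩⟩
    · exact ⟨a, d, Or.inr ⟨⟨b, h1⟩, ⟨c, h2⟩⟩⟩
  have hr : ∀ y, ∃ r, (∀ z, Lg y z) ∨ ¬ Lg y r := by
    intro y
    by_cases h : ∀ z, Lg y z
    · exact ⟨0, Or.inl h⟩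
    · push Not at h
      obtain ⟨r, hr⟩ := h
      exact ⟨r, Or.inr hr⟩
  have hq : ∀ y, ∃ q, (∀ z, Rg z y) ∨ ¬ Rg q y := by
    intro y
    by_cases h : ∀ z, Rg z y
    · exact ⟨0, Or.inl h⟩
    · push Not at h
      obtain ⟨r, hr⟩ := h
      exact ⟨r, Or.inr hr⟩
  choose r hr using hr
  choose q hq using hq
  let τ : ℕ → Ty6 := fun y => ![Lg a0 y, Lg d0 y, ∀ z, Lg y z, Rg y a0, Rg y d0, ∀ z, Rg z y]
  let rp : Ty6 → ℕ := Function.invFun τ
  have hrep : ∀ y, τ (rp (τ y)) = τ y := fun y => Function.invFun_eq ⟨y, rfl⟩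
  have h0 : ∀ y, (Lg a0 (rp (τ y)) ↔ Lg a0 y) := fun y => iff_of_eq (congrFun (hrep y) 0)
  have h1 : ∀ y, (Lg d0 (rp (τ y)) ↔ Lg d0 y) := fun y => iff_of_eq (congrFun (hrep y) 1)
  have h2 : ∀ y, ((∀ z, Lg (rp (τ y)) z) ↔ ∀ z, Lg y z) := fun y =>
    iff_of_eq (congrFun (hrep y) 2)
  have h3 : ∀ y, (Rg (rp (τ y)) a0 ↔ Rg y a0) := fun y => iff_of_eq (congrFun (hrep y) 3)
  have h4 : ∀ y, (Rg (rp (τ y)) d0 ↔ Rg y d0) := fun y => iff_of_eq (congrFun (hrep y) 4)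
  have h5 : ∀ y, ((∀ z, Rg z (rp (τ y))) ↔ ∀ z, Rg z y) := fun y =>
    iff_of_eq (congrFun (hrep y) 5)
  let Y1 : ℕ → Prop := fun y => (∀ z, Lg y z) ∧ (∀ z, Rg z y) ∧ f * g y * f = t ∧ g y ≠ t
  have hY1 : ∀ y, Y1 y → pw (g y) m ≠ g y := by
    rintro y ⟨k1, k2, k3, k4⟩ hpw
    have hSy : Sq (g y) := R.mul_mem hm hpw
    have e1 := (R.left_iff hm hSy).mp (k1 y)
    have e2 := (R.right_iff hm hSy).mp (k2 y)
    apply k4
    rw [← k3, e1, e2]
  obtain ⟨η, hη⟩ : ∃ η : S, (∀ y, Y1 y → ∃ y1, Y1 y1 ∧ η = g y1) := by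
    by_cases h : ∃ y, Y1 y
    · obtain ⟨y, hy⟩ := h
      exact ⟨g y, fun _ _ => ⟨y, hy, rfl⟩⟩
    · exact ⟨g a0, fun y hy => (h ⟨y, hy⟩).elim⟩
  have hSP : ∀ a b : ℕ, Sq (g a * g b) := fun a b => sq_mul _ _
  let Φ : Frame S :=
    { f := f
      hf := hf
      p := ![g a0, g d0, η]
      P := fun s => pw (g (rp s) * g (r (rp s))) (m - 1)
      hP := fun s => R.o_idem hm (hSP _ _)
      Q := fun s => pw (g (q (rp s)) * g (rp s)) (m - 1)
      hQ := fun s => R.o_idem hm (hSP _ _) }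
  refine ⟨Φ, ?_⟩
  intro S' _ R' Φ' hbits ι hιinj hιmul hιpin
  -- the bits
  have b1 : ∀ i, (pw (Φ.p i) m = Φ.p i ↔ pw (Φ'.p i) m = Φ'.p i) := fun i =>
    iff_of_eq (congrFun (congrArg (fun b : Bits => b.1) hbits) i)
  have b2 : ∀ i j, (f * (Φ.p i * Φ.p j) = Φ.p i * Φ.p j ↔
      Φ'.f * (Φ'.p i * Φ'.p j) = Φ'.p i * Φ'.p j) := fun i j =>
    iff_of_eq (congrFun (congrFun (congrArg (fun b : Bits => b.2.1) hbits) i) j)
  have b3 : ∀ i j, (Φ.p i * Φ.p j * f = Φ.p i * Φ.p j ↔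
      Φ'.p i * Φ'.p j * Φ'.f = Φ'.p i * Φ'.p j) := fun i j =>
    iff_of_eq (congrFun (congrFun (congrArg (fun b : Bits => b.2.2.1) hbits) i) j)
  have b4 : ∀ i s, (f * (Φ.p i * Φ.P s) = Φ.p i * Φ.P s ↔
      Φ'.f * (Φ'.p i * Φ'.P s) = Φ'.p i * Φ'.P s) := fun i s =>
    iff_of_eq (congrFun (congrFun (congrArg (fun b : Bits => b.2.2.2.1) hbits) i) s)
  have b5 : ∀ s i, (Φ.Q s * Φ.p i * f = Φ.Q s * Φ.p i ↔
      Φ'.Q s * Φ'.p i * Φ'.f = Φ'.Q s * Φ'.p i) := fun s i =>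
    iff_of_eq (congrFun (congrFun (congrArg (fun b : Bits => b.2.2.2.2.1) hbits) s) i)
  have b6 : ∀ s, (f * Φ.P s = Φ.P s ↔ Φ'.f * Φ'.P s = Φ'.P s) := fun s =>
    iff_of_eq (congrFun (congrArg (fun b : Bits => b.2.2.2.2.2.1) hbits) s)
  have b7 : ∀ s, (Φ.Q s * f = Φ.Q s ↔ Φ'.Q s * Φ'.f = Φ'.Q s) := fun s =>
    iff_of_eq (congrFun (congrArg (fun b : Bits => b.2.2.2.2.2.2) hbits) s)
  have p0 : Φ.p 0 = g a0 := rfl
  have p1 : Φ.p 1 = g d0 := rfl
  have p2 : Φ.p 2 = η := rfl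
  have hf' := Φ'.hf
  let x : ℕ → S' := fun y => (ι (inLoc hf (g y))).1
  have hxl : ∀ y, Φ'.f * x y = x y := fun y => (ι (inLoc hf (g y))).2.1
  have hxr : ∀ y, x y * Φ'.f = x y := fun y => (ι (inLoc hf (g y))).2.2
  let G : ℕ → S' := fun y => if y = a0 then Φ'.p 0 else if y = d0 then Φ'.p 1 else
    if Y1 y then Φ'.p 2 else Φ'.P (τ y) * x y * Φ'.Q (τ y)
  have G0 : ∀ y, y = a0 → G y = Φ'.p 0 := fun y h => if_pos h
  have G1 : ∀ y, y ≠ a0 → y = d0 → G y = Φ'.p 1 := fun y h h' => by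
    simp only [G]; rw [if_neg h, if_pos h']
  have G2 : ∀ y, y ≠ a0 → y ≠ d0 → Y1 y → G y = Φ'.p 2 := fun y h h' h'' => by
    simp only [G]; rw [if_neg h, if_neg h', if_pos h'']
  have G3 : ∀ y, y ≠ a0 → y ≠ d0 → ¬ Y1 y → G y = Φ'.P (τ y) * x y * Φ'.Q (τ y) :=
    fun y h h' h'' => by simp only [G]; rw [if_neg h, if_neg h', if_neg h'']
  -- group values
  have fact1 : ∀ y, Φ'.f * G y * Φ'.f = x y := by
    intro y
    have hpin0 : Φ'.f * Φ'.p 0 * Φ'.f = x a0 := (congrArg Subtype.val (hιpin 0)).symm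
    have hpin1 : Φ'.f * Φ'.p 1 * Φ'.f = x d0 := (congrArg Subtype.val (hιpin 1)).symm
    by_cases c0 : y = a0
    · rw [G0 y c0, c0]; exact hpin0
    by_cases c1 : y = d0
    · rw [G1 y c0 c1, c1]; exact hpin1
    by_cases c2 : Y1 y
    · rw [G2 y c0 c1 c2]
      obtain ⟨y1, hy1, hη1⟩ := hη y c2
      have h6 : Φ.pin 2 = inLoc hf (g y) := by
        apply Subtype.ext
        change f * η * f = f * g y * f
        rw [hη1, hy1.2.2.1, c2.2.2.1]
      have h7 := hιpin 2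
      rw [h6] at h7
      exact (congrArg Subtype.val h7).symm
    · rw [G3 y c0 c1 c2]
      have e1 := R'.rect Φ'.f (Φ'.P (τ y)) hf' (Φ'.hP _)
      have e2 := R'.rect Φ'.f (Φ'.Q (τ y)) hf' (Φ'.hQ _)
      calc Φ'.f * (Φ'.P (τ y) * x y * Φ'.Q (τ y)) * Φ'.f
          = Φ'.f * (Φ'.P (τ y) * (Φ'.f * x y * Φ'.f) * Φ'.Q (τ y)) * Φ'.f := by rw [hxl, hxr]
        _ = (Φ'.f * Φ'.P (τ y) * Φ'.f) * x y * (Φ'.f * Φ'.Q (τ y) * Φ'.f) := by
            simp only [mul_assoc]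
        _ = x y := by rw [e1, e2, hxl, hxr]
  let ψ : Word →ₙ* S' := FreeSemigroup.lift G
  have hψof : ∀ y, ψ (FreeSemigroup.of y) = G y := fun y => FreeSemigroup.lift_of _ _
  have fact2 : ∀ w, Φ'.f * ψ w * Φ'.f = (ι (inLoc hf (F w))).1 := by
    intro w
    induction w using FreeSemigroup.recOnMul with
    | ih1 y => rw [hψof]; exact fact1 y
    | ih2 a b ha hb =>
      rw [map_mul, R'.gam hm hf', ha, hb, ← Loc.mul_val, ← hιmul]
      congr 2
      apply Subtype.ext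
      change f * F (FreeSemigroup.of a) * f * (f * F b * f) = f * F (FreeSemigroup.of a * b) * f
      rw [map_mul, R.gam hm hf]
  -- free letters
  have hPL : ∀ y, Φ'.f * Φ'.P (τ y) = Φ'.P (τ y) → ∀ z, Lg y z := by
    intro y h
    have h6 := (b6 (τ y)).mpr h
    have h7 : f * (g (rp (τ y)) * g (r (rp (τ y)))) = g (rp (τ y)) * g (r (rp (τ y))) :=
      (R.left_o1 hm (hSP _ _)).mp h6
    have h8 := (hr (rp (τ y))).resolve_right (fun h => h h7)
    exact (h2 y).mp h8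
  have hQR : ∀ y, Φ'.Q (τ y) * Φ'.f = Φ'.Q (τ y) → ∀ z, Rg z y := by
    intro y h
    have h6 := (b7 (τ y)).mpr h
    have h7 : g (q (rp (τ y))) * g (rp (τ y)) * f = g (q (rp (τ y))) * g (rp (τ y)) :=
      (R.right_o1 hm (hSP _ _)).mp h6
    have h8 := (hq (rp (τ y))).resolve_right (fun h => h h7)
    exact (h5 y).mp h8
  have hSP' : ∀ s, Sq (Φ'.P s) := fun s => ⟨_, _, (Φ'.hP s).symm⟩
  have hSQ' : ∀ s, Sq (Φ'.Q s) := fun s => ⟨_, _, (Φ'.hQ s).symm⟩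
  -- the two marked letters
  have hleft2 : ∀ (i : Fin 3) (y0 : ℕ), Φ.p i = g y0 → (∀ y, Lg y0 (rp (τ y)) ↔ Lg y0 y) →
      ∀ b, (Φ'.f * (Φ'.p i * G b) = Φ'.p i * G b ↔ Lg y0 b) := by
    intro i y0 hi hty b
    by_cases c0 : b = a0
    · rw [G0 b c0, ← b2 i 0, hi, p0, c0]
    by_cases c1 : b = d0
    · rw [G1 b c0 c1, ← b2 i 1, hi, p1, c1]
    by_cases c2 : Y1 b
    · rw [G2 b c0 c1 c2, ← b2 i 2, hi, p2]
      have key : ∀ b, Y1 b → (f * (g y0 * g b) = g y0 * g b ↔ f * (g y0 * f) = g y0 * f) := by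
        intro b hb
        have e1 := R.left_iff hm (f := f) (q := g b) (sq_mul (g y0) (g b))
        have e2 := R.left_iff hm (f := f) (q := g b * g b) (sq_mul (g y0) f)
        have e3 : g y0 * g b * g b = g y0 * f * (g b * g b) := by
          rw [mul_assoc, mul_assoc]
          congr 1
          exact (hb.1 b).symm
        rw [← e1, e3, e2]
      obtain ⟨y1, hy1, hη1⟩ := hη b c2
      rw [hη1, key y1 hy1]
      exact (key b c2).symm
    · rw [G3 b c0 c1 c2, mul_assoc (Φ'.P _) (x b), ← mul_assoc (Φ'.p i),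
        R'.left_iff hm (sq_mul _ _), ← b4 i, hi]
      change f * (g y0 * pw (g (rp (τ b)) * g (r (rp (τ b)))) (m - 1)) =
        g y0 * pw (g (rp (τ b)) * g (r (rp (τ b)))) (m - 1) ↔ _
      rw [R.left_o hm (hSP _ _), ← mul_assoc (g y0), R.left_iff hm (sq_mul _ _)]
      exact hty b
  have hright2 : ∀ (i : Fin 3) (y0 : ℕ), Φ.p i = g y0 → (∀ y, Rg (rp (τ y)) y0 ↔ Rg y y0) →
      ∀ b, (G b * Φ'.p i * Φ'.f = G b * Φ'.p i ↔ Rg b y0) := by
    intro i y0 hi hty b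
    by_cases c0 : b = a0
    · rw [G0 b c0, ← b3 0 i, hi, p0, c0]
    by_cases c1 : b = d0
    · rw [G1 b c0 c1, ← b3 1 i, hi, p1, c1]
    by_cases c2 : Y1 b
    · rw [G2 b c0 c1 c2, ← b3 2 i, hi, p2]
      have key : ∀ b, Y1 b → (g b * g y0 * f = g b * g y0 ↔ f * g y0 * f = f * g y0) := by
        intro b hb
        have e1 := R.right_iff hm (f := f) (q := g b) (sq_mul (g b) (g y0))
        have e2 := R.right_iff hm (f := f) (q := g b * g b) (sq_mul f (g y0))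
        have e3 : g b * (g b * g y0) = g b * g b * (f * g y0) := by
          rw [← mul_assoc, ← mul_assoc]
          congr 1
          exact (hb.2.1 b).symm
        rw [← e1, e3, e2]
      obtain ⟨y1, hy1, hη1⟩ := hη b c2
      rw [hη1, key y1 hy1]
      exact (key b c2).symm
    · rw [G3 b c0 c1 c2, mul_assoc (Φ'.P _ * x b), R'.right_iff hm (sq_mul _ _), ← b5 _ i, hi]
      change pw (g (q (rp (τ b))) * g (rp (τ b))) (m - 1) * g y0 * f =
        pw (g (q (rp (τ b))) * g (rp (τ b))) (m - 1) * g y0 ↔ _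
      rw [R.right_o hm (hSP _ _), mul_assoc (g (q (rp (τ b)))), R.right_iff hm (sq_mul _ _)]
      exact hty b
  have hLa := hleft2 0 a0 p0 h0
  have hLd := hleft2 1 d0 p1 h1
  have hRa := hright2 0 a0 p0 h3
  have hRd := hright2 1 d0 p1 h4
  -- general left and right conditions
  have hleft : ∀ a b, Φ'.f * (G a * G b) = G a * G b → Lg a b := by
    intro a b hab
    by_cases c0 : a = a0
    · rw [G0 a c0] at hab; rw [c0]; exact (hLa b).mp hab
    by_cases c1 : a = d0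
    · rw [G1 a c0 c1] at hab; rw [c1]; exact (hLd b).mp hab
    by_cases c2 : Y1 a
    · exact c2.1 b
    · rw [G3 a c0 c1 c2, mul_assoc, mul_assoc, R'.left_iff hm (hSP' _)] at hab
      exact hPL a hab b
  have hright : ∀ a b, G a * G b * Φ'.f = G a * G b → Rg a b := by
    intro a b hab
    by_cases c0 : b = a0
    · rw [G0 b c0] at hab; rw [c0]; exact (hRa a).mp hab
    by_cases c1 : b = d0
    · rw [G1 b c0 c1] at hab; rw [c1]; exact (hRd a).mp hab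
    by_cases c2 : Y1 b
    · exact c2.2.1 a
    · rw [G3 b c0 c1 c2, ← mul_assoc, R'.right_iff hm (hSQ' _)] at hab
      exact hQR b hab a
  -- words of length at least two
  have hwl : ∀ (a b : ℕ) (w : Word), (w = FreeSemigroup.of a * FreeSemigroup.of b ∨
      ∃ w', w = FreeSemigroup.of a * FreeSemigroup.of b * w') →
      (Φ'.f * ψ w = ψ w ↔ Φ'.f * (G a * G b) = G a * G b) ∧
      (f * F w = F w ↔ f * (g a * g b) = g a * g b) := by
    rintro a b w (rfl | ⟨w', rfl⟩)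
    · rw [map_mul, map_mul, hψof, hψof]
      exact ⟨Iff.rfl, Iff.rfl⟩
    · rw [map_mul, map_mul, map_mul, map_mul, hψof, hψof]
      exact ⟨R'.left_iff hm (sq_mul _ _), R.left_iff hm (sq_mul _ _)⟩
  have hwr : ∀ (a b : ℕ) (w : Word), (w = FreeSemigroup.of a * FreeSemigroup.of b ∨
      ∃ w', w = w' * (FreeSemigroup.of a * FreeSemigroup.of b)) →
      (ψ w * Φ'.f = ψ w ↔ G a * G b * Φ'.f = G a * G b) ∧
      (F w * f = F w ↔ g a * g b * f = g a * g b) := by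
    rintro a b w (rfl | ⟨w', rfl⟩)
    · rw [map_mul, map_mul, hψof, hψof]
      exact ⟨Iff.rfl, Iff.rfl⟩
    · rw [map_mul, map_mul, map_mul, map_mul, hψof, hψof]
      exact ⟨R'.right_iff hm (sq_mul _ _), R.right_iff hm (sq_mul _ _)⟩
  -- the value of `u`
  have hψu : Φ'.f * ψ u = ψ u ∧ ψ u * Φ'.f = ψ u ∧ pw (ψ u) m = ψ u := by
    rcases hu with ⟨hu, had⟩ | ⟨⟨b, hb⟩, ⟨c, hc⟩⟩
    · have e0 : g a0 = t := by rw [htdef, hu]
      have e1 : ψ u = Φ'.p 0 := by rw [hu, hψof, G0 a0 rfl]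
      have e2 : pw (Φ'.p 0) m = Φ'.p 0 := (b1 0).mp (by rw [p0, e0]; exact ht)
      have e3 : Sq (Φ'.p 0) := R'.mul_mem hm e2
      have e4 : Φ'.f * (Φ'.p 0 * Φ'.p 0) = Φ'.p 0 * Φ'.p 0 := (b2 0 0).mp (by
        rw [p0, e0, ← mul_assoc, hft])
      have e5 : Φ'.p 0 * Φ'.p 0 * Φ'.f = Φ'.p 0 * Φ'.p 0 := (b3 0 0).mp (by
        rw [p0, e0, mul_assoc, htf])
      rw [e1]
      exact ⟨(R'.left_iff hm e3).mp e4, (R'.right_iff hm e3).mp e5, e2⟩
    · refine ⟨?_, ?_, ?_⟩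
      · rw [(hwl a0 b u hb).1, G0 a0 rfl, hLa b]
        exact (hwl a0 b u hb).2.mp hft
      · rw [(hwr c d0 u hc).1]
        have e1 : Rg c d0 := (hwr c d0 u hc).2.mp htf
        by_cases c0 : d0 = a0
        · rw [G0 d0 c0]; exact (hRa c).mpr (c0 ▸ e1)
        · rw [G1 d0 c0 rfl]; exact (hRd c).mpr e1
      · apply R'.sq_exp
        rcases hb with hb | ⟨w', hb⟩
        · rw [hb, map_mul]; exact sq_mul _ _
        · rw [hb, map_mul]; exact sq_mul _ _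
  refine ⟨ψ, ?_⟩
  intro w hw
  have hγ : f * F w * f = t := by
    have e1 := fact2 u
    have e2 := fact2 w
    rw [hw, e2] at e1
    have e3 := hιinj (Subtype.ext e1)
    have e4 : f * F w * f = f * F u * f := congrArg Subtype.val e3
    rw [e4, ← htdef, hft, htf]
  obtain ⟨k1, k2, k3⟩ := hψu
  rw [hw] at k1 k2 k3
  rcases two_form w with ⟨y, rfl⟩ | ⟨⟨a, b, hab⟩, ⟨c, d, hcd⟩⟩
  · -- one letter
    rw [hψof] at k1 k2 k3
    change t = g y
    change f * g y * f = t at hγ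
    have mk : ∀ (i : Fin 3) (y0 : ℕ), Φ.p i = g y0 → Φ'.f * Φ'.p i = Φ'.p i →
        Φ'.p i * Φ'.f = Φ'.p i → pw (Φ'.p i) m = Φ'.p i → f * g y0 * f = g y0 := by
      intro i y0 hi e1 e2 e3
      have e4 : pw (g y0) m = g y0 := by
        have := (b1 i).mpr e3
        rwa [hi] at this
      have e5 : Sq (g y0) := R.mul_mem hm e4
      have e6 : f * (g y0 * g y0) = g y0 * g y0 := by
        have := (b2 i i).mpr (by rw [← mul_assoc, e1])
        rwa [hi] at this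
      have e7 : g y0 * g y0 * f = g y0 * g y0 := by
        have := (b3 i i).mpr (by rw [mul_assoc, e2])
        rwa [hi] at this
      rw [(R.left_iff hm e5).mp e6, (R.right_iff hm e5).mp e7]
    by_cases c0 : y = a0
    · rw [G0 y c0] at k1 k2 k3
      rw [c0] at hγ ⊢
      rw [← hγ]
      exact mk 0 a0 p0 k1 k2 k3
    by_cases c1 : y = d0
    · rw [G1 y c0 c1] at k1 k2 k3
      rw [c1] at hγ ⊢
      rw [← hγ]
      exact mk 1 d0 p1 k1 k2 k3
    by_cases c2 : Y1 y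
    · exfalso
      rw [G2 y c0 c1 c2] at k3
      obtain ⟨y1, hy1, hη1⟩ := hη y c2
      have e1 := (b1 2).mpr k3
      rw [p2, hη1] at e1
      exact hY1 y1 hy1 e1
    · rw [G3 y c0 c1 c2] at k1 k2
      by_contra hne
      apply c2
      refine ⟨?_, ?_, hγ, Ne.symm hne⟩
      · rw [mul_assoc (Φ'.P _), R'.left_iff hm (hSP' _)] at k1
        exact hPL y k1
      · rw [R'.right_iff hm (hSQ' _)] at k2
        exact hQR y k2
  · have e1 : f * F w = F w := (hwl a b w hab).2.mpr (hleft a b ((hwl a b w hab).1.mp k1))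
    have e2 : F w * f = F w := (hwr c d w hcd).2.mpr (hright c d ((hwr c d w hcd).1.mp k2))
    rw [e1, e2] at hγ
    exact hγ.symm

end Pool.Agent.helper45.Inc
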