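import Mathlib
import Pool.Agent.helper45.Inc.Frame

/-!
# Countably many inclusive subvarieties
-/

universe u v

open Pool.Agent.helper9.Incl

namespace Pool.Agent.helper45.Inc

theorem mem_of_inj {V : SgClass.{u}} (hV : IsInclVariety V) {S T : Type u} [Semigroup S]
    [Semigroup T] (hS : V S) (i : T →ₙ* S) (hi : Function.Injective i) : V T := by
  apply mem_of_div hV
  intro u φ
  exact ⟨S, inferInstance, hS, i.comp φ, fun w hw => hi hw⟩

theorem rg_of_inj {m : ℕ} {S T : Type u} [Semigroup S] [Semigroup T] (R : RG m S)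
    (i : T →ₙ* S) (hi : Function.Injective i) : RG m T := by
  refine ⟨⟨?_, ?_⟩, ?_⟩
  · intro x y
    apply hi
    rw [pw_map, map_mul, R.exp]
  · intro e f he hf
    apply hi
    rw [map_mul, map_mul]
    exact R.rect _ _ (by rw [← map_mul, he]) (by rw [← map_mul, hf])
  · intro e x y he
    apply hi
    simp only [map_mul]
    exact R.comm _ _ _ (by rw [← map_mul, he])

instance : Countable Word := by
  have : Function.Injective (fun w : Word => w.head :: w.tail) := by
    rintro ⟨a, l⟩ ⟨b, l'⟩ h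
    simp only [List.cons.injEq] at h
    rw [h.1, h.2]
  exact this.countable

/-- codes of the local group of a frame -/
def LCode {m : ℕ} {S : Type u} [Semigroup S] (R : RG m S) (hm : 0 < m) {f : S} (hf : f * f = f)
    (g : Fin 3 → Loc f) (c : FC m) (κ : Fin (m + 1) → ℕ∞) : Prop :=
  let _ := locComm R hm hf
  IsCode m (G := Additive (Loc f)) (fun k => Additive.ofMul (g k)) c κ

theorem lcode_exists {m : ℕ} {S : Type u} [Semigroup S] (R : RG m S) (hm : 0 < m) {f : S}
    (hf : f * f = f) (g : Fin 3 → Loc f) : ∃ c κ, LCode R hm hf g c κ := by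
  let _ := locComm R hm hf
  exact exists_code m hm (Additive (Loc f)) (fun x => loc_pow R hm hf x.toMul) _

theorem lcode_embed {m : ℕ} (hm : 0 < m) {S S' : Type u} [Semigroup S] [Semigroup S']
    (R : RG m S) (R' : RG m S') {f : S} (hf : f * f = f) {f' : S'} (hf' : f' * f' = f')
    [Countable S] {g : Fin 3 → Loc f} {g' : Fin 3 → Loc f'} {c : FC m}
    {κ κ' : Fin (m + 1) → ℕ∞} (h : LCode R hm hf g c κ) (h' : LCode R' hm hf' g' c κ')
    (hκ : κ ≤ κ') : ∃ ι : Loc f → Loc f', Function.Injective ι ∧ (∀ x y, ι (x * y) = ι x * ι y) ∧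
      ∀ k, ι (g k) = g' k := by
  let _ := locComm R hm hf
  let _ := locComm R' hm hf'
  have hc : Countable (Loc f) := by
    have : Function.Injective (fun x : Loc f => x.1) := Subtype.val_injective
    exact this.countable
  have hc' : Countable (Additive (Loc f)) := hc
  obtain ⟨ι, h1, h2⟩ := embed_of_code hm (G := Additive (Loc f)) (G' := Additive (Loc f')) h h' hκ
  refine ⟨fun x => (ι (Additive.ofMul x)).toMul, ?_, ?_, ?_⟩
  · intro x y hxy
    exact h1 hxy
  · intro x y
    exact ι.map_add (Additive.ofMul x) (Additive.ofMul y)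
  · intro k
    exact h2 k

section
variable {m : ℕ} (hm : 0 < m)

/-- the class has a member with an element outside of the square -/
def cA (m : ℕ) (W : SgClass.{u}) : Prop :=
  ∃ (S : Type u) (_ : Semigroup S), W S ∧ ∃ s : S, pw s m ≠ s

/-- the codes of the frames in members of `W` -/
def cD (W : SgClass.{u}) (b : Bits) (c : FC m) : LowerSet (Fin (m + 1) → ℕ∞) where
  carrier := {κ | ∃ (S : Type u) (_ : Semigroup S) (R : RG m S) (Φ : Frame S), W S ∧
    bits m Φ = b ∧ ∃ κ', LCode R hm Φ.hf Φ.pin c κ' ∧ κ ≤ κ'}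
  lower' := by
    rintro κ κ0 hle ⟨S, i, R, Φ, h1, h2, κ', h3, h4⟩
    exact ⟨S, i, R, Φ, h1, h2, κ', h3, hle.trans h4⟩

theorem le_of_codes {W₁ W₂ : SgClass.{u}} (h1 : IsInclVariety W₁) (h2 : IsInclVariety W₂)
    (i1 : ∀ (S : Type u) [Semigroup S], W₁ S → RG m S)
    (i2 : ∀ (S : Type u) [Semigroup S], W₂ S → RG m S)
    (hA : cA m W₁ → cA m W₂) (hD : ∀ b c, cD hm W₁ b c ≤ cD hm W₂ b c)
    (S : Type u) [Semigroup S] (hS : W₁ S) : W₂ S := by
  classical
  apply mem_of_div h2
  intro u F
  have R := i1 S hS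
  by_cases ht : pw (F u) m = F u
  · -- the value is in the square
    let T : Subsemigroup S := F.srange
    let F0 : Word →ₙ* T := F.srangeRestrict
    have hinj : Function.Injective (MulMemClass.subtype T) := Subtype.val_injective
    have hT : W₁ T := mem_of_inj h1 hS (MulMemClass.subtype T) hinj
    have RT : RG m T := i1 T hT
    have hcT : Countable T := by
      have : Function.Surjective F0 := F.srangeRestrict_surjective
      exact this.countable
    have ht0 : pw (F0 u) m = F0 u := by
      apply hinj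
      rw [pw_map]
      exact ht
    obtain ⟨Φ, hΦ⟩ := exists_frame hm RT.toRB F0 u ht0
    obtain ⟨c, κ, hcode⟩ := lcode_exists RT hm Φ.hf Φ.pin
    have hmem : κ ∈ cD hm W₁ (bits m Φ) c :=
      ⟨T, inferInstance, RT, Φ, hT, rfl, κ, hcode, le_rfl⟩
    obtain ⟨S', _, R', Φ', hS', hbits, κ', hcode', hle⟩ := hD _ _ hmem
    obtain ⟨ι, hι1, hι2, hι3⟩ := lcode_embed hm RT R' Φ.hf Φ'.hf hcode hcode' hle
    obtain ⟨ψ, hψ⟩ := hΦ S' R'.toRB Φ' hbits.symm ι hι1 hι2 hι3
    refine ⟨S', inferInstance, hS', ψ, ?_⟩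
    intro w hw
    exact congrArg Subtype.val (hψ w hw)
  · -- `u` is a letter
    obtain ⟨S', _, hS', s, hs⟩ := hA ⟨S, inferInstance, hS, F u, ht⟩
    have R' := i2 S' hS'
    have hlet : ∀ (S : Type u) [Semigroup S] (_ : RG m S) (φ : Word →ₙ* S) (w : Word),
        pw (φ w) m ≠ φ w → ∃ y, w = FreeSemigroup.of y := by
      intro S _ R φ w hw
      rcases two_form w with h | ⟨⟨a, b, h | ⟨w', h⟩⟩, -⟩
      · exact h
      · exact absurd (by rw [h, map_mul]; exact R.exp _ _) hw
      · exact absurd (by rw [h, map_mul]; exact R.exp _ _) hw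
    obtain ⟨x, hx⟩ := hlet S R F u ht
    let ψ : Word →ₙ* S' := FreeSemigroup.lift
      (fun y => if F (FreeSemigroup.of y) = F u then s else pw s m)
    refine ⟨S', inferInstance, hS', ψ, ?_⟩
    intro w hw
    have h3 : ψ u = s := by
      change FreeSemigroup.lift _ u = s
      rw [hx, FreeSemigroup.lift_of, if_pos rfl]
    rw [h3] at hw
    obtain ⟨y, hy⟩ := hlet S' R' ψ w (by rw [← hw]; exact hs)
    have h4 : ψ w = if F (FreeSemigroup.of y) = F u then s else pw s m := by
      change FreeSemigroup.lift _ w = _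
      rw [hy, FreeSemigroup.lift_of]
    rw [h4] at hw
    split_ifs at hw with h5
    · rw [hy, h5]
    · exact absurd hw.symm hs

instance : Countable ℕ∞ := inferInstanceAs (Countable (Option ℕ))

include hm

/-- **Part 6.** -/
theorem countable_of_rg (V : SgClass.{u}) (h : ∀ (S : Type u) [Semigroup S], V S → RG m S) :
    (InclSub V).Countable := by
  have : Countable (LowerSet (Fin (m + 1) → ℕ∞)) := countable_lowerSet _
  let code : SgClass.{u} → Prop × (Bits → FC m → LowerSet (Fin (m + 1) → ℕ∞)) :=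
    fun W => (cA m W, cD hm W)
  have hfin : Finite Bits := inferInstance
  have hfin' : Finite (FC m) := inferInstance
  have hcount : Countable (Prop × (Bits → FC m → LowerSet (Fin (m + 1) → ℕ∞))) := inferInstance
  apply Set.countable_of_injective_of_countable_image (f := code) ?_ (Set.to_countable _)
  intro W₁ hW₁ W₂ hW₂ hC
  have e1 : cA m W₁ = cA m W₂ := congrArg Prod.fst hC
  have e2 : cD hm W₁ = cD hm W₂ := congrArg Prod.snd hC
  funext S hS
  apply propext
  constructor
  · intro h1
    exact le_of_codes hm hW₁.1 hW₂.1 (fun S _ h' => h S (hW₁.2 S h'))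
      (fun S _ h' => h S (hW₂.2 S h')) (fun h' => e1 ▸ h') (fun b c => by rw [e2]) S h1
  · intro h1
    exact le_of_codes hm hW₂.1 hW₁.1 (fun S _ h' => h S (hW₂.2 S h'))
      (fun S _ h' => h S (hW₁.2 S h')) (fun h' => e1 ▸ h') (fun b c => by rw [e2]) S h1

end

end Pool.Agent.helper45.Inc
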