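import Mathlib
import Pool.Agent.helper45.Inc.Cnt

/-!
# Finitely many inclusive subvarieties: finite semigroups whose products form a rectangular group
-/

universe u v

open Pool.Agent.helper9.Incl

namespace Pool.Agent.helper45.Inc

/-- the local subgroups have at most `n` elements -/
def LocLe (n : ℕ) (S : Type u) [Semigroup S] : Prop :=
  ∀ e : S, e * e = e → ∀ f : Fin (n + 1) → S, ∃ i j, i < j ∧ e * f i * e = e * f j * e

theorem exists_locInj {n : ℕ} {S : Type u} [Semigroup S] (h : LocLe n S) {e : S}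
    (he : e * e = e) : ∃ b : Loc e → Fin n, Function.Injective b := by
  have key : ∀ g : Fin (n + 1) → Loc e, ¬ Function.Injective g := by
    intro g hg
    obtain ⟨i, j, hij, h1⟩ := h e he (fun i => (g i).1)
    have h2 : ∀ k, e * (g k).1 * e = (g k).1 := fun k => by rw [(g k).2.1, (g k).2.2]
    rw [h2, h2] at h1
    exact (ne_of_lt hij) (hg (Subtype.ext h1))
  have hfin : Finite (Loc e) := by
    by_contra hinf
    rw [not_finite_iff_infinite] at hinf
    exact key (fun i => Infinite.natEmbedding (Loc e) i)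
      (fun i j hij => Fin.ext ((Infinite.natEmbedding (Loc e)).injective hij))
  have := Fintype.ofFinite (Loc e)
  have hcard : Fintype.card (Loc e) ≤ n := by
    by_contra hlt
    push Not at hlt
    have h1 : Fintype.card (Fin (n + 1)) ≤ Fintype.card (Loc e) := by
      rw [Fintype.card_fin]; omega
    obtain ⟨g⟩ := Function.Embedding.nonempty_of_card_le h1
    exact key g g.injective
  have h1 : Fintype.card (Loc e) ≤ Fintype.card (Fin n) := by rwa [Fintype.card_fin]
  obtain ⟨g⟩ := Function.Embedding.nonempty_of_card_le h1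
  exact ⟨g, g.injective⟩

/-- codes with a multiplication table -/
abbrev FCode (n : ℕ) : Type := Bits × (Fin n → Fin n → Fin n → Prop) × (Fin 3 → Fin n)

/-- the codes of the frames in members of `W` -/
def cF (m n : ℕ) (W : SgClass.{u}) : Set (FCode n) :=
  {c | ∃ (S : Type u) (_ : Semigroup S) (_ : RB m S) (Φ : Frame S) (b : Loc Φ.f → Fin n),
    W S ∧ Function.Injective b ∧ bits m Φ = c.1 ∧
    (∀ i j k, c.2.1 i j k ↔ ∃ x y, b x = i ∧ b y = j ∧ b (x * y) = k) ∧
    ∀ k, c.2.2 k = b (Φ.pin k)}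

theorem le_of_codes' {m n : ℕ} (hm : 0 < m) {W₁ W₂ : SgClass.{u}} (h2 : IsInclVariety W₂)
    (i1 : ∀ (S : Type u) [Semigroup S], W₁ S → RB m S ∧ LocLe n S)
    (i2 : ∀ (S : Type u) [Semigroup S], W₂ S → RB m S ∧ LocLe n S)
    (hA : cA m W₁ → cA m W₂) (hD : cF m n W₁ ⊆ cF m n W₂)
    (S : Type u) [Semigroup S] (hS : W₁ S) : W₂ S := by
  classical
  apply mem_of_div h2
  intro u F
  have R := (i1 S hS).1
  by_cases ht : pw (F u) m = F u
  · obtain ⟨Φ, hΦ⟩ := exists_frame hm R F u ht
    obtain ⟨b, hb⟩ := exists_locInj (i1 S hS).2 Φ.hf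
    have hmem : ((bits m Φ, (fun i j k => ∃ x y, b x = i ∧ b y = j ∧ b (x * y) = k),
        fun k => b (Φ.pin k)) : FCode n) ∈ cF m n W₁ :=
      ⟨S, inferInstance, R, Φ, b, hS, hb, rfl, fun _ _ _ => Iff.rfl, fun _ => rfl⟩
    obtain ⟨S', _, R', Φ', b', hS', hb', hbits, htab, hpin⟩ := hD hmem
    simp only at hbits htab hpin
    have hex : ∀ x : Loc Φ.f, ∃ x' : Loc Φ'.f, b' x' = b x := by
      intro x
      obtain ⟨x', y', h3, -, -⟩ := (htab (b x) (b x) (b (x * x))).mp ⟨x, x, rfl, rfl, rfl⟩
      exact ⟨x', h3⟩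
    choose ι hι using hex
    have k1 : Function.Injective ι := by
      intro x y hxy
      apply hb
      rw [← hι, ← hι, hxy]
    have k2 : ∀ x y, ι (x * y) = ι x * ι y := by
      intro x y
      obtain ⟨x', y', h3, h4, h5⟩ := (htab (b x) (b y) (b (x * y))).mp ⟨x, y, rfl, rfl, rfl⟩
      have h6 : x' = ι x := hb' (h3.trans (hι x).symm)
      have h7 : y' = ι y := hb' (h4.trans (hι y).symm)
      rw [h6, h7] at h5
      exact hb' ((hι (x * y)).trans h5.symm)
    have k3 : ∀ k, ι (Φ.pin k) = Φ'.pin k := fun k => hb' ((hι _).trans (hpin k))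
    obtain ⟨ψ, hψ⟩ := hΦ S' R' Φ' hbits.symm ι k1 k2 k3
    exact ⟨S', inferInstance, hS', ψ, hψ⟩
  · -- `u` is a letter
    obtain ⟨S', _, hS', s, hs⟩ := hA ⟨S, inferInstance, hS, F u, ht⟩
    have R' := (i2 S' hS').1
    have hlet : ∀ (S : Type u) [Semigroup S] (_ : RB m S) (φ : Word →ₙ* S) (w : Word),
        pw (φ w) m ≠ φ w → ∃ y, w = FreeSemigroup.of y := by
      intro S _ R φ w hw
      rcases two_form w with h | ⟨⟨a, b, h | ⟨w', h⟩⟩, -⟩
      · exact h
      · exact absurd (by rw [h, map_mul]; exact R.exp _ _) hw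
      · exact absurd (by rw [h, map_mul]; exact R.exp _ _) hw
    obtain ⟨x, hx⟩ := hlet S R F u ht
    let ψ : Word →ₙ* S' := FreeSemigroup.lift
      (fun y => if F (FreeSemigroup.of y) = F u then s else pw s m)
    refine ⟨S', inferInstance, hS', ψ, ?_⟩
    intro w hw
    have h3 : ψ u = s := by
      change FreeSemigroup.lift _ u = s
      rw [hx, FreeSemigroup.lift_of, if_pos rfl]
    rw [h3] at hw
    obtain ⟨y, hy⟩ := hlet S' R' ψ w (by rw [← hw]; exact hs)
    have h4 : ψ w = if F (FreeSemigroup.of y) = F u then s else pw s m := by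
      change FreeSemigroup.lift _ w = _
      rw [hy, FreeSemigroup.lift_of]
    rw [h4] at hw
    split_ifs at hw with h5
    · rw [hy, h5]
    · exact absurd hw.symm hs

/-- **Part 8.** -/
theorem finite_of_bounded {m n : ℕ} (hm : 0 < m) (V : SgClass.{u})
    (h : ∀ (S : Type u) [Semigroup S], V S → RB m S ∧ LocLe n S) : (InclSub V).Finite := by
  let code : SgClass.{u} → Prop × Set (FCode n) := fun W => (cA m W, cF m n W)
  apply Set.Finite.of_finite_image (f := code) (Set.toFinite _)
  intro W₁ hW₁ W₂ hW₂ hC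
  have e1 : cA m W₁ = cA m W₂ := congrArg Prod.fst hC
  have e2 : cF m n W₁ = cF m n W₂ := congrArg Prod.snd hC
  funext S hS
  apply propext
  constructor
  · intro h1
    exact le_of_codes' hm hW₂.1 (fun S _ h' => h S (hW₁.2 S h'))
      (fun S _ h' => h S (hW₂.2 S h')) (fun h' => e1 ▸ h') e2.le S h1
  · intro h1
    exact le_of_codes' hm hW₁.1 (fun S _ h' => h S (hW₂.2 S h'))
      (fun S _ h' => h S (hW₁.2 S h')) (fun h' => e1 ▸ h') e2.ge S h1

/-! ### Finite semigroups -/

theorem pw_sq {S : Type u} [Semigroup S] (a : S) (k : ℕ) : pw (a * a) k = pw a (2 * k + 1) := by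
  induction k with
  | zero => rfl
  | succ k ih =>
    change pw (a * a) k * pw a 1 = _
    rw [ih, pw_mul]
    congr 1

theorem hyp_of_rect {S : Type u} [Semigroup S]
    (h1 : ∀ x y : S, ∃ n, pw (x * y) (n + 1) = x * y)
    (h2 : ∀ e f : S, e * e = e → f * f = f → e * f * e = e) : Hyp S := by
  constructor
  · intro a
    obtain ⟨n, hn⟩ := h1 a a
    apply exists_idem_pw
    refine ⟨1, 2 * (n + 1) + 1, by omega, ?_⟩
    rw [← pw_sq, hn]
    rfl
  · intro e f he hf h3 h4
    have h5 := h2 e f he hf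
    rw [h3, h4] at h5
    exact h5.symm

/-- finite semigroups: the exponent -/
theorem rb_of_finite {S : Type u} [Semigroup S] [Finite S]
    (h1 : ∀ x y : S, ∃ n, pw (x * y) (n + 1) = x * y)
    (h2 : ∀ e f : S, e * e = e → f * f = f → e * f * e = e) : RB (Nat.card S).factorial S := by
  refine ⟨?_, h2⟩
  intro x y
  have H := hyp_of_rect h1 h2
  obtain ⟨k, hk⟩ := h1 x y
  generalize x * y = p at *
  have h3 : pw p k * p = p := hk
  have he : pw p k * pw p k = pw p k := left_pw h3 k
  have h4 : p * pw p k = p := by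
    have := pw_mul p 0 k
    rw [zero_add] at this
    exact this.trans hk
  let _ := locGroup H he
  let c : Loc (pw p k) := ⟨p, h3, h4⟩
  have hpow : ∀ k : ℕ, (c ^ (k + 1)).1 = pw p k := by
    intro k
    induction k with
    | zero => rw [zero_add, pow_one]; rfl
    | succ k ih =>
      rw [pow_succ, Loc.mul_val, ih]; rfl
  have hfin : Finite (Loc (pw p k)) :=
    Finite.of_injective (fun x : Loc (pw p k) => x.1) Subtype.val_injective
  have hcard : Nat.card (Loc (pw p k)) ≤ Nat.card S :=
    Nat.card_le_card_of_injective (fun x : Loc (pw p k) => x.1) Subtype.val_injective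
  have hdvd : Nat.card (Loc (pw p k)) ∣ (Nat.card S).factorial :=
    Nat.dvd_factorial Nat.card_pos hcard
  have h5 : c ^ (Nat.card S).factorial = 1 := by
    obtain ⟨q, hq⟩ := hdvd
    rw [hq, pow_mul, pow_card_eq_one', one_pow]
  rw [← hpow, pow_succ, h5, one_mul]

/-- powers in the local group -/
theorem RB.loc_pow {m : ℕ} {S : Type u} [Semigroup S] (R : RB m S) (hm : 0 < m) {e h : S}
    (he : e * e = e) (h1 : e * h = h) (h2 : h * e = h) : pw h (2 * m - 1) = e := by
  have hh : Sq h := ⟨e, h, h1.symm⟩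
  have h3 : pw h (m - 1) = e := by
    have h4 := R.rect e (pw h (m - 1)) he (R.o_idem hm hh)
    rwa [left_pw h1, pw_right h2] at h4
  have h5 := pw_mul h (m - 1) (m - 1)
  rw [show m - 1 + (m - 1) + 1 = 2 * m - 1 by omega, h3, he] at h5
  exact h5.symm

theorem idem_pw {S : Type u} [Semigroup S] {e : S} (he : e * e = e) (k : ℕ) : pw e k = e := by
  induction k with
  | zero => rfl
  | succ k ih =>
    change pw e k * e = e
    rw [ih, he]

/-- **Part 9.** -/
theorem finite_of_finite_rect (S : Type u) [Semigroup S] [Finite S]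
    (h1 : ∀ x y : S, ∃ n, pw (x * y) (n + 1) = x * y)
    (h2 : ∀ e f : S, e * e = e → f * f = f → e * f * e = e) (V : SgClass.{u})
    (hV : ∀ (T : Type u) [Semigroup T], V T → ∀ (u : Word) (W : Set Word), SatIncl S u W →
      SatIncl T u W) : (InclSub V).Finite := by
  classical
  have R := rb_of_finite h1 h2
  set m := (Nat.card S).factorial with hmdef
  have hm : 0 < m := Nat.factorial_pos _
  set n := Nat.card S with hn
  apply finite_of_bounded hm (n := n) V
  intro T _ hT
  have hx2 : ∀ {A : Type u} [Semigroup A] (_ : RB m A) (x : A),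
      pw x (2 * m - 1) * pw x (2 * m - 1) = pw x (2 * m - 1) := by
    intro A _ R x
    have h3 := pw_sq x (m - 1)
    rw [show 2 * (m - 1) + 1 = 2 * m - 1 by omega] at h3
    rw [← h3]
    exact R.o_idem hm (sq_mul x x)
  have RT : RB m T := by
    constructor
    · intro x y
      have hs : SatIncl S (pw (FreeSemigroup.of 0 * FreeSemigroup.of 1) m)
          {FreeSemigroup.of 0 * FreeSemigroup.of 1} := by
        intro φ
        refine ⟨_, rfl, ?_⟩
        rw [pw_map, map_mul, R.exp]
      obtain ⟨v, hv, hvu⟩ := hV T hT _ _ hs (FreeSemigroup.lift fun k => if k = 0 then x else y)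
      rw [Set.mem_singleton_iff] at hv
      subst hv
      rw [pw_map, map_mul, FreeSemigroup.lift_of, FreeSemigroup.lift_of] at hvu
      simpa using hvu
    · intro e f he hf
      have hs : SatIncl S (pw (FreeSemigroup.of 0) (2 * m - 1) *
          pw (FreeSemigroup.of 1) (2 * m - 1) * pw (FreeSemigroup.of 0) (2 * m - 1))
          {pw (FreeSemigroup.of 0) (2 * m - 1)} := by
        intro φ
        refine ⟨_, rfl, ?_⟩
        rw [map_mul, map_mul, pw_map, pw_map]
        exact R.rect _ _ (hx2 R _) (hx2 R _)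
      obtain ⟨v, hv, hvu⟩ := hV T hT _ _ hs (FreeSemigroup.lift fun k => if k = 0 then e else f)
      rw [Set.mem_singleton_iff] at hv
      subst hv
      rw [map_mul, map_mul, pw_map, pw_map, FreeSemigroup.lift_of, FreeSemigroup.lift_of] at hvu
      simpa [idem_pw he, idem_pw hf] using hvu
  refine ⟨RT, ?_⟩
  intro e he f
  have hs : SatIncl S (pw (FreeSemigroup.of 0) (2 * m - 1))
      {w | ∃ i j : ℕ, i < j ∧ j ≤ n ∧ w =
        pw (FreeSemigroup.of 0) (2 * m - 1) * FreeSemigroup.of (i + 1) *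
          pw (FreeSemigroup.of 0) (2 * m - 1) *
        pw (pw (FreeSemigroup.of 0) (2 * m - 1) * FreeSemigroup.of (j + 1) *
          pw (FreeSemigroup.of 0) (2 * m - 1)) (2 * m - 2)} := by
    intro φ
    have hfS := Fintype.ofFinite S
    set e' := pw (φ (FreeSemigroup.of 0)) (2 * m - 1) with he'def
    have he' : e' * e' = e' := hx2 R _
    obtain ⟨a, b, hab, hφ⟩ := Fintype.exists_ne_map_eq_of_card_lt
      (fun y : Fin (n + 1) => e' * φ (FreeSemigroup.of ((y : ℕ) + 1)) * e') (by
        rw [Fintype.card_fin, hn, Nat.card_eq_fintype_card]; omega)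
    have hne : (a : ℕ) ≠ b := fun h => hab (Fin.ext h)
    have key : ∀ i j : ℕ, e' * φ (FreeSemigroup.of (i + 1)) * e' =
        e' * φ (FreeSemigroup.of (j + 1)) * e' →
        φ (pw (FreeSemigroup.of 0) (2 * m - 1)) = φ (
        pw (FreeSemigroup.of 0) (2 * m - 1) * FreeSemigroup.of (i + 1) *
          pw (FreeSemigroup.of 0) (2 * m - 1) *
        pw (pw (FreeSemigroup.of 0) (2 * m - 1) * FreeSemigroup.of (j + 1) *
          pw (FreeSemigroup.of 0) (2 * m - 1)) (2 * m - 2)) := by
      intro i j hij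
      rw [map_mul, map_mul, map_mul, pw_map, pw_map, map_mul, map_mul, pw_map, ← he'def, hij]
      set h := e' * φ (FreeSemigroup.of (j + 1)) * e' with hh
      have h3 : e' * h = h := by rw [hh, ← mul_assoc, ← mul_assoc, he']
      have h4 : h * e' = h := by rw [hh, mul_assoc, he']
      have h5 := R.loc_pow hm he' h3 h4
      have h6 := pw_mul h 0 (2 * m - 2)
      rw [show 0 + (2 * m - 2) + 1 = 2 * m - 1 by omega, h5] at h6
      exact h6.symm
    rcases Nat.lt_or_gt_of_ne hne with h | h
    · exact ⟨_, ⟨a, b, h, by have := b.2; omega, rfl⟩, key _ _ hφ⟩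
    · exact ⟨_, ⟨b, a, h, by have := a.2; omega, rfl⟩, key _ _ hφ.symm⟩
  let g : ℕ → T := fun k => match k with
    | 0 => e
    | k + 1 => if h : k < n + 1 then f ⟨k, h⟩ else e
  obtain ⟨v, ⟨i, j, hij, hjn, rfl⟩, hv⟩ := hV T hT _ _ hs (FreeSemigroup.lift g)
  rw [map_mul, map_mul, map_mul, pw_map, pw_map, map_mul, map_mul, pw_map, FreeSemigroup.lift_of,
    FreeSemigroup.lift_of, FreeSemigroup.lift_of] at hv
  have g0 : g 0 = e := rfl
  have gi : g (i + 1) = f ⟨i, by omega⟩ := dif_pos (by omega)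
  have gj : g (j + 1) = f ⟨j, by omega⟩ := dif_pos (by omega)
  rw [g0, gi, gj, idem_pw he] at hv
  refine ⟨⟨i, by omega⟩, ⟨j, by omega⟩, hij, ?_⟩
  set h := e * f ⟨j, by omega⟩ * e with hh
  have h3 : e * h = h := by rw [hh, ← mul_assoc, ← mul_assoc, he]
  have h4 : h * e = h := by rw [hh, mul_assoc, he]
  have h5 := RT.loc_pow hm he h3 h4
  have h6 : pw h (2 * m - 2) * h = e := by
    have h7 : pw h (2 * m - 2 + 1) = e := by
      rw [show 2 * m - 2 + 1 = 2 * m - 1 by omega]; exact h5
    exact h7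
  have h8 : e * h = e * f ⟨i, by omega⟩ * e * pw h (2 * m - 2) * h := by rw [← hv]
  rw [h3, mul_assoc, h6] at h8
  calc e * f ⟨i, by omega⟩ * e = e * f ⟨i, by omega⟩ * (e * e) := by rw [he]
    _ = e * f ⟨i, by omega⟩ * e * e := (mul_assoc _ _ _).symm
    _ = h := h8.symm

theorem locLe_of_encard {N : ℕ} {S : Type u} [Semigroup S]
    (h : ∀ e : S, e * e = e → Set.encard (Set.range fun x : S => e * x * e) ≤ N) : LocLe N S := by
  intro e he f
  by_contra hcon
  push Not at hcon
  have hinj : Function.Injective fun i => e * f i * e := by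
    intro i j hij
    rcases lt_trichotomy i j with h1 | h1 | h1
    · exact absurd hij (hcon i j h1)
    · exact h1
    · exact absurd hij.symm (hcon j i h1)
  have h1 : Set.encard (Set.range fun i : Fin (N + 1) => e * f i * e) ≤ N := by
    refine (Set.encard_le_encard ?_).trans (h e he)
    rintro _ ⟨i, rfl⟩
    exact ⟨f i, rfl⟩
  rw [← Set.image_univ, hinj.encard_image, Set.encard_univ, ENat.card_eq_coe_fintype_card,
    Fintype.card_fin] at h1
  have h2 : N + 1 ≤ N := by exact_mod_cast h1
  omega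

/-- bounded local subgroups: the exponent -/
theorem rb_of_locLe {N : ℕ} {S : Type u} [Semigroup S] (hL : LocLe N S)
    (h1 : ∀ x y : S, ∃ n, pw (x * y) (n + 1) = x * y)
    (h2 : ∀ e f : S, e * e = e → f * f = f → e * f * e = e) : RB N.factorial S := by
  refine ⟨?_, h2⟩
  intro x y
  have H := hyp_of_rect h1 h2
  obtain ⟨k, hk⟩ := h1 x y
  generalize x * y = p at *
  have h3 : pw p k * p = p := hk
  have he : pw p k * pw p k = pw p k := left_pw h3 k
  have h4 : p * pw p k = p := by
    have := pw_mul p 0 k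
    rw [zero_add] at this
    exact this.trans hk
  let _ := locGroup H he
  let c : Loc (pw p k) := ⟨p, h3, h4⟩
  have hpow : ∀ k : ℕ, (c ^ (k + 1)).1 = pw p k := by
    intro k
    induction k with
    | zero => rw [zero_add, pow_one]; rfl
    | succ k ih =>
      rw [pow_succ, Loc.mul_val, ih]; rfl
  obtain ⟨b, hb⟩ := exists_locInj hL he
  have hfin : Finite (Loc (pw p k)) := Finite.of_injective b hb
  have hcard : Nat.card (Loc (pw p k)) ≤ N := by
    have := Nat.card_le_card_of_injective b hb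
    rwa [Nat.card_fin] at this
  have hdvd : Nat.card (Loc (pw p k)) ∣ N.factorial :=
    Nat.dvd_factorial Nat.card_pos hcard
  have h5 : c ^ N.factorial = 1 := by
    obtain ⟨q, hq⟩ := hdvd
    rw [hq, pow_mul, pow_card_eq_one', one_pow]
  rw [← hpow, pow_succ, h5, one_mul]

/-- **Part 10.** -/
theorem finite_of_bounded_rect (N : ℕ) (V : SgClass.{u})
    (h : ∀ (S : Type u) [Semigroup S], V S → (∀ x y : S, ∃ n, pw (x * y) (n + 1) = x * y) ∧
      (∀ e f : S, e * e = e → f * f = f → e * f * e = e) ∧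
      ∀ e : S, e * e = e → Set.encard (Set.range fun x : S => e * x * e) ≤ N) :
    (InclSub V).Finite := by
  apply finite_of_bounded (Nat.factorial_pos N) (n := N) V
  intro S _ hS
  obtain ⟨h1, h2, h3⟩ := h S hS
  exact ⟨rb_of_locLe (locLe_of_encard h3) h1 h2, locLe_of_encard h3⟩

end Pool.Agent.helper45.Inc
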