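import Mathlib
import Pool.Agent.helper45.Inc.AbPres

/-!
# Sections of abelian groups and well-quasi-ordered codes
-/

universe u v w

namespace Pool.Agent.helper45.Inc

/-- `G` is isomorphic to a quotient of a subgroup of `H` -/
def Sec (G : Type v) (H : Type w) [AddCommGroup G] [AddCommGroup H] : Prop :=
  ∃ (F : Type u) (_ : AddCommGroup F) (P : F →+ H) (Q : F →+ G), Function.Surjective Q ∧
    ∀ n, P n = 0 → Q n = 0

theorem Sec.of_inj {G : Type u} {H : Type w} [AddCommGroup G] [AddCommGroup H] (ι : G →+ H)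
    (hι : Function.Injective ι) : Sec.{u} G H := by
  refine ⟨G, inferInstance, ι, AddMonoidHom.id G, Function.surjective_id, ?_⟩
  intro n hn
  exact hι (hn.trans (map_zero ι).symm)

theorem Sec.of_small {F : Type} [AddCommGroup F] {G : Type v} {H : Type w} [AddCommGroup G]
    [AddCommGroup H] (P : F →+ H) (Q : F →+ G) (hQ : Function.Surjective Q)
    (h : ∀ n, P n = 0 → Q n = 0) : Sec.{u} G H := by
  refine ⟨ULift.{u} F, inferInstance, P.comp AddEquiv.ulift.toAddMonoidHom,
    Q.comp AddEquiv.ulift.toAddMonoidHom, ?_, ?_⟩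
  · intro x
    obtain ⟨y, hy⟩ := hQ x
    exact ⟨ULift.up y, hy⟩
  · intro n hn
    exact h n.down hn

/-- sections of direct sums of two groups -/
theorem Sec.add {G : Type v} {H : Type w} [AddCommGroup G] [AddCommGroup H] {A B : AddSubgroup G}
    {A' B' : AddSubgroup H} (hA : Sec.{u} A A') (hB : Sec.{u} B B')
    (hG : ∀ x : G, ∃ a ∈ A, ∃ b ∈ B, a + b = x) (hH : ∀ a ∈ A', ∀ b ∈ B', a + b = 0 → a = 0) :
    Sec.{u} G H := by
  obtain ⟨F₁, _, P₁, Q₁, hQ₁, h₁⟩ := hA
  obtain ⟨F₂, _, P₂, Q₂, hQ₂, h₂⟩ := hB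
  refine ⟨F₁ × F₂, inferInstance, (A'.subtype.comp P₁).coprod (B'.subtype.comp P₂),
    (A.subtype.comp Q₁).coprod (B.subtype.comp Q₂), ?_, ?_⟩
  · intro x
    obtain ⟨a, ha, b, hb, hab⟩ := hG x
    obtain ⟨n₁, hn₁⟩ := hQ₁ ⟨a, ha⟩
    obtain ⟨n₂, hn₂⟩ := hQ₂ ⟨b, hb⟩
    refine ⟨(n₁, n₂), ?_⟩
    rw [AddMonoidHom.coprod_apply, AddMonoidHom.comp_apply, AddMonoidHom.comp_apply, hn₁, hn₂]
    exact hab
  · rintro ⟨n₁, n₂⟩ hn
    rw [AddMonoidHom.coprod_apply, AddMonoidHom.comp_apply, AddMonoidHom.comp_apply] at hn ⊢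
    have e1 : ((P₁ n₁ : A') : H) = 0 := hH _ (P₁ n₁).2 _ (P₂ n₂).2 hn
    have e2 : ((P₂ n₂ : B') : H) = 0 := by
      have : ((P₁ n₁ : A') : H) + ((P₂ n₂ : B') : H) = 0 := hn
      rwa [e1, zero_add] at this
    have e3 := h₁ _ (Subtype.ext e1)
    have e4 := h₂ _ (Subtype.ext e2)
    change A.subtype (Q₁ n₁) + B.subtype (Q₂ n₂) = 0
    rw [e3, e4, map_zero, map_zero, add_zero]

/-- sections of finite direct sums -/
theorem Sec.pi {G : Type v} {H : Type w} [AddCommGroup G] [AddCommGroup H] {κ : Type} [Fintype κ]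
    {A : κ → AddSubgroup G} {A' : κ → AddSubgroup H} (hA : ∀ k, Sec.{u} (A k) (A' k))
    (hG : ∀ x : G, ∃ a : ∀ k, A k, ∑ k, (a k : G) = x)
    (hH : ∀ a : ∀ k, A' k, ∑ k, (a k : H) = 0 → ∀ k, a k = 0) :
    Sec.{u} G H := by
  choose F inst P Q hQ h using hA
  refine ⟨∀ k, F k, inferInstance,
    ∑ k, ((A' k).subtype.comp (P k)).comp (Pi.evalAddMonoidHom F k),
    ∑ k, ((A k).subtype.comp (Q k)).comp (Pi.evalAddMonoidHom F k), ?_, ?_⟩
  · intro x
    obtain ⟨a, ha⟩ := hG x
    choose n hn using fun k => hQ k (a k)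
    refine ⟨n, ?_⟩
    rw [AddMonoidHom.finsetSum_apply, ← ha]
    apply Finset.sum_congr rfl
    intro k _
    change ((Q k (n k) : A k) : G) = _
    rw [hn]
  · intro n hn
    rw [AddMonoidHom.finsetSum_apply] at hn ⊢
    have e1 := hH (fun k => P k (n k)) hn
    apply Finset.sum_eq_zero
    intro k _
    change ((Q k (n k) : A k) : G) = 0
    rw [h k _ (e1 k)]
    rfl

/-- lower sets of a countable well-quasi-ordered set -/
theorem countable_lower {α : Type v} [Countable α] (r : α → α → Prop)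
    (h : WellQuasiOrdered r) :
    {D : Set α | ∀ a b, r a b → b ∈ D → a ∈ D}.Countable := by
  classical
  have key : ∀ D : Set α, (∀ a b, r a b → b ∈ D → a ∈ D) →
      ∃ F : Finset α, ∀ x, x ∈ D ↔ ∀ y ∈ F, ¬ r y x := by
    intro D hD
    by_contra hcon
    push Not at hcon
    obtain ⟨f, hf1, hf2⟩ := exists_seq_of_forall_finset_exists (fun x => x ∉ D)
      (fun x y => ¬ r x y) (by
        intro s hs
        obtain ⟨x, hx | hx⟩ := hcon s
        · exfalso
          obtain ⟨hx1, y, hy, hyx⟩ := hx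
          exact hs y hy (hD _ _ hyx hx1)
        · exact ⟨x, hx.1, hx.2⟩)
    obtain ⟨i, j, hij, hr⟩ := h f
    exact hf2 i j hij hr
  choose! F hF using key
  apply Set.countable_of_injective_of_countable_image (f := F) ?_ (Set.to_countable _)
  intro D hD D' hD' hFD
  ext x
  rw [hF D hD, hF D' hD', hFD]

/-! ### lists coding multisets of cyclic groups -/

section lists
variable {I : Type v} (e : I → ℕ)

/-- the list `l` codes the function `e` on `s` -/
def HL : Set I → List (ℕ × Bool) → Prop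
  | s, [] => s = ∅
  | s, a :: l => ∃ t ⊆ s, (∀ i ∈ t, e i = a.1) ∧ (if a.2 = true then t.Infinite else ∃ i, t = {i}) ∧
      HL (s \ t) l

theorem exists_HL : ∀ (k : ℕ) (s : Set I), (∀ i ∈ s, e i < k) → ∃ l, HL e s l := by
  intro k
  induction k with
  | zero =>
    intro s hs
    exact ⟨[], Set.eq_empty_of_forall_notMem fun i hi => absurd (hs i hi) (by omega)⟩
  | succ k ih =>
    have fin : ∀ (c : ℕ) (s : Set I), (∀ i ∈ s, e i < k + 1) → {i ∈ s | e i = k}.Finite →
        {i ∈ s | e i = k}.ncard = c → ∃ l, HL e s l := by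
      intro c
      induction c with
      | zero =>
        intro s hs hfin hc
        apply ih
        intro i hi
        have h1 := hs i hi
        have h2 : i ∉ {i ∈ s | e i = k} := by
          rw [(Set.ncard_eq_zero hfin).mp hc]
          exact Set.notMem_empty i
        have h3 : e i ≠ k := fun h => h2 ⟨hi, h⟩
        omega
      | succ c ihc =>
        intro s hs hfin hc
        obtain ⟨i, hi⟩ : {i ∈ s | e i = k}.Nonempty := by
          rw [Set.nonempty_iff_ne_empty]
          intro h0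
          rw [h0, Set.ncard_empty] at hc
          omega
        have h1 : {j ∈ s \ {i} | e j = k} = {i ∈ s | e i = k} \ {i} := by
          ext j
          simp only [Set.mem_sdiff, Set.mem_singleton_iff, Set.mem_ofPred_eq]
          tauto
        obtain ⟨l, hl⟩ := ihc (s \ {i}) (fun j hj => hs j hj.1) (by
            rw [h1]; exact hfin.subset Set.sdiff_subset) (by
            rw [h1, Set.ncard_sdiff_singleton_of_mem hi, hc]; rfl)
        refine ⟨(k, false) :: l, {i}, ?_, ?_, ?_, hl⟩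
        · rintro j rfl
          exact hi.1
        · rintro j rfl
          exact hi.2
        · exact ⟨i, rfl⟩
    intro s hs
    by_cases hfin : {i ∈ s | e i = k}.Finite
    · exact fin _ s hs hfin rfl
    · obtain ⟨l, hl⟩ := ih (s \ {i ∈ s | e i = k}) (by
        rintro i ⟨h1, h2⟩
        have h3 := hs i h1
        have h4 : e i ≠ k := fun h => h2 ⟨h1, h⟩
        omega)
      exact ⟨(k, true) :: l, {i ∈ s | e i = k}, fun i hi => hi.1, fun i hi => hi.2, hfin, hl⟩

end lists

/-- the order of the letters -/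
def r0 (a b : ℕ × Bool) : Prop := a.1 ≤ b.1 ∧ a.2 = b.2

instance : IsPreorder (ℕ × Bool) r0 where
  refl _ := ⟨le_rfl, rfl⟩
  trans _ _ _ h h' := ⟨h.1.trans h'.1, h.2.trans h'.2⟩

theorem wqo_r0 : WellQuasiOrdered r0 := by
  have h1 : WellQuasiOrdered (fun a b : ℕ => a ≤ b) := wellQuasiOrdered_le
  have h2 : WellQuasiOrdered (fun a b : Bool => a = b) := Finite.wellQuasiOrdered _
  exact h1.prod h2

/-- the order of the lists -/
abbrev rl : List (ℕ × Bool) → List (ℕ × Bool) → Prop := List.SublistForall₂ r0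

theorem wqo_rl : WellQuasiOrdered rl := by
  have h1 : (Set.univ : Set (ℕ × Bool)).PartiallyWellOrderedOn r0 := by
    intro f
    exact wqo_r0 fun n => (f n).1
  have h2 := Set.PartiallyWellOrderedOn.partiallyWellOrderedOn_sublistForall₂ r0 h1
  intro f
  exact h2 (fun n => ⟨f n, fun x _ => Set.mem_univ x⟩)

theorem embed_HL {I : Type v} {J : Type w} [Countable I] {e : I → ℕ} {e' : J → ℕ}
    {l l' : List (ℕ × Bool)} (h : rl l l') : ∀ {s : Set I} {s' : Set J}, HL e s l → HL e' s' l' →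
    ∃ σ : s → J, Function.Injective σ ∧ ∀ i : s, σ i ∈ s' ∧ e i ≤ e' (σ i) := by
  classical
  induction h with
  | nil =>
    intro s s' hs hs'
    have hs0 : s = ∅ := hs
    subst hs0
    exact ⟨fun i => (Set.notMem_empty _ i.2).elim, fun i => (Set.notMem_empty _ i.2).elim,
      fun i => (Set.notMem_empty _ i.2).elim⟩
  | @cons a a' l l' hr _ ih =>
    intro s s' hs hs'
    obtain ⟨t, hts, hte, htb, htl⟩ := hs
    obtain ⟨t', hts', hte', htb', htl'⟩ := hs'
    obtain ⟨σ, hσ, hσ'⟩ := ih htl htl'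
    have hτ : ∃ τ : t → J, Function.Injective τ ∧ ∀ i : t, τ i ∈ t' := by
      by_cases hb : a.2 = true
      · rw [if_pos hb] at htb
        rw [if_pos (hr.2 ▸ hb)] at htb'
        have h1 : Infinite t' := htb'.to_subtype
        obtain ⟨g, hg⟩ := exists_injective_nat t
        refine ⟨fun i => (Infinite.natEmbedding t' (g i)).1, ?_, fun i => Subtype.mem _⟩
        intro i j hij
        exact hg ((Infinite.natEmbedding t').injective (Subtype.ext hij))
      · rw [if_neg hb] at htb
        rw [if_neg (hr.2 ▸ hb)] at htb'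
        obtain ⟨i, rfl⟩ := htb
        obtain ⟨j, rfl⟩ := htb'
        refine ⟨fun _ => j, ?_, fun _ => rfl⟩
        rintro ⟨x, rfl⟩ ⟨y, rfl⟩ _
        rfl
    obtain ⟨τ, hτ, hτ'⟩ := hτ
    refine ⟨fun i => if h : (i : I) ∈ t then τ ⟨i, h⟩ else σ ⟨i, i.2, h⟩, ?_, ?_⟩
    · intro i j hij
      dsimp only at hij
      by_cases hi : (i : I) ∈ t
      · rw [dif_pos hi] at hij
        by_cases hj : (j : I) ∈ t
        · rw [dif_pos hj] at hij
          have := hτ hij
          exact Subtype.ext (congrArg (fun x : t => (x : I)) this)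
        · rw [dif_neg hj] at hij
          exact absurd (hij ▸ hτ' ⟨i, hi⟩) (hσ' ⟨j, j.2, hj⟩).1.2
      · rw [dif_neg hi] at hij
        by_cases hj : (j : I) ∈ t
        · rw [dif_pos hj] at hij
          exact absurd (hij ▸ hτ' ⟨j, hj⟩) (hσ' ⟨i, i.2, hi⟩).1.2
        · rw [dif_neg hj] at hij
          have := hσ hij
          exact Subtype.ext (congrArg (fun x : (s \ t : Set I) => (x : I)) this)
    · intro i
      dsimp only
      by_cases hi : (i : I) ∈ t
      · rw [dif_pos hi]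
        exact ⟨hts' (hτ' ⟨i, hi⟩), by rw [hte i hi, hte' _ (hτ' ⟨i, hi⟩)]; exact hr.1⟩
      · rw [dif_neg hi]
        have := hσ' ⟨i, i.2, hi⟩
        exact ⟨this.1.1, this.2⟩
  | cons_right _ ih =>
    intro s s' hs hs'
    obtain ⟨t', hts', hte', htb', htl'⟩ := hs'
    obtain ⟨σ, hσ, hσ'⟩ := ih hs htl'
    exact ⟨σ, hσ, fun i => ⟨(hσ' i).1.1, (hσ' i).2⟩⟩

end Pool.Agent.helper45.Inc
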