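import Mathlib
import Pool.Agent.helper45.Inc.Sec

/-!
# Countable abelian p-groups
-/

universe u v w

namespace Pool.Agent.helper45.Inc

/-- the elements of order dividing `p` of `p ^ n G` -/
def soc (p n : ℕ) (G : Type v) [AddCommGroup G] : Set G := {x | p • x = 0 ∧ ∃ y : G, p ^ n • y = x}

/-- all elements have `p`-power order -/
def IsP (p : ℕ) (G : Type v) [AddCommGroup G] : Prop := ∀ x : G, ∃ k, p ^ k • x = 0

section
variable {p : ℕ} {G : Type v} [AddCommGroup G]

theorem soc_anti {n k : ℕ} (h : n ≤ k) : soc p k G ⊆ soc p n G := by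
  rintro x ⟨h1, y, hy⟩
  refine ⟨h1, p ^ (k - n) • y, ?_⟩
  rw [← mul_smul, ← pow_add, Nat.add_sub_cancel' h, hy]

theorem indep (hp : p.Prime) {n : ℕ} (hinf : (soc p n G).Infinite) (F : AddSubgroup G)
    (hF : (F : Set G).Finite) :
    ∃ y : G, p ^ (n + 1) • y = 0 ∧ ∀ k : ℤ, k • y ∈ F → ((p ^ (n + 1) : ℕ) : ℤ) ∣ k := by
  obtain ⟨x, ⟨h1, y, hy⟩, hxF⟩ := hinf.exists_notMem_finite hF
  have h0 : p ^ (n + 1) • y = 0 := by rw [pow_succ', mul_smul, hy, h1]
  refine ⟨y, h0, ?_⟩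
  intro k hk
  by_contra hdvd
  obtain ⟨j, hj, hd⟩ := (Nat.dvd_prime_pow hp).mp (Nat.gcd_dvd_right k.natAbs (p ^ (n + 1)))
  have hjn : j ≤ n := by
    by_contra hlt
    have : j = n + 1 := by omega
    subst this
    apply hdvd
    have h2 : p ^ (n + 1) ∣ k.natAbs := hd ▸ Nat.gcd_dvd_left k.natAbs (p ^ (n + 1))
    exact Int.natCast_dvd.mpr h2
  have hbez := Int.gcd_eq_gcd_ab k ((p ^ (n + 1) : ℕ) : ℤ)
  have hg : Int.gcd k ((p ^ (n + 1) : ℕ) : ℤ) = p ^ j := by
    rw [← hd]; rfl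
  rw [hg] at hbez
  have h3 : (p ^ j : ℕ) • y ∈ F := by
    have h4 : ((p ^ j : ℕ) : ℤ) • y = Int.gcdA k ((p ^ (n + 1) : ℕ) : ℤ) • (k • y) := by
      rw [hbez, add_smul, mul_comm k, mul_smul, mul_comm (((p ^ (n + 1) : ℕ) : ℤ)), mul_smul,
        natCast_zsmul, h0, smul_zero, add_zero]
    rw [← natCast_zsmul, h4]
    exact F.zsmul_mem hk _
  apply hxF
  have h5 : p ^ (n - j) • (p ^ j : ℕ) • y = x := by
    rw [← mul_smul, ← pow_add, Nat.sub_add_cancel hjn, hy]
  rw [← h5]
  exact F.nsmul_mem h3 _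

theorem finite_sup (hp : p.Prime) (F : AddSubgroup G) (hF : (F : Set G).Finite) (y : G) (k : ℕ)
    (hy : p ^ k • y = 0) : ((F ⊔ AddSubgroup.zmultiples y : AddSubgroup G) : Set G).Finite := by
  have h1 : ((AddSubgroup.zmultiples y : AddSubgroup G) : Set G).Finite := by
    rw [finite_zmultiples, isOfFinAddOrder_iff_nsmul_eq_zero]
    exact ⟨_, pow_pos hp.pos _, hy⟩
  refine (hF.image2 (fun a b => a + b) h1).subset ?_
  intro x hx
  obtain ⟨a, ha, b, hb, rfl⟩ := AddSubgroup.mem_sup.mp hx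
  exact ⟨a, ha, b, hb, rfl⟩

/-- every countable `p`-group is a section of a `p`-group with infinite socles -/
theorem sec_univ (hp : p.Prime) {K : Type w} [AddCommGroup K] [Countable K] (hK : IsP p K)
    (hinf : ∀ n, (soc p n G).Infinite) : Sec.{u} K G := by
  classical
  obtain ⟨e, he⟩ := exists_surjective_nat K
  choose ν hν using fun j => hK (e j)
  choose Y hY1 hY2 using fun (F : {F : AddSubgroup G // (F : Set G).Finite}) (n : ℕ) =>
    indep hp (hinf n) F.1 F.2
  let s : ℕ → {F : AddSubgroup G // (F : Set G).Finite} := fun j => Nat.rec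
    ⟨⊥, by rw [AddSubgroup.coe_bot]; exact Set.finite_singleton 0⟩
    (fun j F => ⟨F.1 ⊔ AddSubgroup.zmultiples (Y F (ν j)), finite_sup hp _ F.2 _ _ (hY1 F (ν j))⟩) j
  let y : ℕ → G := fun j => Y (s j) (ν j)
  have hs : ∀ j, (s (j + 1)).1 = (s j).1 ⊔ AddSubgroup.zmultiples (y j) := fun j => rfl
  have hmono : Monotone fun j => (s j).1 := by
    apply monotone_nat_of_le_succ
    intro j
    rw [hs]
    exact le_sup_left
  have hmem : ∀ i j, i < j → y i ∈ (s j).1 := by
    intro i j hij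
    apply hmono (Nat.succ_le_of_lt hij)
    change y i ∈ (s (i + 1)).1
    rw [hs]
    exact AddSubgroup.mem_sup_right (AddSubgroup.mem_zmultiples _)
  have hy1 : ∀ j, p ^ (ν j + 1) • y j = 0 := fun j => hY1 _ _
  have hy2 : ∀ j (k : ℤ), k • y j ∈ (s j).1 → ((p ^ (ν j + 1) : ℕ) : ℤ) ∣ k := fun j => hY2 _ _
  let P : (ℕ →₀ ℤ) →+ G := (Finsupp.linearCombination ℤ y).toAddMonoidHom
  let Q : (ℕ →₀ ℤ) →+ K := (Finsupp.linearCombination ℤ e).toAddMonoidHom
  have hP : ∀ n, P n = n.sum fun j k => k • y j := fun n => Finsupp.linearCombination_apply _ _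
  have hQ : ∀ n, Q n = n.sum fun j k => k • e j := fun n => Finsupp.linearCombination_apply _ _
  have hPmem : ∀ (J : ℕ) (n : ℕ →₀ ℤ), (∀ j, J ≤ j → n j = 0) → P n ∈ (s J).1 := by
    intro J n hn
    rw [hP, Finsupp.sum]
    apply AddSubgroup.sum_mem
    intro j hj
    apply AddSubgroup.zsmul_mem
    apply hmem
    by_contra hlt
    exact (Finsupp.mem_support_iff.mp hj) (hn j (not_lt.mp hlt))
  have key : ∀ (J : ℕ) (n : ℕ →₀ ℤ), (∀ j, J ≤ j → n j = 0) → P n = 0 →
      ∀ j, ((p ^ (ν j + 1) : ℕ) : ℤ) ∣ n j := by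
    intro J
    induction J with
    | zero =>
      intro n hn _ j
      rw [hn j (Nat.zero_le j)]
      exact dvd_zero _
    | succ J ih =>
      intro n hn h0
      have h1 : ∀ j, J ≤ j → (n.erase J) j = 0 := by
        intro j hj
        by_cases hjJ : j = J
        · rw [hjJ, Finsupp.erase_same]
        · rw [Finsupp.erase_ne hjJ]
          exact hn j (by omega)
      have h2 : P n = P (n.erase J) + n J • y J := by
        conv_lhs => rw [← Finsupp.erase_add_single J n]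
        rw [map_add]
        congr 1
        exact Finsupp.linearCombination_single ℤ _ _
      rw [h0] at h2
      have h3 : n J • y J ∈ (s J).1 := by
        have : n J • y J = - P (n.erase J) := by
          rw [eq_neg_iff_add_eq_zero, add_comm]; exact h2.symm
        rw [this]
        exact AddSubgroup.neg_mem _ (hPmem J _ h1)
      have h4 := hy2 J _ h3
      have h5 : n J • y J = 0 := by
        obtain ⟨c, hc⟩ := h4
        rw [hc, mul_comm, mul_smul, natCast_zsmul, hy1, smul_zero]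
      rw [h5, add_zero] at h2
      have h6 := ih _ h1 h2.symm
      intro j
      by_cases hjJ : j = J
      · rw [hjJ]; exact h4
      · have := h6 j
        rwa [Finsupp.erase_ne hjJ] at this
  apply Sec.of_small P Q
  · intro x
    obtain ⟨j, hj⟩ := he x
    refine ⟨Finsupp.single j 1, ?_⟩
    change Finsupp.linearCombination ℤ e (Finsupp.single j 1) = x
    rw [Finsupp.linearCombination_single, one_smul, hj]
  · intro n hn
    have h1 := key (n.support.sup id + 1) n (by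
      intro j hj
      by_contra h
      have := Finset.le_sup (f := id) (Finsupp.mem_support_iff.mpr h)
      simp only [id] at this
      omega) hn
    rw [hQ, Finsupp.sum]
    apply Finset.sum_eq_zero
    intro j _
    obtain ⟨c, hc⟩ := h1 j
    rw [hc, mul_comm, mul_smul, natCast_zsmul, pow_succ', mul_smul, hν, smul_zero, smul_zero]

theorem exists_stable (hfin : ∃ n, (soc p n G).Finite) :
    ∃ m, (soc p m G).Finite ∧ ∀ k, m ≤ k → soc p k G = soc p m G := by
  classical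
  have hex : ∃ c, ∃ m, (soc p m G).Finite ∧ (soc p m G).ncard = c := by
    obtain ⟨n, hn⟩ := hfin
    exact ⟨_, n, hn, rfl⟩
  obtain ⟨m, hm, hc⟩ := Nat.find_spec hex
  refine ⟨m, hm, ?_⟩
  intro k hk
  have h1 : soc p k G ⊆ soc p m G := soc_anti hk
  apply Set.eq_of_subset_of_ncard_le h1 _ hm
  by_contra hlt
  push Not at hlt
  exact Nat.find_min hex (hc ▸ hlt) ⟨k, hm.subset h1, rfl⟩

theorem div_range (hG : IsP p G) {m : ℕ} (hst : ∀ k, m ≤ k → soc p k G = soc p m G) (y : G) :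
    ∃ z : G, p ^ m • y = p • p ^ m • z := by
  have key : ∀ (k : ℕ) (y : G), p ^ k • p ^ m • y = 0 → ∃ z : G, p ^ m • y = p • p ^ m • z := by
    intro k
    induction k with
    | zero =>
      intro y hy
      rw [pow_zero, one_smul] at hy
      exact ⟨0, by rw [hy, smul_zero, smul_zero]⟩
    | succ k ih =>
      intro y hy
      have h1 : p ^ k • p ^ m • y ∈ soc p m G := by
        refine ⟨?_, p ^ k • y, ?_⟩
        · rw [← mul_smul, ← pow_succ', hy]
        · rw [← mul_smul, ← mul_smul, mul_comm]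
      rw [← hst (m + k + 1) (by omega)] at h1
      obtain ⟨-, z, hz⟩ := h1
      obtain ⟨z', hz'⟩ := ih (y - p • z) (by
        rw [smul_sub, smul_sub, ← hz, sub_eq_zero]
        simp only [← mul_smul]
        congr 1
        ring)
      refine ⟨z + z', ?_⟩
      rw [smul_add, smul_add, ← hz', smul_sub]
      rw [smul_comm (p ^ m) p z]
      abel
  obtain ⟨k, hk⟩ := hG (p ^ m • y)
  exact key k y hk

/-- divisibility by all integers -/
theorem div_all (hp : p.Prime) {A : Type v} [AddCommGroup A] (hA : IsP p A)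
    (hdiv : ∀ a : A, ∃ b : A, p • b = a) {n : ℤ} (hn : n ≠ 0) (a : A) : ∃ b : A, n • b = a := by
  have hpow : ∀ (j : ℕ) (a : A), ∃ b : A, p ^ j • b = a := by
    intro j
    induction j with
    | zero => intro a; exact ⟨a, by rw [pow_zero, one_smul]⟩
    | succ j ih =>
      intro a
      obtain ⟨b, rfl⟩ := ih a
      obtain ⟨c, rfl⟩ := hdiv b
      exact ⟨c, by rw [pow_succ, mul_smul]⟩
  have hnat : ∀ (n : ℕ), n ≠ 0 → ∀ a : A, ∃ b : A, n • b = a := by
    intro n hn a
    obtain ⟨j, u, hu, rfl⟩ := Nat.exists_eq_pow_mul_and_not_dvd hn p hp.ne_one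
    obtain ⟨k, hk⟩ := hA a
    have hcop : Nat.Coprime u (p ^ k) := (hp.coprime_pow_of_not_dvd hu)
    have hbez := Int.gcd_eq_gcd_ab (u : ℤ) ((p ^ k : ℕ) : ℤ)
    rw [Int.gcd_natCast_natCast, hcop] at hbez
    obtain ⟨b, hb⟩ := hpow j (Int.gcdA (u : ℤ) ((p ^ k : ℕ) : ℤ) • a)
    refine ⟨b, ?_⟩
    rw [mul_comm, mul_smul, hb, ← natCast_zsmul]
    have h1 : (((p ^ k : ℕ) : ℤ) * Int.gcdB (u : ℤ) ((p ^ k : ℕ) : ℤ)) • a = 0 := by
      rw [mul_comm, mul_smul, natCast_zsmul, hk, smul_zero]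
    calc (u : ℤ) • Int.gcdA (u : ℤ) ((p ^ k : ℕ) : ℤ) • a
        = ((u : ℤ) * Int.gcdA (u : ℤ) ((p ^ k : ℕ) : ℤ)) • a +
          (((p ^ k : ℕ) : ℤ) * Int.gcdB (u : ℤ) ((p ^ k : ℕ) : ℤ)) • a := by
            rw [h1, add_zero, mul_smul]
      _ = ((1 : ℕ) : ℤ) • a := by rw [← add_smul, ← hbez]
      _ = a := by rw [Nat.cast_one, one_smul]
  rcases Int.natAbs_eq n with h | h
  · obtain ⟨b, hb⟩ := hnat n.natAbs (Int.natAbs_ne_zero.mpr hn) a
    exact ⟨b, by rw [h, natCast_zsmul, hb]⟩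
  · obtain ⟨b, hb⟩ := hnat n.natAbs (Int.natAbs_ne_zero.mpr hn) (-a)
    exact ⟨b, by rw [h, neg_smul, natCast_zsmul, hb, neg_neg]⟩

end

end Pool.Agent.helper45.Inc
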