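import Mathlib
import Pool.Agent.helper45.Inc.Tor1

/-!
# Codes of countable abelian p-groups
-/

universe u

namespace Pool.Agent.helper45.Inc

/-- divisible by all nonzero integers -/
def IsDiv (A : Type u) [AddCommGroup A] : Prop := ∀ n : ℤ, n ≠ 0 → ∀ a : A, ∃ b : A, n • b = a

theorem IsDiv.extend {A M N : Type u} [AddCommGroup A] [AddCommGroup M] [AddCommGroup N]
    (h : IsDiv A) (f : M →+ N) (hf : Function.Injective f) (g : M →+ A) :
    ∃ k : N →+ A, k.comp f = g := by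
  let _ : DivisibleBy A ℤ := divisibleByOfSMulRightSurj A ℤ (fun {n} hn a => h n hn a)
  exact (Module.Baer.of_divisible A).extension_property_addMonoidHom f hf g

section
variable {p : ℕ} {G : Type u} [AddCommGroup G]

theorem split_p (hp : p.Prime) (hG : IsP p G) {m : ℕ}
    (hst : ∀ k, m ≤ k → soc p k G = soc p m G) :
    ∃ A B : AddSubgroup G, IsDiv A ∧ (∀ x ∈ B, p ^ m • x = 0) ∧
      (∀ x : G, ∃ a ∈ A, ∃ b ∈ B, a + b = x) ∧ (∀ a ∈ A, ∀ b ∈ B, a + b = 0 → a = 0) ∧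
      ∀ a : A, p • a = 0 → (a : G) ∈ soc p m G := by
  let A : AddSubgroup G := (nsmulAddMonoidHom (p ^ m) : G →+ G).range
  have hAmem : ∀ x : G, x ∈ A ↔ ∃ y : G, p ^ m • y = x := fun x => Iff.rfl
  have hAP : IsP p A := by
    intro a
    obtain ⟨k, hk⟩ := hG (a : G)
    exact ⟨k, Subtype.ext hk⟩
  have hAdiv : IsDiv A := by
    intro n hn a
    apply div_all hp hAP _ hn
    rintro ⟨a, ha⟩
    obtain ⟨y, rfl⟩ := (hAmem a).mp ha
    obtain ⟨z, hz⟩ := div_range hG hst y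
    exact ⟨⟨p ^ m • z, (hAmem _).mpr ⟨z, rfl⟩⟩, Subtype.ext hz.symm⟩
  obtain ⟨ρ, hρ⟩ := hAdiv.extend A.subtype Subtype.val_injective (AddMonoidHom.id A)
  have hρ' : ∀ a : A, ρ (a : G) = a := fun a => congrArg (fun f : A →+ A => f a) hρ
  refine ⟨A, ρ.ker, hAdiv, ?_, ?_, ?_, ?_⟩
  · intro x hx
    have hx0 : ρ x = 0 := hx
    have h1 : ρ (p ^ m • x) = ⟨p ^ m • x, (hAmem _).mpr ⟨x, rfl⟩⟩ := hρ' ⟨_, _⟩
    rw [map_nsmul, hx0, smul_zero] at h1
    exact (congrArg Subtype.val h1).symm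
  · intro x
    refine ⟨(ρ x : G), (ρ x).2, x - (ρ x : G), ?_, ?_⟩
    · change ρ (x - (ρ x : G)) = 0
      rw [map_sub, hρ', sub_self]
    · abel
  · intro a ha b hb hab
    have hb0 : ρ b = 0 := hb
    have h1 := congrArg ρ hab
    rw [map_add, hb0, add_zero, map_zero] at h1
    have h2 : ρ a = ⟨a, ha⟩ := hρ' ⟨a, ha⟩
    rw [h2] at h1
    exact congrArg Subtype.val h1
  · intro a ha
    refine ⟨congrArg Subtype.val ha, (hAmem _).mp a.2⟩

/-- the rank of the socle -/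
def HasRank (p : ℕ) (A : Type u) [AddCommGroup A] (r : ℕ) : Prop :=
  ∃ (I : Type u) (_ : Finite I) (π : (I →₀ ℤ) →+ (nsmulAddMonoidHom p : A →+ A).ker),
    Pres (fun _ => p) π ∧ Nat.card I = r

theorem Pres.inj_single {I : Type u} {d : I → ℕ} {π : (I →₀ ℤ) →+ G} (h : Pres d π)
    (hd : ∀ i, d i ≠ 1) : Function.Injective fun i => π (Finsupp.single i 1) := by
  intro i j hij
  by_contra hne
  have h1 : π (Finsupp.single i 1 - Finsupp.single j 1) = 0 := by
    rw [map_sub, sub_eq_zero]; exact hij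
  have h2 := (h.ker _).mp h1 i
  rw [Finsupp.sub_apply, Finsupp.single_eq_same, Finsupp.single_eq_of_ne hne, sub_zero] at h2
  have h3 : d i ∣ 1 := by exact_mod_cast h2
  exact hd i (Nat.dvd_one.mp h3)

theorem exists_rank (hp : p.Prime) (A : Type u) [AddCommGroup A]
    (hfin : {a : A | p • a = 0}.Finite) : ∃ r, HasRank p A r := by
  obtain ⟨I, d, π, hπ, hd, hd1⟩ := exists_pres p hp.pos
    ((nsmulAddMonoidHom p : A →+ A).ker) (fun x => Subtype.ext x.2)
  have hdp : d = fun _ => p := by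
    funext i
    exact ((Nat.dvd_prime hp).mp (hd i)).resolve_left (hd1 i)
  have hF : Finite ((nsmulAddMonoidHom p : A →+ A).ker) := hfin.to_subtype
  have hI : Finite I := Finite.of_injective _ (hπ.inj_single hd1)
  subst hdp
  exact ⟨_, I, hI, π, hπ, rfl⟩

/-- comparison of presentations -/
theorem Pres.map {B B' : Type u} [AddCommGroup B] [AddCommGroup B'] {I I' : Type u} {d : I → ℕ}
    {d' : I' → ℕ} {π : (I →₀ ℤ) →+ B} {π' : (I' →₀ ℤ) →+ B'} (h : Pres d π) (h' : Pres d' π')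
    (σ : I' → I) (hσ : Function.Injective σ) (hd : ∀ i, d' i ∣ d (σ i)) (n : I' →₀ ℤ)
    (hn : π (Finsupp.mapDomain σ n) = 0) : π' n = 0 := by
  rw [h'.ker]
  intro i
  have h1 := (h.ker _).mp hn (σ i)
  rw [Finsupp.mapDomain_apply hσ] at h1
  exact (Int.natCast_dvd_natCast.mpr (hd i)).trans h1

theorem embed_rank {A A' : Type u} [AddCommGroup A] [AddCommGroup A']
    (hA' : IsP p A') (hA : IsDiv A) {r r' : ℕ} (h' : HasRank p A' r') (h : HasRank p A r)
    (hr : r' ≤ r) : ∃ ι : A' →+ A, Function.Injective ι := by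
  classical
  obtain ⟨I', _, π', hπ', rfl⟩ := h'
  obtain ⟨I, _, π, hπ, rfl⟩ := h
  have _ := Fintype.ofFinite I
  have _ := Fintype.ofFinite I'
  rw [Nat.card_eq_fintype_card, Nat.card_eq_fintype_card] at hr
  obtain ⟨τ⟩ := Function.Embedding.nonempty_of_card_le hr
  let P : (I' →₀ ℤ) →+ (nsmulAddMonoidHom p : A →+ A).ker :=
    π.comp (Finsupp.mapDomain.addMonoidHom τ)
  have hPapp : ∀ n, P n = π (Finsupp.mapDomain τ n) := fun n => rfl
  have hPker : ∀ n, P n = 0 ↔ π' n = 0 := by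
    intro n
    constructor
    · intro hn
      exact hπ.map hπ' τ τ.injective (fun _ => dvd_rfl) n hn
    · intro hn
      rw [hPapp, hπ.ker]
      intro i
      by_cases hi : i ∈ Set.range τ
      · obtain ⟨j, rfl⟩ := hi
        rw [Finsupp.mapDomain_apply τ.injective]
        exact (hπ'.ker n).mp hn j
      · rw [Finsupp.mapDomain_of_notMem_range _ _ hi]
        exact dvd_zero _
  let g : (nsmulAddMonoidHom p : A' →+ A').ker →+ (nsmulAddMonoidHom p : A →+ A).ker :=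
    AddMonoidHom.liftOfSurjective π' hπ'.surj ⟨P, fun n hn => (hPker n).mpr hn⟩
  have hg : ∀ n, g (π' n) = P n := fun n =>
    AddMonoidHom.liftOfRightInverse_comp_apply π' _ _ _ n
  obtain ⟨ι, hι⟩ := hA.extend (nsmulAddMonoidHom p : A' →+ A').ker.subtype Subtype.val_injective
    ((nsmulAddMonoidHom p : A →+ A).ker.subtype.comp g)
  have hι' : ∀ x : (nsmulAddMonoidHom p : A' →+ A').ker, ι (x : A') = (g x : A) := fun x =>
    congrArg (fun f : (nsmulAddMonoidHom p : A' →+ A').ker →+ A => f x) hι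
  refine ⟨ι, (injective_iff_map_eq_zero ι).mpr ?_⟩
  intro x hx
  by_contra hne
  have hex := hA' x
  set k := Nat.find hex with hk
  have hk0 : p ^ k • x = 0 := Nat.find_spec hex
  have hkpos : k ≠ 0 := by
    intro h0
    rw [h0, pow_zero, one_smul] at hk0
    exact hne hk0
  have hk1 : p ^ (k - 1) • x ≠ 0 := Nat.find_min hex (by omega)
  apply hk1
  have h1 : p • p ^ (k - 1) • x = 0 := by
    rw [← mul_smul, ← pow_succ', Nat.sub_add_cancel (by omega), hk0]
  have h2 : ι (p ^ (k - 1) • x) = 0 := by rw [map_nsmul, hx, smul_zero]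
  have h3 := hι' ⟨p ^ (k - 1) • x, h1⟩
  obtain ⟨n, hn⟩ := hπ'.surj ⟨p ^ (k - 1) • x, h1⟩
  rw [← hn, hg] at h3
  have h4 : P n = 0 := by
    apply Subtype.ext
    rw [← h3, hn]
    exact h2
  have h5 := (hPker n).mp h4
  rw [hn] at h5
  exact congrArg Subtype.val h5

theorem sec_pres {B B' : Type u} [AddCommGroup B] [AddCommGroup B'] {I I' : Type u}
    [Countable I'] {e : I → ℕ} {e' : I' → ℕ} {π : (I →₀ ℤ) →+ B} {π' : (I' →₀ ℤ) →+ B'}
    (h : Pres (fun i => p ^ e i) π) (h' : Pres (fun i => p ^ e' i) π') {l l' : List (ℕ × Bool)}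
    (hl : HL e Set.univ l) (hl' : HL e' Set.univ l') (hr : rl l' l) : Sec.{u} B' B := by
  obtain ⟨σ0, hσ0, hσ1⟩ := embed_HL hr hl' hl
  let σ : I' → I := fun i => σ0 ⟨i, Set.mem_univ i⟩
  have hσ : Function.Injective σ := by
    intro i j hij
    exact congrArg Subtype.val (hσ0 hij)
  refine ⟨I' →₀ ℤ, inferInstance, π.comp (Finsupp.mapDomain.addMonoidHom σ), π', h'.surj, ?_⟩
  intro n hn
  exact h.map h' σ hσ (fun i => pow_dvd_pow p (hσ1 ⟨i, Set.mem_univ i⟩).2) n hn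

/-- codes of `p`-groups -/
abbrev PC : Type := Bool × ℕ × List (ℕ × Bool)

/-- `c` is a code of the `p`-group `G` -/
def HasCode (p : ℕ) (G : Type u) [AddCommGroup G] (c : PC) : Prop :=
  (c.1 = true ∧ ∀ n, (soc p n G).Infinite) ∨ (c.1 = false ∧ ∃ A B : AddSubgroup G, IsDiv A ∧
    (∀ x : G, ∃ a ∈ A, ∃ b ∈ B, a + b = x) ∧ (∀ a ∈ A, ∀ b ∈ B, a + b = 0 → a = 0) ∧
    HasRank p A c.2.1 ∧ ∃ (I : Type u) (_ : Countable I) (e : I → ℕ) (π : (I →₀ ℤ) →+ B),
      Pres (fun i => p ^ e i) π ∧ HL e Set.univ c.2.2)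

/-- the order of the codes -/
def rc (c c' : PC) : Prop := c.1 = c'.1 ∧ c.2.1 ≤ c'.2.1 ∧ rl c.2.2 c'.2.2

instance : IsPreorder PC rc where
  refl _ := ⟨rfl, le_rfl, refl_of rl _⟩
  trans _ _ _ h h' := ⟨h.1.trans h'.1, h.2.1.trans h'.2.1, trans_of rl h.2.2 h'.2.2⟩

theorem wqo_rc : WellQuasiOrdered rc := by
  have h1 : WellQuasiOrdered (fun a b : ℕ => a ≤ b) := wellQuasiOrdered_le
  have h2 : WellQuasiOrdered (fun a b : Bool => a = b) := Finite.wellQuasiOrdered _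
  exact h2.prod (h1.prod wqo_rl)

theorem exists_hasCode (hp : p.Prime) (hG : IsP p G) [Countable G] : ∃ c, HasCode p G c := by
  by_cases hinf : ∀ n, (soc p n G).Infinite
  · exact ⟨(true, 0, []), Or.inl ⟨rfl, hinf⟩⟩
  push Not at hinf
  obtain ⟨m, hfin, hst⟩ := exists_stable hinf
  obtain ⟨A, B, hA, hB, hsp, hind, hsoc⟩ := split_p hp hG hst
  obtain ⟨r, hr⟩ := exists_rank hp A (by
    refine Set.Finite.of_injOn (f := fun a : A => (a : G)) (t := soc p m G) ?_
      Subtype.val_injective.injOn hfin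
    intro a ha
    exact hsoc a ha)
  obtain ⟨I, d, π, hπ, hd, hd1⟩ := exists_pres (p ^ m) (pow_pos hp.pos m) B
    (fun x => Subtype.ext (hB x x.2))
  have hI : Countable I := (hπ.inj_single hd1).countable
  choose e he hde using fun i => (Nat.dvd_prime_pow hp).mp (hd i)
  have hde' : d = fun i => p ^ e i := funext hde
  subst hde'
  obtain ⟨l, hl⟩ := exists_HL e (m + 1) Set.univ (fun i _ => Nat.lt_succ_of_le (he i))
  exact ⟨(false, r, l), Or.inr ⟨rfl, A, B, hA, hsp, hind, hr, I, hI, e, π, hπ, hl⟩⟩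

theorem sec_of_code (hp : p.Prime) {K : Type u} [AddCommGroup K] [Countable K] (hK : IsP p K)
    {c c' : PC} (h : HasCode p K c) (h' : HasCode p G c') (hr : rc c c') : Sec.{u} K G := by
  rcases h' with ⟨-, hinf⟩ | ⟨h1', A', B', hA', hsp', hind', hr', I', _, e', π', hπ', hl'⟩
  · exact sec_univ hp hK hinf
  rcases h with ⟨h1, -⟩ | ⟨h1, A, B, hA, hsp, hind, hrk, I, _, e, π, hπ, hl⟩
  · rw [hr.1, h1'] at h1
    exact absurd h1 (by simp)
  obtain ⟨ι, hι⟩ := embed_rank (A' := A) (A := A') (fun a => by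
    obtain ⟨k, hk⟩ := hK (a : K)
    exact ⟨k, Subtype.ext hk⟩) hA' hrk hr' hr.2.1
  exact Sec.add (Sec.of_inj ι hι) (sec_pres hπ' hπ hl' hl hr.2.2) hsp hind'

end

end Pool.Agent.helper45.Inc
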