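import Mathlib
import Pool.Agent.helper45.Inc.Tor2

/-!
# Codes of countable torsion abelian groups with finitely many primes
-/

universe u

namespace Pool.Agent.helper45.Inc

/-- the `p`-component -/
def pcomp (p : ℕ) (G : Type u) [AddCommGroup G] : AddSubgroup G where
  carrier := {x | ∃ k, p ^ k • x = 0}
  zero_mem' := ⟨0, smul_zero _⟩
  add_mem' := by
    rintro x y ⟨k, hk⟩ ⟨l, hl⟩
    refine ⟨k + l, ?_⟩
    rw [smul_add]
    have e1 : p ^ (k + l) • x = 0 := by rw [add_comm, pow_add, mul_smul, hk, smul_zero]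
    have e2 : p ^ (k + l) • y = 0 := by rw [pow_add, mul_smul, hl, smul_zero]
    rw [e1, e2, add_zero]
  neg_mem' := by
    rintro x ⟨k, hk⟩
    exact ⟨k, by rw [smul_neg, hk, neg_zero]⟩

theorem isP_pcomp (p : ℕ) (G : Type u) [AddCommGroup G] : IsP p (pcomp p G) := by
  rintro ⟨x, k, hk⟩
  exact ⟨k, Subtype.ext hk⟩

/-- torsion with primes in `π` -/
def IsPi (π : Finset ℕ) (G : Type u) [AddCommGroup G] : Prop :=
  ∀ x : G, ∃ N : ℕ, 0 < N ∧ N • x = 0 ∧ ∀ q, q.Prime → q ∣ N → q ∈ π

theorem coprime_kill {G : Type u} [AddCommGroup G] {M N : ℕ} (h : Nat.Coprime M N) {x : G}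
    (hM : M • x = 0) (hN : N • x = 0) : x = 0 := by
  have hbez := Int.gcd_eq_gcd_ab (M : ℤ) (N : ℤ)
  rw [Int.gcd_natCast_natCast, h] at hbez
  calc x = ((1 : ℕ) : ℤ) • x := by rw [Nat.cast_one, one_smul]
    _ = Int.gcdA M N • ((M : ℤ) • x) + Int.gcdB M N • ((N : ℤ) • x) := by
        rw [hbez, add_smul, mul_comm (M : ℤ), mul_smul, mul_comm (N : ℤ), mul_smul]
    _ = 0 := by rw [natCast_zsmul, natCast_zsmul, hM, hN, smul_zero, smul_zero, add_zero]

section
variable {π : Finset ℕ} (hπ : ∀ q ∈ π, q.Prime) {G : Type u} [AddCommGroup G]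

include hπ in
theorem pi_span (hG : IsPi π G) (x : G) : ∃ a : ∀ k : π, pcomp (k : ℕ) G, ∑ k, (a k : G) = x := by
  classical
  obtain ⟨N, hN0, hN, hNq⟩ := hG x
  let s : π → ℤ := fun k => (((k : ℕ) ^ N.factorization k : ℕ) : ℤ)
  have hprodN : (∏ k : π, (k : ℕ) ^ N.factorization k) = N := by
    rw [Finset.prod_coe_sort π (fun k => k ^ N.factorization k)]
    conv_rhs => rw [← Nat.prod_factorization_pow_eq_self hN0.ne']
    rw [Finsupp.prod_of_support_subset]
    · intro q hq
      rw [Nat.support_factorization, Nat.mem_primeFactors] at hq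
      exact hNq q hq.1 hq.2.1
    · intro q _
      exact pow_zero q
  have hprod : (∏ k : π, s k) = (N : ℤ) := by
    rw [← hprodN, Nat.cast_prod]
  by_cases hne : (Finset.univ : Finset π).Nonempty
  · have hcop : Pairwise (Function.onFun IsCoprime fun i : (Finset.univ : Finset π) => s i) := by
      rintro ⟨i, _⟩ ⟨j, _⟩ hij
      change IsCoprime (s i) (s j)
      rw [Nat.isCoprime_iff_coprime]
      apply Nat.Coprime.pow
      rw [Nat.coprime_primes (hπ i i.2) (hπ j j.2)]
      intro h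
      exact hij (Subtype.ext (Subtype.ext h))
    obtain ⟨μ, hμ⟩ := (exists_sum_eq_one_iff_pairwise_coprime hne).mpr hcop
    refine ⟨fun k => ⟨(μ k * ∏ j ∈ Finset.univ \ {k}, s j) • x, N.factorization k, ?_⟩, ?_⟩
    · rw [← natCast_zsmul, ← mul_smul]
      have h1 : (((k : ℕ) ^ N.factorization k : ℕ) : ℤ) * (μ k * ∏ j ∈ Finset.univ \ {k}, s j) =
          μ k * N := by
        rw [← hprod, ← Finset.mul_prod_erase Finset.univ s (Finset.mem_univ k),
          Finset.sdiff_singleton_eq_erase]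
        change s k * _ = _
        ring
      rw [h1, mul_smul, natCast_zsmul, hN, smul_zero]
    · change ∑ k, (μ k * ∏ j ∈ Finset.univ \ {k}, s j) • x = x
      rw [← Finset.sum_smul, hμ, one_smul]
  · rw [Finset.not_nonempty_iff_eq_empty] at hne
    rw [hne, Finset.prod_empty] at hprodN
    rw [← hprodN, one_smul] at hN
    refine ⟨fun k => 0, ?_⟩
    rw [hN]
    exact Finset.sum_eq_zero fun k _ => rfl

include hπ in
theorem pi_indep (a : ∀ k : π, pcomp (k : ℕ) G) (ha : ∑ k, (a k : G) = 0) (k : π) : a k = 0 := by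
  classical
  choose e he using fun k => (a k).2
  apply Subtype.ext
  have h1 : Nat.Coprime (∏ j ∈ Finset.univ.erase k, (j : ℕ) ^ e j) ((k : ℕ) ^ e k) := by
    apply Nat.Coprime.prod_left
    intro j hj
    apply Nat.Coprime.pow
    rw [Nat.coprime_primes (hπ j j.2) (hπ k k.2)]
    intro h
    exact (Finset.mem_erase.mp hj).1 (Subtype.ext h)
  apply coprime_kill h1 _ (he k)
  have h2 := congrArg (fun x : G => (∏ j ∈ Finset.univ.erase k, (j : ℕ) ^ e j) • x) ha
  simp only [smul_zero] at h2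
  rw [← Finset.add_sum_erase _ _ (Finset.mem_univ k), smul_add, Finset.smul_sum] at h2
  rw [Finset.sum_eq_zero (s := Finset.univ.erase k), add_zero] at h2
  · exact h2
  · intro j hj
    rw [← Finset.mul_prod_erase _ _ hj, mul_comm, mul_smul, he, smul_zero]

/-- codes of torsion groups -/
def HasCodes (π : Finset ℕ) (G : Type u) [AddCommGroup G] (c : π → PC) : Prop :=
  ∀ k : π, HasCode (k : ℕ) (pcomp (k : ℕ) G) (c k)

/-- the order of the codes -/
def rcs (π : Finset ℕ) (c c' : π → PC) : Prop := ∀ k, rc (c k) (c' k)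

theorem rcs_refl (c : π → PC) : rcs π c c := fun _ => refl_of rc _

theorem rcs_trans {a b c : π → PC} (h : rcs π a b) (h' : rcs π b c) : rcs π a c :=
  fun k => trans_of rc (h k) (h' k)

theorem wqo_rcs : WellQuasiOrdered (rcs π) := WellQuasiOrdered.pi fun _ => wqo_rc

include hπ in
theorem exists_hasCodes [Countable G] : ∃ c, HasCodes π G c := by
  choose c hc using fun k : π => exists_hasCode (hπ k k.2) (isP_pcomp (k : ℕ) G)
  exact ⟨c, hc⟩

include hπ in
theorem sec_of_codes {K : Type u} [AddCommGroup K] [Countable K] (hK : IsPi π K)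
    {c c' : π → PC} (h : HasCodes π K c) (h' : HasCodes π G c') (hr : rcs π c c') :
    Sec.{u} K G := by
  apply Sec.pi (κ := π) (A := fun k => pcomp (k : ℕ) K) (A' := fun k => pcomp (k : ℕ) G)
  · intro k
    exact sec_of_code (hπ k k.2) (isP_pcomp (k : ℕ) K) (h k) (h' k) (hr k)
  · exact pi_span hπ hK
  · exact pi_indep hπ

end

end Pool.Agent.helper45.Inc
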