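import Mathlib
import Pool.Agent.helper45.Inc.Tor3
import Pool.Agent.helper45.Inc.FinGrp
import Pool.Agent.helper9.Incl.Final

/-!
# Inclusive varieties of abelian groups
-/

universe u

open Pool.Agent.helper9.Incl

namespace Pool.Agent.helper45.Inc

/-- abelian groups as semigroups (the empty semigroup included) -/
structure AG (S : Type u) [Semigroup S] : Prop where
  comm : ∀ x y : S, x * y = y * x
  div : ∀ a b : S, ∃ x, a * x = b

/-- the group structure -/
noncomputable def AG.toCG {S : Type u} [Semigroup S] [Nonempty S] (h : AG S) : CommGroup S :=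
  let a0 : S := Classical.arbitrary S
  let e : S := (h.div a0 a0).choose
  have he : ∀ b : S, e * b = b := by
    intro b
    have h1 : a0 * e = a0 := (h.div a0 a0).choose_spec
    obtain ⟨x, rfl⟩ := h.div a0 b
    rw [← mul_assoc, h.comm e, h1]
  letI : One S := ⟨e⟩
  letI : Inv S := ⟨fun a => (h.div a e).choose⟩
  { Group.ofLeftAxioms (fun _ _ _ => mul_assoc _ _ _) he
      (fun a => by rw [h.comm]; exact (h.div a e).choose_spec) with
    mul_comm := h.comm }

theorem pw_eq_pow {S : Type u} [CommGroup S] (a : S) (n : ℕ) : pw a n = a ^ (n + 1) := by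
  induction n with
  | zero => rw [zero_add, pow_one]; rfl
  | succ n ih => rw [pow_succ, ← ih]; rfl

theorem tor_of_lt {S : Type u} [CommGroup S] {a : S} {m n : ℕ} (hlt : m < n)
    (h : pw a m = pw a n) : ∃ n, pw a (n + 1) = a := by
  refine ⟨n - m - 1, ?_⟩
  rw [pw_eq_pow, pw_eq_pow] at h
  rw [pw_eq_pow, show n - m - 1 + 1 + 1 = (n - m) + 1 by omega, pow_succ, mul_eq_right]
  have h3 : a ^ (n + 1) = a ^ (m + 1) * a ^ (n - m) := by
    rw [← pow_add]
    congr 1
    omega
  rw [h3] at h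
  exact (left_eq_mul.mp h)

theorem isPi_of {S : Type u} [CommGroup S] {π : Finset ℕ} (ht : ∀ a : S, ∃ n, pw a (n + 1) = a)
    (hq : ∀ q : ℕ, q.Prime → ∀ a : S, pw a q = a → a * a ≠ a → q ∈ π) :
    IsPi π (Additive S) := by
  intro x
  obtain ⟨n, hn⟩ := ht x.toMul
  set a : S := x.toMul with ha
  rw [pw_eq_pow, pow_succ, mul_eq_right] at hn
  have hpos : 0 < orderOf a := orderOf_pos_iff.mpr (isOfFinOrder_iff_pow_eq_one.mpr
    ⟨n + 1, Nat.succ_pos n, hn⟩)
  refine ⟨orderOf a, hpos, ?_, ?_⟩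
  · exact pow_orderOf_eq_one a
  · intro q hqp hdvd
    obtain ⟨c, hc⟩ := hdvd
    have hcpos : 0 < c := by
      rcases Nat.eq_zero_or_pos c with h0 | h0
      · rw [h0, mul_zero] at hc; omega
      · exact h0
    have h1 : a ^ c ≠ 1 := by
      apply pow_ne_one_of_lt_orderOf hcpos.ne'
      rw [hc]
      exact lt_mul_of_one_lt_left hcpos hqp.one_lt
    have h2 : (a ^ c) ^ q = 1 := by
      rw [← pow_mul, mul_comm, ← hc, pow_orderOf_eq_one]
    apply hq q hqp (a ^ c)
    · rw [pw_eq_pow, pow_succ, h2, one_mul]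
    · intro h3
      exact h1 (mul_eq_right.mp h3)

theorem transfer_sec {T S' : Type u} [CommGroup T] [CommGroup S']
    (h : Sec.{u} (Additive T) (Additive S')) (F : Word →ₙ* T) :
    ∃ ψ : Word →ₙ* S', ∀ u w, ψ u = ψ w → F u = F w := by
  obtain ⟨A, _, P, Q, hQ, hker⟩ := h
  choose n hn using fun y : ℕ => hQ (Additive.ofMul (F (FreeSemigroup.of y)))
  let ψ : Word →ₙ* S' := FreeSemigroup.lift fun y => (P (n y)).toMul
  have key : ∀ w, ∃ a, P a = Additive.ofMul (ψ w) ∧ Q a = Additive.ofMul (F w) := by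
    intro w
    induction w using FreeSemigroup.recOnMul with
    | ih1 y =>
      refine ⟨n y, ?_, hn y⟩
      change P (n y) = Additive.ofMul (FreeSemigroup.lift _ (FreeSemigroup.of y))
      rw [FreeSemigroup.lift_of]
      rfl
    | ih2 y w hy hw =>
      obtain ⟨a, ha1, ha2⟩ := hy
      obtain ⟨b, hb1, hb2⟩ := hw
      refine ⟨a + b, ?_, ?_⟩
      · rw [map_add, ha1, hb1, map_mul]; rfl
      · rw [map_add, ha2, hb2, map_mul]; rfl
  refine ⟨ψ, ?_⟩
  intro u w huw
  obtain ⟨a, ha1, ha2⟩ := key u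
  obtain ⟨b, hb1, hb2⟩ := key w
  have h1 : P (a - b) = 0 := by rw [map_sub, ha1, hb1, huw, sub_self]
  have h2 := hker _ h1
  rw [map_sub, ha2, hb2, sub_eq_zero] at h2
  exact Additive.ofMul.injective h2

/-- codes of abelian groups -/
def GCode (π : Finset ℕ) {S : Type u} [Semigroup S] [Nonempty S] (h : AG S) (c : π → PC) : Prop :=
  let _ := h.toCG
  HasCodes π (Additive S) c

section
variable (π : Finset ℕ)

/-- good abelian groups -/
structure GG (S : Type u) [Semigroup S] : Prop extends AG S where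
  tor : ∀ a : S, ∃ n, pw a (n + 1) = a
  prm : ∀ q : ℕ, q.Prime → ∀ a : S, pw a q = a → a * a ≠ a → q ∈ π

variable {π} (hπ : ∀ q ∈ π, q.Prime)

include hπ in
theorem gcode_exists {S : Type u} [Semigroup S] [Nonempty S] [Countable S] (h : AG S) :
    ∃ c, GCode π h c := by
  let _ := h.toCG
  have : Countable (Additive S) := ‹Countable S›
  exact exists_hasCodes hπ (G := Additive S)

include hπ in
theorem gcode_transfer {T S' : Type u} [Semigroup T] [Semigroup S'] [Nonempty T] [Nonempty S']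
    [Countable T] (hT : GG π T) (hS : AG S') {c c' : π → PC} (h : GCode π hT.toAG c)
    (h' : GCode π hS c') (hr : rcs π c c') (F : Word →ₙ* T) :
    ∃ ψ : Word →ₙ* S', ∀ u w, ψ u = ψ w → F u = F w := by
  let iT := hT.toAG.toCG
  let iS := hS.toCG
  have : Countable (Additive T) := ‹Countable T›
  have h1 : IsPi π (Additive T) := isPi_of hT.tor hT.prm
  exact transfer_sec (sec_of_codes hπ h1 h h' hr) F

/-- the codes of the members of `W` -/
def cG (π : Finset ℕ) (W : SgClass.{u}) : Set (π → PC) :=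
  {c | ∃ (S : Type u) (_ : Semigroup S) (_ : Nonempty S) (_ : Countable S) (h : AG S), W S ∧
    ∃ c', GCode π h c' ∧ rcs π c c'}

include hπ in
theorem le_of_cG {W₁ W₂ : SgClass.{u}} (h1 : IsInclVariety W₁) (h2 : IsInclVariety W₂)
    (i1 : ∀ (S : Type u) [Semigroup S], W₁ S → GG π S) (hle : cG π W₁ ⊆ cG π W₂)
    (S : Type u) [Semigroup S] (hS : W₁ S) : W₂ S := by
  apply mem_of_div h2
  intro u F
  let T : Subsemigroup S := F.srange
  let F0 : Word →ₙ* T := F.srangeRestrict
  have hinj : Function.Injective (MulMemClass.subtype T) := Subtype.val_injective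
  have hT : W₁ T := mem_of_inj h1 hS (MulMemClass.subtype T) hinj
  have hcT : Countable T := by
    have : Function.Surjective F0 := F.srangeRestrict_surjective
    exact this.countable
  have hnT : Nonempty T := ⟨F0 u⟩
  have GT : GG π T := i1 T hT
  obtain ⟨c, hc⟩ := gcode_exists hπ GT.toAG
  obtain ⟨S', _, _, _, hS', hW, c', hc', hr⟩ :=
    hle ⟨T, inferInstance, hnT, hcT, GT.toAG, hT, c, hc, rcs_refl c⟩
  obtain ⟨ψ, hψ⟩ := gcode_transfer hπ GT hS' hc hc' hr F0
  refine ⟨S', inferInstance, hW, ψ, ?_⟩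
  intro w hw
  exact congrArg Subtype.val (hψ u w hw)

include hπ in
theorem countable_of_gg (V : SgClass.{u}) (h : ∀ (S : Type u) [Semigroup S], V S → GG π S) :
    (InclSub V).Countable := by
  have hcount : {D : Set (π → PC) | ∀ a b, rcs π a b → b ∈ D → a ∈ D}.Countable :=
    countable_lower (rcs π) wqo_rcs
  apply Set.countable_of_injective_of_countable_image (f := cG π) ?_ (hcount.mono ?_)
  · intro W₁ hW₁ W₂ hW₂ hC
    funext S hS
    apply propext
    constructor
    · intro h1
      exact le_of_cG hπ hW₁.1 hW₂.1 (fun S _ h' => h S (hW₁.2 S h')) hC.subset S h1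
    · intro h1
      exact le_of_cG hπ hW₂.1 hW₁.1 (fun S _ h' => h S (hW₂.2 S h')) hC.superset S h1
  · rintro _ ⟨W, -, rfl⟩ a b hab ⟨S, i1, i2, i3, hS, hW, c', hc', hr⟩
    exact ⟨S, i1, i2, i3, hS, hW, c', hc', rcs_trans hab hr⟩

end

/-- **Abelian groups.** -/
theorem abelian_countable_iff (V : SgClass.{u}) (hV : IsInclVariety V)
    (hG : ∀ (S : Type u) [Semigroup S], V S → AG S) :
    (InclSub V).Countable ↔ (∀ (S : Type u) [Semigroup S], V S → ∀ a : S, ∃ n, pw a (n + 1) = a) ∧
      {p : ℕ | p.Prime ∧ ∃ (S : Type u) (_ : Semigroup S), V S ∧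
        ∃ a : S, pw a p = a ∧ a * a ≠ a}.Finite := by
  constructor
  · intro hc
    obtain ⟨h1, h2, -, -⟩ := necessary V hV hc
    refine ⟨?_, h2⟩
    intro S _ hS a
    obtain ⟨m, n, hne, hmn⟩ := h1 S hS a
    have hne' : Nonempty S := ⟨a⟩
    let iS := (hG S hS).toCG
    have key : ∀ m n : ℕ, m < n → pw a m = pw a n → ∃ n, pw a (n + 1) = a :=
      fun m n hlt h => tor_of_lt (S := S) hlt h
    rcases Nat.lt_or_gt_of_ne hne with h | h
    · exact key m n h hmn
    · exact key n m h hmn.symm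
  · rintro ⟨h1, h2⟩
    apply countable_of_gg (π := h2.toFinset) (fun q hq => ((Set.Finite.mem_toFinset h2).mp hq).1)
    intro S _ hS
    refine ⟨hG S hS, h1 S hS, ?_⟩
    intro q hq a ha haa
    rw [Set.Finite.mem_toFinset]
    exact ⟨hq, S, inferInstance, hS, a, ha, haa⟩

end Pool.Agent.helper45.Inc
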