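import Mathlib
import Pool.Agent.helper45.Inc.Grp

/-!
# Inclusive varieties of abelian groups with finitely many inclusive subvarieties
-/

universe u

open Pool.Agent.helper9.Incl

namespace Pool.Agent.helper45.Inc

theorem isIncl_of_div {W : SgClass.{u}} (h : ∀ (T : Type u) [Semigroup T],
    (∀ (u : Word) (φ : Word →ₙ* T), ∃ (S : Type u) (_ : Semigroup S), W S ∧
      ∃ ψ : Word →ₙ* S, ∀ w, ψ u = ψ w → φ u = φ w) → W T) : IsInclVariety W := by
  have hW : W = gen W := by
    funext T hT
    apply propext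
    constructor
    · exact fun hWT => subset_gen hWT
    · intro hg
      apply h
      intro u φ
      by_contra hcon
      push Not at hcon
      have h1 : SatIncl T u {w | φ u ≠ φ w} := by
        apply hg
        intro S _ hS ψ
        obtain ⟨w, hw1, hw2⟩ := hcon S inferInstance hS ψ
        exact ⟨w, hw2, hw1⟩
      obtain ⟨w, hw1, hw2⟩ := h1 φ
      exact hw1 hw2
  rw [hW]
  exact gen_isInclVariety W

theorem inj_of_cover {S T : Type u} [CommGroup S] [CommGroup T] [Finite S] {u : Word}
    {φ : Word →ₙ* T} {ψ : Word →ₙ* S} (h : ∀ w, ψ u = ψ w → φ u = φ w) (v v' : Word)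
    (hv : ψ v = ψ v') : φ v = φ v' := by
  set k := Nat.card S with hk
  have hk0 : 0 < k := Nat.card_pos
  have e1 : ∀ s : S, s ^ k = 1 := fun s => pow_card_eq_one'
  have h1 := h (u * pw v' (k - 1)) (by
    rw [map_mul, pw_map, pw_eq_pow, Nat.sub_add_cancel hk0, e1, mul_one])
  rw [map_mul, pw_map, pw_eq_pow, Nat.sub_add_cancel hk0, left_eq_mul] at h1
  have h2 := h (u * (v * pw v' (2 * k - 2))) (by
    rw [map_mul, map_mul, pw_map, pw_eq_pow, hv, ← pow_succ',
      show 2 * k - 2 + 1 + 1 = k + k by omega, pow_add, e1, mul_one, mul_one])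
  rw [map_mul, map_mul, pw_map, pw_eq_pow, left_eq_mul] at h2
  have h3 : φ v' * φ v' ^ (2 * k - 2 + 1) = 1 := by
    rw [← pow_succ', show 2 * k - 2 + 1 + 1 = k + k by omega, pow_add, h1, mul_one]
  exact mul_right_cancel (h2.trans h3.symm)

theorem exists_inj_of_lt {α : Type u} {n : ℕ} (h : ¬ Set.encard (Set.univ : Set α) ≤ n) :
    ∃ f : Fin (n + 1) → α, Function.Injective f := by
  rw [not_le, Set.encard_univ] at h
  rcases finite_or_infinite α with hf | hi
  · have := Fintype.ofFinite α
    rw [ENat.card_eq_coe_fintype_card] at h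
    have h1 : n < Fintype.card α := by exact_mod_cast h
    obtain ⟨f⟩ := Function.Embedding.nonempty_of_card_le (α := Fin (n + 1)) (β := α)
      (by rw [Fintype.card_fin]; omega)
    exact ⟨f, f.injective⟩
  · exact ⟨fun i => Infinite.natEmbedding α i,
      fun i j hij => Fin.ext ((Infinite.natEmbedding α).injective hij)⟩

theorem encard_not_le {α : Type u} {n : ℕ} (f : Fin (n + 1) → α) (hf : Function.Injective f) :
    ¬ Set.encard (Set.univ : Set α) ≤ n := by
  intro h
  have h1 : Set.encard (Set.range f) ≤ n := (Set.encard_le_encard (Set.subset_univ _)).trans h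
  rw [← Set.image_univ, hf.encard_image, Set.encard_univ, ENat.card_eq_coe_fintype_card,
    Fintype.card_fin] at h1
  have h2 : n + 1 ≤ n := by exact_mod_cast h1
  omega

/-- the members with at most `n` elements -/
def Wn (V : SgClass.{u}) (n : ℕ) : SgClass.{u} := fun S _ => V S ∧ Set.encard (Set.univ : Set S) ≤ n

theorem finite_of_encard {α : Type u} {n : ℕ} (h : Set.encard (Set.univ : Set α) ≤ n) :
    Finite α := by
  have h1 : (Set.univ : Set α).Finite := Set.finite_of_encard_le_coe h
  exact Set.finite_univ_iff.mp h1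

theorem Wn_mem {V : SgClass.{u}} (hV : IsInclVariety V)
    (hG : ∀ (S : Type u) [Semigroup S], V S → AG S) (n : ℕ) : Wn V n ∈ InclSub V := by
  refine ⟨isIncl_of_div ?_, fun S _ h => h.1⟩
  intro T _ hT
  have hVT : V T := by
    apply mem_of_div hV
    intro u φ
    obtain ⟨S, i, hS, ψ, hψ⟩ := hT u φ
    exact ⟨S, i, hS.1, ψ, hψ⟩
  refine ⟨hVT, ?_⟩
  by_contra hcon
  obtain ⟨f, hf⟩ := exists_inj_of_lt hcon
  have hnT : Nonempty T := ⟨f 0⟩
  let F : ℕ → T := fun i => if h : i < n + 1 then f ⟨i, h⟩ else f 0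
  obtain ⟨S, iS, ⟨hVS, hcard⟩, ψ, hψ⟩ := hT (FreeSemigroup.of 0) (FreeSemigroup.lift F)
  have hnS : Nonempty S := ⟨ψ (FreeSemigroup.of 0)⟩
  have hfS : Finite S := finite_of_encard hcard
  let gT := (hG T hVT).toCG
  let gS := (hG S hVS).toCG
  apply encard_not_le (fun i : Fin (n + 1) => ψ (FreeSemigroup.of (i : ℕ))) ?_ hcard
  intro i j hij
  have h1 := inj_of_cover (S := S) (T := T) hψ _ _ hij
  apply hf
  have h2 : ∀ i : Fin (n + 1), (FreeSemigroup.lift F) (FreeSemigroup.of (i : ℕ)) = f i := by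
    intro i
    rw [FreeSemigroup.lift_of]
    exact dif_pos i.2
  rw [← h2 i, ← h2 j]
  exact h1

theorem exists_finite_sub {S : Type u} [CommGroup S] (ht : ∀ a : S, ∃ n, pw a (n + 1) = a) {n : ℕ}
    (f : Fin (n + 1) → S) (hf : Function.Injective f) :
    ∃ (T : Subgroup S) (_ : Finite T) (g : Fin (n + 1) → T), Function.Injective g := by
  let T := Subgroup.closure (Set.range f)
  have hfg : Group.FG T := Group.closure_finite_fg _
  have htor : IsMulTorsion T := by
    intro x
    obtain ⟨n, hn⟩ := ht x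
    rw [pw_eq_pow, pow_succ, mul_eq_right] at hn
    exact isOfFinOrder_iff_pow_eq_one.mpr ⟨n + 1, Nat.succ_pos n, Subtype.ext hn⟩
  refine ⟨T, CommGroup.finite_of_fg_isMulTorsion T htor,
    fun i => ⟨f i, Subgroup.subset_closure ⟨i, rfl⟩⟩, ?_⟩
  intro i j hij
  exact hf (congrArg Subtype.val hij)

theorem idem_one {S : Type u} [CommGroup S] {e f : S} (he : e * e = e) (hf : f * f = f) :
    e * f * e = e := by
  have h1 : e = 1 := mul_eq_left.mp he
  have h2 : f = 1 := mul_eq_left.mp hf
  rw [h1, h2, mul_one, mul_one]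

theorem abelian_finite_iff (V : SgClass.{u}) (hV : IsInclVariety V)
    (hG : ∀ (S : Type u) [Semigroup S], V S → AG S) :
    (InclSub V).Finite ↔
      ∃ N : ℕ, ∀ (S : Type u) [Semigroup S], V S → Set.encard (Set.univ : Set S) ≤ N := by
  constructor
  · intro hfin
    by_contra hcon
    push Not at hcon
    have ht := ((abelian_countable_iff V hV hG).mp hfin.countable).1
    have hbig : ∀ N : ℕ, ∃ (T : Type u) (_ : Semigroup T), V T ∧ Finite T ∧
        ¬ Set.encard (Set.univ : Set T) ≤ N := by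
      intro N
      obtain ⟨S, _, hS, hN⟩ := hcon N
      obtain ⟨f, hf⟩ := exists_inj_of_lt (not_le.mpr hN)
      have hnS : Nonempty S := ⟨f 0⟩
      let iS := (hG S hS).toCG
      obtain ⟨T, hT, g, hg⟩ := exists_finite_sub (S := S) (ht S hS) f hf
      refine ⟨T, inferInstance, ?_, hT, encard_not_le g hg⟩
      exact mem_of_inj hV hS (T := T) ⟨Subtype.val, fun _ _ => rfl⟩ Subtype.val_injective
    have : Finite (InclSub V) := hfin.to_subtype
    obtain ⟨y, hy⟩ := Finite.exists_infinite_fiber (fun n : ℕ => (⟨Wn V n, Wn_mem hV hG n⟩ :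
      InclSub V))
    have hy' : {n : ℕ | (⟨Wn V n, Wn_mem hV hG n⟩ : InclSub V) = y}.Infinite :=
      Set.infinite_coe_iff.mp hy
    obtain ⟨N, hN⟩ := hy'.nonempty
    obtain ⟨T, iT, hT, hfT, hc⟩ := hbig N
    obtain ⟨n, hn, hlt⟩ := hy'.exists_gt (Nat.card T)
    have h1 : Wn V n = Wn V N := congrArg Subtype.val (hn.trans hN.symm)
    have h2 : Wn V n T := by
      refine ⟨hT, ?_⟩
      rw [Set.encard_univ, ENat.card_eq_coe_natCard]
      exact_mod_cast hlt.le
    rw [h1] at h2
    exact hc h2.2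
  · rintro ⟨N, hN⟩
    apply finite_of_bounded_rect N V
    intro S _ hS
    have hfS : Finite S := finite_of_encard (hN S hS)
    refine ⟨?_, ?_, ?_⟩
    · intro x y
      have hnS : Nonempty S := ⟨x⟩
      let iS := (hG S hS).toCG
      obtain ⟨m, n, hne, hmn⟩ := Finite.exists_ne_map_eq_of_infinite (pw (x * y))
      rcases Nat.lt_or_gt_of_ne hne with h | h
      · exact tor_of_lt (S := S) h hmn
      · exact tor_of_lt (S := S) h hmn.symm
    · intro e f he hf
      have hnS : Nonempty S := ⟨e⟩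
      let iS := (hG S hS).toCG
      exact idem_one (S := S) he hf
    · intro e _
      exact (Set.encard_le_encard (Set.subset_univ _)).trans (hN S hS)

end Pool.Agent.helper45.Inc
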