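import Mathlib
import Pool.Agent.helper45.Inc.FinGrp

/-!
# Semigroups whose square is a periodic rectangular group
-/

universe u v

open Pool.Agent.helper9.Incl

namespace Pool.Agent.helper45.Inc

/-- the products form a periodic rectangular group -/
structure RU (S : Type u) [Semigroup S] : Prop where
  exp : ∀ x y : S, ∃ n, pw (x * y) (n + 1) = x * y
  rect : ∀ e f : S, e * e = e → f * f = f → e * f * e = e

open Classical in
/-- the idempotent power of an element of a subgroup -/
noncomputable def oo {S : Type u} [Semigroup S] (p : S) : S :=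
  if h : ∃ n, pw p (n + 1) = p then pw p h.choose else p

section
variable {S : Type u} [Semigroup S]

theorem oo_eq (p : S) : ∃ k, oo p = pw p k := by
  unfold oo
  split_ifs with h
  · exact ⟨_, rfl⟩
  · exact ⟨0, rfl⟩

theorem oo_left {f p : S} (h : f * p = p) : f * oo p = oo p := by
  obtain ⟨k, hk⟩ := oo_eq p
  rw [hk]; exact left_pw h k

theorem oo_right {f p : S} (h : p * f = p) : oo p * f = oo p := by
  obtain ⟨k, hk⟩ := oo_eq p
  rw [hk]; exact pw_right h k

variable (R : RU S)
include R

theorem RU.reg {p : S} (hp : Sq p) : ∃ n, pw p (n + 1) = p := by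
  obtain ⟨x, y, rfl⟩ := hp
  exact R.exp x y

theorem RU.o_mul {p : S} (hp : Sq p) : oo p * p = p := by
  have h := R.reg hp
  unfold oo
  rw [dif_pos h]
  exact h.choose_spec

theorem RU.mul_o {p : S} (hp : Sq p) : p * oo p = p := by
  have h := R.reg hp
  unfold oo
  rw [dif_pos h]
  have h2 := pw_mul p 0 h.choose
  rw [zero_add, h.choose_spec] at h2
  exact h2

theorem RU.o_idem {p : S} (hp : Sq p) : oo p * oo p = oo p := oo_left (R.o_mul hp)

theorem RU.sq_o {p : S} (hp : Sq p) : Sq (oo p) := ⟨_, _, (R.o_idem hp).symm⟩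

theorem RU.idem_mul {e f : S} (he : e * e = e) (hf : f * f = f) : e * f * (e * f) = e * f := by
  rw [← mul_assoc, R.rect e f he hf]

theorem RU.efg {e f g : S} (he : e * e = e) (hf : f * f = f) (hg : g * g = g) :
    e * f * g = e * g := by
  have h1 := R.rect e (f * g) he (R.idem_mul hf hg)
  calc e * f * g = e * f * (g * e * g) := by rw [R.rect g e hg he]
    _ = e * (f * g) * e * g := by simp only [mul_assoc]
    _ = e * g := by rw [h1]

theorem RU.peq {p q e : S} (hp : Sq p) (hq : Sq q) (he : e * e = e) : p * e * q = p * q := by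
  have h1 := R.efg (R.o_idem hp) he (R.o_idem hq)
  calc p * e * q = p * oo p * e * (oo q * q) := by
        rw [R.mul_o hp, R.o_mul hq]
    _ = p * (oo p * e * oo q) * q := by simp only [mul_assoc]
    _ = p * oo p * (oo q * q) := by rw [h1]; simp only [mul_assoc]
    _ = p * q := by rw [R.mul_o hp, R.o_mul hq]

theorem RU.left_iff {f p q : S} (hp : Sq p) : f * (p * q) = p * q ↔ f * p = p := by
  constructor
  · intro h
    have hpq : Sq (p * q) := sq_mul _ _
    have h1 : oo p * oo (p * q) = oo (p * q) :=
      oo_left (by rw [← mul_assoc, R.o_mul hp])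
    have h2 : oo (p * q) * oo p = oo p := by
      have h3 := R.rect (oo p) (oo (p * q)) (R.o_idem hp) (R.o_idem hpq)
      rwa [h1] at h3
    have h3 : oo (p * q) * p = p := by
      calc oo (p * q) * p = oo (p * q) * (oo p * p) := by
            rw [R.o_mul hp]
        _ = p := by rw [← mul_assoc, h2, R.o_mul hp]
    have h4 : f * oo (p * q) = oo (p * q) := oo_left h
    calc f * p = f * (oo (p * q) * p) := by rw [h3]
      _ = p := by rw [← mul_assoc, h4, h3]
  · intro h
    rw [← mul_assoc, h]

theorem RU.right_iff {f p q : S} (hp : Sq p) : q * p * f = q * p ↔ p * f = p := by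
  constructor
  · intro h
    have hpq : Sq (q * p) := sq_mul _ _
    have h1 : oo (q * p) * oo p = oo (q * p) :=
      oo_right (by rw [mul_assoc, R.mul_o hp])
    have h2 : oo p * oo (q * p) = oo p := by
      have h3 := R.rect (oo p) (oo (q * p)) (R.o_idem hp) (R.o_idem hpq)
      rwa [mul_assoc, h1] at h3
    have h3 : p * oo (q * p) = p := by
      calc p * oo (q * p) = p * oo p * oo (q * p) := by
            rw [R.mul_o hp]
        _ = p := by rw [mul_assoc, h2, R.mul_o hp]
    have h4 : oo (q * p) * f = oo (q * p) := oo_right h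
    calc p * f = p * oo (q * p) * f := by rw [h3]
      _ = p := by rw [mul_assoc, h4, h3]
  · intro h
    rw [mul_assoc, h]

theorem RU.left_o {f x p : S} (hp : Sq p) :
    f * (x * oo p) = x * oo p ↔ f * (x * p) = x * p := by
  have h1 := R.left_iff (f := f) (q := p) (sq_mul x (oo p))
  rw [mul_assoc, R.o_mul hp] at h1
  exact h1.symm

theorem RU.right_o {f x p : S} (hp : Sq p) :
    oo p * x * f = oo p * x ↔ p * x * f = p * x := by
  have h1 := R.right_iff (f := f) (q := p) (sq_mul (oo p) x)
  rw [← mul_assoc p, R.mul_o hp] at h1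
  exact h1.symm

theorem RU.left_o1 {f p : S} (hp : Sq p) : f * oo p = oo p ↔ f * p = p := by
  constructor
  · intro h
    calc f * p = f * (oo p * p) := by rw [R.o_mul hp]
      _ = p := by rw [← mul_assoc, h, R.o_mul hp]
  · intro h
    exact oo_left h

theorem RU.right_o1 {f p : S} (hp : Sq p) : oo p * f = oo p ↔ p * f = p := by
  constructor
  · intro h
    calc p * f = p * oo p * f := by rw [R.mul_o hp]
      _ = p := by rw [mul_assoc, h, R.mul_o hp]
  · intro h
    exact oo_right h

theorem RU.gam {f : S} (hf : f * f = f) (x y : S) :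
    f * (x * y) * f = f * x * f * (f * y * f) := by
  have h1 := R.peq (sq_mul f x) (sq_mul y f) hf
  calc f * (x * y) * f = f * x * (y * f) := by simp only [mul_assoc]
    _ = f * x * f * (y * f) := h1.symm
    _ = f * x * (f * f) * (y * f) := by rw [hf]
    _ = f * x * f * (f * y * f) := by simp only [mul_assoc]

theorem RU.hyp : Hyp S := hyp_of_rect R.exp R.rect

theorem RU.of_inj {T : Type u} [Semigroup T] (i : T →ₙ* S) (hi : Function.Injective i) : RU T := by
  refine ⟨?_, ?_⟩
  · intro x y
    obtain ⟨n, hn⟩ := R.exp (i x) (i y)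
    refine ⟨n, hi ?_⟩
    rw [pw_map, map_mul, hn]
  · intro e f he hf
    apply hi
    rw [map_mul, map_mul]
    exact R.rect _ _ (by rw [← map_mul, he]) (by rw [← map_mul, hf])

/-- the elements act on the left like products -/
def LI (S : Type u) [Semigroup S] : Prop :=
  ∀ x e f : S, e * e = e → f * f = f → x * e * f = x * f

omit R in
theorem LI.of_inj {T : Type u} [Semigroup T] (h : LI S) (i : T →ₙ* S)
    (hi : Function.Injective i) : LI T := by
  intro x e f he hf
  apply hi
  rw [map_mul, map_mul, map_mul]
  exact h _ _ _ (by rw [← map_mul, he]) (by rw [← map_mul, hf])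

theorem LI.const (h : LI S) (f x y z : S) : f * (x * y) = x * y ↔ f * (x * z) = x * z := by
  have key : ∀ y : S, f * (x * y) = x * y ↔ f * (x * oo (y * y)) = x * oo (y * y) := by
    intro y
    rw [R.left_o (sq_mul y y), ← mul_assoc x y y]
    exact (R.left_iff (sq_mul x y)).symm
  rw [key y, key z]
  have e1 := R.o_idem (sq_mul y y)
  have e2 := R.o_idem (sq_mul z z)
  have h1 := R.left_iff (f := f) (q := oo (z * z)) (sq_mul x (oo (y * y)))
  rw [h x _ _ e1 e2] at h1
  exact h1.symm

end

end Pool.Agent.helper45.Inc
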