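import Mathlib
import Pool.Agent.helper45.Inc.RU

/-!
# Frames with one marked element
-/

universe u v

open Pool.Agent.helper9.Incl

namespace Pool.Agent.helper45.Inc

/-- types of letters -/
abbrev PTy : Type := Fin 3 → Prop

/-- frames with one marked element -/
structure PFrame (S : Type u) [Semigroup S] where
  f : S
  hf : f * f = f
  p : S
  P : S
  hP : P * P = P
  Q : PTy → S
  hQ : ∀ τ, Q τ * Q τ = Q τ

/-- the combinatorial code of a frame -/
abbrev PBits : Type := Prop × Prop × Prop × (PTy → Prop) × Prop × (PTy → Prop)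

/-- the combinatorial code of a frame -/
def pbits {S : Type u} [Semigroup S] (Φ : PFrame S) : PBits :=
  (Sq Φ.p, Φ.f * (Φ.p * Φ.f) = Φ.p * Φ.f, Φ.p * Φ.p * Φ.f = Φ.p * Φ.p,
    fun τ => Φ.Q τ * Φ.p * Φ.f = Φ.Q τ * Φ.p, Φ.f * Φ.P = Φ.P, fun τ => Φ.Q τ * Φ.f = Φ.Q τ)

/-- the marked element of the local group of a frame -/
def PFrame.pin {S : Type u} [Semigroup S] (Φ : PFrame S) : Loc Φ.f := inLoc Φ.hf Φ.p

section
variable {S : Type u} [Semigroup S] (f : S) (F : Word →ₙ* S)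

/-- the letter `y` acts into the left class of `f` -/
def Lh (y : ℕ) : Prop := f * (F (FreeSemigroup.of y) * f) = F (FreeSemigroup.of y) * f

/-- the product of the letters `a`, `b` is in the right class of `f` -/
def Rgg (a b : ℕ) : Prop := F (FreeSemigroup.of a) * F (FreeSemigroup.of b) * f =
  F (FreeSemigroup.of a) * F (FreeSemigroup.of b)

/-- the letter `b` acts into the right class of `f` -/
def Rhh (b : ℕ) : Prop := ∀ a, Rgg f F a b

/-- the letter `y` acts like `t` but is not `t` -/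
def Yy (t : S) (y : ℕ) : Prop := Lh f F y ∧ Rhh f F y ∧ f * F (FreeSemigroup.of y) * f = t ∧
  F (FreeSemigroup.of y) ≠ t

/-- the conditions on the frame -/
structure Good (u : Word) (Φ : PFrame S) (pin : ℕ → Prop) (τ : ℕ → PTy) (a0 d0 : ℕ) : Prop where
  hu : (u = FreeSemigroup.of a0 ∧ a0 = d0) ∨
      ((∃ b, u = FreeSemigroup.of a0 * FreeSemigroup.of b ∨
        ∃ w', u = FreeSemigroup.of a0 * FreeSemigroup.of b * w') ∧
      ∃ c, u = FreeSemigroup.of c * FreeSemigroup.of d0 ∨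
        ∃ w', u = w' * (FreeSemigroup.of c * FreeSemigroup.of d0))
  h1 : ∀ y, pin y → Φ.f * F (FreeSemigroup.of y) * Φ.f = Φ.f * Φ.p * Φ.f
  h2 : ∀ y, pin y → (Lh Φ.f F y ↔ Φ.f * (Φ.p * Φ.f) = Φ.p * Φ.f)
  h3 : ∀ a b, pin a → pin b → (Rgg Φ.f F a b ↔ Φ.p * Φ.p * Φ.f = Φ.p * Φ.p)
  h4 : ∀ a b, ¬ pin a → pin b →
    (Rgg Φ.f F a b ↔ Φ.Q (τ a) * Φ.p * Φ.f = Φ.Q (τ a) * Φ.p)
  h5 : ∀ y, ¬ pin y → Φ.Q (τ y) * Φ.f = Φ.Q (τ y) → Rhh Φ.f F y ∧ ¬ Yy Φ.f F (F u) y
  h6 : ¬ pin d0 → Φ.Q (τ d0) * Φ.f = Φ.Q (τ d0)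
  h7 : ∀ y, ¬ pin y → ¬ Lh Φ.f F y → Φ.f * Φ.P ≠ Φ.P
  h8 : ∀ y, pin y → ¬ Sq Φ.p
  h9 : u = FreeSemigroup.of a0 → ¬ pin a0

theorem transfer_pframe {F : Word →ₙ* S} (R : RU S) (hLI : LI S) {u : Word}
    (ht : Sq (F u)) {Φ : PFrame S} (hΦ : Φ.f = oo (F u)) {pin : ℕ → Prop} {τ : ℕ → PTy}
    {a0 d0 : ℕ} (G : Good F u Φ pin τ a0 d0) {S' : Type u} [Semigroup S'] (R' : RU S')
    (hLI' : LI S') {Φ' : PFrame S'} (hb : pbits Φ = pbits Φ') (X : Word →ₙ* Loc Φ'.f)
    (hxp : ∀ y, pin y → X (FreeSemigroup.of y) = Φ'.pin)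
    (hx : ∀ w w', X w = X w' → Φ.f * F w * Φ.f = Φ.f * F w' * Φ.f) :
    ∃ ψ : Word →ₙ* S', ∀ w, ψ u = ψ w → F u = F w := by
  classical
  have hft : Φ.f * F u = F u := by rw [hΦ]; exact R.o_mul ht
  have htf : F u * Φ.f = F u := by rw [hΦ]; exact R.mul_o ht
  have hf := Φ.hf
  have hf' := Φ'.hf
  have b1 : Sq Φ.p ↔ Sq Φ'.p := iff_of_eq (congrArg (fun b : PBits => b.1) hb)
  have b2 : Φ.f * (Φ.p * Φ.f) = Φ.p * Φ.f ↔ Φ'.f * (Φ'.p * Φ'.f) = Φ'.p * Φ'.f :=
    iff_of_eq (congrArg (fun b : PBits => b.2.1) hb)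
  have b3 : Φ.p * Φ.p * Φ.f = Φ.p * Φ.p ↔ Φ'.p * Φ'.p * Φ'.f = Φ'.p * Φ'.p :=
    iff_of_eq (congrArg (fun b : PBits => b.2.2.1) hb)
  have b4 : ∀ s, Φ.Q s * Φ.p * Φ.f = Φ.Q s * Φ.p ↔ Φ'.Q s * Φ'.p * Φ'.f = Φ'.Q s * Φ'.p :=
    fun s => iff_of_eq (congrFun (congrArg (fun b : PBits => b.2.2.2.1) hb) s)
  have b5 : Φ.f * Φ.P = Φ.P ↔ Φ'.f * Φ'.P = Φ'.P :=
    iff_of_eq (congrArg (fun b : PBits => b.2.2.2.2.1) hb)
  have b6 : ∀ s, Φ.Q s * Φ.f = Φ.Q s ↔ Φ'.Q s * Φ'.f = Φ'.Q s :=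
    fun s => iff_of_eq (congrFun (congrArg (fun b : PBits => b.2.2.2.2.2) hb) s)
  have hSP' : Sq Φ'.P := ⟨_, _, Φ'.hP.symm⟩
  have hSQ' : ∀ s, Sq (Φ'.Q s) := fun s => ⟨_, _, (Φ'.hQ s).symm⟩
  let x : ℕ → S' := fun y => (X (FreeSemigroup.of y)).1
  have hxl : ∀ y, Φ'.f * x y = x y := fun y => (X (FreeSemigroup.of y)).2.1
  have hxr : ∀ y, x y * Φ'.f = x y := fun y => (X (FreeSemigroup.of y)).2.2
  let L : ℕ → S' := fun y => if Lh Φ.f F y then Φ'.f else Φ'.P
  have hLp : ∀ y, Lh Φ.f F y → L y = Φ'.f := fun y h => if_pos h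
  have hLn : ∀ y, ¬ Lh Φ.f F y → L y = Φ'.P := fun y h => if_neg h
  have hLi : ∀ y, L y * L y = L y := by
    intro y
    by_cases h : Lh Φ.f F y
    · rw [hLp y h, hf']
    · rw [hLn y h, Φ'.hP]
  let g : ℕ → S' := fun y => if pin y then Φ'.p else L y * x y * Φ'.Q (τ y)
  have gp : ∀ y, pin y → g y = Φ'.p := fun y h => if_pos h
  have gn : ∀ y, ¬ pin y → g y = L y * x y * Φ'.Q (τ y) := fun y h => if_neg h
  have fact1 : ∀ y, Φ'.f * g y * Φ'.f = x y := by
    intro y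
    by_cases h : pin y
    · rw [gp y h]
      exact (congrArg Subtype.val (hxp y h)).symm
    · rw [gn y h]
      have e1 := R'.rect Φ'.f (L y) hf' (hLi y)
      have e2 := R'.rect Φ'.f (Φ'.Q (τ y)) hf' (Φ'.hQ _)
      calc Φ'.f * (L y * x y * Φ'.Q (τ y)) * Φ'.f
          = Φ'.f * (L y * (Φ'.f * x y * Φ'.f) * Φ'.Q (τ y)) * Φ'.f := by rw [hxl, hxr]
        _ = (Φ'.f * L y * Φ'.f) * x y * (Φ'.f * Φ'.Q (τ y) * Φ'.f) := by
            simp only [mul_assoc]
        _ = x y := by rw [e1, e2, hxl, hxr]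
  let ψ : Word →ₙ* S' := FreeSemigroup.lift g
  have hψof : ∀ y, ψ (FreeSemigroup.of y) = g y := fun y => FreeSemigroup.lift_of _ _
  have fact2 : ∀ w, Φ'.f * ψ w * Φ'.f = (X w).1 := by
    intro w
    induction w using FreeSemigroup.recOnMul with
    | ih1 y => rw [hψof]; exact fact1 y
    | ih2 a b ha hb =>
      rw [map_mul, R'.gam hf', ha, hb, ← Loc.mul_val, ← map_mul]
  -- left classes
  have hleft : ∀ a b, (Φ'.f * (g a * g b) = g a * g b ↔ Lh Φ.f F a) := by
    intro a b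
    by_cases h : pin a
    · rw [gp a h, LI.const R' hLI' Φ'.f Φ'.p (g b) Φ'.f, ← b2, G.h2 a h]
    · rw [gn a h]
      by_cases h' : Lh Φ.f F a
      · rw [hLp a h']
        refine ⟨fun _ => h', fun _ => ?_⟩
        simp only [← mul_assoc, hf']
      · rw [hLn a h']
        refine ⟨fun h2 => ?_, fun h2 => absurd h2 h'⟩
        exfalso
        rw [mul_assoc Φ'.P, mul_assoc Φ'.P, R'.left_iff hSP'] at h2
        exact G.h7 a h h' (b5.mpr h2)
  -- right classes
  have hright1 : ∀ a b, pin b → (g a * g b * Φ'.f = g a * g b ↔ Rgg Φ.f F a b) := by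
    intro a b hpb
    rw [gp b hpb]
    by_cases h : pin a
    · rw [gp a h, ← b3, G.h3 a b h hpb]
    · rw [gn a h, mul_assoc (L a * x a), R'.right_iff (sq_mul _ _), ← b4, G.h4 a b h hpb]
  have hright2 : ∀ a b, ¬ pin b → (g a * g b * Φ'.f = g a * g b ↔
      Φ.Q (τ b) * Φ.f = Φ.Q (τ b)) := by
    intro a b hpb
    rw [gn b hpb, ← mul_assoc (g a), R'.right_iff (hSQ' _), ← b6]
  have hright : ∀ a b, g a * g b * Φ'.f = g a * g b → Rgg Φ.f F a b := by
    intro a b hab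
    by_cases h : pin b
    · exact (hright1 a b h).mp hab
    · exact (G.h5 b h ((hright2 a b h).mp hab)).1 a
  -- words of length at least two
  have hwl : ∀ (a b : ℕ) (w : Word), (w = FreeSemigroup.of a * FreeSemigroup.of b ∨
      ∃ w', w = FreeSemigroup.of a * FreeSemigroup.of b * w') →
      (Φ'.f * ψ w = ψ w ↔ Φ'.f * (g a * g b) = g a * g b) ∧
      (Φ.f * F w = F w ↔ Lh Φ.f F a) := by
    intro a b w hw
    have key : Φ.f * F w = F w ↔ Φ.f * (F (FreeSemigroup.of a) * F (FreeSemigroup.of b)) =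
        F (FreeSemigroup.of a) * F (FreeSemigroup.of b) := by
      rcases hw with rfl | ⟨w', rfl⟩
      · rw [map_mul]
      · rw [map_mul, map_mul]
        exact R.left_iff (sq_mul _ _)
    refine ⟨?_, ?_⟩
    · rcases hw with rfl | ⟨w', rfl⟩
      · rw [map_mul, hψof, hψof]
      · rw [map_mul, map_mul, hψof, hψof]
        exact R'.left_iff (sq_mul _ _)
    · rw [key]
      exact LI.const R hLI _ _ _ _
  have hwr : ∀ (a b : ℕ) (w : Word), (w = FreeSemigroup.of a * FreeSemigroup.of b ∨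
      ∃ w', w = w' * (FreeSemigroup.of a * FreeSemigroup.of b)) →
      (ψ w * Φ'.f = ψ w ↔ g a * g b * Φ'.f = g a * g b) ∧
      (F w * Φ.f = F w ↔ Rgg Φ.f F a b) := by
    rintro a b w (rfl | ⟨w', rfl⟩)
    · rw [map_mul, map_mul, hψof, hψof]
      exact ⟨Iff.rfl, Iff.rfl⟩
    · rw [map_mul, map_mul, map_mul, map_mul, hψof, hψof]
      exact ⟨R'.right_iff (sq_mul _ _), R.right_iff (sq_mul _ _)⟩
  -- the value of `u`
  have hψu : Φ'.f * ψ u = ψ u ∧ ψ u * Φ'.f = ψ u ∧ Sq (ψ u) := by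
    rcases G.hu with ⟨hu, had⟩ | ⟨⟨b, hb⟩, ⟨c, hc⟩⟩
    · have hnp := G.h9 hu
      have e1 : ψ u = L a0 * x a0 * Φ'.Q (τ a0) := by rw [hu, hψof, gn a0 hnp]
      have e2 : Lh Φ.f F a0 := by
        unfold Lh
        rw [← hu, htf, hft]
      have e3 : Φ'.Q (τ a0) * Φ'.f = Φ'.Q (τ a0) := (b6 _).mp (by
        rw [had]
        exact G.h6 (had ▸ hnp))
      rw [e1, hLp a0 e2]
      refine ⟨?_, ?_, sq_mul _ _⟩
      · simp only [← mul_assoc, hf']
      · rw [mul_assoc, e3]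
    · refine ⟨?_, ?_, ?_⟩
      · rw [(hwl a0 b u hb).1, hleft a0 b]
        exact (hwl a0 b u hb).2.mp hft
      · rw [(hwr c d0 u hc).1]
        have e1 : Rgg Φ.f F c d0 := (hwr c d0 u hc).2.mp htf
        by_cases h : pin d0
        · exact (hright1 c d0 h).mpr e1
        · exact (hright2 c d0 h).mpr (G.h6 h)
      · rcases hb with hb | ⟨w', hb⟩
        · rw [hb, map_mul]; exact sq_mul _ _
        · rw [hb, map_mul]; exact sq_mul _ _
  refine ⟨ψ, ?_⟩
  intro w hw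
  have hγ : Φ.f * F w * Φ.f = F u := by
    have e1 := fact2 u
    have e2 := fact2 w
    rw [hw, e2] at e1
    rw [hx w u (Subtype.ext e1), hft, htf]
  obtain ⟨k1, k2, k3⟩ := hψu
  rw [hw] at k1 k2 k3
  rcases two_form w with ⟨y, rfl⟩ | ⟨⟨a, b, hab⟩, ⟨c, d, hcd⟩⟩
  · -- one letter
    rw [hψof] at k1 k2 k3
    by_cases h : pin y
    · rw [gp y h] at k3
      exact absurd (b1.mpr k3) (G.h8 y h)
    · rw [gn y h] at k1 k2
      have e1 : Φ.Q (τ y) * Φ.f = Φ.Q (τ y) :=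
        (b6 _).mpr ((R'.right_iff (hSQ' _)).mp k2)
      obtain ⟨e2, e3⟩ := G.h5 y h e1
      have e4 : Lh Φ.f F y := by
        by_contra h'
        rw [hLn y h', mul_assoc Φ'.P, R'.left_iff hSP'] at k1
        exact G.h7 y h h' (b5.mpr k1)
      by_contra hne
      exact e3 ⟨e4, e2, hγ, Ne.symm hne⟩
  · have e1 : Φ.f * F w = F w :=
      (hwl a b w hab).2.mpr ((hleft a b).mp ((hwl a b w hab).1.mp k1))
    have e2 : F w * Φ.f = F w :=
      (hwr c d w hcd).2.mpr (hright c d ((hwr c d w hcd).1.mp k2))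
    rw [e1, e2] at hγ
    exact hγ.symm

theorem exists_pframe (R : RU S) (F : Word →ₙ* S) (u : Word) (ht : Sq (F u)) :
    ∃ Φ : PFrame S, Φ.f = oo (F u) ∧ ∃ (pin : ℕ → Prop) (τ : ℕ → PTy) (a0 d0 : ℕ),
      Good F u Φ pin τ a0 d0 := by
  classical
  set t := F u with htdef
  set f := oo t with hfdef
  have hf : f * f = f := R.o_idem ht
  have hft : f * t = t := R.o_mul ht
  have htf : t * f = t := R.mul_o ht
  let g : ℕ → S := fun y => F (FreeSemigroup.of y)
  have hsq : ∀ a b : ℕ, Sq (g a * g b) := fun a b => sq_mul _ _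
  have hRdef : ∀ a b, Rgg f F a b ↔ g a * g b * f = g a * g b := fun a b => Iff.rfl
  -- first and last letters of `u`
  obtain ⟨a0, d0, hu⟩ : ∃ a0 d0 : ℕ, (u = FreeSemigroup.of a0 ∧ a0 = d0) ∨
      ((∃ b, u = FreeSemigroup.of a0 * FreeSemigroup.of b ∨
        ∃ w', u = FreeSemigroup.of a0 * FreeSemigroup.of b * w') ∧
      ∃ c, u = FreeSemigroup.of c * FreeSemigroup.of d0 ∨
        ∃ w', u = w' * (FreeSemigroup.of c * FreeSemigroup.of d0)) := by
    rcases two_form u with ⟨y, hy⟩ | ⟨⟨a, b, h1⟩, ⟨c, d, h2⟩⟩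
    · exact ⟨y, y, Or.inl ⟨hy, rfl⟩⟩
    · exact ⟨a, d, Or.inr ⟨⟨b, h1⟩, ⟨c, h2⟩⟩⟩
  -- the last letter in the square
  have hd0 : Sq (g d0) → Rhh f F d0 := by
    intro h a
    have h1 : g d0 * f = g d0 := by
      rcases hu with ⟨hu, had⟩ | ⟨-, ⟨c, hc⟩⟩
      · have : g d0 = t := by rw [htdef, hu, had]
        rw [this, htf]
      · have h2 : g c * g d0 * f = g c * g d0 := by
          rcases hc with hc | ⟨w', hc⟩
          · have h3 : g c * g d0 = t := by rw [htdef, hc, map_mul]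
            rw [h3, htf]
          · have h3 : F w' * (g c * g d0) = t := by rw [htdef, hc, map_mul, map_mul]
            rw [← R.right_iff (q := F w') (hsq c d0), h3, htf]
        exact (R.right_iff h).mp h2
    rw [hRdef, R.right_iff h, h1]
  have hq : ∀ y, ∃ q, Rhh f F y ∨ ¬ Rgg f F q y := by
    intro y
    by_cases h : Rhh f F y
    · exact ⟨0, Or.inl h⟩
    · unfold Rhh at h
      push Not at h
      obtain ⟨r, hr⟩ := h
      exact ⟨r, Or.inr hr⟩
  choose q hq using hq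
  let τ : ℕ → PTy := fun y => ![Rhh f F y, Rgg f F y d0, Yy f F t y]
  let rp : PTy → ℕ := Function.invFun τ
  have hrep : ∀ y, τ (rp (τ y)) = τ y := fun y => Function.invFun_eq ⟨y, rfl⟩
  have t0 : ∀ y, (Rhh f F (rp (τ y)) ↔ Rhh f F y) := fun y => iff_of_eq (congrFun (hrep y) 0)
  have t1 : ∀ y, (Rgg f F (rp (τ y)) d0 ↔ Rgg f F y d0) := fun y =>
    iff_of_eq (congrFun (hrep y) 1)
  have t2 : ∀ y, (Yy f F t (rp (τ y)) ↔ Yy f F t y) := fun y =>
    iff_of_eq (congrFun (hrep y) 2)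
  obtain ⟨P, hP, hP7⟩ : ∃ P : S, P * P = P ∧ ∀ y, ¬ Lh f F y → f * P ≠ P := by
    by_cases h : ∃ y, ¬ Lh f F y
    · obtain ⟨y, hy⟩ := h
      refine ⟨oo (g y * f), R.o_idem (sq_mul _ _), fun _ _ h1 => hy ?_⟩
      exact (R.left_o1 (sq_mul (g y) f)).mp h1
    · exact ⟨f, hf, fun y hy => (h ⟨y, hy⟩).elim⟩
  by_cases hE : Rhh f F d0
  · -- the last letter is not essential
    obtain ⟨p, hp1, hp2⟩ : ∃ p : S, (∀ y, Yy f F t y → ∃ η, Yy f F t η ∧ p = g η) ∧ True := by
      by_cases h : ∃ y, Yy f F t y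
      · obtain ⟨y, hy⟩ := h
        exact ⟨g y, fun _ _ => ⟨y, hy, rfl⟩, trivial⟩
      · exact ⟨f, fun y hy => (h ⟨y, hy⟩).elim, trivial⟩
    let Φ : PFrame S :=
      { f := f
        hf := hf
        p := p
        P := P
        hP := hP
        Q := fun s => oo (g (q (rp s)) * g (rp s))
        hQ := fun s => R.o_idem (hsq _ _) }
    refine ⟨Φ, rfl, fun y => Yy f F t y, τ, a0, d0, hu, ?_, ?_, ?_, ?_, ?_, ?_, ?_, ?_, ?_⟩
    · intro y hy
      obtain ⟨η, hη, hpη⟩ := hp1 y hy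
      change f * g y * f = f * p * f
      rw [hpη, hy.2.2.1, hη.2.2.1]
    · intro y hy
      obtain ⟨η, hη, hpη⟩ := hp1 y hy
      refine ⟨fun _ => ?_, fun _ => hy.1⟩
      change f * (p * f) = p * f
      rw [hpη]
      exact hη.1
    · intro a b ha hb
      obtain ⟨η, hη, hpη⟩ := hp1 b hb
      refine ⟨fun _ => ?_, fun _ => hb.2.1 a⟩
      change p * p * f = p * p
      rw [hpη]
      exact hη.2.1 η
    · intro a b _ hb
      obtain ⟨η, hη, hpη⟩ := hp1 b hb
      refine ⟨fun _ => ?_, fun _ => hb.2.1 a⟩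
      change oo (g (q (rp (τ a))) * g (rp (τ a))) * p * f =
        oo (g (q (rp (τ a))) * g (rp (τ a))) * p
      rw [R.right_o (hsq _ _), hpη, mul_assoc (g _), R.right_iff (hsq _ _)]
      exact hη.2.1 _
    · intro y hy h
      refine ⟨?_, hy⟩
      have h1 : Rgg f F (q (rp (τ y))) (rp (τ y)) := (R.right_o1 (hsq _ _)).mp h
      exact (t0 y).mp ((hq (rp (τ y))).resolve_right (fun h => h h1))
    · intro _
      have h1 : Rgg f F (q (rp (τ d0))) (rp (τ d0)) := ((t0 d0).mpr hE) _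
      exact (R.right_o1 (hsq _ _)).mpr h1
    · intro y _ hy
      exact hP7 y hy
    · intro y hy hSp
      obtain ⟨η, hη, hpη⟩ := hp1 y hy
      have hSη : Sq (g η) := hpη ▸ hSp
      have e1 : f * g η = g η := (R.left_iff hSη).mp hη.1
      have e2 : g η * f = g η := (R.right_iff hSη).mp (hη.2.1 η)
      apply hη.2.2.2
      have e3 := hη.2.2.1
      change f * g η * f = t at e3
      change g η = t
      rw [← e3, e1, e2]
    · intro hu1 hy
      apply hy.2.2.2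
      rw [htdef, hu1]
  · -- the last letter is essential
    obtain ⟨z0, hz0⟩ : ∃ z0, ¬ Rgg f F z0 d0 := by
      unfold Rhh at hE
      push Not at hE
      exact hE
    let D := g d0
    -- facts on the square of the last letter
    have c1 : ∀ s : S, (s * (D * D) * f = s * (D * D) ↔ D * D * f = D * D) := fun s =>
      R.right_iff (sq_mul D D)
    have c2 : D * D * f = D * D ↔ f * D * f = f * D := by
      constructor
      · intro h
        have h1 : D * D * D * f = D * D * D := by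
          rw [mul_assoc D D D]; exact (c1 D).mpr h
        have h2 : D * D * (f * D) * f = D * D * (f * D) := by
          rw [← mul_assoc (D * D), h]; exact h1
        exact (R.right_iff (sq_mul f D)).mp h2
      · intro h
        have h1 : f * (D * D) * f = f * (D * D) := by
          rw [← mul_assoc f D D, ← h, mul_assoc (f * D) f D]
          exact (R.right_iff (sq_mul f D)).mpr h
        exact (c1 f).mp h1
    have c3 : ∀ y, Rhh f F y → (Rgg f F y d0 ↔ f * D * f = f * D) := by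
      intro y hy
      have h1 : g y * g y * f = g y * g y := hy y
      have h2 := R.right_iff (f := f) (q := g y) (sq_mul (g y) D)
      have h3 := R.right_iff (f := f) (q := g y * g y) (sq_mul f D)
      rw [← mul_assoc (g y * g y) f D, h1] at h3
      rw [← mul_assoc (g y) (g y) D] at h2
      exact h2.symm.trans h3
    let Qy : ℕ → S := fun y => if Yy f F t y then
      (if Rgg f F y d0 then oo (g z0 * D) else oo (D * D)) else oo (g (q y) * g y)
    have hQy1 : ∀ y, Yy f F t y → Rgg f F y d0 → Qy y = oo (g z0 * D) := fun y h h' => by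
      simp only [Qy]; rw [if_pos h, if_pos h']
    have hQy2 : ∀ y, Yy f F t y → ¬ Rgg f F y d0 → Qy y = oo (D * D) := fun y h h' => by
      simp only [Qy]; rw [if_pos h, if_neg h']
    have hQy3 : ∀ y, ¬ Yy f F t y → Qy y = oo (g (q y) * g y) := fun y h => by
      simp only [Qy]; rw [if_neg h]
    have hQi : ∀ y, Qy y * Qy y = Qy y := by
      intro y
      by_cases h : Yy f F t y
      · by_cases h' : Rgg f F y d0
        · rw [hQy1 y h h']; exact R.o_idem (sq_mul _ _)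
        · rw [hQy2 y h h']; exact R.o_idem (sq_mul _ _)
      · rw [hQy3 y h]; exact R.o_idem (sq_mul _ _)
    have hQp : ∀ y, (Qy y * D * f = Qy y * D ↔ Rgg f F y d0) := by
      intro y
      by_cases h : Yy f F t y
      · by_cases h' : Rgg f F y d0
        · rw [hQy1 y h h', R.right_o (sq_mul _ _), mul_assoc (g z0) D D, c1]
          exact ⟨fun _ => h', fun _ => c2.mpr ((c3 y h.2.1).mp h')⟩
        · rw [hQy2 y h h', R.right_o (sq_mul _ _), mul_assoc D D D, c1]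
          refine ⟨fun h1 => ?_, fun h1 => absurd h1 h'⟩
          exact (c3 y h.2.1).mpr (c2.mp h1)
      · rw [hQy3 y h, R.right_o (sq_mul _ _), mul_assoc (g (q y)), R.right_iff (sq_mul _ _)]
        exact Iff.rfl
    have hQf : ∀ y, Qy y * f = Qy y → Rhh f F y ∧ ¬ Yy f F t y := by
      intro y hy
      by_cases h : Yy f F t y
      · exfalso
        by_cases h' : Rgg f F y d0
        · rw [hQy1 y h h', R.right_o1 (sq_mul _ _)] at hy
          exact hz0 hy
        · rw [hQy2 y h h', R.right_o1 (sq_mul _ _)] at hy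
          exact h' ((c3 y h.2.1).mpr (c2.mp hy))
      · rw [hQy3 y h, R.right_o1 (sq_mul _ _)] at hy
        exact ⟨(hq y).resolve_right (fun h1 => h1 hy), h⟩
    let Φ : PFrame S :=
      { f := f
        hf := hf
        p := D
        P := P
        hP := hP
        Q := fun s => Qy (rp s)
        hQ := fun s => hQi _ }
    refine ⟨Φ, rfl, fun y => y = d0, τ, a0, d0, hu, ?_, ?_, ?_, ?_, ?_, ?_, ?_, ?_, ?_⟩
    · rintro y rfl
      rfl
    · rintro y rfl
      exact Iff.rfl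
    · rintro a b rfl rfl
      exact Iff.rfl
    · rintro a b _ rfl
      rw [← t1 a]
      exact (hQp _).symm
    · intro y _ h
      obtain ⟨h1, h2⟩ := hQf _ h
      exact ⟨(t0 y).mp h1, fun h3 => h2 ((t2 y).mpr h3)⟩
    · intro h
      exact absurd rfl h
    · intro y _ hy
      exact hP7 y hy
    · rintro y rfl h
      exact hE (hd0 h)
    · rintro hu1 had
      apply hE
      have h1 : g d0 = t := by rw [htdef, hu1, had]
      intro a
      rw [hRdef, h1, mul_assoc, htf]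

end

end Pool.Agent.helper45.Inc
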