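import Mathlib
import Pool.Agent.helper45.Inc.Tor3

/-!
# Pointed sections of abelian groups
-/

universe u

namespace Pool.Agent.helper45.Inc

/-- the pointed group `(G, g)` is a quotient of a pointed subgroup of `(H, h)` -/
def PSec (G H : Type u) [AddCommGroup G] [AddCommGroup H] (g : G) (h : H) : Prop :=
  ∃ (F : Type u) (_ : AddCommGroup F) (P : F →+ H) (Q : F →+ G), Function.Surjective Q ∧
    (∀ n, P n = 0 → Q n = 0) ∧ ∃ f, P f = h ∧ Q f = g

/-- pointed sections of direct sums of two groups -/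
theorem PSec.add {G H : Type u} [AddCommGroup G] [AddCommGroup H] {A B : AddSubgroup G}
    {A' B' : AddSubgroup H} {a : A} {b : B} {a' : A'} {b' : B'} (hA : PSec A A' a a')
    (hB : PSec B B' b b') (hG : ∀ x : G, ∃ a ∈ A, ∃ b ∈ B, a + b = x)
    (hH : ∀ a ∈ A', ∀ b ∈ B', a + b = 0 → a = 0) :
    PSec G H ((a : G) + b) ((a' : H) + b') := by
  obtain ⟨F₁, _, P₁, Q₁, hQ₁, h₁, f₁, hf₁, hf₁'⟩ := hA
  obtain ⟨F₂, _, P₂, Q₂, hQ₂, h₂, f₂, hf₂, hf₂'⟩ := hB
  refine ⟨F₁ × F₂, inferInstance, (A'.subtype.comp P₁).coprod (B'.subtype.comp P₂),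
    (A.subtype.comp Q₁).coprod (B.subtype.comp Q₂), ?_, ?_, (f₁, f₂), ?_, ?_⟩
  · intro x
    obtain ⟨a, ha, b, hb, hab⟩ := hG x
    obtain ⟨n₁, hn₁⟩ := hQ₁ ⟨a, ha⟩
    obtain ⟨n₂, hn₂⟩ := hQ₂ ⟨b, hb⟩
    refine ⟨(n₁, n₂), ?_⟩
    rw [AddMonoidHom.coprod_apply, AddMonoidHom.comp_apply, AddMonoidHom.comp_apply, hn₁, hn₂]
    exact hab
  · rintro ⟨n₁, n₂⟩ hn
    rw [AddMonoidHom.coprod_apply, AddMonoidHom.comp_apply, AddMonoidHom.comp_apply] at hn ⊢
    have e1 : ((P₁ n₁ : A') : H) = 0 := hH _ (P₁ n₁).2 _ (P₂ n₂).2 hn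
    have e2 : ((P₂ n₂ : B') : H) = 0 := by
      have : ((P₁ n₁ : A') : H) + ((P₂ n₂ : B') : H) = 0 := hn
      rwa [e1, zero_add] at this
    have e3 := h₁ _ (Subtype.ext e1)
    have e4 := h₂ _ (Subtype.ext e2)
    change A.subtype (Q₁ n₁) + B.subtype (Q₂ n₂) = 0
    rw [e3, e4, map_zero, map_zero, add_zero]
  · rw [AddMonoidHom.coprod_apply, AddMonoidHom.comp_apply, AddMonoidHom.comp_apply, hf₁, hf₂]
    rfl
  · rw [AddMonoidHom.coprod_apply, AddMonoidHom.comp_apply, AddMonoidHom.comp_apply, hf₁', hf₂']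
    rfl

/-- pointed sections of finite direct sums -/
theorem PSec.pi {G H : Type u} [AddCommGroup G] [AddCommGroup H] {κ : Type} [Fintype κ]
    {A : κ → AddSubgroup G} {A' : κ → AddSubgroup H} {x : ∀ k, A k} {x' : ∀ k, A' k}
    (hA : ∀ k, PSec (A k) (A' k) (x k) (x' k))
    (hG : ∀ x : G, ∃ a : ∀ k, A k, ∑ k, (a k : G) = x)
    (hH : ∀ a : ∀ k, A' k, ∑ k, (a k : H) = 0 → ∀ k, a k = 0) :
    PSec G H (∑ k, (x k : G)) (∑ k, (x' k : H)) := by
  choose F inst P Q hQ h f hf hf' using hA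
  refine ⟨∀ k, F k, inferInstance,
    ∑ k, ((A' k).subtype.comp (P k)).comp (Pi.evalAddMonoidHom F k),
    ∑ k, ((A k).subtype.comp (Q k)).comp (Pi.evalAddMonoidHom F k), ?_, ?_, f, ?_, ?_⟩
  · intro x
    obtain ⟨a, ha⟩ := hG x
    choose n hn using fun k => hQ k (a k)
    refine ⟨n, ?_⟩
    rw [AddMonoidHom.finsetSum_apply, ← ha]
    apply Finset.sum_congr rfl
    intro k _
    change ((Q k (n k) : A k) : G) = _
    rw [hn]
  · intro n hn
    rw [AddMonoidHom.finsetSum_apply] at hn ⊢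
    have e1 := hH (fun k => P k (n k)) hn
    apply Finset.sum_eq_zero
    intro k _
    change ((Q k (n k) : A k) : G) = 0
    rw [h k _ (e1 k)]
    rfl
  · rw [AddMonoidHom.finsetSum_apply]
    apply Finset.sum_congr rfl
    intro k _
    change ((P k (f k) : A' k) : H) = _
    rw [hf]
  · rw [AddMonoidHom.finsetSum_apply]
    apply Finset.sum_congr rfl
    intro k _
    change ((Q k (f k) : A k) : G) = _
    rw [hf']

section
variable {p : ℕ} {G : Type u} [AddCommGroup G]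

theorem exists_indep_seq (hp : p.Prime) (hinf : ∀ n, (soc p n G).Infinite) (ν : ℕ → ℕ)
    (F0 : AddSubgroup G) (hF0 : (F0 : Set G).Finite) : ∃ y : ℕ → G,
      (∀ j, p ^ (ν j + 1) • y j = 0) ∧ ∀ n : ℕ →₀ ℤ, Finsupp.linearCombination ℤ y n ∈ F0 →
        ∀ j, ((p ^ (ν j + 1) : ℕ) : ℤ) ∣ n j := by
  classical
  choose Y hY1 hY2 using fun (F : {F : AddSubgroup G // (F : Set G).Finite}) (n : ℕ) =>
    indep hp (hinf n) F.1 F.2
  let s : ℕ → {F : AddSubgroup G // (F : Set G).Finite} := fun j => Nat.rec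
    ⟨F0, hF0⟩
    (fun j F => ⟨F.1 ⊔ AddSubgroup.zmultiples (Y F (ν j)), finite_sup hp _ F.2 _ _ (hY1 F (ν j))⟩) j
  let y : ℕ → G := fun j => Y (s j) (ν j)
  have hs : ∀ j, (s (j + 1)).1 = (s j).1 ⊔ AddSubgroup.zmultiples (y j) := fun j => rfl
  have hmono : Monotone fun j => (s j).1 := by
    apply monotone_nat_of_le_succ
    intro j
    rw [hs]
    exact le_sup_left
  have hmem : ∀ i j, i < j → y i ∈ (s j).1 := by
    intro i j hij
    apply hmono (Nat.succ_le_of_lt hij)
    change y i ∈ (s (i + 1)).1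
    rw [hs]
    exact AddSubgroup.mem_sup_right (AddSubgroup.mem_zmultiples _)
  have hy1 : ∀ j, p ^ (ν j + 1) • y j = 0 := fun j => hY1 _ _
  have hy2 : ∀ j (k : ℤ), k • y j ∈ (s j).1 → ((p ^ (ν j + 1) : ℕ) : ℤ) ∣ k := fun j => hY2 _ _
  let P : (ℕ →₀ ℤ) →+ G := (Finsupp.linearCombination ℤ y).toAddMonoidHom
  have hP : ∀ n, P n = n.sum fun j k => k • y j := fun n => Finsupp.linearCombination_apply _ _
  have hPmem : ∀ (J : ℕ) (n : ℕ →₀ ℤ), (∀ j, J ≤ j → n j = 0) → P n ∈ (s J).1 := by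
    intro J n hn
    rw [hP, Finsupp.sum]
    apply AddSubgroup.sum_mem
    intro j hj
    apply AddSubgroup.zsmul_mem
    apply hmem
    by_contra hlt
    exact (Finsupp.mem_support_iff.mp hj) (hn j (not_lt.mp hlt))
  have key : ∀ (J : ℕ) (n : ℕ →₀ ℤ), (∀ j, J ≤ j → n j = 0) → P n ∈ F0 →
      ∀ j, ((p ^ (ν j + 1) : ℕ) : ℤ) ∣ n j := by
    intro J
    induction J with
    | zero =>
      intro n hn _ j
      rw [hn j (Nat.zero_le j)]
      exact dvd_zero _
    | succ J ih =>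
      intro n hn h0
      have h1 : ∀ j, J ≤ j → (n.erase J) j = 0 := by
        intro j hj
        by_cases hjJ : j = J
        · rw [hjJ, Finsupp.erase_same]
        · rw [Finsupp.erase_ne hjJ]
          exact hn j (by omega)
      have h2 : P n = P (n.erase J) + n J • y J := by
        conv_lhs => rw [← Finsupp.erase_add_single J n]
        rw [map_add]
        congr 1
        exact Finsupp.linearCombination_single ℤ _ _
      have h3 : n J • y J ∈ (s J).1 := by
        have : n J • y J = P n - P (n.erase J) := by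
          rw [h2, add_sub_cancel_left]
        rw [this]
        exact AddSubgroup.sub_mem _ (hmono (Nat.zero_le J) h0) (hPmem J _ h1)
      have h4 := hy2 J _ h3
      have h5 : n J • y J = 0 := by
        obtain ⟨c, hc⟩ := h4
        rw [hc, mul_comm, mul_smul, natCast_zsmul, hy1, smul_zero]
      rw [h5, add_zero] at h2
      have h6 := ih _ h1 (h2 ▸ h0)
      intro j
      by_cases hjJ : j = J
      · rw [hjJ]; exact h4
      · have := h6 j
        rwa [Finsupp.erase_ne hjJ] at this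
  refine ⟨y, hy1, ?_⟩
  intro n hn
  exact key (n.support.sup id + 1) n (by
    intro j hj
    by_contra h
    have := Finset.le_sup (f := id) (Finsupp.mem_support_iff.mpr h)
    simp only [id] at this
    omega) hn

theorem psec_univ (hp : p.Prime) {K : Type u} [AddCommGroup K] [Countable K] (hK : IsP p K)
    (hinf : ∀ n, (soc p n G).Infinite) (hG : IsP p G) {κ : K} {g : G}
    (hg : ∀ k : ℤ, k • g = 0 → k • κ = 0) : PSec K G κ g := by
  classical
  obtain ⟨e, he⟩ := exists_surjective_nat K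
  choose ν hν using fun j => hK (e j)
  obtain ⟨k0, hk0⟩ := hG g
  obtain ⟨y, hy1, hy2⟩ := exists_indep_seq hp hinf ν (AddSubgroup.zmultiples g) (by
    rw [finite_zmultiples, isOfFinAddOrder_iff_nsmul_eq_zero]
    exact ⟨_, pow_pos hp.pos _, hk0⟩)
  let P0 : (ℕ →₀ ℤ) →+ G := (Finsupp.linearCombination ℤ y).toAddMonoidHom
  let Q0 : (ℕ →₀ ℤ) →+ K := (Finsupp.linearCombination ℤ e).toAddMonoidHom
  let P : ℤ × (ℕ →₀ ℤ) →+ G := (zmultiplesHom G g).coprod P0
  let Q : ℤ × (ℕ →₀ ℤ) →+ K := (zmultiplesHom K κ).coprod Q0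
  have hP : ∀ c n, P (c, n) = c • g + n.sum fun j k => k • y j := fun c n => by
    change c • g + Finsupp.linearCombination ℤ y n = _
    rw [Finsupp.linearCombination_apply]
  have hQ : ∀ c n, Q (c, n) = c • κ + n.sum fun j k => k • e j := fun c n => by
    change c • κ + Finsupp.linearCombination ℤ e n = _
    rw [Finsupp.linearCombination_apply]
  refine ⟨ULift.{u} (ℤ × (ℕ →₀ ℤ)), inferInstance, P.comp AddEquiv.ulift.toAddMonoidHom,
    Q.comp AddEquiv.ulift.toAddMonoidHom, ?_, ?_, ULift.up (1, 0), ?_, ?_⟩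
  · intro x
    obtain ⟨j, hj⟩ := he x
    refine ⟨ULift.up (0, Finsupp.single j 1), ?_⟩
    change Q (0, Finsupp.single j 1) = x
    rw [hQ, zero_smul, zero_add]
    have h1 := Finsupp.sum_single_index (a := j) (b := (1 : ℤ)) (h := fun j k => k • e j)
      (zero_smul _ _)
    rw [h1, one_smul, hj]
  · rintro ⟨c, n⟩ hn
    have hn' : P (c, n) = 0 := hn
    change Q (c, n) = 0
    have h0 : Finsupp.linearCombination ℤ y n ∈ AddSubgroup.zmultiples g := by
      rw [Finsupp.linearCombination_apply]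
      rw [hP, add_comm, add_eq_zero_iff_eq_neg] at hn'
      rw [hn']
      exact AddSubgroup.neg_mem _ (AddSubgroup.zsmul_mem _ (AddSubgroup.mem_zmultiples g) c)
    have h1 := hy2 n h0
    have h2 : (n.sum fun j k => k • y j) = 0 := by
      rw [Finsupp.sum]
      apply Finset.sum_eq_zero
      intro j _
      obtain ⟨c, hc⟩ := h1 j
      rw [hc, mul_comm, mul_smul, natCast_zsmul, hy1, smul_zero]
    have h3 : (n.sum fun j k => k • e j) = 0 := by
      rw [Finsupp.sum]
      apply Finset.sum_eq_zero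
      intro j _
      obtain ⟨c, hc⟩ := h1 j
      rw [hc, mul_comm, mul_smul, natCast_zsmul, pow_succ', mul_smul, hν, smul_zero, smul_zero]
    rw [hP, h2, add_zero] at hn'
    rw [hQ, h3, add_zero]
    exact hg c hn'
  · change P (1, 0) = g
    rw [hP, one_smul, Finsupp.sum_zero_index, add_zero]
  · change Q (1, 0) = κ
    rw [hQ, one_smul, Finsupp.sum_zero_index, add_zero]

/-- a presentation with a given basis element -/
theorem exists_pres_pin (hp : p.Prime) {I : Type u} {π : (I →₀ ℤ) →+ G}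
    (hπ : Pres (fun _ => p) π) {s : G} (hs : s ≠ 0) :
    ∃ (π2 : (I →₀ ℤ) →+ G) (i0 : I), Pres (fun _ => p) π2 ∧ π2 (Finsupp.single i0 1) = s := by
  classical
  obtain ⟨N, hN⟩ := hπ.surj s
  obtain ⟨i0, hi0⟩ : ∃ i0, ¬ (p : ℤ) ∣ N i0 := by
    by_contra hcon
    push Not at hcon
    apply hs
    rw [← hN, hπ.ker]
    exact hcon
  have hcop : IsCoprime (N i0) (p : ℤ) := by
    rw [Int.isCoprime_iff_gcd_eq_one]
    have h1 : Nat.Coprime p (N i0).natAbs := by
      rw [hp.coprime_iff_not_dvd]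
      intro h
      exact hi0 (Int.natCast_dvd.mpr h)
    rw [Int.gcd_comm]
    exact h1
  obtain ⟨v, w, hvw⟩ := hcop
  let M : I →₀ ℤ := N - Finsupp.single i0 1
  let E : (I →₀ ℤ) →+ (I →₀ ℤ) :=
    AddMonoidHom.id _ + (zmultiplesHom (I →₀ ℤ) M).comp (Finsupp.applyAddHom i0)
  have hE : ∀ n, E n = n + n i0 • M := fun n => rfl
  refine ⟨π.comp E, i0, ⟨?_, ?_⟩, ?_⟩
  · intro x
    obtain ⟨n, rfl⟩ := hπ.surj x
    set c : ℤ := n i0 * v with hc
    refine ⟨n.erase i0 + Finsupp.single i0 c - c • N.erase i0, ?_⟩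
    rw [AddMonoidHom.comp_apply, hE]
    have h1 : (n.erase i0 + Finsupp.single i0 c - c • N.erase i0) i0 = c := by
      rw [Finsupp.sub_apply, Finsupp.add_apply, Finsupp.erase_same, Finsupp.single_eq_same,
        Finsupp.smul_apply, Finsupp.erase_same, smul_zero, zero_add, sub_zero]
    rw [h1]
    rw [← sub_eq_zero, ← map_sub, hπ.ker]
    intro i
    rw [Finsupp.sub_apply, Finsupp.add_apply, Finsupp.sub_apply, Finsupp.add_apply,
      Finsupp.smul_apply, Finsupp.smul_apply, Finsupp.sub_apply, smul_eq_mul, smul_eq_mul]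
    by_cases hi : i = i0
    · subst hi
      rw [Finsupp.erase_same, Finsupp.erase_same, Finsupp.single_eq_same, Finsupp.single_eq_same]
      refine ⟨- (w * n i), ?_⟩
      have : v * N i = 1 - w * p := by rw [← hvw]; ring
      calc 0 + c - c * 0 + c * (N i - 1) - n i = n i * (v * N i) - n i := by rw [hc]; ring
        _ = (p : ℤ) * (- (w * n i)) := by rw [this]; ring
    · rw [Finsupp.erase_ne hi, Finsupp.erase_ne hi, Finsupp.single_eq_of_ne hi,
        Finsupp.single_eq_of_ne hi]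
      refine ⟨0, ?_⟩
      ring
  · intro n
    rw [AddMonoidHom.comp_apply, hE, hπ.ker]
    constructor
    · intro h
      have h1 := h i0
      rw [Finsupp.add_apply, Finsupp.smul_apply, Finsupp.sub_apply, Finsupp.single_eq_same,
        smul_eq_mul] at h1
      have h2 : (p : ℤ) ∣ n i0 * N i0 := by
        have : n i0 + n i0 * (N i0 - 1) = n i0 * N i0 := by ring
        rwa [this] at h1
      have h3 : (p : ℤ) ∣ n i0 := by
        rcases (Nat.prime_iff_prime_int.mp hp).dvd_or_dvd h2 with h | h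
        · exact h
        · exact absurd h hi0
      intro i
      have h4 := h i
      rw [Finsupp.add_apply, Finsupp.smul_apply, smul_eq_mul] at h4
      exact (dvd_add_left (h3.mul_right _)).mp h4
    · intro h i
      rw [Finsupp.add_apply, Finsupp.smul_apply, smul_eq_mul]
      exact dvd_add (h i) ((h i0).mul_right _)
  · rw [AddMonoidHom.comp_apply, hE, Finsupp.single_eq_same, one_smul, ← hN]
    congr 1
    change Finsupp.single i0 1 + (N - Finsupp.single i0 1) = N
    abel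

/-- lifting a map through presentations -/
theorem lift_pres {S S' : Type u} [AddCommGroup S] [AddCommGroup S'] {I I' : Type u}
    {π : (I →₀ ℤ) →+ S} {π' : (I' →₀ ℤ) →+ S'} (hπ : Pres (fun _ => p) π)
    (hπ' : Pres (fun _ => p) π') (τ : I' → I) (hτ : Function.Injective τ) :
    ∃ g : S' →+ S, Function.Injective g ∧ ∀ n, g (π' n) = π (Finsupp.mapDomain τ n) := by
  let P : (I' →₀ ℤ) →+ S := π.comp (Finsupp.mapDomain.addMonoidHom τ)
  have hPapp : ∀ n, P n = π (Finsupp.mapDomain τ n) := fun n => rfl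
  have hPker : ∀ n, P n = 0 ↔ π' n = 0 := by
    intro n
    constructor
    · intro hn
      exact hπ.map hπ' τ hτ (fun _ => dvd_rfl) n hn
    · intro hn
      rw [hPapp, hπ.ker]
      intro i
      by_cases hi : i ∈ Set.range τ
      · obtain ⟨j, rfl⟩ := hi
        rw [Finsupp.mapDomain_apply hτ]
        exact (hπ'.ker n).mp hn j
      · rw [Finsupp.mapDomain_of_notMem_range _ _ hi]
        exact dvd_zero _
  let g : S' →+ S :=
    AddMonoidHom.liftOfSurjective π' hπ'.surj ⟨P, fun n hn => (hPker n).mpr hn⟩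
  have hg : ∀ n, g (π' n) = P n := fun n =>
    AddMonoidHom.liftOfRightInverse_comp_apply π' _ _ _ n
  refine ⟨g, (injective_iff_map_eq_zero g).mpr ?_, hg⟩
  intro x hx
  obtain ⟨n, rfl⟩ := hπ'.surj x
  rw [hg] at hx
  exact (hPker n).mp hx

theorem socle_inj (hp : p.Prime) {S S' : Type u} [AddCommGroup S] [AddCommGroup S'] {I I' : Type u}
    [Finite I] [Finite I'] {π : (I →₀ ℤ) →+ S} {π' : (I' →₀ ℤ) →+ S'}
    (hπ : Pres (fun _ => p) π) (hπ' : Pres (fun _ => p) π') (hcard : Nat.card I' ≤ Nat.card I)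
    {s : S} {s' : S'} (hs : s = 0 ↔ s' = 0) :
    ∃ g : S' →+ S, Function.Injective g ∧ g s' = s := by
  classical
  have _ := Fintype.ofFinite I
  have _ := Fintype.ofFinite I'
  rw [Nat.card_eq_fintype_card, Nat.card_eq_fintype_card] at hcard
  obtain ⟨τ⟩ := Function.Embedding.nonempty_of_card_le hcard
  by_cases h0 : s' = 0
  · obtain ⟨g, hg, -⟩ := lift_pres hπ hπ' τ τ.injective
    exact ⟨g, hg, by rw [h0, map_zero]; exact (hs.mpr h0).symm⟩
  · have h1 : s ≠ 0 := fun h => h0 (hs.mp h)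
    obtain ⟨π2, i0, hπ2, hi0⟩ := exists_pres_pin hp hπ h1
    obtain ⟨π2', i0', hπ2', hi0'⟩ := exists_pres_pin hp hπ' h0
    obtain ⟨g, hg, hg2⟩ := lift_pres hπ2 hπ2' (fun i => Equiv.swap (τ i0') i0 (τ i))
      ((Equiv.injective _).comp τ.injective)
    refine ⟨g, hg, ?_⟩
    rw [← hi0', hg2, Finsupp.mapDomain_single, Equiv.swap_apply_left, hi0]

/-- `a` has order `p ^ k` -/
def Ord (p : ℕ) (a : G) (k : ℕ) : Prop := p ^ k • a = 0 ∧ ∀ c : ℤ, c • a = 0 → ((p ^ k : ℕ) : ℤ) ∣ c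

theorem exists_ord (hp : p.Prime) (hG : IsP p G) (a : G) : ∃ k, Ord p a k := by
  obtain ⟨n, hn⟩ := hG a
  obtain ⟨k, hk, hd⟩ := (Nat.dvd_prime_pow hp).mp (addOrderOf_dvd_of_nsmul_eq_zero hn)
  refine ⟨k, ?_, ?_⟩
  · rw [← hd, addOrderOf_nsmul_eq_zero]
  · intro c hc
    rw [← hd]
    exact addOrderOf_dvd_iff_zsmul_eq_zero.mpr hc

theorem inj_of_socle {A A' : Type u} [AddCommGroup A] [AddCommGroup A'] (hA' : IsP p A')
    (ι : A' →+ A) (h : ∀ x, p • x = 0 → ι x = 0 → x = 0) : Function.Injective ι := by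
  classical
  refine (injective_iff_map_eq_zero ι).mpr ?_
  intro x hx
  by_contra hne
  have hex := hA' x
  set k := Nat.find hex with hk
  have hk0 : p ^ k • x = 0 := Nat.find_spec hex
  have hkpos : k ≠ 0 := by
    intro h0
    rw [h0, pow_zero, one_smul] at hk0
    exact hne hk0
  have hk1 : p ^ (k - 1) • x ≠ 0 := Nat.find_min hex (by omega)
  apply hk1
  have h1 : p • p ^ (k - 1) • x = 0 := by
    rw [← mul_smul, ← pow_succ', Nat.sub_add_cancel (by omega), hk0]
  have h2 : ι (p ^ (k - 1) • x) = 0 := by rw [map_nsmul, hx, smul_zero]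
  exact h _ h1 h2

theorem psec_div (hp : p.Prime) {A A' : Type u} [AddCommGroup A] [AddCommGroup A']
    (hA' : IsP p A') (hA : IsDiv A) {r r' k k' : ℕ} {a : A} {a' : A'}
    (h' : HasRank p A' r') (h : HasRank p A r) (hr : r' ≤ r) (ha' : Ord p a' k')
    (ha : Ord p a k) (hk : k' ≤ k) : PSec A' A a' a := by
  classical
  obtain ⟨I', _, π', hπ', rfl⟩ := h'
  obtain ⟨I, _, π, hπ, rfl⟩ := h
  set a1 : A := p ^ (k - k') • a with ha1
  have ho1 : Ord p a1 k' := by
    constructor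
    · rw [ha1, ← mul_smul, ← pow_add, Nat.add_sub_cancel' hk]
      exact ha.1
    · intro c hc
      have h1 : (c * ((p ^ (k - k') : ℕ) : ℤ)) • a = 0 := by
        rw [mul_smul, natCast_zsmul]; exact hc
      have h2 := ha.2 _ h1
      have h3 : ((p ^ k : ℕ) : ℤ) = ((p ^ k' : ℕ) : ℤ) * ((p ^ (k - k') : ℕ) : ℤ) := by
        rw [← Nat.cast_mul, ← pow_add, Nat.add_sub_cancel' hk]
      rw [h3] at h2
      have h4 : ((p ^ (k - k') : ℕ) : ℤ) ≠ 0 := by
        exact_mod_cast (pow_pos hp.pos (k - k')).ne'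
      exact Int.dvd_of_mul_dvd_mul_right h4 h2
  -- socle elements
  have hsoc : ∀ {B : Type u} [AddCommGroup B] {b : B}, Ord p b k' → k' ≠ 0 →
      p • p ^ (k' - 1) • b = 0 := by
    intro B _ b hb hk0
    rw [← mul_smul, ← pow_succ', Nat.sub_add_cancel (by omega)]
    exact hb.1
  have hsoc' : ∀ {B : Type u} [AddCommGroup B] {b : B}, Ord p b k' → k' ≠ 0 →
      p ^ (k' - 1) • b ≠ 0 := by
    intro B _ b hb hk0 h0
    have h1 := hb.2 ((p ^ (k' - 1) : ℕ) : ℤ) (by rw [natCast_zsmul]; exact h0)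
    have h2 : p ^ k' ∣ p ^ (k' - 1) := by exact_mod_cast h1
    have h3 := (Nat.pow_dvd_pow_iff_le_right hp.one_lt).mp h2
    omega
  let S' := (nsmulAddMonoidHom p : A' →+ A').ker
  let S := (nsmulAddMonoidHom p : A →+ A).ker
  obtain ⟨lam, hlam, hlam1⟩ : ∃ lam : S' →+ S, Function.Injective lam ∧ ∀ (x : S') (c : ℤ),
      (x : A') + c • a' = 0 → (lam x : A) + c • a1 = 0 := by
    by_cases hk0 : k' = 0
    · subst hk0
      have e1 : a' = 0 := by have := ha'.1; rwa [pow_zero, one_smul] at this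
      have e2 : a1 = 0 := by have := ho1.1; rwa [pow_zero, one_smul] at this
      obtain ⟨g, hg, -⟩ := socle_inj hp hπ hπ' hr (s := 0) (s' := 0)
        ⟨fun _ => rfl, fun _ => rfl⟩
      refine ⟨g, hg, ?_⟩
      intro x c hx
      rw [e1, smul_zero, add_zero] at hx
      rw [e2, smul_zero, add_zero]
      have : x = 0 := Subtype.ext hx
      rw [this, map_zero]
      rfl
    · let s' : S' := ⟨p ^ (k' - 1) • a', hsoc ha' hk0⟩
      let s : S := ⟨p ^ (k' - 1) • a1, hsoc ho1 hk0⟩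
      obtain ⟨g, hg, hgs⟩ := socle_inj hp hπ hπ' hr (s := s) (s' := s')
        ⟨fun h => absurd (congrArg Subtype.val h) (hsoc' ho1 hk0),
          fun h => absurd (congrArg Subtype.val h) (hsoc' ha' hk0)⟩
      refine ⟨g, hg, ?_⟩
      intro x c hx
      have h1 : ((p : ℤ) * c) • a' = 0 := by
        have h2 : (x : A') = - (c • a') := eq_neg_of_add_eq_zero_left hx
        have h3 : p • (x : A') = 0 := x.2
        rw [h2, smul_neg, neg_eq_zero] at h3
        rw [mul_smul, natCast_zsmul]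
        exact h3
      have h2 := ha'.2 _ h1
      have h3 : ((p ^ k' : ℕ) : ℤ) = (p : ℤ) * ((p ^ (k' - 1) : ℕ) : ℤ) := by
        rw [← Nat.cast_mul, ← pow_succ', Nat.sub_add_cancel (by omega)]
      rw [h3] at h2
      obtain ⟨c1, hc1⟩ := Int.dvd_of_mul_dvd_mul_left (by exact_mod_cast hp.ne_zero) h2
      have h4 : x = - (c1 • s') := by
        apply Subtype.ext
        change (x : A') = - (c1 • p ^ (k' - 1) • a')
        rw [eq_neg_of_add_eq_zero_left hx, hc1, mul_comm, mul_smul, natCast_zsmul]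
      rw [h4, map_neg, map_zsmul, hgs]
      change - (c1 • p ^ (k' - 1) • a1) + c • a1 = 0
      rw [hc1, mul_comm, mul_smul, natCast_zsmul, neg_add_cancel]
  let q : S' × ℤ →+ A' := S'.subtype.coprod (zmultiplesHom A' a')
  let g0 : S' × ℤ →+ A := (S.subtype.comp lam).coprod (zmultiplesHom A a1)
  let g1 : q.range →+ A := AddMonoidHom.liftOfSurjective q.rangeRestrict
    q.rangeRestrict_surjective ⟨g0, by
      rintro ⟨x, c⟩ hx
      exact hlam1 x c (congrArg Subtype.val hx)⟩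
  have hg1 : ∀ n, g1 (q.rangeRestrict n) = g0 n := fun n =>
    AddMonoidHom.liftOfRightInverse_comp_apply q.rangeRestrict _ _ _ n
  obtain ⟨ι, hι⟩ := hA.extend q.range.subtype Subtype.val_injective g1
  have hι' : ∀ n, ι (q n) = g0 n := by
    intro n
    have h1 : ι (q n) = g1 (q.rangeRestrict n) :=
      congrArg (fun f : q.range →+ A => f (q.rangeRestrict n)) hι
    rw [h1, hg1]
  have hιa : ι a' = a1 := by
    have h1 := hι' (0, 1)
    have h2 : q (0, 1) = a' := by
      change (0 : A') + (1 : ℤ) • a' = a'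
      rw [one_smul, zero_add]
    have h3 : g0 (0, 1) = a1 := by
      change (lam 0 : A) + (1 : ℤ) • a1 = a1
      rw [map_zero, one_smul]
      exact zero_add _
    rwa [h2, h3] at h1
  have hinj : Function.Injective ι := by
    apply inj_of_socle hA'
    intro x hx h0
    have h1 := hι' (⟨x, hx⟩, 0)
    have h2 : q (⟨x, hx⟩, 0) = x := by
      change x + (0 : ℤ) • a' = x
      rw [zero_smul, add_zero]
    have h3 : g0 (⟨x, hx⟩, 0) = (lam ⟨x, hx⟩ : A) := by
      change (lam ⟨x, hx⟩ : A) + (0 : ℤ) • a1 = _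
      rw [zero_smul, add_zero]
    rw [h2, h0, h3] at h1
    have h4 : lam ⟨x, hx⟩ = lam 0 := by
      rw [map_zero]
      exact Subtype.ext h1.symm
    exact congrArg Subtype.val (hlam h4)
  let D : A' × A →+ A := ι.comp (AddMonoidHom.fst A' A) -
    (nsmulAddMonoidHom (p ^ (k - k'))).comp (AddMonoidHom.snd A' A)
  have hD : ∀ x y, D (x, y) = ι x - p ^ (k - k') • y := fun x y => rfl
  refine ⟨D.ker, inferInstance, (AddMonoidHom.snd A' A).comp D.ker.subtype,
    (AddMonoidHom.fst A' A).comp D.ker.subtype, ?_, ?_, ⟨(a', a), ?_⟩, rfl, rfl⟩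
  · intro x
    obtain ⟨y, hy⟩ := hA ((p ^ (k - k') : ℕ) : ℤ)
      (by exact_mod_cast (pow_pos hp.pos (k - k')).ne') (ι x)
    refine ⟨⟨(x, y), ?_⟩, rfl⟩
    change D (x, y) = 0
    rw [hD, ← hy, natCast_zsmul, sub_self]
  · rintro ⟨⟨x, y⟩, hxy⟩ hn
    have hy : y = 0 := hn
    have hxy' : D (x, y) = 0 := hxy
    rw [hD, hy, smul_zero, sub_zero] at hxy'
    exact hinj (hxy'.trans (map_zero ι).symm)
  · change D (a', a) = 0
    rw [hD, hιa, ha1, sub_self]

end

end Pool.Agent.helper45.Inc
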