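import Mathlib
import Pool.Agent.helper45.Inc.PSec

/-!
# Codes of pointed countable torsion abelian groups
-/

universe u v w

namespace Pool.Agent.helper45.Inc

/-! ### lists coding multisets of letters -/

section lists
variable {α : Type w} {I : Type v} (D : I → α)

/-- the list `l` codes the function `D` on `s` -/
def HLg : Set I → List (α × Bool) → Prop
  | s, [] => s = ∅
  | s, a :: l => ∃ t ⊆ s, (∀ i ∈ t, D i = a.1) ∧ (if a.2 = true then t.Infinite else ∃ i, t = {i}) ∧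
      HLg (s \ t) l

theorem exists_HLg : ∀ (k : ℕ) (s : Set I), (D '' s).Finite → (D '' s).ncard = k →
    ∃ l, HLg D s l := by
  intro k
  induction k with
  | zero =>
    intro s hs hk
    rw [Set.ncard_eq_zero hs, Set.image_eq_empty] at hk
    exact ⟨[], hk⟩
  | succ k ih =>
    have step : ∀ (v : α) (s : Set I), (D '' s).Finite → v ∈ D '' s → (D '' s).ncard = k + 1 →
        ∃ l, HLg D (s \ {i ∈ s | D i = v}) l := by
      intro v s hs hv hk
      have h1 : D '' (s \ {i ∈ s | D i = v}) = (D '' s) \ {v} := by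
        ext x
        constructor
        · rintro ⟨i, ⟨hi, hi2⟩, rfl⟩
          exact ⟨⟨i, hi, rfl⟩, fun h => hi2 ⟨hi, h⟩⟩
        · rintro ⟨⟨i, hi, rfl⟩, hx⟩
          exact ⟨i, ⟨hi, fun h => hx h.2⟩, rfl⟩
      apply ih
      · rw [h1]; exact hs.subset Set.sdiff_subset
      · rw [h1, Set.ncard_sdiff_singleton_of_mem hv, hk]; rfl
    have fin : ∀ (c : ℕ) (v : α) (s : Set I), {i ∈ s | D i = v}.Finite →
        {i ∈ s | D i = v}.ncard = c → (∃ l, HLg D (s \ {i ∈ s | D i = v}) l) →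
        ∃ l, HLg D s l := by
      intro c
      induction c with
      | zero =>
        intro v s hfin hc hl
        rwa [(Set.ncard_eq_zero hfin).mp hc, Set.sdiff_empty] at hl
      | succ c ihc =>
        intro v s hfin hc hl
        obtain ⟨i, hi⟩ : {i ∈ s | D i = v}.Nonempty := by
          rw [Set.nonempty_iff_ne_empty]
          intro h0
          rw [h0, Set.ncard_empty] at hc
          omega
        have h1 : {j ∈ s \ {i} | D j = v} = {i ∈ s | D i = v} \ {i} := by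
          ext j
          simp only [Set.mem_sdiff, Set.mem_singleton_iff, Set.mem_ofPred_eq]
          tauto
        have h2 : (s \ {i}) \ {j ∈ s \ {i} | D j = v} = s \ {i ∈ s | D i = v} := by
          ext j
          simp only [Set.mem_sdiff, Set.mem_singleton_iff, Set.mem_ofPred_eq]
          constructor
          · rintro ⟨⟨h3, h4⟩, h5⟩
            exact ⟨h3, fun h => h5 ⟨⟨h3, h4⟩, h.2⟩⟩
          · rintro ⟨h3, h4⟩
            refine ⟨⟨h3, ?_⟩, fun h => h4 ⟨h3, h.2⟩⟩
            rintro rfl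
            exact h4 hi
        obtain ⟨l, hl'⟩ := ihc v (s \ {i}) (by
            rw [h1]; exact hfin.subset Set.sdiff_subset) (by
            rw [h1, Set.ncard_sdiff_singleton_of_mem hi, hc]; rfl) (by rw [h2]; exact hl)
        refine ⟨(v, false) :: l, {i}, ?_, ?_, ?_, hl'⟩
        · rintro j rfl
          exact hi.1
        · rintro j rfl
          exact hi.2
        · exact ⟨i, rfl⟩
    intro s hs hk
    obtain ⟨v, hv⟩ : (D '' s).Nonempty := by
      rw [Set.nonempty_iff_ne_empty]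
      intro h0
      rw [h0, Set.ncard_empty] at hk
      omega
    obtain ⟨l, hl⟩ := step v s hs hv hk
    by_cases hfin : {i ∈ s | D i = v}.Finite
    · exact fin _ v s hfin rfl ⟨l, hl⟩
    · exact ⟨(v, true) :: l, {i ∈ s | D i = v}, fun i hi => hi.1, fun i hi => hi.2, hfin, hl⟩

end lists

section order
variable {α : Type w} (r : α → α → Prop)

/-- the order of the letters -/
def rg (a b : α × Bool) : Prop := r a.1 b.1 ∧ a.2 = b.2

instance [IsPreorder α r] : IsPreorder (α × Bool) (rg r) where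
  refl _ := ⟨refl_of r _, rfl⟩
  trans _ _ _ h h' := ⟨trans_of r h.1 h'.1, h.2.trans h'.2⟩

theorem wqo_rg [IsPreorder α r] (h : WellQuasiOrdered r) : WellQuasiOrdered (rg r) := by
  have h2 : WellQuasiOrdered (fun a b : Bool => a = b) := Finite.wellQuasiOrdered _
  exact h.prod h2

/-- the order of the lists -/
abbrev rlg : List (α × Bool) → List (α × Bool) → Prop := List.SublistForall₂ (rg r)

theorem wqo_rlg [IsPreorder α r] (h : WellQuasiOrdered r) : WellQuasiOrdered (rlg r) := by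
  have h1 : (Set.univ : Set (α × Bool)).PartiallyWellOrderedOn (rg r) := by
    intro f
    exact wqo_rg r h fun n => (f n).1
  have h2 := Set.PartiallyWellOrderedOn.partiallyWellOrderedOn_sublistForall₂ (rg r) h1
  intro f
  exact h2 (fun n => ⟨f n, fun x _ => Set.mem_univ x⟩)

variable {r}

theorem embed_HLg {I : Type v} {J : Type v} [Countable I] {D : I → α} {D' : J → α}
    {l l' : List (α × Bool)} (h : rlg r l l') : ∀ {s : Set I} {s' : Set J}, HLg D s l →
    HLg D' s' l' → ∃ σ : s → J, Function.Injective σ ∧ ∀ i : s, σ i ∈ s' ∧ r (D i) (D' (σ i)) := by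
  classical
  induction h with
  | nil =>
    intro s s' hs hs'
    have hs0 : s = ∅ := hs
    subst hs0
    exact ⟨fun i => (Set.notMem_empty _ i.2).elim, fun i => (Set.notMem_empty _ i.2).elim,
      fun i => (Set.notMem_empty _ i.2).elim⟩
  | @cons a a' l l' hr _ ih =>
    intro s s' hs hs'
    obtain ⟨t, hts, hte, htb, htl⟩ := hs
    obtain ⟨t', hts', hte', htb', htl'⟩ := hs'
    obtain ⟨σ, hσ, hσ'⟩ := ih htl htl'
    have hτ : ∃ τ : t → J, Function.Injective τ ∧ ∀ i : t, τ i ∈ t' := by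
      by_cases hb : a.2 = true
      · rw [if_pos hb] at htb
        rw [if_pos (hr.2 ▸ hb)] at htb'
        have h1 : Infinite t' := htb'.to_subtype
        obtain ⟨g, hg⟩ := exists_injective_nat t
        refine ⟨fun i => (Infinite.natEmbedding t' (g i)).1, ?_, fun i => Subtype.mem _⟩
        intro i j hij
        exact hg ((Infinite.natEmbedding t').injective (Subtype.ext hij))
      · rw [if_neg hb] at htb
        rw [if_neg (hr.2 ▸ hb)] at htb'
        obtain ⟨i, rfl⟩ := htb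
        obtain ⟨j, rfl⟩ := htb'
        refine ⟨fun _ => j, ?_, fun _ => rfl⟩
        rintro ⟨x, rfl⟩ ⟨y, rfl⟩ _
        rfl
    obtain ⟨τ, hτ, hτ'⟩ := hτ
    refine ⟨fun i => if h : (i : I) ∈ t then τ ⟨i, h⟩ else σ ⟨i, i.2, h⟩, ?_, ?_⟩
    · intro i j hij
      dsimp only at hij
      by_cases hi : (i : I) ∈ t
      · rw [dif_pos hi] at hij
        by_cases hj : (j : I) ∈ t
        · rw [dif_pos hj] at hij
          have := hτ hij
          exact Subtype.ext (congrArg (fun x : t => (x : I)) this)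
        · rw [dif_neg hj] at hij
          exact absurd (hij ▸ hτ' ⟨i, hi⟩) (hσ' ⟨j, j.2, hj⟩).1.2
      · rw [dif_neg hi] at hij
        by_cases hj : (j : I) ∈ t
        · rw [dif_pos hj] at hij
          exact absurd (hij ▸ hτ' ⟨j, hj⟩) (hσ' ⟨i, i.2, hi⟩).1.2
        · rw [dif_neg hj] at hij
          have := hσ hij
          exact Subtype.ext (congrArg (fun x : (s \ t : Set I) => (x : I)) this)
    · intro i
      dsimp only
      by_cases hi : (i : I) ∈ t
      · rw [dif_pos hi]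
        exact ⟨hts' (hτ' ⟨i, hi⟩), by rw [hte i hi, hte' _ (hτ' ⟨i, hi⟩)]; exact hr.1⟩
      · rw [dif_neg hi]
        have := hσ' ⟨i, i.2, hi⟩
        exact ⟨this.1.1, this.2⟩
  | cons_right _ ih =>
    intro s s' hs hs'
    obtain ⟨t', hts', hte', htb', htl'⟩ := hs'
    obtain ⟨σ, hσ, hσ'⟩ := ih hs htl'
    exact ⟨σ, hσ, fun i => ⟨(hσ' i).1.1, (hσ' i).2⟩⟩

end order

/-! ### pointed groups of bounded exponent -/

/-- letters: `(e, 0, false)` for a cyclic group of order `p ^ e`, and `(h, c, true)` for a cyclic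
group of order `p ^ (h + c)` with the marked element `p ^ h` -/
abbrev Let : Type := ℕ × ℕ × Bool

/-- the order of the letters -/
def r1 (a b : Let) : Prop := a.1 ≤ b.1 ∧ a.2.1 ≤ b.2.1 ∧ a.2.2 = b.2.2

instance : IsPreorder Let r1 where
  refl _ := ⟨le_rfl, le_rfl, rfl⟩
  trans _ _ _ h h' := ⟨h.1.trans h'.1, h.2.1.trans h'.2.1, h.2.2.trans h'.2.2⟩

theorem wqo_r1 : WellQuasiOrdered r1 := by
  have h1 : WellQuasiOrdered (fun a b : ℕ => a ≤ b) := wellQuasiOrdered_le
  have h2 : WellQuasiOrdered (fun a b : Bool => a = b) := Finite.wellQuasiOrdered _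
  exact h1.prod (h1.prod h2)

/-- the letter of a component -/
def letter (p : ℕ) {I : Type u} (e : I → ℕ) (N : I → ℤ) (i : I) : Let :=
  if N i = 0 then (e i, 0, false) else (padicValInt p (N i), e i - padicValInt p (N i), true)

theorem int_form {p : ℕ} (hp : p.Prime) {n : ℤ} (hn : n ≠ 0) :
    ∃ u : ℤ, n = ((p ^ padicValInt p n : ℕ) : ℤ) * u ∧ ¬ (p : ℤ) ∣ u := by
  have : Fact p.Prime := ⟨hp⟩
  have h1 : ((p : ℤ) ^ padicValInt p n) ∣ n := padicValInt_dvd n
  obtain ⟨u, hu⟩ := h1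
  refine ⟨u, by rw [Nat.cast_pow]; exact hu, ?_⟩
  rintro ⟨w, hw⟩
  have h2 : ((p : ℤ) ^ (padicValInt p n + 1)) ∣ n := ⟨w, by rw [pow_succ, mul_assoc, ← hw]; exact hu⟩
  rw [padicValInt_dvd_iff] at h2
  rcases h2 with h2 | h2
  · exact hn h2
  · omega

theorem weight {p : ℕ} (hp : p.Prime) {I J : Type u} {e : I → ℕ} {e' : J → ℕ} {N : I → ℤ}
    {N' : J → ℤ} (hN : ∀ i, N i = 0 ∨ ¬ ((p ^ e i : ℕ) : ℤ) ∣ N i)
    (hN' : ∀ i, N' i = 0 ∨ ¬ ((p ^ e' i : ℕ) : ℤ) ∣ N' i) {i : I} {j : J}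
    (h : r1 (letter p e N i) (letter p e' N' j)) :
    ∃ w : ℤ, ((p ^ e' j : ℕ) : ℤ) ∣ N i * w - N' j ∧
      ∀ n : ℤ, ((p ^ e' j : ℕ) : ℤ) ∣ n * w → ((p ^ e i : ℕ) : ℤ) ∣ n := by
  have : Fact p.Prime := ⟨hp⟩
  unfold letter at h
  by_cases hi : N i = 0
  · rw [if_pos hi] at h
    by_cases hj : N' j = 0
    · rw [if_pos hj] at h
      refine ⟨1, by rw [hi, hj, zero_mul, sub_zero]; exact dvd_zero _, ?_⟩
      intro n hn
      rw [mul_one] at hn
      exact (Int.natCast_dvd_natCast.mpr (pow_dvd_pow p h.1)).trans hn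
    · rw [if_neg hj] at h
      exact absurd h.2.2 (by simp)
  · rw [if_neg hi] at h
    by_cases hj : N' j = 0
    · rw [if_pos hj] at h
      exact absurd h.2.2 (by simp)
    · rw [if_neg hj] at h
      obtain ⟨hle, hle2, -⟩ := h
      dsimp only at hle hle2
      obtain ⟨u, hu, hpu⟩ := int_form hp hi
      obtain ⟨u', hu', hpu'⟩ := int_form hp hj
      set a := padicValInt p (N i) with ha
      set a' := padicValInt p (N' j) with ha'
      have hae : a < e i := by
        by_contra hlt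
        exact (hN i).resolve_left hi (by
          rw [hu]
          exact (Int.natCast_dvd_natCast.mpr (pow_dvd_pow p (not_lt.mp hlt))).mul_right u)
      have hae' : a' < e' j := by
        by_contra hlt
        exact (hN' j).resolve_left hj (by
          rw [hu']
          exact (Int.natCast_dvd_natCast.mpr (pow_dvd_pow p (not_lt.mp hlt))).mul_right u')
      have cop : ∀ (z : ℤ) (k : ℕ), ¬ (p : ℤ) ∣ z → IsCoprime z ((p ^ k : ℕ) : ℤ) := by
        intro z k hz
        rw [Nat.cast_pow]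
        apply IsCoprime.pow_right
        rw [Int.isCoprime_iff_gcd_eq_one, Int.gcd_comm]
        have h1 : Nat.Coprime p z.natAbs := by
          rw [hp.coprime_iff_not_dvd]
          intro h
          exact hz (Int.natCast_dvd.mpr h)
        exact h1
      obtain ⟨v, w0, hvw⟩ := cop u (e' j) hpu
      have hpv : IsCoprime v ((p ^ e' j : ℕ) : ℤ) := ⟨u, w0, by rw [mul_comm u]; exact hvw⟩
      refine ⟨((p ^ (a' - a) : ℕ) : ℤ) * (u' * v), ?_, ?_⟩
      · refine ⟨- (((p ^ a' : ℕ) : ℤ) * u' * w0), ?_⟩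
        have h1 : ((p ^ a : ℕ) : ℤ) * ((p ^ (a' - a) : ℕ) : ℤ) = ((p ^ a' : ℕ) : ℤ) := by
          rw [← Nat.cast_mul, ← pow_add, Nat.add_sub_cancel' hle]
        have h2 : v * u = 1 - w0 * ((p ^ e' j : ℕ) : ℤ) := by rw [← hvw]; ring
        calc N i * (((p ^ (a' - a) : ℕ) : ℤ) * (u' * v)) - N' j
            = (((p ^ a : ℕ) : ℤ) * ((p ^ (a' - a) : ℕ) : ℤ)) * u' * (v * u) -
              ((p ^ a' : ℕ) : ℤ) * u' := by
                rw [hu, hu']; ring
          _ = _ := by rw [h1, h2]; ring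
      · intro n hn
        have h1 : ((p ^ e' j : ℕ) : ℤ) ∣ n * ((p ^ (a' - a) : ℕ) : ℤ) := by
          have h2 : IsCoprime ((p ^ e' j : ℕ) : ℤ) (u' * v) :=
            ((cop u' (e' j) hpu').mul_left hpv).symm
          apply h2.dvd_of_dvd_mul_right
          rw [mul_assoc]
          exact hn
        have h3 : ((p ^ e' j : ℕ) : ℤ) =
            ((p ^ (e' j - (a' - a)) : ℕ) : ℤ) * ((p ^ (a' - a) : ℕ) : ℤ) := by
          rw [← Nat.cast_mul, ← pow_add, Nat.sub_add_cancel (by omega)]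
        rw [h3] at h1
        have h4 : ((p ^ (a' - a) : ℕ) : ℤ) ≠ 0 := by
          exact_mod_cast (pow_pos hp.pos (a' - a)).ne'
        have h5 := Int.dvd_of_mul_dvd_mul_right h4 h1
        exact (Int.natCast_dvd_natCast.mpr (pow_dvd_pow p (by omega))).trans h5

section
variable {p : ℕ} {G : Type u} [AddCommGroup G]

theorem psec_pres (hp : p.Prime) {B B' : Type u} [AddCommGroup B] [AddCommGroup B'] {I I' : Type u}
    [Countable I'] {e : I → ℕ} {e' : I' → ℕ} {π : (I →₀ ℤ) →+ B} {π' : (I' →₀ ℤ) →+ B'}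
    {N : I →₀ ℤ} {N' : I' →₀ ℤ}
    (h : Pres (fun i => p ^ e i) π) (h' : Pres (fun i => p ^ e' i) π')
    (hN : ∀ i, N i = 0 ∨ ¬ ((p ^ e i : ℕ) : ℤ) ∣ N i)
    (hN' : ∀ i, N' i = 0 ∨ ¬ ((p ^ e' i : ℕ) : ℤ) ∣ N' i) {l l' : List (Let × Bool)}
    (hl : HLg (letter p e N) Set.univ l) (hl' : HLg (letter p e' N') Set.univ l')
    (hr : rlg r1 l' l) : PSec B' B (π' N') (π N) := by
  classical
  obtain ⟨σ0, hσ0, hσ1⟩ := embed_HLg hr hl' hl
  let σ : I' → I := fun i => σ0 ⟨i, Set.mem_univ i⟩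
  have hσ : Function.Injective σ := by
    intro i j hij
    exact congrArg Subtype.val (hσ0 hij)
  choose wt hw1 hw2 using fun i : I' => weight hp hN' hN (hσ1 ⟨i, Set.mem_univ i⟩).2
  let W : (I' →₀ ℤ) →+ (I →₀ ℤ) :=
    (Finsupp.linearCombination ℤ (fun i => Finsupp.single (σ i) (wt i))).toAddMonoidHom
  have hW : ∀ n, W n = n.sum fun i k => k • Finsupp.single (σ i) (wt i) := fun n =>
    Finsupp.linearCombination_apply _ _
  have hWσ : ∀ n i, W n (σ i) = n i * wt i := by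
    intro n i
    rw [hW, Finsupp.sum_apply, Finsupp.sum]
    rw [Finset.sum_eq_single i]
    · rw [Finsupp.smul_apply, Finsupp.single_eq_same, smul_eq_mul]
    · intro j _ hj
      rw [Finsupp.smul_apply, Finsupp.single_eq_of_ne (fun h => hj (hσ h).symm), smul_zero]
    · intro hi
      rw [Finsupp.notMem_support_iff.mp hi, zero_smul]
      rfl
  have hWoff : ∀ n j, j ∉ Set.range σ → W n j = 0 := by
    intro n j hj
    rw [hW, Finsupp.sum_apply, Finsupp.sum]
    apply Finset.sum_eq_zero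
    intro i _
    rw [Finsupp.smul_apply, Finsupp.single_eq_of_ne (fun h => hj ⟨i, h.symm⟩), smul_zero]
  let Z : AddSubgroup (I →₀ ℤ) :=
    { carrier := {m | ∀ i, m (σ i) = 0}
      zero_mem' := fun i => rfl
      add_mem' := fun {a b} ha hb i => by rw [Finsupp.add_apply, ha i, hb i, add_zero]
      neg_mem' := fun {a} ha i => by rw [Finsupp.neg_apply, ha i, neg_zero] }
  refine ⟨(I' →₀ ℤ) × Z, inferInstance, π.comp (W.coprod Z.subtype),
    π'.comp (AddMonoidHom.fst _ _), ?_, ?_, (N', ⟨N.filter (fun j => j ∉ Set.range σ), ?_⟩), ?_,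
    rfl⟩
  · intro x
    obtain ⟨n, hn⟩ := h'.surj x
    exact ⟨(n, 0), hn⟩
  · rintro ⟨n, m, hm⟩ hn
    have hn' : π (W n + m) = 0 := hn
    change π' n = 0
    rw [h'.ker]
    intro i
    have h1 := (h.ker _).mp hn' (σ i)
    rw [Finsupp.add_apply, hWσ, hm i, add_zero] at h1
    exact hw2 i _ h1
  · intro i
    exact Finsupp.filter_apply_neg _ _ (fun h => h ⟨i, rfl⟩)
  · change π (W N' + N.filter (fun j => j ∉ Set.range σ)) = π N
    rw [← sub_eq_zero, ← map_sub, h.ker]
    intro j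
    rw [Finsupp.sub_apply, Finsupp.add_apply]
    by_cases hj : j ∈ Set.range σ
    · obtain ⟨i, rfl⟩ := hj
      rw [hWσ, Finsupp.filter_apply_neg _ _ (fun h => h ⟨i, rfl⟩), add_zero]
      exact hw1 i
    · have h1 := Finsupp.filter_apply_pos (fun j => j ∉ Set.range σ) N hj
      rw [hWoff _ _ hj, h1, zero_add, sub_self]
      exact dvd_zero _

/-- codes of pointed `p`-groups -/
abbrev PPC : Type := Bool × ℕ × ℕ × List (Let × Bool)

/-- `c` is a code of the pointed `p`-group `(G, g)` -/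
def HasPCode (p : ℕ) (G : Type u) [AddCommGroup G] (g : G) (c : PPC) : Prop :=
  (c.1 = true ∧ Ord p g c.2.1 ∧ ∀ n, (soc p n G).Infinite) ∨ (c.1 = false ∧
    ∃ A B : AddSubgroup G, IsDiv A ∧
    (∀ x : G, ∃ a ∈ A, ∃ b ∈ B, a + b = x) ∧ (∀ a ∈ A, ∀ b ∈ B, a + b = 0 → a = 0) ∧
    HasRank p A c.2.2.1 ∧ ∃ (a : A) (b : B), (a : G) + b = g ∧ Ord p a c.2.1 ∧
    ∃ (I : Type u) (_ : Countable I) (e : I → ℕ) (π : (I →₀ ℤ) →+ B) (N : I →₀ ℤ),
      Pres (fun i => p ^ e i) π ∧ π N = b ∧ (∀ i, N i = 0 ∨ ¬ ((p ^ e i : ℕ) : ℤ) ∣ N i) ∧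
      HLg (letter p e N) Set.univ c.2.2.2)

/-- the order of the codes -/
def rpc (c c' : PPC) : Prop :=
  c.1 = c'.1 ∧ c.2.1 ≤ c'.2.1 ∧ c.2.2.1 ≤ c'.2.2.1 ∧ rlg r1 c.2.2.2 c'.2.2.2

instance : IsPreorder PPC rpc where
  refl _ := ⟨rfl, le_rfl, le_rfl, refl_of (rlg r1) _⟩
  trans _ _ _ h h' := ⟨h.1.trans h'.1, h.2.1.trans h'.2.1, h.2.2.1.trans h'.2.2.1,
    trans_of (rlg r1) h.2.2.2 h'.2.2.2⟩

theorem wqo_rpc : WellQuasiOrdered rpc := by
  have h1 : WellQuasiOrdered (fun a b : ℕ => a ≤ b) := wellQuasiOrdered_le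
  have h2 : WellQuasiOrdered (fun a b : Bool => a = b) := Finite.wellQuasiOrdered _
  exact h2.prod (h1.prod (h1.prod (wqo_rlg r1 wqo_r1)))

theorem exists_hasPCode (hp : p.Prime) (hG : IsP p G) [Countable G] (g : G) :
    ∃ c, HasPCode p G g c := by
  classical
  by_cases hinf : ∀ n, (soc p n G).Infinite
  · obtain ⟨k, hk⟩ := exists_ord hp hG g
    exact ⟨(true, k, 0, []), Or.inl ⟨rfl, hk, hinf⟩⟩
  push Not at hinf
  obtain ⟨m, hfin, hst⟩ := exists_stable hinf
  obtain ⟨A, B, hA, hB, hsp, hind, hsoc⟩ := split_p hp hG hst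
  obtain ⟨r, hr⟩ := exists_rank hp A (by
    refine Set.Finite.of_injOn (f := fun a : A => (a : G)) (t := soc p m G) ?_
      Subtype.val_injective.injOn hfin
    intro a ha
    exact hsoc a ha)
  obtain ⟨a, ha, b, hb, hab⟩ := hsp g
  have hAP : IsP p A := by
    intro a
    obtain ⟨k, hk⟩ := hG (a : G)
    exact ⟨k, Subtype.ext hk⟩
  obtain ⟨k, hk⟩ := exists_ord hp hAP ⟨a, ha⟩
  obtain ⟨I, d, π, hπ, hd, hd1⟩ := exists_pres (p ^ m) (pow_pos hp.pos m) B
    (fun x => Subtype.ext (hB x x.2))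
  have hI : Countable I := (hπ.inj_single hd1).countable
  choose e he hde using fun i => (Nat.dvd_prime_pow hp).mp (hd i)
  have hde' : d = fun i => p ^ e i := funext hde
  subst hde'
  obtain ⟨N0, hN0⟩ := hπ.surj ⟨b, hb⟩
  let N : I →₀ ℤ := N0.filter fun i => ¬ ((p ^ e i : ℕ) : ℤ) ∣ N0 i
  have hN : π N = ⟨b, hb⟩ := by
    rw [← hN0, ← sub_eq_zero, ← map_sub, hπ.ker]
    intro i
    rw [Finsupp.sub_apply]
    by_cases hi : ((p ^ e i : ℕ) : ℤ) ∣ N0 i
    · rw [Finsupp.filter_apply_neg _ _ (fun h => h hi), zero_sub]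
      exact (dvd_neg).mpr hi
    · have h1 := Finsupp.filter_apply_pos (fun i => ¬ ((p ^ e i : ℕ) : ℤ) ∣ N0 i) N0 hi
      rw [show N i = N0 i from h1, sub_self]
      exact dvd_zero _
  have hNn : ∀ i, N i = 0 ∨ ¬ ((p ^ e i : ℕ) : ℤ) ∣ N i := by
    intro i
    by_cases hi : ((p ^ e i : ℕ) : ℤ) ∣ N0 i
    · left
      exact Finsupp.filter_apply_neg _ _ (fun h => h hi)
    · right
      rw [show N i = N0 i from Finsupp.filter_apply_pos _ _ hi]
      exact hi
  have hDfin : (letter p e N '' Set.univ).Finite := by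
    have h1 : (letter p e N '' Set.univ) ⊆
        ((Set.Iic m) ×ˢ ((Set.Iic m) ×ˢ (Set.univ : Set Bool))) := by
      rintro _ ⟨i, -, rfl⟩
      unfold letter
      by_cases hi : N i = 0
      · rw [if_pos hi]
        exact ⟨he i, Nat.zero_le m, trivial⟩
      · rw [if_neg hi]
        have : Fact p.Prime := ⟨hp⟩
        have h2 : padicValInt p (N i) < e i := by
          by_contra hlt
          apply (hNn i).resolve_left hi
          rw [Nat.cast_pow, padicValInt_dvd_iff]
          exact Or.inr (not_lt.mp hlt)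
        refine ⟨?_, ?_, trivial⟩
        · exact h2.le.trans (he i)
        · exact (Nat.sub_le _ _).trans (he i)
    exact ((Set.finite_Iic m).prod ((Set.finite_Iic m).prod Set.finite_univ)).subset h1
  obtain ⟨l, hl⟩ := exists_HLg (letter p e N) _ Set.univ hDfin rfl
  exact ⟨(false, k, r, l), Or.inr ⟨rfl, A, B, hA, hsp, hind, hr, ⟨a, ha⟩, ⟨b, hb⟩, hab, hk,
    I, hI, e, π, N, hπ, hN, hNn, hl⟩⟩

theorem psec_of_code (hp : p.Prime) {K : Type u} [AddCommGroup K] [Countable K] (hK : IsP p K)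
    (hG : IsP p G) {κ : K} {g : G} {c c' : PPC} (h : HasPCode p K κ c) (h' : HasPCode p G g c')
    (hr : rpc c c') : PSec K G κ g := by
  rcases h' with ⟨h1', ho', hinf⟩ | ⟨h1', A', B', hA', hsp', hind', hr', a', b', hab', ho', I', _,
    e', π', N', hπ', hN', hNn', hl'⟩
  · rcases h with ⟨-, ho, -⟩ | ⟨h1, -⟩
    · apply psec_univ hp hK hinf hG
      intro k hk
      have h2 := ho'.2 k hk
      have h3 : ((p ^ c.2.1 : ℕ) : ℤ) ∣ k :=
        (Int.natCast_dvd_natCast.mpr (pow_dvd_pow p hr.2.1)).trans h2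
      obtain ⟨w, rfl⟩ := h3
      rw [mul_comm, mul_smul, natCast_zsmul, ho.1, smul_zero]
    · rw [hr.1, h1'] at h1
      exact absurd h1 (by simp)
  rcases h with ⟨h1, -⟩ | ⟨h1, A, B, hA, hsp, hind, hrk, a, b, hab, ho, I, _, e, π, N, hπ, hN,
    hNn, hl⟩
  · rw [hr.1, h1'] at h1
    exact absurd h1 (by simp)
  rw [← hab, ← hab']
  apply PSec.add
  · exact psec_div hp (fun a => by
      obtain ⟨k, hk⟩ := hK (a : K)
      exact ⟨k, Subtype.ext hk⟩) hA' hrk hr' hr.2.2.1 ho ho' hr.2.1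
  · rw [← hN, ← hN']
    exact psec_pres hp hπ' hπ hNn' hNn hl' hl hr.2.2.2
  · exact hsp
  · exact hind'

end

section
variable {π : Finset ℕ} (hπ : ∀ q ∈ π, q.Prime) {G : Type u} [AddCommGroup G]

/-- codes of pointed torsion groups -/
def HasPCodes (π : Finset ℕ) (G : Type u) [AddCommGroup G] (g : G) (c : π → PPC) : Prop :=
  ∃ x : ∀ k : π, pcomp (k : ℕ) G, ∑ k, (x k : G) = g ∧
    ∀ k : π, HasPCode (k : ℕ) (pcomp (k : ℕ) G) (x k) (c k)

/-- the order of the codes -/
def rpcs (π : Finset ℕ) (c c' : π → PPC) : Prop := ∀ k, rpc (c k) (c' k)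

theorem rpcs_refl (c : π → PPC) : rpcs π c c := fun _ => refl_of rpc _

theorem rpcs_trans {a b c : π → PPC} (h : rpcs π a b) (h' : rpcs π b c) : rpcs π a c :=
  fun k => trans_of rpc (h k) (h' k)

theorem wqo_rpcs : WellQuasiOrdered (rpcs π) := WellQuasiOrdered.pi fun _ => wqo_rpc

include hπ in
theorem exists_hasPCodes [Countable G] (hG : IsPi π G) (g : G) : ∃ c, HasPCodes π G g c := by
  obtain ⟨x, hx⟩ := pi_span hπ hG g
  choose c hc using fun k : π => exists_hasPCode (hπ k k.2) (isP_pcomp (k : ℕ) G) (x k)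
  exact ⟨c, x, hx, hc⟩

include hπ in
theorem psec_of_codes {K : Type u} [AddCommGroup K] [Countable K] (hK : IsPi π K) {κ : K} {g : G}
    {c c' : π → PPC} (h : HasPCodes π K κ c) (h' : HasPCodes π G g c') (hr : rpcs π c c') :
    PSec K G κ g := by
  obtain ⟨x, rfl, hx⟩ := h
  obtain ⟨x', rfl, hx'⟩ := h'
  apply PSec.pi
  · intro k
    exact psec_of_code (hπ k k.2) (isP_pcomp (k : ℕ) K) (isP_pcomp (k : ℕ) G) (hx k) (hx' k) (hr k)
  · exact pi_span hπ hK
  · exact pi_indep hπ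

end

end Pool.Agent.helper45.Inc
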