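import Mathlib
import Pool.Agent.helper45.Inc.PFrame
import Pool.Agent.helper45.Inc.PTor
import Pool.Agent.helper45.Inc.Grp

/-!
# Countably many inclusive subvarieties: the case of one marked element
-/

universe u v

open Pool.Agent.helper9.Incl

namespace Pool.Agent.helper45.Inc

/-- the products form a rectangular group with abelian torsion subgroups, with primes in `π`, and
elements act on the left like products -/
structure RL (π : Finset ℕ) (S : Type u) [Semigroup S] : Prop extends RU S where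
  comm : ∀ e x y : S, e * e = e → e * x * e * (e * y * e) = e * y * e * (e * x * e)
  prm : ∀ q : ℕ, q.Prime → ∀ a : S, pw a q = a → a * a ≠ a → q ∈ π
  li : LI S

section
variable {π : Finset ℕ} {S : Type u} [Semigroup S]

theorem RL.of_inj (R : RL π S) {T : Type u} [Semigroup T] (i : T →ₙ* S)
    (hi : Function.Injective i) : RL π T := by
  refine ⟨R.toRU.of_inj i hi, ?_, ?_, R.li.of_inj i hi⟩
  · intro e x y he
    apply hi
    simp only [map_mul]
    exact R.comm _ _ _ (by rw [← map_mul, he])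
  · intro q hq a ha haa
    apply R.prm q hq (i a)
    · rw [← pw_map, ha]
    · intro h
      apply haa
      apply hi
      rw [map_mul, h]

/-- the local group -/
@[instance_reducible]
noncomputable def locC (R : RL π S) {f : S} (hf : f * f = f) : CommGroup (Loc f) :=
  { locGroup R.toRU.hyp hf with
    mul_comm := fun x y => Subtype.ext (by
      have h1 : f * x.1 * f = x.1 := by rw [x.2.1, x.2.2]
      have h2 : f * y.1 * f = y.1 := by rw [y.2.1, y.2.2]
      have h3 := R.comm f x.1 y.1 hf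
      rw [h1, h2] at h3
      exact h3) }

theorem pw_loc (R : RL π S) {f : S} (hf : f * f = f) (x : Loc f) (n : ℕ) :
    let _ := locC R hf
    (pw x n).1 = pw x.1 n := by
  intro iC
  induction n with
  | zero => rfl
  | succ n ih =>
    change (pw x n).1 * x.1 = pw x.1 n * x.1
    rw [ih]

theorem isPi_loc (R : RL π S) {f : S} (hf : f * f = f) :
    let _ := locC R hf
    IsPi π (Additive (Loc f)) := by
  let iC := locC R hf
  have hmul : ∀ (x : Loc f) (n : ℕ), (pw x n).1 = pw x.1 n := pw_loc R hf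
  apply isPi_of (S := Loc f)
  · intro a
    obtain ⟨n, hn⟩ := R.toRU.reg (p := a.1) ⟨f, a.1, a.2.1.symm⟩
    refine ⟨n, Subtype.ext ?_⟩
    rw [hmul]
    exact hn
  · intro q hq a ha haa
    apply R.prm q hq a.1
    · rw [← hmul, ha]
    · intro h
      exact haa (Subtype.ext h)

theorem psec_lift {A A' : Type u} [CommGroup A] [CommGroup A'] {a : A} {a' : A'}
    (h : PSec (Additive A) (Additive A') (Additive.ofMul a) (Additive.ofMul a'))
    (Y : Word →ₙ* A) (pin : ℕ → Prop) (hY : ∀ y, pin y → Y (FreeSemigroup.of y) = a) :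
    ∃ X : Word →ₙ* A', (∀ y, pin y → X (FreeSemigroup.of y) = a') ∧
      ∀ w w', X w = X w' → Y w = Y w' := by
  classical
  obtain ⟨F, _, P, Q, hQ, hker, f0, hf0, hf0'⟩ := h
  have hn : ∀ y : ℕ, ∃ n, Q n = Additive.ofMul (Y (FreeSemigroup.of y)) ∧ (pin y → n = f0) := by
    intro y
    by_cases hy : pin y
    · exact ⟨f0, by rw [hf0', hY y hy], fun _ => rfl⟩
    · obtain ⟨n, hn⟩ := hQ (Additive.ofMul (Y (FreeSemigroup.of y)))
      exact ⟨n, hn, fun h => absurd h hy⟩
  choose n hn hnp using hn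
  let X : Word →ₙ* A' := FreeSemigroup.lift fun y => (P (n y)).toMul
  have key : ∀ w, ∃ b, P b = Additive.ofMul (X w) ∧ Q b = Additive.ofMul (Y w) := by
    intro w
    induction w using FreeSemigroup.recOnMul with
    | ih1 y =>
      refine ⟨n y, ?_, hn y⟩
      change P (n y) = Additive.ofMul (FreeSemigroup.lift _ (FreeSemigroup.of y))
      rw [FreeSemigroup.lift_of]
      rfl
    | ih2 y w hy hw =>
      obtain ⟨b, hb1, hb2⟩ := hy
      obtain ⟨c, hc1, hc2⟩ := hw
      refine ⟨b + c, ?_, ?_⟩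
      · rw [map_add, hb1, hc1, map_mul]; rfl
      · rw [map_add, hb2, hc2, map_mul]; rfl
  refine ⟨X, ?_, ?_⟩
  · intro y hy
    change FreeSemigroup.lift _ (FreeSemigroup.of y) = a'
    rw [FreeSemigroup.lift_of, hnp y hy, hf0]
    rfl
  · intro u w huw
    obtain ⟨b, hb1, hb2⟩ := key u
    obtain ⟨c, hc1, hc2⟩ := key w
    have h1 : P (b - c) = 0 := by rw [map_sub, hb1, hc1, huw, sub_self]
    have h2 := hker _ h1
    rw [map_sub, hb2, hc2, sub_eq_zero] at h2
    exact Additive.ofMul.injective h2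

/-- codes of the local group of a frame -/
def LPCode (R : RL π S) (Φ : PFrame S) (c : π → PPC) : Prop :=
  let _ := locC R Φ.hf
  HasPCodes π (Additive (Loc Φ.f)) (Additive.ofMul Φ.pin) c

variable (hπ : ∀ q ∈ π, q.Prime)

include hπ in
theorem lpcode_exists (R : RL π S) [Countable S] (Φ : PFrame S) : ∃ c, LPCode R Φ c := by
  let iC := locC R Φ.hf
  have hc : Countable (Loc Φ.f) := by
    have : Function.Injective (fun x : Loc Φ.f => x.1) := Subtype.val_injective
    exact this.countable
  have hc' : Countable (Additive (Loc Φ.f)) := hc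
  have h1 : IsPi π (Additive (Loc Φ.f)) := isPi_loc R Φ.hf
  exact exists_hasPCodes hπ h1 (Additive.ofMul Φ.pin)

include hπ in
theorem lpcode_transfer {S' : Type u} [Semigroup S'] (R : RL π S) (R' : RL π S') [Countable S]
    {Φ : PFrame S} {Φ' : PFrame S'} {c c' : π → PPC} (h : LPCode R Φ c) (h' : LPCode R' Φ' c')
    (hr : rpcs π c c') (F : Word →ₙ* S) (pin : ℕ → Prop)
    (hp : ∀ y, pin y → Φ.f * F (FreeSemigroup.of y) * Φ.f = Φ.f * Φ.p * Φ.f) :
    ∃ X : Word →ₙ* Loc Φ'.f, (∀ y, pin y → X (FreeSemigroup.of y) = Φ'.pin) ∧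
      ∀ w w', X w = X w' → Φ.f * F w * Φ.f = Φ.f * F w' * Φ.f := by
  let iC := locC R Φ.hf
  let iC' := locC R' Φ'.hf
  have hc : Countable (Loc Φ.f) := by
    have : Function.Injective (fun x : Loc Φ.f => x.1) := Subtype.val_injective
    exact this.countable
  have hc' : Countable (Additive (Loc Φ.f)) := hc
  have h1 : IsPi π (Additive (Loc Φ.f)) := isPi_loc R Φ.hf
  have h2 := psec_of_codes hπ h1 h h' hr
  let Y : Word →ₙ* Loc Φ.f :=
    { toFun := fun w => inLoc Φ.hf (F w)
      map_mul' := fun a b => Subtype.ext (by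
        change Φ.f * F (a * b) * Φ.f = Φ.f * F a * Φ.f * (Φ.f * F b * Φ.f)
        rw [map_mul, R.toRU.gam Φ.hf]) }
  obtain ⟨X, hX1, hX2⟩ := psec_lift h2 Y pin (fun y hy => Subtype.ext (hp y hy))
  exact ⟨X, hX1, fun w w' hww => congrArg Subtype.val (hX2 w w' hww)⟩

/-- the class has a member with an element outside of the square -/
def cA' (W : SgClass.{u}) : Prop :=
  ∃ (S : Type u) (_ : Semigroup S), W S ∧ ∃ s : S, ¬ Sq s

/-- the codes of the frames in members of `W` -/
def cP (π : Finset ℕ) (W : SgClass.{u}) (b : PBits) : Set (π → PPC) :=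
  {c | ∃ (S : Type u) (_ : Semigroup S) (_ : Countable S) (R : RL π S) (Φ : PFrame S), W S ∧
    pbits Φ = b ∧ ∃ c', LPCode R Φ c' ∧ rpcs π c c'}

theorem letter_of_not_sq {S : Type u} [Semigroup S] (φ : Word →ₙ* S) (w : Word)
    (h : ¬ Sq (φ w)) : ∃ y, w = FreeSemigroup.of y := by
  rcases two_form w with h1 | ⟨⟨a, b, h1 | ⟨w', h1⟩⟩, -⟩
  · exact h1
  · exact absurd (by rw [h1, map_mul]; exact sq_mul _ _) h
  · exact absurd (by rw [h1, map_mul]; exact sq_mul _ _) h

include hπ in
theorem le_of_cP {W₁ W₂ : SgClass.{u}} (h1 : IsInclVariety W₁) (h2 : IsInclVariety W₂)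
    (i1 : ∀ (S : Type u) [Semigroup S], W₁ S → RL π S)
    (hA : cA' W₁ → cA' W₂) (hD : ∀ b, cP π W₁ b ⊆ cP π W₂ b)
    (S : Type u) [Semigroup S] (hS : W₁ S) : W₂ S := by
  classical
  apply mem_of_div h2
  intro u F
  have R := i1 S hS
  by_cases ht : Sq (F u)
  · -- the value is in the square
    let T : Subsemigroup S := F.srange
    let F0 : Word →ₙ* T := F.srangeRestrict
    have hinj : Function.Injective (MulMemClass.subtype T) := Subtype.val_injective
    have hT : W₁ T := mem_of_inj h1 hS (MulMemClass.subtype T) hinj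
    have RT : RL π T := i1 T hT
    have hcT : Countable T := by
      have : Function.Surjective F0 := F.srangeRestrict_surjective
      exact this.countable
    have ht0 : Sq (F0 u) := by
      obtain ⟨n, hn⟩ := R.toRU.reg ht
      have h3 : pw (F0 u) (n + 1) = F0 u := by
        apply hinj
        rw [pw_map]
        exact hn
      exact ⟨pw (F0 u) n, F0 u, h3.symm⟩
    obtain ⟨Φ, hΦ, pin, τ, a0, d0, G⟩ := exists_pframe RT.toRU F0 u ht0
    obtain ⟨c, hc⟩ := lpcode_exists hπ RT Φ
    obtain ⟨S', _, _, R', Φ', hS', hb, c', hc', hr⟩ :=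
      hD (pbits Φ) ⟨T, inferInstance, hcT, RT, Φ, hT, rfl, c, hc, rpcs_refl c⟩
    obtain ⟨X, hX1, hX2⟩ := lpcode_transfer hπ RT R' hc hc' hr F0 pin G.h1
    obtain ⟨ψ, hψ⟩ := transfer_pframe RT.toRU RT.li ht0 hΦ G R'.toRU R'.li hb.symm X hX1 hX2
    refine ⟨S', inferInstance, hS', ψ, ?_⟩
    intro w hw
    exact congrArg Subtype.val (hψ w hw)
  · -- `u` is a letter
    obtain ⟨S', _, hS', s, hs⟩ := hA ⟨S, inferInstance, hS, F u, ht⟩
    obtain ⟨x, hx⟩ := letter_of_not_sq F u ht
    let ψ : Word →ₙ* S' := FreeSemigroup.lift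
      (fun y => if F (FreeSemigroup.of y) = F u then s else s * s)
    refine ⟨S', inferInstance, hS', ψ, ?_⟩
    intro w hw
    have h3 : ψ u = s := by
      change FreeSemigroup.lift _ u = s
      rw [hx, FreeSemigroup.lift_of, if_pos rfl]
    rw [h3] at hw
    obtain ⟨y, hy⟩ := letter_of_not_sq ψ w (by rw [← hw]; exact hs)
    have h4 : ψ w = if F (FreeSemigroup.of y) = F u then s else s * s := by
      change FreeSemigroup.lift _ w = _
      rw [hy, FreeSemigroup.lift_of]
    rw [h4] at hw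
    split_ifs at hw with h5
    · rw [hy, h5]
    · exact absurd ⟨s, s, hw⟩ hs

include hπ in
theorem countable_of_rl (V : SgClass.{u}) (h : ∀ (S : Type u) [Semigroup S], V S → RL π S) :
    (InclSub V).Countable := by
  have hcount : {D : Set (π → PPC) | ∀ a b, rpcs π a b → b ∈ D → a ∈ D}.Countable :=
    countable_lower (rpcs π) wqo_rpcs
  have hfin : Finite PBits := inferInstance
  have hcount2 : (Set.univ.pi fun _ : PBits =>
      {D : Set (π → PPC) | ∀ a b, rpcs π a b → b ∈ D → a ∈ D}).Countable :=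
    Set.countable_univ_pi fun _ => hcount
  have hcount3 : ((Set.univ : Set Prop) ×ˢ (Set.univ.pi fun _ : PBits =>
      {D : Set (π → PPC) | ∀ a b, rpcs π a b → b ∈ D → a ∈ D})).Countable :=
    (Set.to_countable _).prod hcount2
  apply Set.countable_of_injective_of_countable_image
    (f := fun W : SgClass.{u} => (cA' W, cP π W)) ?_ (hcount3.mono ?_)
  · intro W₁ hW₁ W₂ hW₂ hC
    have e1 : cA' W₁ = cA' W₂ := congrArg Prod.fst hC
    have e2 : cP π W₁ = cP π W₂ := congrArg Prod.snd hC
    funext S hS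
    apply propext
    constructor
    · intro h1
      exact le_of_cP hπ hW₁.1 hW₂.1 (fun S _ h' => h S (hW₁.2 S h'))
        (fun h' => e1 ▸ h') (fun b => by rw [e2]) S h1
    · intro h1
      exact le_of_cP hπ hW₂.1 hW₁.1 (fun S _ h' => h S (hW₂.2 S h'))
        (fun h' => e1 ▸ h') (fun b => by rw [e2]) S h1
  · rintro _ ⟨W, -, rfl⟩
    refine ⟨trivial, ?_⟩
    intro b _ a c hac hc
    obtain ⟨S, i1, i3, R, Φ, hW, hb, c', hc', hr⟩ := hc
    exact ⟨S, i1, i3, R, Φ, hW, hb, c', hc', rpcs_trans hac hr⟩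

end

end Pool.Agent.helper45.Inc
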