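import Mathlib
import Pool.Agent.helper45.Inc.PCnt
import Pool.Agent.helper45.Inc.GrpFin

/-!
# Opposite inclusive varieties
-/

universe u v

open Pool.Agent.helper9.Incl MulOpposite

namespace Pool.Agent.helper45.Inc

/-- reversal of words -/
def revH : Word →ₙ* Wordᵐᵒᵖ := FreeSemigroup.lift fun y => op (FreeSemigroup.of y)

/-- reversal of words -/
def rev (w : Word) : Word := unop (revH w)

theorem rev_of (y : ℕ) : rev (FreeSemigroup.of y) = FreeSemigroup.of y := by
  unfold rev revH
  rw [FreeSemigroup.lift_of, unop_op]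

theorem rev_mul (a b : Word) : rev (a * b) = rev b * rev a := by
  unfold rev
  rw [map_mul, unop_mul]

theorem rev_rev (w : Word) : rev (rev w) = w := by
  induction w using FreeSemigroup.recOnMul with
  | ih1 y => rw [rev_of, rev_of]
  | ih2 a b ha hb => rw [rev_mul, rev_mul, ha, hb]

/-- the opposite class -/
def opV (V : SgClass.{u}) : SgClass.{u} := fun S _ => V Sᵐᵒᵖ

theorem opV_incl {V : SgClass.{u}} (hV : IsInclVariety V) : IsInclVariety (opV V) := by
  apply isIncl_of_div
  intro T _ hT
  change V Tᵐᵒᵖ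
  apply mem_of_div hV
  intro u φ
  let φ' : Word →ₙ* T :=
    { toFun := fun w => unop (φ (rev w))
      map_mul' := fun a b => by rw [rev_mul, map_mul, unop_mul] }
  obtain ⟨S, _, hS, ψ, hψ⟩ := hT (rev u) φ'
  let ψ' : Word →ₙ* Sᵐᵒᵖ :=
    { toFun := fun w => op (ψ (rev w))
      map_mul' := fun a b => by rw [rev_mul, map_mul, op_mul] }
  refine ⟨Sᵐᵒᵖ, inferInstance, hS, ψ', ?_⟩
  intro w hw
  have h1 : ψ (rev u) = ψ (rev w) := op_injective hw
  have h2 := hψ (rev w) h1
  change unop (φ (rev (rev u))) = unop (φ (rev (rev w))) at h2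
  rw [rev_rev, rev_rev] at h2
  exact unop_injective h2

theorem opV_opV {V : SgClass.{u}} (hV : IsInclVariety V) : opV (opV V) = V := by
  funext S hS
  apply propext
  constructor
  · intro h
    exact mem_of_inj hV (S := Sᵐᵒᵖᵐᵒᵖ) h ⟨fun s => op (op s), fun a b => rfl⟩
      (fun a b hab => op_injective (op_injective hab))
  · intro h
    change V Sᵐᵒᵖᵐᵒᵖ
    exact mem_of_inj hV (T := Sᵐᵒᵖᵐᵒᵖ) h ⟨fun s => unop (unop s), fun a b => rfl⟩
      (fun a b hab => unop_injective (unop_injective hab))

theorem opV_sub {V W : SgClass.{u}} (hW : W ∈ InclSub V) : opV W ∈ InclSub (opV V) :=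
  ⟨opV_incl hW.1, fun S _ h => hW.2 Sᵐᵒᵖ h⟩

theorem countable_of_op {V : SgClass.{u}} (h : (InclSub (opV V)).Countable) :
    (InclSub V).Countable := by
  apply Set.countable_of_injective_of_countable_image (f := opV) ?_ (h.mono ?_)
  · intro W₁ hW₁ W₂ hW₂ hC
    rw [← opV_opV hW₁.1, ← opV_opV hW₂.1, hC]
  · rintro _ ⟨W, hW, rfl⟩
    exact opV_sub hW

section
variable {S : Type u} [Semigroup S]

theorem pw_comm (a : S) (n : ℕ) : pw a n * a = a * pw a n := by
  have h1 := pw_mul a n 0
  have h2 := pw_mul a 0 n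
  rw [zero_add] at h2
  rw [add_zero] at h1
  exact h1.trans h2.symm

theorem pw_op (a : S) (n : ℕ) : pw (op a) n = op (pw a n) := by
  induction n with
  | zero => rfl
  | succ n ih =>
    change pw (op a) n * op a = op (pw a n * a)
    rw [ih, ← op_mul, pw_comm]

theorem RU.op' (R : RU S) : RU Sᵐᵒᵖ := by
  constructor
  · intro x y
    obtain ⟨n, hn⟩ := R.exp (unop y) (unop x)
    refine ⟨n, ?_⟩
    have h1 : x * y = op (unop y * unop x) := rfl
    rw [h1, pw_op, hn]
  · intro e f he hf
    apply unop_injective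
    change unop e * (unop f * unop e) = unop e
    rw [← mul_assoc]
    exact R.rect _ _ (congrArg unop he) (congrArg unop hf)

/-- the elements act on the right like products -/
def RI (S : Type u) [Semigroup S] : Prop :=
  ∀ x e f : S, e * e = e → f * f = f → f * e * x = f * x

theorem RI.op' (h : RI S) : LI Sᵐᵒᵖ := by
  intro x e f he hf
  apply unop_injective
  change unop f * (unop e * unop x) = unop f * unop x
  rw [← mul_assoc]
  exact h _ _ _ (congrArg unop he) (congrArg unop hf)

theorem RI.of_op (h : LI Sᵐᵒᵖ) : RI S := by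
  intro x e f he hf
  have h1 := h (op x) (op e) (op f) (congrArg op he) (congrArg op hf)
  have h2 := congrArg unop h1
  change f * (e * x) = f * x at h2
  rw [mul_assoc]
  exact h2

end

end Pool.Agent.helper45.Inc
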