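import Mathlib
import Pool.Agent.helper45.Inc.Op

/-!
# Two marked elements in cyclic groups of unbounded order give an antichain
-/

universe u v

open Pool.Agent.helper9.Incl MulOpposite

namespace Pool.Agent.helper45.Inc

/-- the multiplication of the semigroup `{x, a, b, c}` with `x = none`: `a`, `b`, `c` are left
zeros, `x a = b`, `x b = x c = x x = c` -/
def m4 : Option (Fin 3) → Option (Fin 3) → Option (Fin 3)
  | some i, _ => some i
  | none, some 0 => some 1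
  | none, _ => some 2

/-- the four-element semigroup -/
@[ext] structure S4 : Type u where
  v : Option (Fin 3)

instance : Semigroup S4.{u} where
  mul a b := ⟨m4 a.v b.v⟩
  mul_assoc := by
    rintro ⟨a⟩ ⟨b⟩ ⟨c⟩
    apply S4.ext
    change m4 (m4 a b) c = m4 a (m4 b c)
    revert a b c
    decide

theorem S4.mul_v (a b : S4.{u}) : (a * b).v = m4 a.v b.v := rfl

theorem S4.mul3 (a b c : S4.{u}) : a * b * c = a * b := by
  apply S4.ext
  obtain ⟨a⟩ := a
  obtain ⟨b⟩ := b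
  obtain ⟨c⟩ := c
  change m4 (m4 a b) c = m4 a b
  revert a b c
  decide

theorem S4.pw_v (a : S4.{u}) (k : ℕ) : pw a (k + 1) = a * a := by
  induction k with
  | zero => rfl
  | succ k ih =>
    change pw a (k + 1) * a = a * a
    rw [ih, S4.mul3]

theorem S4.pw_pos (a : S4.{u}) {k : ℕ} (hk : 0 < k) : pw a k = a * a := by
  obtain ⟨j, rfl⟩ : ∃ j, k = j + 1 := ⟨k - 1, by omega⟩
  exact S4.pw_v a j

theorem op_pw_pos (a : S4.{u}ᵐᵒᵖ) {k : ℕ} (hk : 0 < k) : pw a k = a * a := by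
  have h1 := pw_op (unop a) k
  rw [op_unop, S4.pw_pos _ hk] at h1
  exact h1

theorem op_mul3 (a b c : S4.{u}ᵐᵒᵖ) : a * (b * c) = b * c := by
  apply unop_injective
  change unop c * unop b * unop a = unop c * unop b
  exact S4.mul3 _ _ _

/-- the cyclic group of order `N` -/
abbrev CG (N : ℕ) : Type u := ULift.{u} (Multiplicative (ZMod N))

/-- elements of the cyclic group -/
def cg {N : ℕ} (k : ZMod N) : CG.{u} N := ULift.up (Multiplicative.ofAdd k)

/-- the product -/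
abbrev TP (N : ℕ) : Type u := S4.{u} × S4.{u}ᵐᵒᵖ × CG.{u} N

/-- the left essential element -/
def X0 (p n : ℕ) : TP.{u} (p ^ n) := (⟨none⟩, op ⟨some 2⟩, cg ((p ^ (n - 1) : ℕ) : ZMod (p ^ n)))

/-- the right essential element -/
def X1 (p n : ℕ) : TP.{u} (p ^ n) := (⟨some 2⟩, op ⟨none⟩, cg 1)

/-- the semigroup with two marked elements -/
def TT (p n : ℕ) : Subsemigroup (TP.{u} (p ^ n)) where
  carrier := {z | z = X0 p n ∨ z = X1 p n ∨ (z.1.v ≠ none ∧ (unop z.2.1).v ≠ none)}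
  mul_mem' := by
    intro z z' _ _
    right
    right
    have key : ∀ a b : Option (Fin 3), m4 a b ≠ none := by decide
    exact ⟨key _ _, key _ _⟩

section
variable {p n : ℕ}

/-- the left component -/
def Lc (p n : ℕ) : TT.{u} p n →ₙ* S4.{u} := ⟨fun z => z.1.1, fun _ _ => rfl⟩

/-- the right component -/
def Rc (p n : ℕ) : TT.{u} p n →ₙ* S4.{u}ᵐᵒᵖ := ⟨fun z => z.1.2.1, fun _ _ => rfl⟩

/-- the group component -/
def Gc (p n : ℕ) : TT.{u} p n →ₙ* CG.{u} (p ^ n) := ⟨fun z => z.1.2.2, fun _ _ => rfl⟩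

theorem tt_ext {a b : TT.{u} p n} (h1 : Lc p n a = Lc p n b) (h2 : Rc p n a = Rc p n b)
    (h3 : Gc p n a = Gc p n b) : a = b :=
  Subtype.ext (Prod.ext h1 (Prod.ext h2 h3))

theorem eq_X0 {a : TT.{u} p n} (h : (Lc p n a).v = none) : a.1 = X0 p n := by
  rcases a.2 with h1 | h1 | h1
  · exact h1
  · have h2 : (Lc p n a).v = some 2 := by
      change a.1.1.v = some 2
      rw [h1]; rfl
    rw [h2] at h
    exact absurd h (by simp)
  · exact absurd h h1.1

theorem eq_X1 {a : TT.{u} p n} (h : (unop (Rc p n a)).v = none) : a.1 = X1 p n := by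
  rcases a.2 with h1 | h1 | h1
  · have h2 : (unop (Rc p n a)).v = some 2 := by
      change (unop a.1.2.1).v = some 2
      rw [h1]; rfl
    rw [h2] at h
    exact absurd h (by simp)
  · exact h1
  · exact absurd h h1.2

/-- the marked letters -/
def lets (p n : ℕ) (y : ℕ) : TT.{u} p n :=
  if y = 0 then ⟨X0 p n, Or.inl rfl⟩ else if y = 1 then ⟨X1 p n, Or.inr (Or.inl rfl)⟩ else
    ⟨(⟨some 0⟩, op ⟨some 0⟩, cg 0), Or.inr (Or.inr ⟨by simp, by simp⟩)⟩

/-- the assignment -/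
def phi (p n : ℕ) : Word →ₙ* TT.{u} p n := FreeSemigroup.lift (lets p n)

/-- the value of a word in the cyclic group -/
def gv {N : ℕ} (z : CG.{u} N) : ZMod N := Multiplicative.toAdd z.down

theorem gv_mul {N : ℕ} (z z' : CG.{u} N) : gv (z * z') = gv z + gv z' := rfl

theorem gv_pw {N : ℕ} (z : CG.{u} N) (k : ℕ) : gv (pw z k) = (k + 1 : ℕ) * gv z := by
  induction k with
  | zero => rw [zero_add, Nat.cast_one, one_mul]; rfl
  | succ k ih =>
    change gv (pw z k * z) = _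
    rw [gv_mul, ih]
    push_cast
    ring

theorem gv_pw_self {N : ℕ} (z : CG.{u} N) : gv (pw z N) = gv z := by
  rw [gv_pw, Nat.cast_add, Nat.cast_one, ZMod.natCast_self, zero_add, one_mul]

theorem gv_pw_pred {N : ℕ} (hN : 0 < N) (z : CG.{u} N) : gv (pw z (N - 1)) = 0 := by
  rw [gv_pw, Nat.sub_add_cancel hN, ZMod.natCast_self, zero_mul]

theorem gv_inj {N : ℕ} {z z' : CG.{u} N} (h : gv z = gv z') : z = z' :=
  ULift.ext _ _ (Multiplicative.toAdd.injective h)

/-- the words -/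
abbrev x0 : Word := FreeSemigroup.of 0
/-- the words -/
abbrev x1 : Word := FreeSemigroup.of 1
/-- the words -/
abbrev x2 : Word := FreeSemigroup.of 2

theorem pow_kill (k : ℕ) (z : ZMod (p ^ k)) : ((p ^ k : ℕ) : ZMod (p ^ k)) * z = 0 := by
  rw [ZMod.natCast_self, zero_mul]

theorem kernel_tt (hp : p.Prime) {n m : ℕ} (hn : 1 ≤ n) (hm : 1 ≤ m) (hnm : m ≠ n)
    (ψ : Word →ₙ* TT.{u} p m) :
    ∃ w, ψ (x0 * x2 * x1) = ψ w ∧ phi.{u} p n (x0 * x2 * x1) ≠ phi.{u} p n w := by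
  by_contra hcon
  push Not at hcon
  have hppos := hp.pos
  -- values of `phi`
  have p0 : phi.{u} p n x0 = ⟨X0 p n, Or.inl rfl⟩ := by
    change FreeSemigroup.lift _ (FreeSemigroup.of 0) = _
    rw [FreeSemigroup.lift_of]; rfl
  have p1 : phi.{u} p n x1 = ⟨X1 p n, Or.inr (Or.inl rfl)⟩ := by
    change FreeSemigroup.lift _ (FreeSemigroup.of 1) = _
    rw [FreeSemigroup.lift_of]; rfl
  have p2 : phi.{u} p n x2 =
      ⟨(⟨some 0⟩, op ⟨some 0⟩, cg 0), Or.inr (Or.inr ⟨by simp, by simp⟩)⟩ := by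
    change FreeSemigroup.lift _ (FreeSemigroup.of 2) = _
    rw [FreeSemigroup.lift_of]; rfl
  have l0 : Lc p n (phi.{u} p n x0) = ⟨none⟩ := by rw [p0]; rfl
  have l2 : Lc p n (phi.{u} p n x2) = ⟨some 0⟩ := by rw [p2]; rfl
  have r1 : Rc p n (phi.{u} p n x1) = op ⟨none⟩ := by rw [p1]; rfl
  have r2 : Rc p n (phi.{u} p n x2) = op ⟨some 0⟩ := by rw [p2]; rfl
  have g0 : gv (Gc p n (phi.{u} p n x0)) = ((p ^ (n - 1) : ℕ) : ZMod (p ^ n)) := by rw [p0]; rfl
  have g1 : gv (Gc p n (phi.{u} p n x1)) = 1 := by rw [p1]; rfl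
  have g2 : gv (Gc p n (phi.{u} p n x2)) = 0 := by rw [p2]; rfl
  -- components of words
  have Lw : ∀ {k : ℕ} (χ : Word →ₙ* TT.{u} p k) (a b w : Word),
      Lc p k (χ (a * b * w)) = Lc p k (χ a) * Lc p k (χ b) := by
    intro k χ a b w
    rw [map_mul, map_mul, map_mul, map_mul, S4.mul3]
  have Rw : ∀ {k : ℕ} (χ : Word →ₙ* TT.{u} p k) (w a b : Word),
      Rc p k (χ (w * (a * b))) = Rc p k (χ a) * Rc p k (χ b) := by
    intro k χ w a b
    rw [map_mul, map_mul, map_mul, map_mul, op_mul3]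
  set L0 := Lc p m (ψ x0) with hL0
  set L2 := Lc p m (ψ x2) with hL2
  set R1 := Rc p m (ψ x1) with hR1
  set R2 := Rc p m (ψ x2) with hR2
  have uL : Lc p m (ψ (x0 * x2 * x1)) = L0 * L2 := Lw ψ x0 x2 x1
  have uR : Rc p m (ψ (x0 * x2 * x1)) = R2 * R1 := by rw [mul_assoc]; exact Rw ψ x0 x2 x1
  have fL : Lc p n (phi.{u} p n (x0 * x2 * x1)) = ⟨some 1⟩ := by
    rw [Lw, l0, l2]; rfl
  have fR : Rc p n (phi.{u} p n (x0 * x2 * x1)) = op ⟨some 1⟩ := by
    rw [mul_assoc, Rw, r1, r2]; rfl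
  have hNpos : 0 < p ^ m := pow_pos hppos m
  -- step one: the left side
  have s1 : L0 * L0 * L0 = L0 * L2 → False := by
    intro h
    have e1 : ψ (x0 * x2 * x1) = ψ (pw x0 (p ^ m) * x2 * x1) := by
      apply tt_ext
      · rw [uL, ← h, Lw, pw_map, pw_map, ← hL0, S4.pw_pos _ hNpos, S4.mul3, S4.mul3]
      · rw [uR, mul_assoc, Rw]
      · apply gv_inj
        simp only [map_mul, gv_mul, pw_map, gv_pw_self]
    have e2 := congrArg (Lc p n) (hcon _ e1)
    rw [fL, Lw, pw_map, pw_map, l0, S4.pw_pos _ hNpos, S4.mul3] at e2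
    exact absurd (congrArg S4.v e2) (by decide)
  have s2 : R1 * R1 * R1 = R2 * R1 → False := by
    intro h
    have e1 : ψ (x0 * x2 * x1) = ψ (x0 * (x2 * pw x1 (p ^ m))) := by
      apply tt_ext
      · rw [uL, ← mul_assoc, Lw]
      · rw [uR, Rw, pw_map, pw_map, ← hR1, ← hR2, op_pw_pos _ hNpos, ← h, mul_assoc, op_mul3,
          op_mul3]
      · apply gv_inj
        simp only [map_mul, gv_mul, pw_map, gv_pw_self, add_assoc]
    have e2 := congrArg (Rc p n) (hcon _ e1)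
    rw [fR, Rw, pw_map, pw_map, r1, r2, op_pw_pos _ hNpos, op_mul3] at e2
    exact absurd (congrArg (fun z => (unop z).v) e2) (by decide)
  have key4 : ∀ a b : Option (Fin 3), m4 (m4 a a) a ≠ m4 a b → a = none ∧ b = some 0 := by decide
  have key4' : ∀ a b : Option (Fin 3), m4 a (m4 a a) ≠ m4 a b → a = none ∧ b = some 0 := by decide
  have hLL : L0.v = none ∧ L2.v = some 0 := by
    apply key4
    intro h
    exact s1 (S4.ext h)
  have hRR : (unop R1).v = none ∧ (unop R2).v = some 0 := by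
    apply key4'
    intro h
    exact s2 (unop_injective (S4.ext h))
  -- the group components
  have h0 : gv (Gc p m (ψ x0)) = ((p ^ (m - 1) : ℕ) : ZMod (p ^ m)) := by
    have h := eq_X0 hLL.1
    change gv (ψ x0).1.2.2 = _
    rw [h]; rfl
  have h1 : gv (Gc p m (ψ x1)) = 1 := by
    have h := eq_X1 hRR.1
    change gv (ψ x1).1.2.2 = _
    rw [h]; rfl
  -- the final word
  have hpm : p ^ (m - 1) < p ^ m := Nat.pow_lt_pow_right hp.one_lt (by omega)
  obtain ⟨j, hj⟩ : ∃ j, p ^ (m - 1) + (j + 1) = p ^ m := ⟨p ^ m - p ^ (m - 1) - 1, by omega⟩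
  have hK : 2 ≤ p ^ m * p ^ n := by
    calc 2 ≤ p ^ m := le_trans hp.two_le (Nat.le_self_pow (by omega) p)
      _ ≤ p ^ m * p ^ n := Nat.le_mul_of_pos_right _ (pow_pos hppos n)
  set K := p ^ m * p ^ n with hKdef
  have e1 : ψ (x0 * x2 * x1) = ψ (x0 * x2 * (pw x2 (K - 2) * (x0 * pw x1 j) * (x2 * x1))) := by
    apply tt_ext
    · rw [uL, Lw]
    · rw [uR, ← mul_assoc (x0 * x2), Rw]
    · apply gv_inj
      have e3 : ((p ^ (m - 1) : ℕ) : ZMod (p ^ m)) + ((j + 1 : ℕ) : ZMod (p ^ m)) = 0 := by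
        rw [← Nat.cast_add, hj, ZMod.natCast_self]
      have e4 : ∀ z : CG.{u} (p ^ m), gv (pw z (K - 2)) + gv z = 0 := by
        intro z
        rw [gv_pw]
        have e5 : ((K - 2 + 1 : ℕ) : ZMod (p ^ m)) * gv z + gv z =
            ((K - 2 + 1 + 1 : ℕ) : ZMod (p ^ m)) * gv z := by push_cast; ring
        rw [e5, show K - 2 + 1 + 1 = p ^ m * p ^ n by omega, Nat.cast_mul, ZMod.natCast_self,
          zero_mul, zero_mul]
      simp only [map_mul, gv_mul, pw_map]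
      have e6 : gv (pw (Gc p m (ψ x1)) j) = ((j + 1 : ℕ) : ZMod (p ^ m)) := by
        rw [gv_pw, h1, mul_one]
      rw [e6, h0, h1]
      linear_combination - e4 (Gc p m (ψ x2)) - e3
  have e2 := congrArg (fun z => gv (Gc p n z)) (hcon _ e1)
  have e7 : gv (pw (Gc p n (phi.{u} p n x2)) (K - 2)) = 0 := by rw [gv_pw, g2, mul_zero]
  have e8 : gv (pw (Gc p n (phi.{u} p n x1)) j) = ((j + 1 : ℕ) : ZMod (p ^ n)) := by
    rw [gv_pw, g1, mul_one]
  simp only [map_mul, gv_mul, pw_map, e7, e8, g0, g1, g2] at e2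
  have e9 : ((p ^ (n - 1) + (j + 1) : ℕ) : ZMod (p ^ n)) = 0 := by
    rw [Nat.cast_add]
    linear_combination - e2
  rw [ZMod.natCast_eq_zero_iff] at e9
  rcases Nat.lt_or_gt_of_ne hnm with hlt | hgt
  · have f1 : p ^ m ∣ p ^ (n - 1) := pow_dvd_pow p (by omega)
    have f2 : p ^ m ∣ p ^ (n - 1) + (j + 1) := (pow_dvd_pow p (by omega)).trans e9
    have f3 : p ^ m ∣ j + 1 := (Nat.dvd_add_right f1).mp f2
    have f4 := Nat.le_of_dvd (Nat.succ_pos j) f3
    have f5 : 0 < p ^ (m - 1) := pow_pos hppos _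
    omega
  · have f1 : p ^ n ∣ p ^ (m - 1) := pow_dvd_pow p (by omega)
    have f2 : p ^ n ∣ p ^ m := pow_dvd_pow p (by omega)
    have f3 : p ^ n ∣ j + 1 := by
      rw [← hj] at f2
      exact (Nat.dvd_add_right f1).mp f2
    have f4 : p ^ n ∣ p ^ (n - 1) := (Nat.dvd_add_left f3).mp e9
    have f5 := (Nat.pow_dvd_pow_iff_le_right hp.one_lt).mp f4
    omega

end

end Pool.Agent.helper45.Inc
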