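import Mathlib
import Pool.Agent.helper45.Inc.Anti

/-!
# Members of product-closed inclusive varieties with essential elements
-/

universe u v

open Pool.Agent.helper9.Incl MulOpposite

namespace Pool.Agent.helper45.Inc

section
variable {S : Type u} [Semigroup S] (R : RU S)
include R

/-- `p` and `q` are in one left class if they have a common element there -/
theorem RU.cl_trans {p q s : S} (hq : Sq q) (hs : Sq s) (h1 : oo p * s = s)
    (h2 : oo q * s = s) : oo p * q = q := by
  have e1 : oo p * oo s = oo s := oo_left h1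
  have e2 : oo q * oo s = oo s := oo_left h2
  have e3 := R.rect (oo q) (oo s) (R.o_idem hq) (R.o_idem hs)
  rw [e2] at e3
  have e4 : oo p * oo q = oo q := by
    calc oo p * oo q = oo p * (oo s * oo q) := by rw [e3]
      _ = oo s * oo q := by rw [← mul_assoc, e1]
      _ = oo q := e3
  calc oo p * q = oo p * (oo q * q) := by rw [R.o_mul hq]
    _ = oo q * q := by rw [← mul_assoc, e4]
    _ = q := R.o_mul hq

theorem exists_essential (h : ¬ LI S) : ∃ x e : S, e * e = e ∧ oo (x * x) * (x * e) ≠ x * e := by
  unfold LI at h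
  push Not at h
  obtain ⟨x, e, f, he, hf, hne⟩ := h
  by_contra hcon
  push Not at hcon
  apply hne
  have h1 := hcon x e he
  have h2 := hcon x f hf
  -- `x e` and `x f` are in the left class of `x x`
  have h3 : oo (x * f) * (x * x) = x * x := by
    have e1 : oo (x * x) * oo (x * f) = oo (x * f) := oo_left h2
    have e2 := R.rect (oo (x * f)) (oo (x * x)) (R.o_idem (sq_mul _ _)) (R.o_idem (sq_mul _ _))
    have e3 := R.rect (oo (x * x)) (oo (x * f)) (R.o_idem (sq_mul _ _)) (R.o_idem (sq_mul _ _))
    rw [e1] at e3
    calc oo (x * f) * (x * x) = oo (x * f) * (oo (x * x) * (x * x)) := by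
          rw [R.o_mul (sq_mul _ _)]
      _ = x * x := by rw [← mul_assoc, e3, R.o_mul (sq_mul _ _)]
  have h4 : oo (x * f) * (x * e) = x * e := by
    have e1 : oo (x * f) * oo (x * x) = oo (x * x) := oo_left h3
    calc oo (x * f) * (x * e) = oo (x * f) * (oo (x * x) * (x * e)) := by rw [h1]
      _ = x * e := by rw [← mul_assoc, e1, h1]
  calc x * e * f = oo (x * f) * (x * e) * f := by rw [h4]
    _ = oo (x * f) * x * e * f := by rw [← mul_assoc (oo (x * f)) x e]
    _ = oo (x * f) * x * f := R.peq (sq_mul _ _) ⟨f, f, hf.symm⟩ he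
    _ = x * f := by rw [mul_assoc, R.o_mul (sq_mul _ _)]

theorem s4_mem {V : SgClass.{u}} (hV : IsInclVariety V) (hS : V S) (h : ¬ LI S) :
    V S4.{u} := by
  obtain ⟨x, a, ha, hne⟩ := exists_essential R h
  set b := x * a with hb
  set c := x * x with hc
  have sa : Sq a := ⟨a, a, ha.symm⟩
  have sb : Sq b := sq_mul _ _
  have sc : Sq c := sq_mul _ _
  have hoa : oo a * a = a := R.o_mul sa
  -- `x` is not a product
  have hx : ¬ Sq x := by
    intro hx
    apply hne
    have h1 : oo c * (x * x) = x * x := R.o_mul sc
    have h2 : oo c * x = x := (R.left_iff hx).mp h1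
    rw [hb, ← mul_assoc, h2]
  -- left multiplications by `x`
  have xb : oo c * (x * b) = x * b := by
    rw [hb, ← mul_assoc x x a, ← hc, ← mul_assoc, R.o_mul sc]
  have xc : oo c * (x * c) = x * c := by
    rw [hc, ← mul_assoc x x x, ← hc, ← mul_assoc, R.o_mul sc]
  have mulb : ∀ s, oo b * s = s → oo c * (x * s) = x * s := by
    intro s hs
    have h1 : oo c * (x * oo b) = x * oo b := (R.left_o sb).mpr xb
    calc oo c * (x * s) = oo c * (x * oo b) * s := by
          rw [mul_assoc, mul_assoc, hs]
      _ = x * s := by rw [h1, mul_assoc, hs]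
  have mulc : ∀ s, oo c * s = s → oo c * (x * s) = x * s := by
    intro s hs
    have h1 : oo c * (x * oo c) = x * oo c := (R.left_o sc).mpr xc
    calc oo c * (x * s) = oo c * (x * oo c) * s := by
          rw [mul_assoc, mul_assoc, hs]
      _ = x * s := by rw [h1, mul_assoc, hs]
  have mula : ∀ s, oo a * s = s → oo b * (x * s) = x * s := by
    intro s hs
    have h1 : oo b * (x * oo a) = x * oo a := (R.left_o sa).mpr (R.o_mul sb)
    calc oo b * (x * s) = oo b * (x * oo a) * s := by
          rw [mul_assoc, mul_assoc, hs]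
      _ = x * s := by rw [h1, mul_assoc, hs]
  -- the left classes are different
  have nbc : ∀ s, Sq s → oo b * s = s → oo c * s = s → False := by
    intro s hs h1 h2
    exact hne (R.cl_trans sb hs h2 h1)
  have nab : ∀ s, Sq s → oo a * s = s → oo b * s = s → False := by
    intro s _ h1 h2
    exact nbc (x * s) (sq_mul _ _) (mula s h1) (mulb s h2)
  have nac : ∀ s, Sq s → oo a * s = s → oo c * s = s → False := by
    intro s _ h1 h2
    exact nbc (x * s) (sq_mul _ _) (mula s h1) (mulc s h2)
  -- representatives
  let rep : Option (Fin 3) → S := fun v => match v with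
    | none => x
    | some 0 => a
    | some 1 => b
    | some 2 => c
  let Rel : S → Option (Fin 3) → Prop := fun s v => match v with
    | none => s = x
    | some 0 => Sq s ∧ oo a * s = s
    | some 1 => Sq s ∧ oo b * s = s
    | some 2 => Sq s ∧ oo c * s = s
  have hrep : ∀ v, Rel (rep v) v := by
    intro v
    match v with
    | none => exact rfl
    | some 0 => exact ⟨sa, hoa⟩
    | some 1 => exact ⟨sb, R.o_mul sb⟩
    | some 2 => exact ⟨sc, R.o_mul sc⟩
  have hmul : ∀ v s v', Rel s v' → Rel (rep v * s) (m4 v v') := by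
    intro v s v' h
    match v with
    | none =>
      match v' with
      | none =>
        have hs : s = x := h
        rw [hs]
        exact ⟨sq_mul _ _, R.o_mul sc⟩
      | some 0 => exact ⟨sq_mul _ _, mula s h.2⟩
      | some 1 => exact ⟨sq_mul _ _, mulb s h.2⟩
      | some 2 => exact ⟨sq_mul _ _, mulc s h.2⟩
    | some 0 =>
      refine ⟨sq_mul _ _, ?_⟩
      change oo a * (a * s) = a * s
      rw [← mul_assoc, hoa]
    | some 1 =>
      refine ⟨sq_mul _ _, ?_⟩
      change oo b * (b * s) = b * s
      rw [← mul_assoc, R.o_mul sb]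
    | some 2 =>
      refine ⟨sq_mul _ _, ?_⟩
      change oo c * (c * s) = c * s
      rw [← mul_assoc, R.o_mul sc]
  have huniq : ∀ s v v', Rel s v → Rel s v' → v = v' := by
    intro s v v' h h'
    match v with
    | none =>
      have hs : s = x := h
      match v' with
      | none => rfl
      | some 0 => exact (hx (hs ▸ h'.1)).elim
      | some 1 => exact (hx (hs ▸ h'.1)).elim
      | some 2 => exact (hx (hs ▸ h'.1)).elim
    | some 0 =>
      match v' with
      | none => exact (hx ((show s = x from h') ▸ h.1)).elim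
      | some 0 => rfl
      | some 1 => exact (nab s h.1 h.2 h'.2).elim
      | some 2 => exact (nac s h.1 h.2 h'.2).elim
    | some 1 =>
      match v' with
      | none => exact (hx ((show s = x from h') ▸ h.1)).elim
      | some 0 => exact (nab s h.1 h'.2 h.2).elim
      | some 1 => rfl
      | some 2 => exact (nbc s h.1 h.2 h'.2).elim
    | some 2 =>
      match v' with
      | none => exact (hx ((show s = x from h') ▸ h.1)).elim
      | some 0 => exact (nac s h.1 h'.2 h.2).elim
      | some 1 => exact (nbc s h.1 h'.2 h.2).elim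
      | some 2 => rfl
  apply mem_of_div hV
  intro u φ
  let ψ : Word →ₙ* S := FreeSemigroup.lift fun y => rep (φ (FreeSemigroup.of y)).v
  have key : ∀ w, Rel (ψ w) (φ w).v := by
    intro w
    induction w using FreeSemigroup.recOnMul with
    | ih1 y =>
      change Rel (FreeSemigroup.lift _ (FreeSemigroup.of y)) _
      rw [FreeSemigroup.lift_of]
      exact hrep _
    | ih2 y w _ hw =>
      rw [map_mul, map_mul]
      have h1 : ψ (FreeSemigroup.of y) = rep (φ (FreeSemigroup.of y)).v :=
        FreeSemigroup.lift_of _ _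
      rw [h1]
      exact hmul _ _ _ hw
  refine ⟨S, inferInstance, hS, ψ, ?_⟩
  intro w hw
  apply S4.ext
  exact huniq _ _ _ (key u) (hw ▸ key w)

end

theorem cg_mem {V : SgClass.{u}} (hV : IsInclVariety V) {G : Type u} [CommGroup G] (hG : V G)
    {N : ℕ} (a : G) (ha : orderOf a = N) : V (CG.{u} N) := by
  let f : ZMod N →+ Additive G := ZMod.lift N ⟨zmultiplesHom (Additive G) (Additive.ofMul a), by
    change ((N : ℕ) : ℤ) • Additive.ofMul a = 0
    rw [natCast_zsmul, ← ofMul_pow, ← ha, pow_orderOf_eq_one]
    rfl⟩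
  have hf : ∀ k : ℤ, f (k : ZMod N) = k • Additive.ofMul a := fun k => by
    rw [ZMod.lift_coe]
    rfl
  have hinj : Function.Injective f := by
    refine (injective_iff_map_eq_zero f).mpr ?_
    intro z hz
    obtain ⟨k, rfl⟩ := ZMod.intCast_surjective z
    rw [hf] at hz
    have h1 : a ^ k = 1 := hz
    rw [← orderOf_dvd_iff_zpow_eq_one, ha] at h1
    exact (ZMod.intCast_zmod_eq_zero_iff_dvd k N).mpr h1
  let i : CG.{u} N →ₙ* G := ⟨fun z => (f (gv z)).toMul, fun x y => by
    rw [gv_mul, map_add]; rfl⟩
  apply mem_of_inj hV hG i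
  intro x y hxy
  apply gv_inj
  exact hinj hxy

end Pool.Agent.helper45.Inc
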