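import Mathlib
import Pool.Agent.helper45.Inc.Cnt

/-!
# Product-closed inclusive varieties with finitely many inclusive subvarieties
-/

universe u v

open Pool.Agent.helper9.Incl

namespace Pool.Agent.helper45.Inc

theorem pow_mem {V : SgClass.{u}} (hV : IsInclVariety V) (hP : ProdClosed V) {S : Type u}
    [Semigroup S] (hS : V S) (k : ℕ) : V (Fin (k + 1) → S) := by
  induction k with
  | zero =>
    refine mem_of_inj hV hS ⟨fun f : Fin 1 → S => f 0, fun _ _ => rfl⟩ ?_
    intro f g h
    funext i
    have : i = 0 := Fin.ext (by have := i.2; omega)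
    rw [this]; exact h
  | succ k ih =>
    refine mem_of_inj hV (hP _ _ hS ih)
      ⟨fun f : Fin (k + 2) → S => (f 0, fun i : Fin (k + 1) => f i.succ), fun _ _ => rfl⟩ ?_
    intro f g h
    funext i
    have h1 := congrArg Prod.fst h
    have h2 := congrArg Prod.snd h
    refine Fin.cases ?_ (fun j => ?_) i
    · exact h1
    · exact congrFun h2 j

/-- the pigeonhole inclusion -/
def pig (N n : ℕ) : Set Word :=
  {w | ∃ i j : ℕ, i < j ∧ j ≤ n ∧ w = FreeSemigroup.of i * pw (FreeSemigroup.of j) (N - 2)}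

theorem pig_iff {N : ℕ} (hN : 2 ≤ N) (k n : ℕ) :
    SatIncl (Fin (k + 1) → Cyc.{u} N) (pw (FreeSemigroup.of 0) (N - 1)) (pig N n) ↔
      N ^ (k + 1) ≤ n := by
  classical
  have : NeZero N := ⟨by omega⟩
  have hcard : Fintype.card (Fin (k + 1) → Cyc.{u} N) = N ^ (k + 1) := by
    rw [Fintype.card_fun, Fintype.card_fin]
    congr 1
    rw [Fintype.card_ulift, Fintype.card_multiplicative]
    exact ZMod.card N
  have hpow : ∀ g : Fin (k + 1) → Cyc.{u} N, g ^ N = 1 := by
    intro g
    funext i
    exact cyc_pow N (g i) N (ZMod.natCast_self N)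
  have hu : ∀ φ : Word →ₙ* (Fin (k + 1) → Cyc.{u} N),
      φ (pw (FreeSemigroup.of 0) (N - 1)) = 1 := by
    intro φ
    rw [pw_map, pw_eq_pow, Nat.sub_add_cancel (by omega), hpow]
  have hw : ∀ (φ : Word →ₙ* (Fin (k + 1) → Cyc.{u} N)) (i j : ℕ),
      (1 = φ (FreeSemigroup.of i * pw (FreeSemigroup.of j) (N - 2)) ↔
        φ (FreeSemigroup.of i) = φ (FreeSemigroup.of j)) := by
    intro φ i j
    rw [map_mul, pw_map, pw_eq_pow, show N - 2 + 1 = N - 1 by omega]
    have h1 := hpow (φ (FreeSemigroup.of j))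
    constructor
    · intro h
      have h2 : φ (FreeSemigroup.of i) * (φ (FreeSemigroup.of j)) ^ (N - 1) *
          φ (FreeSemigroup.of j) = φ (FreeSemigroup.of j) := by rw [← h, one_mul]
      rw [mul_assoc, ← pow_succ, Nat.sub_add_cancel (by omega), h1, mul_one] at h2
      exact h2
    · intro h
      rw [h, ← pow_succ', Nat.sub_add_cancel (by omega), h1]
  constructor
  · intro hsat
    by_contra hlt
    push Not at hlt
    have h1 : Fintype.card (Fin (n + 1)) ≤ Fintype.card (Fin (k + 1) → Cyc.{u} N) := by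
      rw [hcard, Fintype.card_fin]; omega
    obtain ⟨e⟩ := Function.Embedding.nonempty_of_card_le h1
    let φ : Word →ₙ* (Fin (k + 1) → Cyc.{u} N) := FreeSemigroup.lift
      (fun y => if h : y < n + 1 then e ⟨y, h⟩ else 1)
    obtain ⟨v, ⟨i, j, hij, hjn, rfl⟩, hv⟩ := hsat φ
    rw [hu, hw] at hv
    change FreeSemigroup.lift _ (FreeSemigroup.of i) = FreeSemigroup.lift _ (FreeSemigroup.of j)
      at hv
    rw [FreeSemigroup.lift_of, FreeSemigroup.lift_of, dif_pos (by omega), dif_pos (by omega)] at hv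
    have := congrArg Fin.val (e.injective hv)
    simp only at this
    omega
  · intro hle φ
    obtain ⟨a, b, hab, hφ⟩ := Fintype.exists_ne_map_eq_of_card_lt
      (fun y : Fin (n + 1) => φ (FreeSemigroup.of (y : ℕ))) (by
        rw [hcard, Fintype.card_fin]; omega)
    have hne : (a : ℕ) ≠ b := fun h => hab (Fin.ext h)
    rcases Nat.lt_or_gt_of_ne hne with h | h
    · exact ⟨_, ⟨a, b, h, by have := b.2; omega, rfl⟩, by rw [hu, hw]; exact hφ⟩
    · exact ⟨_, ⟨b, a, h, by have := a.2; omega, rfl⟩, by rw [hu, hw]; exact hφ.symm⟩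

theorem infinite_of_cyc {V : SgClass.{u}} (hV : IsInclVariety V) (hP : ProdClosed V) {N : ℕ}
    (hN : 2 ≤ N) (hC : V (Cyc.{u} N)) : ¬ (InclSub V).Finite := by
  intro hfin
  let W : ℕ → SgClass.{u} := fun k S _ => V S ∧
    SatIncl S (pw (FreeSemigroup.of 0) (N - 1)) (pig N (N ^ (k + 1)))
  have hW : ∀ k, W k ∈ InclSub V := by
    intro k
    refine ⟨?_, fun S _ h => h.1⟩
    obtain ⟨E, hE⟩ := hV
    refine ⟨insert (pw (FreeSemigroup.of 0) (N - 1), pig N (N ^ (k + 1))) E, ?_⟩
    intro S _
    constructor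
    · rintro ⟨h1, h2⟩ e he
      rcases he with rfl | he
      · exact h2
      · exact (hE S).mp h1 e he
    · intro h
      exact ⟨(hE S).mpr fun e he => h e (Set.mem_insert_of_mem _ he), h _ (Set.mem_insert _ _)⟩
  have hinj : Function.Injective W := by
    have key : ∀ k l, k < l → W k = W l → False := by
      intro k l hkl h
      have h1 : W l (Fin (l + 1) → Cyc.{u} N) := ⟨pow_mem hV hP hC l, (pig_iff hN _ _).mpr le_rfl⟩
      rw [← h] at h1
      have h2 := (pig_iff hN _ _).mp h1.2
      have h3 : N ^ (k + 1) < N ^ (l + 1) := Nat.pow_lt_pow_right (by omega) (by omega)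
      omega
    intro k l h
    rcases Nat.lt_trichotomy k l with h1 | h1 | h1
    · exact (key k l h1 h).elim
    · exact h1
    · exact (key l k h1 h.symm).elim
  exact Set.infinite_of_injective_forall_mem hinj hW hfin

/-- a non-trivial local subgroup gives a cyclic group -/
theorem cyc_of_loc {V : SgClass.{u}} (hV : IsInclVariety V) {S : Type u} [Semigroup S]
    (hS : V S) (H : Hyp S) {e x : S} (he : e * e = e) (hx : e * x * e ≠ e) :
    ∃ N, 2 ≤ N ∧ V (Cyc.{u} N) := by
  let _ := locGroup H he
  let c : Loc e := inLoc he x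
  have hc1 : c ≠ 1 := fun h => hx (congrArg Subtype.val h)
  have hpow : ∀ k : ℕ, (c ^ (k + 1)).1 = pw c.1 k := by
    intro k
    induction k with
    | zero => rw [zero_add, pow_one]; rfl
    | succ k ih =>
      rw [pow_succ, Loc.mul_val, ih]; rfl
  have hfin : 0 < orderOf c := by
    obtain ⟨k, hk⟩ := H.grp he c.2.1 c.2.2
    rw [orderOf_pos_iff, isOfFinOrder_iff_pow_eq_one]
    exact ⟨k + 1, Nat.succ_pos k, Subtype.ext ((hpow k).trans hk)⟩
  have hN2 : 2 ≤ orderOf c := by
    by_contra h
    have h1 : orderOf c = 1 := by omega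
    exact hc1 (orderOf_eq_one_iff.mp h1)
  have : NeZero (orderOf c) := ⟨by omega⟩
  refine ⟨orderOf c, hN2, cyc_mem hV hS c.1 _ ?_⟩
  intro m n hmn
  rw [← hpow, ← hpow] at hmn
  have h1 : c ^ (m + 1) = c ^ (n + 1) := Subtype.ext hmn
  have h2 := pow_inj_mod.mp h1
  have h3 : ((m + 1 : ℕ) : ZMod (orderOf c)) = ((n + 1 : ℕ) : ZMod (orderOf c)) :=
    (ZMod.natCast_eq_natCast_iff' _ _ _).mpr h2
  push_cast at h3
  exact add_right_cancel h3

/-- **Part 7.** A product-closed inclusive variety has finitely many inclusive subvarieties if and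
only if it satisfies the identity `x y z x y = x y`. -/
theorem finite_iff {V : SgClass.{u}} (hV : IsInclVariety V) (hP : ProdClosed V) :
    (InclSub V).Finite ↔ ∀ (S : Type u) [Semigroup S], V S → Id5 S := by
  constructor
  · intro hfin S _ hS x y z
    have hc := hfin.countable
    have H := hyp hV hc hP S hS
    have htriv : ∀ e x : S, e * e = e → e * x * e = e := by
      intro e x he
      by_contra hne
      obtain ⟨N, hN, hC⟩ := cyc_of_loc hV hS H he hne
      exact infinite_of_cyc hV hP hN hC hfin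
    obtain ⟨m, hm⟩ := exists_pw_eq hV hc hP S hS x y
    generalize x * y = p at *
    have h1 : pw p m * p = p := hm
    have h2 : pw p m * pw p m = pw p m := left_pw h1 m
    have h3 : p * pw p m = p := by
      have := pw_mul p 0 m
      rw [zero_add] at this
      exact this.trans hm
    have h4 := htriv (pw p m) p h2
    rw [h1, h3] at h4
    -- `p` is idempotent
    have h5 : p * p = p := by
      conv_lhs => rw [h4]
      rw [h2, ← h4]
    exact htriv p z h5
  · intro h
    exact finite_of_id5 V h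

end Pool.Agent.helper45.Inc
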