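import Mathlib
import Pool.Agent.helper45.Inc.Fin2

/-!
# The classification of product-closed inclusive varieties
-/

universe u v

open Pool.Agent.helper9.Incl

namespace Pool.Agent.helper45.Inc

/-- the products of the members of `V` form rectangular groups -/
def RectSq (V : SgClass.{u}) : Prop :=
  ∀ (S : Type u) [Semigroup S], V S → (∀ x y : S, ∃ n, pw (x * y) (n + 1) = x * y) ∧
    ∀ e f : S, e * e = e → f * f = f → e * f * e = e

theorem rectSq_of_countable {V : SgClass.{u}} (hV : IsInclVariety V) (hP : ProdClosed V)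
    (hc : (InclSub V).Countable) : RectSq V := fun S _ hS =>
  ⟨fun x y => exists_pw_eq hV hc hP S hS x y, fun e f he hf => rect hV hc hP S hS e f he hf⟩

theorem countable_of_rectSq {V : SgClass.{u}} (h : RectSq V) {m : ℕ} (hm : 0 < m)
    (hE : ∀ (S : Type u) [Semigroup S], V S → ∀ a : S, (∃ k, pw a (k + 1) = a) → pw a m = a)
    (hA : ∀ (S : Type u) [Semigroup S], V S → ∀ e x y : S, e * e = e → e * x = x → x * e = x →
      e * y = y → y * e = y → (∃ k, pw x k = e) → (∃ k, pw y k = e) → x * y = y * x) :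
    (InclSub V).Countable := by
  apply countable_of_rg hm V
  intro S _ hS
  obtain ⟨h1, h2⟩ := h S hS
  refine ⟨⟨fun x y => hE S hS _ (h1 x y), h2⟩, ?_⟩
  intro e x y he
  have hex : ∀ x : S, e * (e * x * e) = e * x * e := fun x => by
    rw [← mul_assoc, ← mul_assoc, he]
  have hex' : ∀ x : S, e * x * e * e = e * x * e := fun x => by rw [mul_assoc, he]
  have hk : ∀ x : S, ∃ k, pw (e * x * e) k = e := by
    intro x
    obtain ⟨n, hn⟩ := h1 (e * x) e
    have h3 : pw (e * x * e) n * (e * x * e) = e * x * e := hn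
    have h4 := left_pw h3 n
    have h5 := h2 e (pw (e * x * e) n) he h4
    rw [left_pw (hex x) n, pw_right (hex' x) n] at h5
    exact ⟨n, h5⟩
  exact hA S hS e _ _ he (hex x) (hex' x) (hex y) (hex' y) (hk x) (hk y)

theorem id5_of_rectSq {V : SgClass.{u}} (h : RectSq V)
    (hA : ∀ (S : Type u) [Semigroup S], V S → ∀ a : S, ∃ n : ℕ, pw a (n + 1) = pw a n)
    (S : Type u) [Semigroup S] (hS : V S) : Id5 S := by
  obtain ⟨h1, h2⟩ := h S hS
  have hid : ∀ x y : S, x * y * (x * y) = x * y := by
    intro x y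
    obtain ⟨m, hm⟩ := h1 x y
    obtain ⟨n, hn⟩ := hA S hS (x * y)
    generalize x * y = a at *
    have h3 : pw a 0 = pw a (m + 1) := hm.symm
    have h4 := pw_stab (Nat.succ_pos m) h3 0 n le_rfl
    have h5 := pw_stab (Nat.lt_succ_self n) hn.symm n
    have h6 : ∀ j, n ≤ j → pw a j = pw a n := by
      intro j hj
      have := h5 (j - n) le_rfl
      rw [show n + 1 - n = 1 by omega, Nat.mul_one, show n + (j - n) = j by omega] at this
      exact this
    have h7 : n ≤ 0 + n * (m + 1 - 0) := by
      rw [Nat.zero_add, Nat.sub_zero]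
      exact Nat.le_mul_of_pos_right n (Nat.succ_pos m)
    rw [h6 _ h7] at h4
    have h8 : a = pw a n := h4.symm
    calc a * a = pw a n * a := by rw [← h8]
      _ = pw a (n + 1) := rfl
      _ = a := by rw [hn, ← h8]
  intro x y z
  have h3 := hid x y
  have h4 := hid (x * y) z
  have h5 := h2 (x * y) (x * y * z) h3 h4
  calc x * y * z * (x * y) = x * y * (x * y) * z * (x * y) := by rw [h3]
    _ = x * y * (x * y * z) * (x * y) := by simp only [mul_assoc]
    _ = x * y := h5

end Pool.Agent.helper45.Inc
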