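import Mathlib
import Pool.Agent.helper45.Inc.Ext
import Pool.Agent.helper45.Inc.Main

/-!
# Product-closed inclusive varieties with abelian subgroups
-/

universe u v

open Pool.Agent.helper9.Incl MulOpposite

namespace Pool.Agent.helper45.Inc

/-- the subgroups are abelian -/
def AbSub (V : SgClass.{u}) : Prop :=
  ∀ (S : Type u) [Semigroup S], V S → ∀ e x y : S, e * e = e → e * x = x → x * e = x →
      e * y = y → y * e = y → (∃ k, pw x k = e) → (∃ k, pw y k = e) → x * y = y * x

/-- the primes which are orders of elements of subgroups -/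
def Primes (V : SgClass.{u}) : Set ℕ :=
  {p : ℕ | p.Prime ∧ ∃ (S : Type u) (_ : Semigroup S), V S ∧ ∃ a : S, pw a p = a ∧ a * a ≠ a}

theorem comm_of_abSub {V : SgClass.{u}} (hA : AbSub V) {S : Type u} [Semigroup S] (hS : V S)
    (R : RU S) : ∀ e x y : S, e * e = e → e * x * e * (e * y * e) = e * y * e * (e * x * e) := by
  intro e x y he
  have hex : ∀ x : S, e * (e * x * e) = e * x * e := fun x => by
    rw [← mul_assoc, ← mul_assoc, he]
  have hex' : ∀ x : S, e * x * e * e = e * x * e := fun x => by rw [mul_assoc, he]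
  have hk : ∀ x : S, ∃ k, pw (e * x * e) k = e := by
    intro x
    obtain ⟨n, hn⟩ := R.exp (e * x) e
    have h3 : pw (e * x * e) n * (e * x * e) = e * x * e := hn
    have h4 := left_pw h3 n
    have h5 := R.rect e (pw (e * x * e) n) he h4
    rw [left_pw (hex x) n, pw_right (hex' x) n] at h5
    exact ⟨n, h5⟩
  exact hA S hS e _ _ he (hex x) (hex' x) (hex y) (hex' y) (hk x) (hk y)

/-- the local group -/
@[instance_reducible]
noncomputable def locD {S : Type u} [Semigroup S] (R : RU S)
    (hc : ∀ e x y : S, e * e = e → e * x * e * (e * y * e) = e * y * e * (e * x * e)) {f : S}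
    (hf : f * f = f) : CommGroup (Loc f) :=
  { locGroup R.hyp hf with
    mul_comm := fun x y => Subtype.ext (by
      have h1 : f * x.1 * f = x.1 := by rw [x.2.1, x.2.2]
      have h2 : f * y.1 * f = y.1 := by rw [y.2.1, y.2.2]
      have h3 := hc f x.1 y.1 hf
      rw [h1, h2] at h3
      exact h3) }

theorem pw_locD {S : Type u} [Semigroup S] (R : RU S)
    (hc : ∀ e x y : S, e * e = e → e * x * e * (e * y * e) = e * y * e * (e * x * e)) {f : S}
    (hf : f * f = f) (x : Loc f) (n : ℕ) :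
    let _ := locD R hc hf
    (pw x n).1 = pw x.1 n := by
  intro iC
  induction n with
  | zero => rfl
  | succ n ih =>
    change (pw x n).1 * x.1 = pw x.1 n * x.1
    rw [ih]

theorem orderOf_cg (N : ℕ) : orderOf (cg 1 : CG.{u} N) = N := by
  have h1 : ∀ k : ℕ, (cg 1 : CG.{u} N) ^ k = cg (k : ZMod N) := by
    intro k
    induction k with
    | zero => rw [pow_zero, Nat.cast_zero]; rfl
    | succ k ih =>
      rw [pow_succ, ih]
      apply gv_inj
      rw [gv_mul, Nat.cast_add, Nat.cast_one]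
      rfl
  have h2 : ∀ k : ℕ, (cg 1 : CG.{u} N) ^ k = 1 ↔ N ∣ k := by
    intro k
    rw [h1, ← ZMod.natCast_eq_zero_iff]
    constructor
    · intro h
      exact congrArg gv h
    · intro h
      rw [h]
      rfl
  apply Nat.dvd_antisymm
  · exact orderOf_dvd_of_pow_eq_one ((h2 N).mpr dvd_rfl)
  · exact (h2 _).mp (pow_orderOf_eq_one _)

/-- a torsion element whose order does not divide `∏ q ^ n` gives an element of order
`q ^ (n + 1)` -/
theorem exists_order {G : Type u} [CommGroup G] {π : Finset ℕ} {a : G} (n : ℕ)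
    (hpos : 0 < orderOf a) (hq : ∀ q : ℕ, q.Prime → q ∣ orderOf a → q ∈ π)
    (hne : a ^ (∏ q ∈ π, q ^ n) ≠ 1) (hπ : ∀ q ∈ π, q.Prime) :
    ∃ q ∈ π, ∃ b : G, orderOf b = q ^ (n + 1) := by
  by_contra hcon
  push Not at hcon
  apply hne
  apply orderOf_dvd_iff_pow_eq_one.mp
  have h1 : ∀ q ∈ π, (orderOf a).factorization q ≤ n := by
    intro q hqπ
    by_contra hlt
    push Not at hlt
    have hqp := hπ q hqπ
    have hdvd : q ^ (n + 1) ∣ orderOf a :=
      (hqp.pow_dvd_iff_le_factorization hpos.ne').mpr hlt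
    apply hcon q hqπ (a ^ (orderOf a / q ^ (n + 1)))
    have h2 : orderOf a / q ^ (n + 1) ∣ orderOf a := Nat.div_dvd_of_dvd hdvd
    have h3 : orderOf a / q ^ (n + 1) ≠ 0 := by
      intro h
      rw [h] at h2
      exact hpos.ne' (Nat.eq_zero_of_zero_dvd h2)
    rw [orderOf_pow_of_dvd h3 h2, Nat.div_div_self hdvd hpos.ne']
  conv_lhs => rw [← Nat.prod_factorization_pow_eq_self hpos.ne']
  rw [Finsupp.prod_of_support_subset _ (s := π)]
  · exact Finset.prod_dvd_prod_of_dvd _ _ fun q hqπ => pow_dvd_pow q (h1 q hqπ)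
  · intro q hq'
    rw [Nat.support_factorization, Nat.mem_primeFactors] at hq'
    exact hq q hq'.1 hq'.2.1
  · intro q _
    exact pow_zero q

theorem exists_cg {V : SgClass.{u}} (hV : IsInclVariety V)
    (hR : ∀ (S : Type u) [Semigroup S], V S → RU S) (hA : AbSub V) (hp : (Primes V).Finite)
    (hun : ¬ ∃ m : ℕ, 0 < m ∧ ∀ (S : Type u) [Semigroup S], V S → ∀ a : S,
      (∃ k, pw a (k + 1) = a) → pw a m = a) :
    ∃ p : ℕ, p.Prime ∧ ∀ k, V (CG.{u} (p ^ k)) := by
  classical
  set π := hp.toFinset with hπdef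
  have hπ : ∀ q ∈ π, q.Prime := fun q hq => ((Set.Finite.mem_toFinset hp).mp hq).1
  have step : ∀ n : ℕ, ∃ q : π, V (CG.{u} ((q : ℕ) ^ (n + 1))) := by
    intro n
    push Not at hun
    have hm : 0 < ∏ q ∈ π, q ^ n := Finset.prod_pos fun q hq => pow_pos (hπ q hq).pos n
    obtain ⟨S, _, hS, a, ⟨k, hk⟩, hne⟩ := hun _ hm
    have R := hR S hS
    have hc := comm_of_abSub hA hS R
    set e := pw a k with he
    have hea : e * a = a := hk
    have hee : e * e = e := left_pw hea k
    have hae : a * e = a := by rw [he, ← pw_comm]; exact hk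
    let iC := locD R hc hee
    let a' : Loc e := ⟨a, hea, hae⟩
    have hVG : V (Loc e) := mem_of_inj hV hS (T := Loc e) ⟨Subtype.val, fun _ _ => rfl⟩
      Subtype.val_injective
    have hpw : ∀ (x : Loc e) (n : ℕ), (pw x n).1 = pw x.1 n := pw_locD R hc hee
    have h1 : a' ^ (k + 1) = 1 := by
      have h2 : pw a' (k + 1) = a' := Subtype.ext (by rw [hpw]; exact hk)
      rw [pw_eq_pow, pow_succ, mul_eq_right] at h2
      exact h2
    have hpos : 0 < orderOf a' := orderOf_pos_iff.mpr (isOfFinOrder_iff_pow_eq_one.mpr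
      ⟨k + 1, Nat.succ_pos k, h1⟩)
    have hq : ∀ q : ℕ, q.Prime → q ∣ orderOf a' → q ∈ π := by
      intro q hqp hdvd
      rw [hπdef, Set.Finite.mem_toFinset]
      obtain ⟨c, hc'⟩ := hdvd
      have hcpos : 0 < c := by
        rcases Nat.eq_zero_or_pos c with h0 | h0
        · rw [h0, mul_zero] at hc'; omega
        · exact h0
      have h3 : a' ^ c ≠ 1 := by
        apply pow_ne_one_of_lt_orderOf hcpos.ne'
        rw [hc']
        exact lt_mul_of_one_lt_left hcpos hqp.one_lt
      have h4 : (a' ^ c) ^ q = 1 := by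
        rw [← pow_mul, mul_comm, ← hc', pow_orderOf_eq_one]
      refine ⟨hqp, Loc e, inferInstance, hVG, a' ^ c, ?_, ?_⟩
      · rw [pw_eq_pow, pow_succ, h4, one_mul]
      · intro h5
        exact h3 (mul_eq_right.mp h5)
    have hne' : a' ^ (∏ q ∈ π, q ^ n) ≠ 1 := by
      intro h2
      apply hne
      have h3 : pw a' (∏ q ∈ π, q ^ n) = a' := by
        rw [pw_eq_pow, pow_succ, h2, one_mul]
      have h4 := congrArg Subtype.val h3
      rw [hpw] at h4
      exact h4
    obtain ⟨q, hqπ, b, hb⟩ := exists_order n hpos hq hne' hπ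
    exact ⟨⟨q, hqπ⟩, cg_mem hV hVG b hb⟩
  choose q hq using step
  obtain ⟨y, hy⟩ := Finite.exists_infinite_fiber q
  have hy' : {n : ℕ | q n = y}.Infinite := Set.infinite_coe_iff.mp hy
  refine ⟨y, hπ y y.2, ?_⟩
  intro k
  obtain ⟨n, hn, hlt⟩ := hy'.exists_gt k
  have h1 := hq n
  rw [show q n = y from hn] at h1
  have hyp := hπ y y.2
  have h2 : orderOf ((cg 1 : CG.{u} ((y : ℕ) ^ (n + 1))) ^ ((y : ℕ) ^ (n + 1 - k))) =
      (y : ℕ) ^ k := by
    have h3 : (y : ℕ) ^ (n + 1 - k) ∣ orderOf (cg 1 : CG.{u} ((y : ℕ) ^ (n + 1))) := by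
      rw [orderOf_cg]
      exact pow_dvd_pow _ (Nat.sub_le _ _)
    rw [orderOf_pow_of_dvd (pow_pos hyp.pos _).ne' h3, orderOf_cg]
    apply Nat.div_eq_of_eq_mul_left (pow_pos hyp.pos _)
    rw [← pow_add, Nat.add_sub_cancel' (by omega)]
  exact cg_mem hV h1 _ h2

/-- **Countability for product-closed inclusive varieties with abelian subgroups.** -/
theorem product_countable_iff {V : SgClass.{u}} (hV : IsInclVariety V) (hP : ProdClosed V)
    (hA : AbSub V) : (InclSub V).Countable ↔ RectSq V ∧ (Primes V).Finite ∧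
      ((∃ m : ℕ, 0 < m ∧ ∀ (S : Type u) [Semigroup S], V S → ∀ a : S,
        (∃ k, pw a (k + 1) = a) → pw a m = a) ∨
      (∀ (S : Type u) [Semigroup S], V S → LI S) ∨
      (∀ (S : Type u) [Semigroup S], V S → RI S)) := by
  constructor
  · intro hc
    have hR := rectSq_of_countable hV hP hc
    have hp : (Primes V).Finite := (necessary V hV hc).2.1
    refine ⟨hR, hp, ?_⟩
    have hRU : ∀ (S : Type u) [Semigroup S], V S → RU S := fun S _ hS =>
      ⟨(hR S hS).1, (hR S hS).2⟩
    by_contra hcon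
    rw [not_or, not_or] at hcon
    obtain ⟨h1, h2, h3⟩ := hcon
    push Not at h2 h3
    obtain ⟨S₁, _, hS₁, hL⟩ := h2
    obtain ⟨S₂, _, hS₂, hRi⟩ := h3
    obtain ⟨p, hpp, hcg⟩ := exists_cg hV hRU hA hp h1
    have m1 : V S4.{u} := s4_mem (hRU S₁ hS₁) hV hS₁ hL
    have m2 : V S4.{u}ᵐᵒᵖ := by
      have h4 : opV V S₂ᵐᵒᵖ := by
        have h5 : opV (opV V) S₂ := by rw [opV_opV hV]; exact hS₂
        exact h5
      exact s4_mem (V := opV V) (hRU S₂ hS₂).op' (opV_incl hV) h4 (fun h => hRi (RI.of_op h))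
    refine not_countable_of_continuum (continuum_of_antichain hV
      (fun k => TT.{u} p (k + 1)) (fun k => ?_) fun n => ?_) hc
    · exact mem_of_inj hV (hP _ _ m1 (hP _ _ m2 (hcg (k + 1)))) (MulMemClass.subtype (TT.{u} p (k + 1)))
        Subtype.val_injective
    · refine ⟨x0 * x2 * x1, phi p (n + 1), ?_⟩
      intro k hk ψ
      exact kernel_tt hpp (by omega) (by omega) (by omega) ψ
  · rintro ⟨hR, hp, h⟩
    have hRU : ∀ (S : Type u) [Semigroup S], V S → RU S := fun S _ hS =>
      ⟨(hR S hS).1, (hR S hS).2⟩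
    have hprm : ∀ (S : Type u) [Semigroup S], V S → ∀ q : ℕ, q.Prime → ∀ a : S, pw a q = a →
        a * a ≠ a → q ∈ hp.toFinset := by
      intro S _ hS q hq a ha haa
      rw [Set.Finite.mem_toFinset]
      exact ⟨hq, S, inferInstance, hS, a, ha, haa⟩
    have hπ : ∀ q ∈ hp.toFinset, q.Prime := fun q hq => ((Set.Finite.mem_toFinset hp).mp hq).1
    rcases h with ⟨m, hm, hE⟩ | h | h
    · exact countable_of_rectSq hR hm hE hA
    · apply countable_of_rl hπ V
      intro S _ hS
      exact ⟨hRU S hS, comm_of_abSub hA hS (hRU S hS), hprm S hS, h S hS⟩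
    · apply countable_of_op
      apply countable_of_rl hπ (opV V)
      intro S _ hS
      have hS' : V Sᵐᵒᵖ := hS
      let i : S →ₙ* Sᵐᵒᵖᵐᵒᵖ := ⟨fun s => op (op s), fun _ _ => rfl⟩
      have hi : Function.Injective i := fun a b hab => op_injective (op_injective hab)
      have e2 : RU S := (hRU _ hS').op'.of_inj i hi
      have e3 := comm_of_abSub hA hS' (hRU _ hS')
      refine ⟨e2, ?_, ?_, (h _ hS').op'.of_inj i hi⟩
      · intro e x y he
        have h5 := congrArg unop (e3 (op e) (op x) (op y) (congrArg op he))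
        change e * (y * e) * (e * (x * e)) = e * (x * e) * (e * (y * e)) at h5
        simp only [← mul_assoc] at h5 ⊢
        exact h5.symm
      · intro q hq a ha haa
        apply hprm _ hS' q hq (op a)
        · rw [pw_op, ha]
        · intro h6
          exact haa (op_injective h6)

end Pool.Agent.helper45.Inc
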